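import Pool.Agent.H60.ALT.Rec
import Pool.Agent.H73.D2.Tml
import Pool.Agent.H99.D2.Chg

/-!
# The slope hypothesis from a blind family

`nwc_B`: on each event with the windows `WG` a label of a blind family is a closed polynomial with
the slopes of the charts: the data `NwC` of the target `N - P (p, u)`.
-/

set_option autoImplicit false

namespace Pool.ALT

open Finset Real MvPolynomial
open Pool.Agent.H49.Ent Pool.Agent.H32.Dense Pool.STK Pool.KA Pool.KSAT Pool.K2S Pool.PB Pool.S6C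
  Pool.GEN Pool.RCD Pool.LA91 Pool.OWN68
open Pool.CHT Pool.CHX Pool.ISO Pool.D2R Pool.D2G30 Pool.V1E Pool.CR99
open Pool.UNJ (ceI)
open Pool.GRW (xr xr_near)
open Pool.BFL (Pb)
open Pool.GRD (LbP)
open Pool.PB.Trl (rt rt_mem t_rt)

variable {m : ℕ}

/-- The closed charts are labels of the position. -/
theorem lbp_ch {J : ℕ} {F : Fam m J} {c : ℕ → Fin m} {n D a w e : ℕ} {g : ℕ → ℕ}
    {B : F.Ω → Prop} {G : PtT F → ℕ → MvPolynomial (Option (Fin m)) ℝ}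
    {H : LnT F → ℕ → MvPolynomial (Option (Fin m)) ℝ}
    (ch : ChOK F c n (fun _ => D) a w e g B G H) (cl : Clsd F n w B G H) {i : ℕ} (hi : i < n) :
    ∃ (V : Type) (z : PtT F → V) (z' : LnT F → V) (G' : V → MvPolynomial (Option (Fin m)) ℝ),
      LbP F ((range i).image c) (c i) D J w (g i) B z z' G' ∧ (∀ s, G' (z' s) = H s i) := by
  refine ⟨{P : MvPolynomial (Option (Fin m)) ℝ // P.totalDegree ≤ D ∧ DepC c i P},
    fun y => ⟨G y i, ch.degG y i, ch.depG y i⟩, fun s => ⟨H s i, ch.degH s i, ch.depH s i⟩,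
    fun v => v.1, ⟨fun v => v.2.1, fun v b b' h0 hb => v.2.2 b b' h0 fun l hl =>
      hb _ (mem_image_of_mem _ (mem_range.2 hl)), fun ω hω => ?_, fun ω hω => ?_⟩, fun _ => rfl⟩
  · exact Subtype.ext (cl ω hω i hi)
  · show |F.x ω (c i) - eval (bt F ω) (H (slam F w ω) i)| ≤ _
    rw [← cl ω hω i hi]
    exact ch.pos ω hω i hi

/-- Three bad events. -/
theorem pe_three {Ω : Type} [Fintype Ω] {p : Ω → ℝ} {A : Ω → Prop} (h0 : ∀ ω, 0 ≤ p ω)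
    (hA : 0 < Pe p A) (Q₁ Q₂ Q₃ : Ω → Prop) {η : ℝ}
    (h1 : Pb (Pool.Agent.H49.Ent.cond p A True) Q₁ ≤ η)
    (h2 : Pb (Pool.Agent.H49.Ent.cond p A True) Q₂ ≤ η)
    (h3 : Pb (Pool.Agent.H49.Ent.cond p A True) Q₃ ≤ η) :
    (1 - 3 * η) * Pe p A ≤ Pe p (fun ω => A ω ∧ ¬ (Q₁ ω ∨ Q₂ ω ∨ Q₃ ω)) := by
  refine pe_part h0 hA _ ?_
  have h4 : ∀ ω, 0 ≤ Pool.Agent.H49.Ent.cond p A True ω := fun ω => by
    unfold Pool.Agent.H49.Ent.cond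
    have h5 : 0 ≤ law p A True := hA.le
    split_ifs
    · exact div_nonneg (h0 ω) h5
    · exact le_rfl
  have h5 := Pool.LIV.Pb_or25 h4 Q₁ (fun ω => Q₂ ω ∨ Q₃ ω)
  have h6 := Pool.LIV.Pb_or25 h4 Q₂ Q₃
  linarith

/-- The floor of a real number. -/
theorem flb {x : ℝ} (hx : 0 ≤ x) : ((⌊x⌋₊ : ℕ) : ℝ) ≤ x ∧ x - 1 ≤ ((⌊x⌋₊ : ℕ) : ℝ) :=
  ⟨Nat.floor_le hx, by
    have := Nat.lt_floor_add_one x
    linarith⟩

/-- A quotient of powers from the exponents. -/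
theorem rp_le {y : ℝ} {A B : ℕ} (h : y + B ≤ A) : (2 : ℝ) ^ y ≤ 2 ^ A / 2 ^ B := by
  rw [le_div_iff₀ (by positivity), ← Real.rpow_natCast, ← Real.rpow_natCast,
    ← Real.rpow_add (by norm_num)]
  exact Real.rpow_le_rpow_of_exponent_le (by norm_num) h

/-- **The data `NwC` from a blind family.** -/
theorem nwc_B {S : PCl m} (hpos : ∀ (τ : ℝ) (J : ℕ) (F : Fam m J)
      (A : F.Ω → Prop), S.St τ J F A → 0 < Pe F.p A) {c : ℕ → Fin m} {r D Dw Dr N N₂ : ℕ}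
    {R : ℕ → Prop} {C a Eb ε₀ η₀ χ mb : ℝ} {Pt : ℝ → ℝ → ℝ} {o : ℕ → ℝ} {lv be : ℕ → ℕ → ℝ}
    {κ : ℝ} (hc : Set.InjOn c (Set.Iio (r + 2))) (hN1 : 1 ≤ N) (hN : 3 ≤ N₂) {Kd : ℕ} {w : ℝ}
    (hKw : Kd ≤ Dw) (hDr : D ≤ Dr) (hKr : Kd ≤ Dr) (hwo : w ≤ o 0) (h01 : o 0 ≤ o 1)
    (h03 : o 0 ≤ o 3) (ho1 : o 1 ≤ 1) (ho3 : o 3 ≤ 1) (hη₀ : 0 < η₀) (hκ : κ ≤ 1 / 4)
    (hmb : o 3 - o 0 ≤ mb) (ho0 : 0 ≤ o 0) (hoa : o 1 ≤ a) (hχ : 0 ≤ χ) (hε₀ : 0 ≤ ε₀)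
    (hl0 : 0 ≤ lv 0 (r + 1)) (hl0r : 0 ≤ lv 0 r)
    {Ψ : ∀ (J : ℕ) (F : Fam m J), (F.Ω → Prop) → ∀ V : Type, (PtT F → V) →
      (LnT F → V) → (V → MvPolynomial (Option (Fin m)) ℝ) → Prop}
    (hΨd : ∀ (J : ℕ) (F : Fam m J) (A : F.Ω → Prop) (V : Type) (z : PtT F → V) (z' : LnT F → V)
      (G : V → MvPolynomial (Option (Fin m)) ℝ), Ψ J F A V z z' G →
      (∀ y, (G y).totalDegree ≤ Kd) ∧ (∀ y, DpI ((range (r + 1)).image c) (G y)) ∧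
      ∀ ω, A ω → z (ptr F J ω) = z' (slam F ⌊w * J⌋₊ ω))
    {p q x : ℕ → ℝ}
    (hB0 : BlB S c r (c (r + 1)) w (o 0) D D (p 0) (q 0) (x 0) Ψ)
    (hB1 : BlB S c r (c (r + 1)) w (o 1) D D (p 1) (q 1) (x 1) Ψ)
    (hB3 : BlB S c r (c (r + 1)) w (o 3) D D (p 3) (q 3) (x 3) Ψ)
    (hp : ∀ k, p k < lv k (r + 1) - η₀) (hq : ∀ k, q k < lv k r - η₀)
    (hx0 : x 0 + η₀ < lv 0 r - lv 0 (r + 1) + χ)
    (hx3 : x 3 + 2 * η₀ < lv 3 r - lv 0 (r + 1) - mb + χ)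
    (hx1 : x 1 < lv 0 r - lv 0 (r + 1) - (mb - (o 3 - o 0)) + χ)
    {qr gm : ℝ} (hqr0 : 0 ≤ qr) (hqr1 : qr + C * η₀ ≤ Pt a (o 0) - 2 * (C * η₀))
    (hqr2 : qr + C * η₀ < lv 1 (r + 1) + (a - o 1) - η₀)
    (hgR : R r → lv 1 r + (a - o 1) ≤ gm) (hgN : ¬ R r → be 1 r ≤ gm)
    (hrow : C * η₀ + gm - qr < lv 0 r - lv 0 (r + 1) - (mb - (o 3 - o 0)) + χ) :
    Bas S (fun J F B => ∀ (V : Type) (z : PtT F → V) (z' : LnT F → V)
      (Gp : V → MvPolynomial (Option (Fin m)) ℝ), Ψ J F B V z z' Gp →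
      ∀ (b : ℕ → ℕ → ℝ) (zz : ℕ → ℕ → ℕ) (gc gT g₀ : ℕ → ℕ → ℕ)
      (G : ℕ → PtT F → ℕ → MvPolynomial (Option (Fin m)) ℝ)
      (H : ℕ → LnT F → ℕ → MvPolynomial (Option (Fin m)) ℝ)
      (T : ℕ → PtT F → ℕ → MvPolynomial (Option (Fin m)) ℝ)
      (TH : ℕ → LnT F → ℕ → MvPolynomial (Option (Fin m)) ℝ)
      (Gt : ℕ → PtT F → MvPolynomial (Option (Fin m)) ℝ)
      (Ht : ℕ → LnT F → MvPolynomial (Option (Fin m)) ℝ),
      WG c (r + 1) D Dr N N₂ R C a Eb ε₀ η₀ Pt o lv be F b κ zz B gc gT g₀ G H T TH Gt Ht →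
      ∃ B₂ : F.Ω → Prop, Sub B₂ B ∧ Pe F.p B ≤ 8 * Pe F.p B₂ ∧
        NwC F c r Dw ⌊mb * J⌋₊ (⌊o 3 * J⌋₊ - ⌊o 0 * J⌋₊) ⌊χ * J⌋₊ ⌊lv 0 r * J⌋₊
          ⌊lv 0 (r + 1) * J⌋₊ (fun k => ⌊o (fr4 k) * J⌋₊) (fun k => g₀ (fr4 k)) B₂
          (fun k => G (fr4 k)) (Ht 0) (fun L => Gp (wz z' ⌊w * J⌋₊ ⌊o 0 * J⌋₊ L))
          (fun y => Gp (z y))) := by
  classical
  have big : ∀ {x y : ℝ}, 0 < x → ∃ J₀ : ℕ, ∀ J : ℕ, J₀ ≤ J → y ≤ x * J := by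
    intro x y hx
    refine ⟨⌈y / x⌉₊, fun J hJ => ?_⟩
    have h1 : y / x ≤ J := (Nat.le_ceil _).trans (by exact_mod_cast hJ)
    rw [div_le_iff₀ hx] at h1
    linarith
  have hC1 : ∃ χ' : ℝ, 0 < χ' ∧ (∀ k, k = 0 ∨ k = 1 ∨ k = 3 → p k + χ' ≤ lv k (r + 1) - η₀ ∧
      q k + χ' ≤ lv k r - η₀) := by
    refine ⟨min (min (min (lv 0 (r + 1) - η₀ - p 0) (lv 1 (r + 1) - η₀ - p 1))
      (lv 3 (r + 1) - η₀ - p 3)) (min (min (lv 0 r - η₀ - q 0) (lv 1 r - η₀ - q 1))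
      (lv 3 r - η₀ - q 3)), ?_, ?_⟩
    · refine lt_min (lt_min (lt_min ?_ ?_) ?_) (lt_min (lt_min ?_ ?_) ?_)
      · linarith [hp 0]
      · linarith [hp 1]
      · linarith [hp 3]
      · linarith [hq 0]
      · linarith [hq 1]
      · linarith [hq 3]
    · obtain ⟨a1, ha1⟩ : ∃ t, t = lv 0 (r + 1) - η₀ - p 0 := ⟨_, rfl⟩
      obtain ⟨a2, ha2⟩ : ∃ t, t = lv 1 (r + 1) - η₀ - p 1 := ⟨_, rfl⟩
      obtain ⟨a3, ha3⟩ : ∃ t, t = lv 3 (r + 1) - η₀ - p 3 := ⟨_, rfl⟩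
      obtain ⟨b1, hb1⟩ : ∃ t, t = lv 0 r - η₀ - q 0 := ⟨_, rfl⟩
      obtain ⟨b2, hb2⟩ : ∃ t, t = lv 1 r - η₀ - q 1 := ⟨_, rfl⟩
      obtain ⟨b3, hb3⟩ : ∃ t, t = lv 3 r - η₀ - q 3 := ⟨_, rfl⟩
      rw [← ha1, ← ha2, ← ha3, ← hb1, ← hb2, ← hb3]
      have i1 : min (min (min a1 a2) a3) (min (min b1 b2) b3) ≤ a1 :=
        (min_le_left _ _).trans ((min_le_left _ _).trans (min_le_left _ _))
      have i2 : min (min (min a1 a2) a3) (min (min b1 b2) b3) ≤ a2 :=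
        (min_le_left _ _).trans ((min_le_left _ _).trans (min_le_right _ _))
      have i3 : min (min (min a1 a2) a3) (min (min b1 b2) b3) ≤ a3 :=
        (min_le_left _ _).trans (min_le_right _ _)
      have j1 : min (min (min a1 a2) a3) (min (min b1 b2) b3) ≤ b1 :=
        (min_le_right _ _).trans ((min_le_left _ _).trans (min_le_left _ _))
      have j2 : min (min (min a1 a2) a3) (min (min b1 b2) b3) ≤ b2 :=
        (min_le_right _ _).trans ((min_le_left _ _).trans (min_le_right _ _))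
      have j3 : min (min (min a1 a2) a3) (min (min b1 b2) b3) ≤ b3 :=
        (min_le_right _ _).trans (min_le_right _ _)
      rintro k (rfl | rfl | rfl)
      · constructor <;> linarith
      · constructor <;> linarith
      · constructor <;> linarith
  obtain ⟨χ', hχ', hpq⟩ := hC1
  obtain ⟨J₁, hJ₁⟩ := big (x := lv 0 r - lv 0 (r + 1) + χ - (x 0 + η₀)) (y := 2) (by linarith)
  obtain ⟨J₂, hJ₂⟩ := big (x := lv 3 r - lv 0 (r + 1) - mb + χ - (x 3 + 2 * η₀)) (y := 1)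
    (by linarith)
  obtain ⟨J₃, hJ₃⟩ := big (x := lv 0 r - lv 0 (r + 1) - (mb - (o 3 - o 0)) + χ - x 1) (y := 4)
    (by linarith)
  obtain ⟨J₄, hJ₄⟩ := big (x := lv 0 r - lv 0 (r + 1) - (mb - (o 3 - o 0)) + χ -
    (C * η₀ + gm - qr)) (y := 6) (by linarith)
  obtain ⟨J₅, hJ₅⟩ := big (x := lv 1 (r + 1) + (a - o 1) - η₀ - (qr + C * η₀)) (y := 1)
    (by linarith)
  have hcr : Set.InjOn c (Set.Iio (r + 1)) := hc.mono fun y hy => by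
    rw [Set.mem_Iio] at hy ⊢
    omega
  refine Bas.mono (J₁ + J₂ + J₃ + J₄ + J₅) (((hB0 (1 / 8) χ' (by norm_num) hχ').and
    (hB1 (1 / 8) χ' (by norm_num) hχ')).and ((hB3 (1 / 8) χ' (by norm_num) hχ').and
    (pos_bas hpos))) ?_
  rintro J hJ F B ⟨⟨K0, K1⟩, K3, hB⟩ V z z' Gp hΨ b zz gc gT g₀ G H T TH Gt Ht W
  have j1 := hJ₁ J (by omega)
  have j2 := hJ₂ J (by omega)
  have j3 := hJ₃ J (by omega)
  have j4 := hJ₄ J (by omega)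
  have j5 := hJ₅ J (by omega)
  have hJ0 : (0 : ℝ) ≤ J := Nat.cast_nonneg J
  have mulJ : ∀ {x y : ℝ}, x ≤ y → x * J ≤ y * J := fun h => mul_le_mul_of_nonneg_right h hJ0
  obtain ⟨hGd, hGp, hGc⟩ := hΨd J F B V z z' Gp hΨ
  -- the charts
  have hev : ∀ k ≤ N₂, ChOK F c (r + 2) (fun _ => D) ⌊o k * J⌋₊ ⌊o k * J⌋₊
      ⌊(Eb + η₀ + η₀) * J⌋₊ (g₀ k) B (G k) (H k) ∧ Clsd F (r + 2) ⌊o k * J⌋₊ B (G k) (H k) ∧
      RelvF F c (r + 1) ⌊o k * J⌋₊ ⌊o k * J⌋₊ (g₀ k) Dr ⌊η₀ * J⌋₊ κ B (G k) ∧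
      ∀ l ≤ r + 1, (lv k l - η₀) * J ≤ g₀ k l := fun k hk =>
    ⟨(W.wb.ev k hk).ball, (W.wb.ev k hk).cls, (W.wb.ev k hk).relb,
      fun l hl => (W.wb.sds k hk l hl).1⟩
  have hsl : ∀ k, k = 0 ∨ k = 1 ∨ k = 3 → ∀ (y : ℝ) (_ : y = x k),
      (∀ (P₁ : ℕ) (V₁ : Type) (z₁ : PtT F → V₁) (z₁' : LnT F → V₁)
      (G₁ : V₁ → MvPolynomial (Option (Fin m)) ℝ),
      LbP F ((range (r + 1)).image c) (c (r + 1)) D J ⌊o k * J⌋₊ P₁ B z₁ z₁' G₁ →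
      (p k + χ') * J ≤ P₁ → ∀ (P₂ : ℕ) (V₂ : Type) (z₂ : PtT F → V₂) (z₂' : LnT F → V₂)
      (H : V₂ → MvPolynomial (Option (Fin m)) ℝ),
      LbP F ((range r).image c) (c r) D J ⌊o k * J⌋₊ P₂ B z₂ z₂' H → (q k + χ') * J ≤ P₂ →
      Pb (Pool.Agent.H49.Ent.cond F.p B True) (fun ω => (2 : ℝ) ^ (x k * J) <
        |eval (bt F ω) (pderiv (some (c r)) (G₁ (z₁' (slam F ⌊o k * J⌋₊ ω)) -
          Gp (z' (slam F ⌊w * J⌋₊ ω))))|) ≤ 1 / 8) →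
      Pb (Pool.Agent.H49.Ent.cond F.p B True) (fun ω => (2 : ℝ) ^ (x k * J) <
        |eval (bt F ω) (pderiv (some (c r)) (H k (slam F ⌊o k * J⌋₊ ω) (r + 1) -
          Gp (z' (slam F ⌊w * J⌋₊ ω))))|) ≤ 1 / 8 := by
    intro k hk _ _ h1
    have hk2 : k ≤ N₂ := by rcases hk with h | h | h <;> omega
    obtain ⟨c1, c2, -, c4⟩ := hev k hk2
    obtain ⟨V₁, z₁, z₁', G₁, d1, d2⟩ := lbp_ch c1 c2 (i := r + 1) (by omega)
    obtain ⟨V₂, z₂, z₂', G₂, e1, e2⟩ := lbp_ch c1 c2 (i := r) (by omega)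
    have h2 := h1 (g₀ k (r + 1)) V₁ z₁ z₁' G₁ d1 ((mulJ (hpq k hk).1).trans (c4 _ le_rfl))
      (g₀ k r) V₂ z₂ z₂' G₂ e1 ((mulJ (hpq k hk).2).trans (c4 _ (by omega)))
    simp only [d2] at h2
    exact h2
  have s0 := hsl 0 (Or.inl rfl) _ rfl (K0 V z z' Gp hΨ)
  have s1 := hsl 1 (Or.inr (Or.inl rfl)) _ rfl (K1 V z z' Gp hΨ)
  have s3 := hsl 3 (Or.inr (Or.inr rfl)) _ rfl (K3 V z z' Gp hΨ)
  obtain ⟨bad, hbad⟩ : ∃ bad : ℕ → F.Ω → Prop, bad = fun k ω => (2 : ℝ) ^ (x k * J) <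
        |eval (bt F ω) (pderiv (some (c r)) (H k (slam F ⌊o k * J⌋₊ ω) (r + 1) -
          Gp (z' (slam F ⌊w * J⌋₊ ω))))| := ⟨_, rfl⟩
  have t := pe_three F.isLaw.nonneg hB (bad 0) (bad 1) (bad 3) (η := 1 / 8)
    (by rw [hbad]; exact s0) (by rw [hbad]; exact s1) (by rw [hbad]; exact s3)
  obtain ⟨B₁, hB₁⟩ : ∃ B₁ : F.Ω → Prop, B₁ = fun ω => B ω ∧ ¬ (bad 0 ω ∨ bad 1 ω ∨ bad 3 ω) :=
    ⟨_, rfl⟩
  rw [← hB₁] at t
  have hB₁B : Sub B₁ B := fun ω hω => by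
    rw [hB₁] at hω
    exact hω.1
  have hgood : ∀ ω, B₁ ω → ∀ k, k = 0 ∨ k = 1 ∨ k = 3 →
      |eval (bt F ω) (pderiv (some (c r)) (H k (slam F ⌊o k * J⌋₊ ω) (r + 1) -
          Gp (z' (slam F ⌊w * J⌋₊ ω))))| ≤ (2 : ℝ) ^ (x k * J) := by
    intro ω hω k hk
    rw [hB₁] at hω
    have h1 : ¬ bad k ω := by
      rcases hk with rfl | rfl | rfl
      · exact fun h => hω.2 (Or.inl h)
      · exact fun h => hω.2 (Or.inr (Or.inl h))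
      · exact fun h => hω.2 (Or.inr (Or.inr h))
    rw [hbad] at h1
    exact not_lt.1 h1
  -- the boxes
  have hbox : ∀ k, k = 0 ∨ k = 3 → ∀ B' : F.Ω → Prop, Sub B' B₁ → κ * Pe F.p B ≤ Pe F.p B' →
      ∃ B'' : F.Ω → Prop, Sub B'' B' ∧ Pe F.p B' / 2 ≤ Pe F.p B'' ∧ ∀ ω, B'' ω →
        ∀ bb, NBx c (G k (ptr F J ω)) (g₀ k) ⌊o k * J⌋₊ (F.t ω) (r + 1) bb →
        |eval bb (pderiv (some (c r)) (G k (ptr F J ω) (r + 1))) -
          eval bb (pderiv (some (c r)) (Gp (z (ptr F J ω))))| ≤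
          2 ^ ⌊η₀ * J⌋₊ * 2 ^ (x k * J) := by
    intro k hk B' hB' hκB
    have hk2 : k ≤ N₂ := by rcases hk with h | h <;> omega
    have hok : o k ≤ 1 := by rcases hk with rfl | rfl <;> linarith
    have hwk : w ≤ o k := by rcases hk with rfl | rfl <;> linarith
    obtain ⟨c1, c2, c3, -⟩ := hev k hk2
    obtain ⟨f1, f2⟩ := floorw hwk hok J
    have hdeg : ∀ P Q : MvPolynomial (Option (Fin m)) ℝ, P.totalDegree ≤ D →
        Q.totalDegree ≤ Kd → (pderiv (some (c r)) (P - Q)).totalDegree ≤ Dr := fun P Q h1 h2 =>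
      (pd_dg _ _).trans ((totalDegree_sub _ _).trans (max_le (h1.trans hDr) (h2.trans hKr)))
    have hdep : ∀ P Q : MvPolynomial (Option (Fin m)) ℝ, DepC c (r + 1) P →
        DpI ((range (r + 1)).image c) Q → DepC c (r + 1) (pderiv (some (c r)) (P - Q)) := by
      intro P Q h1 h2
      have h3 : DepC c (r + 1) (P - Q) := fun b b' h4 h5 => by
        rw [map_sub, map_sub, h1 b b' h4 h5, h2 b b' h4 fun i hi => by
          obtain ⟨l, hl, rfl⟩ := mem_image.1 hi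
          exact h5 l (mem_range.1 hl)]
      exact h3.pderiv _
    have heq : ∀ ω, B' ω → G k (ptr F J ω) (r + 1) - Gp (z (ptr F J ω)) =
        H k (slam F ⌊o k * J⌋₊ ω) (r + 1) - Gp (z' (slam F ⌊w * J⌋₊ ω)) := by
      intro ω hω
      rw [c2 ω (hB₁B ω (hB' ω hω)) (r + 1) (by omega), hGc ω (hB₁B ω (hB' ω hω))]
    obtain ⟨B'', d1, d2, d3⟩ := c3 B' (fun ω hω => hB₁B ω (hB' ω hω)) hκB
      (fun y => pderiv (some (c r)) (G k y (r + 1) - Gp (z y)))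
      (fun s => pderiv (some (c r)) (H k s (r + 1) - Gp (wz z' ⌊w * J⌋₊ ⌊o k * J⌋₊ s)))
      (2 ^ (x k * J)) (fun y => hdeg _ _ (c1.degG y _) (hGd _))
      (fun s => hdeg _ _ (c1.degH s _) (hGd _)) (fun y => hdep _ _ (c1.depG y _) (hGp _))
      (fun s => hdep _ _ (c1.depH s _) (hGp _)) (Real.rpow_pos_of_pos (by norm_num) _)
      (fun ω hω => by
        beta_reduce
        rw [heq ω hω]
        exact hgood ω (hB' ω hω) k (by tauto))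
      (fun ω hω bb _ => by
        beta_reduce
        rw [heq ω hω, wz_slam z' f1 f2, sub_self, abs_zero]
        exact (Real.rpow_pos_of_pos (by norm_num) _).le)
    refine ⟨B'', d1, d2, fun ω hω bb hb => ?_⟩
    have := d3 ω hω bb hb
    rw [map_sub, map_sub] at this
    exact this
  have t1 : Pe F.p B ≤ 8 / 5 * Pe F.p B₁ := by linarith
  obtain ⟨B₂, d1, d2, d3⟩ := hbox 0 (Or.inl rfl) B₁ (fun ω h => h) (by nlinarith)
  obtain ⟨B₃, e1, e2, e3⟩ := hbox 3 (Or.inr rfl) B₂ d1 (by nlinarith)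
  refine ⟨B₃, fun ω hω => hB₁B ω (d1 ω (e1 ω hω)), by linarith, ?_⟩
  have hf0 : fr4 0 = 2 := rfl
  have hf1 : fr4 1 = 0 := rfl
  have hf2 : fr4 2 = 3 := rfl
  obtain ⟨f1, f2⟩ := floorw hwo (h01.trans ho1) J
  have hGpC : ∀ v, DepC c (r + 1) (Gp v) := fun v b b' h4 h5 => hGp v b b' h4 fun i hi => by
    obtain ⟨l, hl, rfl⟩ := mem_image.1 hi
    exact h5 l (mem_range.1 hl)
  have kχ := flb (mul_nonneg hχ hJ0)
  have k0r := flb (mul_nonneg hl0r hJ0)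
  have k0 := flb (mul_nonneg hl0 hJ0)
  have kη := flb (mul_nonneg hη₀.le hJ0)
  have hmb0 : 0 ≤ mb := by linarith
  have kmb := flb (mul_nonneg hmb0 hJ0)
  refine ⟨fun L => (hGd _).trans hKw, fun y => (hGd _).trans hKw, fun L => hGpC _,
    fun y => hGpC _, fun ω hω => ?_, fun ω hω bb hb => ?_, fun ω hω bb hb => ?_,
    fun ω hω => ?_⟩
  · have hBω := hB₁B ω (d1 ω (e1 ω hω))
    show Gp (z (ptr F J ω)) = Gp (wz z' ⌊w * J⌋₊ ⌊o 0 * J⌋₊ (slam F ⌊o (fr4 1) * J⌋₊ ω))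
    rw [hf1, wz_slam z' f1 f2, hGc ω hBω]
  · refine (d3 ω (e1 ω hω) bb hb).trans ?_
    rw [← Real.rpow_natCast, ← Real.rpow_add (by norm_num)]
    refine rp_le ?_
    push_cast
    nlinarith [kχ.2, k0r.2, k0.1, kη.1]
  · refine (e3 ω hω bb hb).trans ?_
    rw [← Real.rpow_natCast, ← Real.rpow_add (by norm_num)]
    refine rp_le ?_
    have hg := (hev 3 hN).2.2.2 r (by omega)
    show _ ≤ ((g₀ 3 r + ⌊χ * J⌋₊ : ℕ) : ℝ)
    push_cast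
    nlinarith [kχ.2, k0.1, kη.1, kmb.1]
  · -- the row label
    have hBω := hB₁B ω (d1 ω (e1 ω hω))
    have ho0J : ⌊o 0 * J⌋₊ ≤ J := f2
    have ho1J : ⌊o 1 * J⌋₊ ≤ J := floor_le ho1 J
    obtain ⟨qn, hqn⟩ : ∃ qn : ℕ, qn = ⌊qr * J⌋₊ := ⟨_, rfl⟩
    have kq := flb (mul_nonneg hqr0 hJ0)
    rw [← hqn] at kq
    have ho1a := W.win.ho 1 hN1
    have ko1 := flb (mul_nonneg ho1a.1 hJ0)
    have ha0 : 0 ≤ a := ho1a.1.trans ho1a.2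
    have ka := flb (mul_nonneg ha0 hJ0)
    have ho1a' : ⌊o 1 * (J : ℝ)⌋₊ ≤ ⌊a * (J : ℝ)⌋₊ := Nat.floor_le_floor (mulJ ho1a.2)
    have hsub : ((⌊a * (J : ℝ)⌋₊ - ⌊o 1 * (J : ℝ)⌋₊ : ℕ) : ℝ) =
        (⌊a * (J : ℝ)⌋₊ : ℝ) - ⌊o 1 * (J : ℝ)⌋₊ := Nat.cast_sub ho1a'
    have hSd := W.win.sds 1 hN1
    have hgc := hSd.c1 (r + 1) le_rfl
    rw [hsub] at hgc
    have hro := W.win.row 0 (by omega) 1 hN1 h01 qn (by
      beta_reduce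
      have := mulJ hqr1
      nlinarith [kq.1]) (by
      beta_reduce
      nlinarith [kq.1, ko1.1, ka.2])
    have hE := W.win.evs 1 hN1
    have hgT : (gT 1 r : ℝ) ≤ gm * J + 1 := by
      by_cases hRr : R r
      · rw [(hE.rgh r (by omega) hRr).1]
        have h2 := hSd.c2 r (by omega)
        rw [hsub] at h2
        have h3 := mulJ (hgR hRr)
        have h4 := mul_nonneg hε₀ hJ0
        nlinarith [ko1.2, ka.1]
      · have h2 := hSd.t2 r (by omega) hRr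
        have h3 := mulJ (hgN hRr)
        have h4 := mul_nonneg hε₀ hJ0
        nlinarith
    have hwin := hro.win ω hBω (rt F ⌊o 1 * J⌋₊ ω) (rt_mem F ⌊o 1 * J⌋₊ ω) (eu (c r))
    rw [ptw_rt F ho1J, nrm_eu hcr (fun l => hE.thin.depH _ l), dd_eu, map_sub, map_sub,
      pd_Hno] at hwin
    have hgd := hgood ω (d1 ω (e1 ω hω)) 1 (Or.inr (Or.inl rfl))
    rw [map_sub, map_sub] at hgd
    show |eval (bt F ω) (pderiv (some (c r)) (Ht 0 (slam F ⌊o (fr4 1) * J⌋₊ ω))) -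
      eval (bt F ω) (pderiv (some (c r)) (Gp (z (ptr F J ω))))| ≤ _
    rw [hf1, hGc ω hBω]
    have e4 : eval (bt F ω) (pderiv (some (c r)) (Ht 0 (slam F ⌊o 0 * J⌋₊ ω))) -
        eval (bt F ω) (pderiv (some (c r)) (Gp (z' (slam F ⌊w * J⌋₊ ω)))) =
        (eval (bt F ω) (pderiv (some (c r)) (Ht 0 (slam F ⌊o 0 * J⌋₊ ω))) -
          eval (bt F ω) (pderiv (some (c r)) (H 1 (slam F ⌊o 1 * J⌋₊ ω) (r + 1)))) +
        (eval (bt F ω) (pderiv (some (c r)) (H 1 (slam F ⌊o 1 * J⌋₊ ω) (r + 1))) -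
          eval (bt F ω) (pderiv (some (c r)) (Gp (z' (slam F ⌊w * J⌋₊ ω))))) := by ring
    rw [e4]
    refine (abs_add_le _ _).trans ?_
    -- the two halves
    have kC : ((⌊C * (η₀ * J)⌋₊ : ℕ) : ℝ) ≤ C * (η₀ * J) := by
      have hC1' := W.win.C1
      exact Nat.floor_le (mul_nonneg (by linarith) (mul_nonneg hη₀.le hJ0))
    obtain ⟨Q, hQ⟩ : ∃ Q : ℕ, Q = ⌊mb * J⌋₊ - (⌊o 3 * J⌋₊ - ⌊o 0 * J⌋₊) := ⟨_, rfl⟩
    have hQb : (Q : ℝ) ≤ (mb - (o 3 - o 0)) * J + 1 := by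
      have ko3 := flb (mul_nonneg (ho0.trans h03) hJ0)
      have ko0 := flb (mul_nonneg ho0 hJ0)
      have h5 : ⌊o 0 * (J : ℝ)⌋₊ ≤ ⌊o 3 * (J : ℝ)⌋₊ := Nat.floor_le_floor (mulJ h03)
      rcases le_total ⌊mb * (J : ℝ)⌋₊ (⌊o 3 * (J : ℝ)⌋₊ - ⌊o 0 * (J : ℝ)⌋₊) with h6 | h6
      · rw [hQ, Nat.sub_eq_zero_of_le h6, Nat.cast_zero]
        have := mul_nonneg (sub_nonneg.2 hmb) hJ0
        linarith
      · rw [hQ, Nat.cast_sub h6, Nat.cast_sub h5]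
        nlinarith [ko3.2, ko0.1, kmb.1]
    rw [← hQ]
    have hh : ∀ t : ℝ, t + 1 + ((⌊lv 0 (r + 1) * J⌋₊ + Q : ℕ) : ℝ) ≤
        ((⌊lv 0 r * J⌋₊ + ⌊χ * J⌋₊ : ℕ) : ℝ) → (2 : ℝ) ^ t ≤
        2 ^ (⌊lv 0 r * J⌋₊ + ⌊χ * J⌋₊) / 2 ^ (⌊lv 0 (r + 1) * J⌋₊ + Q) / 2 := by
      intro t ht
      have h5 := rp_le ht
      rw [Real.rpow_add (by norm_num), Real.rpow_one] at h5
      linarith
    have h7 : (2 : ℝ) ^ ⌊C * (η₀ * J)⌋₊ / 2 ^ qn * 2 ^ gT 1 r ≤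
        2 ^ (C * (η₀ * J) + (gm * J + 1) - (qr * J - 1)) := by
      rw [Real.rpow_sub (by norm_num), Real.rpow_add (by norm_num)]
      have a1 : (2 : ℝ) ^ ⌊C * (η₀ * J)⌋₊ ≤ 2 ^ (C * (η₀ * J)) := by
        rw [← Real.rpow_natCast]
        exact Real.rpow_le_rpow_of_exponent_le (by norm_num) kC
      have a2 : (2 : ℝ) ^ gT 1 r ≤ 2 ^ (gm * J + 1) := by
        rw [← Real.rpow_natCast]
        exact Real.rpow_le_rpow_of_exponent_le (by norm_num) hgT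
      have a3 : (2 : ℝ) ^ (qr * J - 1) ≤ 2 ^ qn := by
        rw [← Real.rpow_natCast]
        exact Real.rpow_le_rpow_of_exponent_le (by norm_num) kq.2
      rw [div_mul_eq_mul_div]
      exact div_le_div₀ (by positivity) (mul_le_mul a1 a2 (by positivity) (by positivity))
        (by positivity) a3
    have h8 := h7.trans (hh _ (by
      push_cast
      nlinarith [kχ.2, k0r.2, k0.1]))
    have h9 := hh (x 1 * J) (by
      push_cast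
      nlinarith [kχ.2, k0r.2, k0.1])
    linarith [hwin, hgd]

end Pool.ALT
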