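import Pool.Agent.H60.ALT.Nzd
import Pool.Agent.H92.ALT.Sl4

/-!
# The output of the alternative, with the pairs of natural labels

`AlO`: the whole output of `alb_rec`, and the pairs of natural labels of the windows `v` and `a`
over the same label of the family, on all events. `alo_rec`: as `alb_rec`.
-/

set_option autoImplicit false

namespace Pool.ALT

open Finset Real MvPolynomial
open Pool.Agent.H49.Ent Pool.Agent.H32.Dense Pool.STK Pool.KA Pool.KSAT Pool.K2S Pool.PB Pool.S6C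
  Pool.GEN Pool.RCD Pool.LA91 Pool.OWN68 Pool.PKG
open Pool.UNJ (ceI)
open Pool.GRD (LbP)
open Pool.V0F (LbU her_extc)

/-- **The output of the alternative** at the windows `t + V' i q` and `t + V' j q`: natural labels
on all events, in pairs over the same label of the family; the data for the own path; the slopes at
the later windows; the charts of both coordinates at all chain windows. -/
structure AlO {r₀ : ℕ} (S : PCl (r₀ + 2)) (c : ℕ → Fin (r₀ + 2)) (L : ℕ → ℝ → ℝ → ℝ) (D N' : ℕ)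
    (V' : ℕ → ℝ) (i j : ℕ) (R h δ lam rr ℓ g₂ X η μ e₀ π₀ q t : ℝ) (Ψ : Fml (r₀ + 2))
    (w p₁ p₂ eN uN pN pa₁ pa₂ ea ua pa : ℝ) : Prop where
  wv : w ≤ t + V' i * q
  wq : t + V' i * q - q / 2 ≤ w
  wR : t - (R + 1) * q ≤ w
  wl : t + V' i * q - 2 * ℓ * q ≤ w
  wu : w ≤ t + V' i * q - ℓ * q
  e1 : eN + L (r₀ + 1) (t + V' i * q) (t + V' i * q) + μ / 2 < 1
  u1 : uN + μ / 2 < 1
  pN1 : L (r₀ + 1) (t + V' i * q) (t + V' i * q) - δ * lam * q / 8 ≤ pN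
  nzo : NzO S Ψ c r₀ (c (r₀ + 1)) D D D w (t + V' i * q) p₁ p₂ eN uN pN
  alp : ∀ n : ℝ, 1 - μ / 2 ≤ n → n ≤ 1 →
    AlpD S Ψ c r₀ (c (r₀ + 1)) D w (t + V' i * q) (t + V' j * q)
      (L (r₀ + 1) (t + V' i * q) (t + V' i * q)) (lam * q) (rr * q) n h
      (δ * (lam * q) / 4) p₁ p₂ eN uN pN
  ea0 : 0 ≤ ea
  pa1 : L (r₀ + 1) (t + V' i * q) (t + V' i * q) + lam * q ≤ pa
  ea1 : L (r₀ + 1) (t + V' i * q) (t + V' i * q) + lam * q + ea < 1 - μ / 2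
  ua1 : ua ≤ 1 - μ / 2
  nza : NzO S Ψ c r₀ (c (r₀ + 1)) D D D w (t + V' j * q) pa₁ pa₂ ea ua pa
  nzq : Bas S (fun J F A => ∃ (V : Type) (z : PtT F → V) (z' : LnT F → V)
    (G : V → MvPolynomial (Option (Fin (r₀ + 2))) ℝ),
    NzQ Ψ c r₀ (c (r₀ + 1)) D D D D w (t + V' i * q) p₁ p₂ eN uN pN (t + V' j * q) pa₁ pa₂ ea ua
      pa J F A V z z' G)
  blb : ∀ k < N', V' i + g₂ ≤ V' k → |V' k| ≤ R → V' k + g₂ ≤ R → X * q ≤ μ →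
    X * q ≤ L r₀ (t + V' k * q) (t + V' k * q) →
    e₀ + L (r₀ + 1) (t + V' k * q) (t + V' k * q) < 1 →
    L (r₀ + 1) (t + V' k * q) (t + V' k * q) + L r₀ (t + V' k * q) (t + V' k * q) +
      X * q ≤ 1 + π₀ →
    BlB S c r₀ (c (r₀ + 1)) (t + V' i * q) (t + V' k * q) D D
      (L (r₀ + 1) (t + V' k * q) (t + V' k * q) - 2 * (η * q))
      (L r₀ (t + V' k * q) (t + V' k * q) - 2 * (η * q))
      (L r₀ (t + V' k * q) (t + V' k * q) -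
        L (r₀ + 1) (t + V' k * q) (t + V' k * q) + X * q)
      (NzF Ψ c r₀ (c (r₀ + 1)) D D D w (t + V' i * q) p₁ p₂ eN uN pN)
  lab : ∀ k < N', ∃ E Eu : ℝ, AlW S c r₀ (c (r₀ + 1)) D (t + V' k * q)
    (L (r₀ + 1) (t + V' k * q) (t + V' k * q)) (L r₀ (t + V' k * q) (t + V' k * q)) E Eu
    (L r₀ (t + V' k * q) (t + V' k * q))

variable {r₀ : ℕ} {S : PCl (r₀ + 2)} {c : ℕ → Fin (r₀ + 2)} {L : ℕ → ℝ → ℝ → ℝ} {D N' : ℕ}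
  {V' : ℕ → ℝ} {i j : ℕ} {R h δ lam rr ℓ g₂ X η μ e₀ π₀ q t : ℝ} {Ψ : Fml (r₀ + 2)}
  {w p₁ p₂ eN uN pN pa₁ pa₂ ea ua pa : ℝ}

theorem AlO.sub {S' : PCl (r₀ + 2)} (hS : SubC S' S)
    (H : AlO S c L D N' V' i j R h δ lam rr ℓ g₂ X η μ e₀ π₀ q t Ψ w p₁ p₂ eN uN pN pa₁ pa₂ ea ua
      pa) :
    AlO S' c L D N' V' i j R h δ lam rr ℓ g₂ X η μ e₀ π₀ q t Ψ w p₁ p₂ eN uN pN pa₁ pa₂ ea ua
      pa :=
  { H with
    nzo := H.nzo.sub hS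
    alp := fun n h1 h2 => (H.alp n h1 h2).sub hS
    nza := H.nza.sub hS
    nzq := H.nzq.sub hS
    blb := fun k h1 h2 h3 h4 h5 h6 h7 h8 a1 a2 a3 a4 =>
      (H.blb k h1 h2 h3 h4 h5 h6 h7 h8 a1 a2 a3 a4).sub hS
    lab := fun k hk => by
      obtain ⟨E, Eu, h⟩ := H.lab k hk
      exact ⟨E, Eu, h.sub hS⟩ }

/-- A larger degree. -/
theorem AlW.deg {m : ℕ} {S : PCl m} {c : ℕ → Fin m} {r₀ : ℕ} {κ : Fin m} {D D' : ℕ}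
    {w pκ pu E Eu u : ℝ} (hD : D ≤ D') (H : AlW S c r₀ κ D w pκ pu E Eu u) :
    AlW S c r₀ κ D' w pκ pu E Eu u :=
  { H with
    lb := fun e he => by
      refine Bas.mono 0 (H.lb e he) ?_
      rintro J - F A ⟨V, z, z', g, gu, k1, k2⟩
      exact ⟨V, z, z', g, gu, k1.mono (Finset.Subset.refl _) hD le_rfl le_rfl le_rfl,
        k2.mono (Finset.Subset.refl _) hD le_rfl le_rfl le_rfl⟩ }

/-- The data of the family of labels. -/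
theorem AlO.fam (H : AlO S c L D N' V' i j R h δ lam rr ℓ g₂ X η μ e₀ π₀ q t Ψ w p₁ p₂ eN uN pN
    pa₁ pa₂ ea ua pa) (hμ : 0 ≤ μ) (J : ℕ) (F : Fam (r₀ + 2) J) (A : F.Ω → Prop) (V : Type)
    (z : PtT F → V) (z' : LnT F → V) (G : V → MvPolynomial (Option (Fin (r₀ + 2))) ℝ)
    (hG : Ψ J F A V z z' G) :
    (∀ y, (G y).totalDegree ≤ D) ∧ (∀ y, DpI ((range (r₀ + 1)).image c) (G y)) ∧
      ∀ ω, A ω → z (ptr F J ω) = z' (slam F ⌊w * J⌋₊ ω) := by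
  obtain ⟨a1, a2, a3, -, -, -, a4⟩ := (H.alp 1 (by linarith) le_rfl).lb
  have h1 := a4 J F A V z z' G hG
  exact ⟨h1.deg, h1.dep, h1.cls⟩

/-- A single family of pairs. -/
theorem AlO.nzf (H : AlO S c L D N' V' i j R h δ lam rr ℓ g₂ X η μ e₀ π₀ q t Ψ w p₁ p₂ eN uN pN
    pa₁ pa₂ ea ua pa) :
    Bas S (fun J F A => ∃ (V : Type) (z : PtT F → V) (z' : LnT F → V)
      (G : V → MvPolynomial (Option (Fin (r₀ + 2))) ℝ),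
      NzF Ψ c r₀ (c (r₀ + 1)) D D D w (t + V' i * q) p₁ p₂ eN uN pN J F A V z z' G) := by
  refine Bas.mono 0 H.nzq ?_
  rintro J - F A ⟨V, z, z', G, hG⟩
  exact ⟨V, z, z', G, hG.nzf⟩

/-- **The own height over a natural label is a polynomial of the chain closed at the later window**,
up to the precision there. -/
theorem AlO.vad (H : AlO S c L D N' V' i j R h δ lam rr ℓ g₂ X η μ e₀ π₀ q t Ψ w p₁ p₂ eN uN pN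
    pa₁ pa₂ ea ua pa) (hμ : 0 ≤ μ) {J : ℕ} {F : Fam (r₀ + 2) J} {A : F.Ω → Prop} {V : Type}
    {z : PtT F → V} {z' : LnT F → V} {G : V → MvPolynomial (Option (Fin (r₀ + 2))) ℝ}
    (hG : NzQ Ψ c r₀ (c (r₀ + 1)) D D D D w (t + V' i * q) p₁ p₂ eN uN pN (t + V' j * q) pa₁ pa₂ ea
      ua pa J F A V z z' G) :
    ∃ (Va : Type) (za : PtT F → Va) (za' : LnT F → Va)
      (Da : Va → MvPolynomial (Option (Fin (r₀ + 2))) ℝ),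
      (∀ y, (Da y).totalDegree ≤ max 1 (D * max 1 D)) ∧
      (∀ y, DpI ((range r₀).image c) (Da y)) ∧
      (∀ ω, A ω → za (ptr F J ω) = za' (slam F ⌊(t + V' j * q) * J⌋₊ ω)) ∧
      ∀ ω, A ω → |ojet F (c (r₀ + 1)) 0 (G (z' (slam F ⌊(t + V' i * q) * J⌋₊ ω))) ω -
        eval (bt F ω) (Da (za' (slam F ⌊(t + V' j * q) * J⌋₊ ω)))| ≤ 1 / 2 ^ ⌊pa * J⌋₊ := by
  have h0 := H.alp 1 (by linarith) le_rfl
  obtain ⟨Va, za, za', Da, h1, h2, h3, h4⟩ := nzq_vad (H.fam hμ) H.wv h0.va h0.a1 hG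
  refine ⟨Va, za, za', Da, fun y => ?_, h2, h3, h4⟩
  have h5 := h1 y
  simp only [max_self] at h5
  exact h5

/-- **The natural labels, in pairs, the data for the own path, and the slopes at the later
windows**, for the chain windows of a record. -/
theorem alo_rec (r₀ S₀ : ℕ) (hS₀ : 1 ≤ S₀) : ∃ D₀ : ℕ, 1 ≤ D₀ ∧ ∀ D : ℕ, D₀ ≤ D →
    ∀ {b h δ lam rr gg R K₁ ℓ₀ X g₂ : ℝ}, 0 < b → 0 < h → h ≤ 1 → 0 < δ → 0 < lam → lam ≤ rr →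
    0 < gg → 0 ≤ R → 0 ≤ K₁ → 0 < ℓ₀ → 0 < X → 0 < g₂ → 2 * X ≤ b * g₂ →
    ∃ ℓ h₁ ε₁ e₁ : ℝ, 0 < ℓ ∧ ℓ ≤ ℓ₀ ∧ 0 < h₁ ∧ 0 < ε₁ ∧ 0 < e₁ ∧ ∀ η : ℝ, 0 < η → η ≤ h₁ →
    ∀ {S : PCl (r₀ + 2)} {al : ℝ} {g₀ : ℝ → ℝ}
    {P : List (Fin (r₀ + 2)) × Fin (r₀ + 2) → ℝ → ℝ → ℝ}
    {θ : ℝ} {P₂ : ℕ → List (Fin (r₀ + 2)) × Fin (r₀ + 2) → ℝ → ℝ → ℝ} {θ₂ Eb e₂ : ℕ → ℝ}
    {c : ℕ → Fin (r₀ + 2)} {Pt : ℝ → ℝ → ℝ} {r : ℝ → ℝ} {hr K₀ g : ℝ} {L T : ℕ → ℝ → ℝ → ℝ}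
    {Sl : ℕ → ℝ} {κ : ℕ → Kg} {G : Set ℝ} {N : ℕ} {A V : ℕ → ℝ} {S₂ N' : ℕ} {V' : ℕ → ℝ}
    {K ε q t : ℝ}
    (_ : RecG S al g₀ P θ P₂ θ₂ Eb e₂ c Pt r hr K₀ g L T Sl κ G S₀ N A V S₂ N' V' K ε q t)
    (_ : Sl (r₀ + 1) = b) (_ : R + 1 ≤ K) (_ : ε ≤ ε₁) (_ : ∀ k < N', |V' k| ≤ K)
    (_ : ∀ k < N', ∃ rd : ℕ → ℝ, Chn S c 0 (r₀ + 1) (t + V' k * q) (t + V' k * q)
      (L r₀ (t + V' k * q) (t + V' k * q)) (fun l => L l (t + V' k * q) (t + V' k * q)) rd)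
    {μ : ℝ} (_ : ∀ k < N', ∃ E rk : ℝ, 0 ≤ E ∧
      E + L (r₀ + 1) (t + V' k * q) (t + V' k * q) + μ ≤ 1 ∧
      L r₀ (t + V' k * q) (t + V' k * q) + μ ≤ 1 ∧
      LbU S ((range (r₀ + 1)).image c) (c (r₀ + 1)) (t + V' k * q)
        (L (r₀ + 1) (t + V' k * q) (t + V' k * q)) rk E)
    {x e₀ ρ₀ π₀ φ e : ℝ} {Kf k₁ : ℕ} (_ : |t - x| ≤ K₁ * q) (_ : Kf ≤ D) (_ : 0 < e)
    (_ : e ≤ e₁) (_ : φ ≤ (1 - h) * b * Real.log 2)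
    (_ : ∀ k ≥ k₁, AltAt S ((range (r₀ + 1)).image c) ((range r₀).image c) (c (r₀ + 1)) Kf e₀ ρ₀
      π₀ (fun w => L (r₀ + 1) w w) x φ e k)
    (_ : (K₁ + R + 1) * q ≤ (1 / 2) ^ k₁) (_ : ρ₀ ≤ 1) (_ : 0 ≤ e₀) (_ : 0 < μ)
    (_ : (8 * b + 8 * rr) * q ≤ μ) {i j : ℕ} (_ : i < N') (_ : j < N') (_ : |V' i| ≤ R)
    (_ : |V' j| ≤ R) (_ : lam + gg ≤ b * (V' j - V' i)) (_ : rr + gg ≤ b * (R - V' i))
    (_ : μ ≤ L (r₀ + 1) (t + V' i * q) (t + V' i * q))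
    (_ : e₀ + L (r₀ + 1) (t + V' j * q) (t + V' j * q) + μ ≤ 1)
    (_ : π₀ < L (r₀ + 1) (t + V' i * q) (t + V' i * q))
    (_ : L (r₀ + 1) (t + V' i * q) (t + V' i * q) + L r₀ (t + V' i * q) (t + V' i * q) - π₀ < 1)
    (_ : L (r₀ + 1) (t + V' j * q) (t + V' j * q) + L r₀ (t + V' j * q) (t + V' j * q) - π₀ < 1),
    ∃ S' : PCl (r₀ + 2), SubC S' S ∧
      RecG S' al g₀ P θ P₂ θ₂ Eb e₂ c Pt r hr K₀ g L T Sl κ G S₀ N A V S₂ N' V' K ε q t ∧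
      ∃ (Ψ : Fml (r₀ + 2)) (w p₁ p₂ eN uN pN pa₁ pa₂ ea ua pa : ℝ),
        AlO S' c L D N' V' i j R h δ lam rr ℓ g₂ X η μ e₀ π₀ q t Ψ w p₁ p₂ eN uN pN pa₁ pa₂ ea
          ua pa := by
  classical
  obtain ⟨D₁, hD₁, halw⟩ := alw_rec r₀ S₀ hS₀
  obtain ⟨D₀, hD₀, halb⟩ := alb_rec r₀ S₀ hS₀
  refine ⟨max D₁ D₀, hD₀.trans (le_max_right _ _), ?_⟩
  intro D hD b h δ lam rr gg R K₁ ℓ₀ X g₂ hb hh hh1 hδ hlam hrr hgg hR hK₁ hℓ₀ hX hg₂ hXg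
  obtain ⟨ℓ, h₁, ε₁, e₁, hℓ, hℓ₁, hh₁, hε₁, he₁, hη⟩ := halb D ((le_max_right _ _).trans hD) hb hh
    hh1 hδ hlam hrr hgg hR hK₁ hℓ₀ hX hg₂ hXg
  refine ⟨ℓ, h₁, ε₁, e₁, hℓ, hℓ₁, hh₁, hε₁, he₁, fun η hη0 hη1 => ?_⟩
  intro S al g₀ P θ P₂ θ₂ Eb e₂ c Pt r hr K₀ g L T Sl κ G N A V S₂ N' V' K ε q t Rc hSl hRK hεε'
    hV hch μ hlab x e₀ ρ₀ π₀ φ e Kf k₁ htx hKf he0 he1' hφ hat hk₁ hρ₀ he₀ hμ hμq i j hi hj hVi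
    hVj hlg hrg hμs m1 hπv hrv hra
  have hlab' := hlab
  choose! E rk hE0 hE1 hE2 hE3 using hlab'
  obtain ⟨S₀', hs₀, Rc₀, hlw⟩ := halw Rc (by linarith) hV hch E rk
    (fun k hk => ⟨hE0 k hk, by linarith [hE1 k hk], hE3 k hk⟩)
  obtain ⟨S₁, hs₁, Rc₁, Ψ, w, p₁, p₂, eN, uN, pN, w1, w2, w3, w4, w5, w6, w7, w8, w9, w10, w11,
    w12⟩ := hη η hη0 hη1 Rc₀ hSl hRK hεε' hV (fun k hk => by
      obtain ⟨rd, h1⟩ := hch k hk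
      exact ⟨rd, h1.sub hs₀⟩) (fun k hk => by
      obtain ⟨E, rk, h1, h2, h3, h4⟩ := hlab k hk
      exact ⟨E, rk, h1, h2, h3, h4.sub hs₀⟩) htx hKf he0 he1' hφ
      (fun k hk => (hat k hk).sub hs₀) hk₁ hρ₀ he₀ hμ hμq hi
    hj hVi hVj hlg hrg hμs m1 hπv hrv hra
  obtain ⟨S₂', hs₂, Rc₂, pa₁, pa₂, ea, ua, pa, x1, x2, x3, x4, x5, x6⟩ := nzq_rec Rc₁
    (w11 (1 - μ / 2) le_rfl (by linarith)) w9
  exact ⟨S₂', fun τ J F A hA => hs₀ τ J F A (hs₁ τ J F A (hs₂ τ J F A hA)), Rc₂, Ψ, w, p₁, p₂, eN,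
    uN, pN, pa₁, pa₂, ea, ua, pa,
    { wv := w1
      wq := w2
      wR := w3
      wl := w4
      wu := w5
      e1 := w6
      u1 := w7
      pN1 := w8
      nzo := w10.sub hs₂
      alp := fun n h1 h2 => (w11 n h1 h2).sub hs₂
      ea0 := x1
      pa1 := x2
      ea1 := x3
      ua1 := x4
      nza := x5
      nzq := x6
      blb := fun k h1 h2 h3 h4 h5 h6 h7 h8 a1 a2 a3 a4 =>
        (w12 k h1 h2 h3 h4 h5 h6 h7 h8 a1 a2 a3 a4).sub hs₂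
      lab := fun k hk => ⟨_, _, (((hlw k hk).deg ((le_max_left _ _).trans hD)).sub
        hs₁).sub hs₂⟩ }⟩

end Pool.ALT
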