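import Pool.Agent.H60.ALT.Arc

/-!
# The own path over the counted labels, for a record

`alp_rec`: the data `AlpD` for two chain windows of a record, and natural labels on all events, in a
subclass with the same record, if the rate at a near window is not the full one.
-/

set_option autoImplicit false

namespace Pool.ALT

open Finset Real MvPolynomial
open Pool.Agent.H49.Ent Pool.Agent.H32.Dense Pool.STK Pool.KA Pool.KSAT Pool.K2S Pool.PB Pool.S6C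
  Pool.GEN Pool.RCD Pool.LA91 Pool.OWN68 Pool.PKG
open Pool.UNJ (ceI)
open Pool.GRD (LbP)
open Pool.V0F (LbU her_extc)

/-- A power of one half at a scale. -/
theorem pow_near {X : ℝ} (hX : 0 < X) {k₁ : ℕ} (h : X ≤ (1 / 2) ^ k₁) :
    ∃ k ≥ k₁, X ≤ (1 / 2) ^ k ∧ (1 / 2) ^ k ≤ 2 * X := by
  have h1 : X ≤ 1 := h.trans (pow_le_one₀ (by norm_num) (by norm_num))
  obtain ⟨k, hk1, hk2⟩ := exists_nat_pow_near_of_lt_one hX h1 (show (0 : ℝ) < 1 / 2 by norm_num)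
    (by norm_num)
  refine ⟨k, ?_, hk2, ?_⟩
  · by_contra hcon
    push Not at hcon
    have : (1 / 2 : ℝ) ^ k₁ ≤ (1 / 2) ^ (k + 1) :=
      pow_le_pow_of_le_one (by norm_num) (by norm_num) hcon
    linarith
  · rw [pow_succ] at hk1
    linarith

/-- **The natural labels and the data for the own path**, for two chain windows of a record. -/
theorem alp_rec (r₀ S₀ : ℕ) (hS₀ : 1 ≤ S₀) : ∃ D₀ : ℕ, 1 ≤ D₀ ∧ ∀ D : ℕ, D₀ ≤ D →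
    ∀ {b h δ lam rr gg R K₁ ℓ₀ : ℝ}, 0 < b → 0 < h → h ≤ 1 → 0 < δ → 0 < lam → lam ≤ rr →
    0 < gg → 0 ≤ R → 0 ≤ K₁ → 0 < ℓ₀ → ∃ ℓ ε₁ e₁ : ℝ, 0 < ℓ ∧ ℓ ≤ ℓ₀ ∧ 0 < ε₁ ∧ 0 < e₁ ∧
    ∀ {S : PCl (r₀ + 2)} {al : ℝ} {g₀ : ℝ → ℝ}
    {P : List (Fin (r₀ + 2)) × Fin (r₀ + 2) → ℝ → ℝ → ℝ}
    {θ : ℝ} {P₂ : ℕ → List (Fin (r₀ + 2)) × Fin (r₀ + 2) → ℝ → ℝ → ℝ} {θ₂ Eb e₂ : ℕ → ℝ}
    {c : ℕ → Fin (r₀ + 2)} {Pt : ℝ → ℝ → ℝ} {r : ℝ → ℝ} {hr K₀ g : ℝ} {L T : ℕ → ℝ → ℝ → ℝ}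
    {Sl : ℕ → ℝ} {κ : ℕ → Kg} {G : Set ℝ} {N : ℕ} {A V : ℕ → ℝ} {S₂ N' : ℕ} {V' : ℕ → ℝ}
    {K ε q t : ℝ}
    (_ : RecG S al g₀ P θ P₂ θ₂ Eb e₂ c Pt r hr K₀ g L T Sl κ G S₀ N A V S₂ N' V' K ε q t)
    (_ : Sl (r₀ + 1) = b) (_ : R + 1 ≤ K) (_ : ε ≤ ε₁) (_ : ∀ k < N', |V' k| ≤ K)
    (_ : ∀ k < N', ∃ rd : ℕ → ℝ, Chn S c 0 (r₀ + 1) (t + V' k * q) (t + V' k * q)
      (L r₀ (t + V' k * q) (t + V' k * q)) (fun l => L l (t + V' k * q) (t + V' k * q)) rd)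
    {μ : ℝ} (_ : ∀ k < N', ∃ E rk : ℝ, 0 ≤ E ∧
      E + L (r₀ + 1) (t + V' k * q) (t + V' k * q) + μ ≤ 1 ∧
      L r₀ (t + V' k * q) (t + V' k * q) + μ ≤ 1 ∧
      LbU S ((range (r₀ + 1)).image c) (c (r₀ + 1)) (t + V' k * q)
        (L (r₀ + 1) (t + V' k * q) (t + V' k * q)) rk E)
    {x e₀ ρ₀ π₀ φ e : ℝ} {Kf k₁ : ℕ} (_ : |t - x| ≤ K₁ * q) (_ : Kf ≤ D) (_ : 0 < e)
    (_ : e ≤ e₁) (_ : φ ≤ (1 - h) * b * Real.log 2)
    (_ : ∀ k ≥ k₁, AltAt S ((range (r₀ + 1)).image c) ((range r₀).image c) (c (r₀ + 1)) Kf e₀ ρ₀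
      π₀ (fun w => L (r₀ + 1) w w) x φ e k)
    (_ : (K₁ + R + 1) * q ≤ (1 / 2) ^ k₁) (_ : ρ₀ ≤ 1) (_ : 0 ≤ e₀) (_ : 0 < μ)
    (_ : (8 * b + 8 * rr) * q ≤ μ) {i j : ℕ} (_ : i < N') (_ : j < N') (_ : |V' i| ≤ R)
    (_ : |V' j| ≤ R) (_ : lam + gg ≤ b * (V' j - V' i)) (_ : rr + gg ≤ b * (R - V' i))
    (_ : μ ≤ L (r₀ + 1) (t + V' i * q) (t + V' i * q))
    (_ : e₀ + L (r₀ + 1) (t + V' j * q) (t + V' j * q) + μ ≤ 1)
    (_ : π₀ < L (r₀ + 1) (t + V' i * q) (t + V' i * q))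
    (_ : L (r₀ + 1) (t + V' i * q) (t + V' i * q) + L r₀ (t + V' i * q) (t + V' i * q) - π₀ < 1)
    (_ : L (r₀ + 1) (t + V' j * q) (t + V' j * q) + L r₀ (t + V' j * q) (t + V' j * q) - π₀ < 1),
    ∃ S' : PCl (r₀ + 2), SubC S' S ∧
      RecG S' al g₀ P θ P₂ θ₂ Eb e₂ c Pt r hr K₀ g L T Sl κ G S₀ N A V S₂ N' V' K ε q t ∧
      ∃ (Ψ : Fml (r₀ + 2)) (w p₁ p₂ eN uN pN : ℝ), w ≤ t + V' i * q ∧
      t + V' i * q - q / 2 ≤ w ∧ t - (R + 1) * q ≤ w ∧ t + V' i * q - 2 * ℓ * q ≤ w ∧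
      w ≤ t + V' i * q - ℓ * q ∧ eN + L (r₀ + 1) (t + V' i * q) (t + V' i * q) + μ / 2 < 1 ∧
      uN + μ / 2 < 1 ∧
      L (r₀ + 1) (t + V' i * q) (t + V' i * q) - δ * lam * q / 8 ≤ pN ∧
      Bas S' (fun J F A => ∃ (V : Type) (z : PtT F → V) (z' : LnT F → V)
        (G : V → MvPolynomial (Option (Fin (r₀ + 2))) ℝ),
        NzF Ψ c r₀ (c (r₀ + 1)) D D D w (t + V' i * q) p₁ p₂ eN uN pN J F A V z z' G) ∧
      NzO S' Ψ c r₀ (c (r₀ + 1)) D D D w (t + V' i * q) p₁ p₂ eN uN pN ∧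
      ∀ n : ℝ, 1 - μ / 2 ≤ n → n ≤ 1 →
        AlpD S' Ψ c r₀ (c (r₀ + 1)) D w (t + V' i * q) (t + V' j * q)
          (L (r₀ + 1) (t + V' i * q) (t + V' i * q)) (lam * q) (rr * q) n h
          (δ * (lam * q) / 4) p₁ p₂ eN uN pN := by
  classical
  obtain ⟨D₀, hD₀, halw⟩ := alw_rec r₀ S₀ hS₀
  refine ⟨D₀, hD₀, ?_⟩
  intro D hD b h δ lam rr gg R K₁ ℓ₀ hb hh hh1 hδ hlam hrr hgg hR hK₁ hℓ₀
  obtain ⟨ℓ, ε₁, e₁, hℓ, hℓ₁, hε₁, he₁, hlin⟩ := alp_lin D (M := 2 * (K₁ + R + 1)) hb hh hh1 hδ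
    hlam hrr hgg (by positivity) hℓ₀
  refine ⟨ℓ, ε₁, e₁, hℓ, hℓ₁, hε₁, he₁, ?_⟩
  intro S al g₀ P θ P₂ θ₂ Eb e₂ c Pt r hr K₀ g L T Sl κ G N A V S₂ N' V' K ε q t Rc hSl hRK hεε
    hV hch μ hlab x e₀ ρ₀ π₀ φ e Kf k₁ htx hKf he0 he1 hφ hat hk₁ hρ₀ he₀ hμ hμq i j hi hj hVi
    hVj hlg hrg hμs m1 hπv hrv hra
  have hq := Rc.q0
  choose! E rk hE0 hE1 hE2 hE3 using hlab
  obtain ⟨S₁, hs₁, Rc₁, hw⟩ := halw Rc (by linarith) hV hch E rk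
    (fun k hk => ⟨hE0 k hk, by linarith [hE1 k hk], hE3 k hk⟩)
  have hmonoD : ∀ {v p1 p2 E1 E2 u : ℝ}, AlW S₁ c r₀ (c (r₀ + 1)) D₀ v p1 p2 E1 E2 u →
      AlW S₁ c r₀ (c (r₀ + 1)) D v p1 p2 E1 E2 u := by
    intro v p1 p2 E1 E2 u H
    exact { H with
      lb := fun e he => by
        refine Bas.mono 0 (H.lb e he) ?_
        rintro J - F A ⟨V, z, z', g, gu, k1, k2⟩
        exact ⟨V, z, z', g, gu, k1.mono (Finset.Subset.refl _) hD le_rfl le_rfl le_rfl,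
          k2.mono (Finset.Subset.refl _) hD le_rfl le_rfl le_rfl⟩ }
  obtain ⟨k, hk, hk2, hk3⟩ := pow_near (X := (K₁ + R + 1) * q) (by positivity) hk₁
  have hRq : 0 ≤ R * q := by positivity
  have hRK' : (R + 1) * q ≤ K * q := mul_le_mul_of_nonneg_right hRK hq.le
  have htx' := abs_le.1 htx
  obtain ⟨htx1, htx2⟩ := htx'
  have e1 : (K₁ + R + 1) * q = K₁ * q + (R + 1) * q := by ring
  rw [e1] at hk2 hk3
  have ht0 := Rc.t0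
  have ht1 := Rc.t1
  have hbx : ∀ y : ℝ, |y - t| ≤ (R + 1) * q → |y - t| ≤ K * q := fun y hy => hy.trans hRK'
  have hεq : ε * q ≤ ε₁ * q := mul_le_mul_of_nonneg_right hεε hq.le
  have hVq : ∀ {y : ℝ}, |y| ≤ R → |t + y * q - t| ≤ R * q := by
    intro y hy
    rw [add_sub_cancel_left, abs_mul, abs_of_pos hq]
    exact mul_le_mul_of_nonneg_right hy hq.le
  have hEm : ∀ k < N', max (E k) (L r₀ (t + V' k * q) (t + V' k * q) -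
      L (r₀ + 1) (t + V' k * q) (t + V' k * q)) + L (r₀ + 1) (t + V' k * q) (t + V' k * q) +
      μ ≤ 1 := by
    intro k hk
    have h1 := hE1 k hk
    have h2 := hE2 k hk
    rcases max_choice (E k) (L r₀ (t + V' k * q) (t + V' k * q) -
      L (r₀ + 1) (t + V' k * q) (t + V' k * q)) with h3 | h3
    · rw [h3]
      linarith
    · rw [h3]
      linarith
  obtain ⟨w, o₁, p₁, p₂, pN, c1, c2, c2', cl, cl', -, -, c3, c4, c5, c6, c7, c8, c9⟩ := hlin Rc₁.tmc Rc₁.pos hKf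
    (Rc₁.inj.mono (by
      intro y hy
      rw [Set.mem_Iio] at hy ⊢
      omega)) ((hat k hk).sub hs₁) (K := R) (q := q) (t := t)
    (s₀ := L (r₀ + 1) t t) (v := t + V' i * q) (a := t + V' j * q) (μ := μ)
    (hmonoD (hw i hi)) (hmonoD (hw j hj)) he0 he1 hφ hq (by linarith) (by linarith)
    (by linarith) (by linarith) (by linarith) (fun y hy => by
      have h1 := Rc.dL (r₀ + 1) (by omega) y (hbx y hy)
      rw [hSl] at h1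
      exact h1.trans hεq) (fun y y' hy hy' hyy => by
      have h1 := abs_le.1 (hbx y hy)
      have h2 := abs_le.1 (hbx y' hy')
      exact (Rc.lawL (r₀ + 1) (by omega)).mono (by linarith) le_rfl hyy hyy le_rfl (by linarith))
    (hVq hVi) (hVq hVj) (by
      have e2 : b * (t + V' j * q - (t + V' i * q)) = b * (V' j - V' i) * q := by ring
      rw [e2]
      exact mul_le_mul_of_nonneg_right hlg hq.le) (by
      have e2 : b * (t + R * q - (t + V' i * q)) = b * (R - V' i) * q := by ring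
      rw [e2]
      exact mul_le_mul_of_nonneg_right hrg hq.le) hρ₀ he₀ hμ hμq hμs m1 (hEm i hi) (hEm j hj)
    (hE2 i hi) (hE2 j hj) hπv hrv hra
  obtain ⟨Ψ, hΨ⟩ : ∃ Ψ : Fml (r₀ + 2), Ψ = AlF ((range (r₀ + 1)).image c) ((range r₀).image c)
      (c (r₀ + 1)) Kf e₀ ρ₀ π₀ w ((fun w => L (r₀ + 1) w w) w) ((fun w => L (r₀ + 1) w w) o₁)
      (φ * (o₁ - w) + 2 * e * (1 / 2) ^ k) := ⟨_, rfl⟩
  rw [← hΨ] at c7 c8 c9
  have hΨs : ∀ (J : ℕ) (F : Fam (r₀ + 2) J) (A B : F.Ω → Prop) (V : Type) (z : PtT F → V)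
      (z' : LnT F → V) (G : V → MvPolynomial (Option (Fin (r₀ + 2))) ℝ), Sub B A →
      Ψ J F A V z z' G → Ψ J F B V z z' G := by
    intro J F A B V z z' G hB hG
    rw [hΨ] at hG ⊢
    exact AlF.hs J F A B V z z' G hB hG
  have hex := nzf_ex c7 hΨs c8 ((hmonoD (hw i hi)).ch1 c3) ((hmonoD (hw i hi)).ch2 c4)
  obtain ⟨S₂', h1, h2, h3⟩ := her_extc (ι := Unit) Rc₁.ne (fun _ J F A =>
      ∃ (V : Type) (z : PtT F → V) (z' : LnT F → V)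
        (G : V → MvPolynomial (Option (Fin (r₀ + 2))) ℝ),
        NzF Ψ c r₀ (c (r₀ + 1)) D D D w (t + V' i * q) p₁ p₂
          (max (E i) (L r₀ (t + V' i * q) (t + V' i * q) -
            L (r₀ + 1) (t + V' i * q) (t + V' i * q)) + μ / 4)
          (L r₀ (t + V' i * q) (t + V' i * q) + μ / 8) pN J F A V z z' G)
    (fun _ J F A B hB => by
      rintro ⟨V, z, z', G, hG⟩
      exact ⟨V, z, z', G, NzF.hs hΨs J F A B V z z' G hB hG⟩) (fun _ => ⟨8, hex⟩)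
  refine ⟨S₂', fun τ J F A hA => hs₁ τ J F A (h2 τ J F A hA), Rc₁.sub h1 h2, Ψ, w, p₁, p₂, _, _,
    pN, c2, c2', c1, cl, cl', ?_, ?_, c6, h3 (), c7.sub h2, fun n hn1 hn2 => (c9 n hn1 hn2).sub h2⟩
  · have := hEm i hi
    linarith
  · have := hE2 i hi
    linarith

end Pool.ALT
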