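import Pool.Agent.H60.ALT.Cmp
import Pool.Agent.H91.FR.QpG

/-!
# The rate of a coordinate alone

`ext_cq`: the numbers of countably many families of competitors exist in a subclass, for the
families which are attained in some subclass. `alt_exq`: for countably many parameters. `alt_rate`:
at almost every window the numbers are linear. `AltQ`, `aePG_alt`: as a property of the windows.
-/

set_option autoImplicit false

namespace Pool.ALT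

open Finset Real
open Pool.Agent.H49.Ent Pool.Agent.H32.Dense Pool.STK Pool.KA Pool.KSAT Pool.K2S Pool.PB Pool.S6C
  Pool.GEN Pool.RCD Pool.LA91 Pool.OWN68

variable {m : ℕ}

/-- The subclass relation. -/
def SubC (S' S : PCl m) : Prop :=
  ∀ (τ : ℝ) (J : ℕ) (F : Fam m J) (A : F.Ω → Prop), S'.St τ J F A → S.St τ J F A

/-- **The numbers of countably many families of competitors exist in a subclass**, if they are
attained in some subclass of it. -/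
theorem ext_cq {S : PCl m} (hS : S.Ne)
    (hpos : ∀ (τ : ℝ) (J : ℕ) (F : Fam m J) (A : F.Ω → Prop), S.St τ J F A → 0 < Pe F.p A)
    (Q : ℕ → Cp m) (M : ℕ → ℝ) (hM : ∀ i, 0 ≤ M i) :
    ∃ S' : PCl m, S'.Ne ∧
      (∀ (τ : ℝ) (J : ℕ) (F : Fam m J) (A : F.Ω → Prop), S'.St τ J F A → S.St τ J F A) ∧
      ∀ i, ∀ S'' : PCl m, S''.Ne → SubC S'' S' → Bas S'' (qCp (Q i) (-M i)) →
        ∃ θ : ℝ, CNum (Q i) S' θ := by
  obtain ⟨q', hq'⟩ : ∃ q' : ℕ → ℝ → Stat m, q' = fun i s J F A => qCp (Q i) s J F A ∨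
    s ≤ -M i - 1 := ⟨_, rfl⟩
  have hher : ∀ (i : ℕ) (s : ℝ) (J : ℕ) (F : Fam m J), Hered (q' i s J F) := by
    intro i s J F A B hB h
    rw [hq'] at h ⊢
    exact h.imp (qCp.hered (Q i) s J F A B hB) id
  have hanti : ∀ (i : ℕ) (s s' : ℝ) (J : ℕ) (F : Fam m J) (A : F.Ω → Prop), s' ≤ s →
      q' i s J F A → q' i s' J F A := by
    intro i s s' J F A h hA
    rw [hq'] at hA ⊢
    exact hA.imp (qCp.anti (Q i) s s' J F A h) fun h' => h.trans h'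
  obtain ⟨S', h1, h2, -, h4⟩ := hS.diag
    (fun n S₁ P => ∃ s : ℝ, PNum (S₁.sl P) (q' n) s ∧
      P.P = (fun τ J F A => q' n (s - τ) J F A ∨ s - τ ≤ -M n - 1)) (by
    intro n S₁ hle hn
    obtain ⟨s, -, -, P, hP, hs, hPe⟩ := hn.num (q' n)
      (fun s J F => hher n s J F)
      (fun s s' J F A h hA => hanti n s s' J F A h hA)
      (a := -M n - 1) (b := 1) ((Clp.of one_pos 0 fun J _ F A _ => by
        rw [hq']
        exact Or.inr le_rfl : Clp S (fun J F A => q' n (-M n - 1) J F A)).le hle)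
      ((Clp.of one_pos 1 fun J hJ F A hA => by
        rw [hq']
        rintro (h | h)
        · exact qCp.up _ hJ (hpos 1 J F A hA) h
        · have := hM n
          linarith : Clp S (fun J F A => ¬ q' n 1 J F A)).le hle)
    exact ⟨P, ⟨s, hs, hPe⟩, hP⟩)
  refine ⟨S', h1, h2, fun i S'' hne'' hs'' hatt => ?_⟩
  obtain ⟨S₁, P, ⟨s, hs, hPe⟩, -, -, hle, hall⟩ := h4 i
  have hneg : ∀ h : ℝ, 0 < h → Bas S' (fun J F A => ¬ q' i (s + h) J F A) := fun h hh =>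
    Bas.neg (fun J F => hher i (s + h) J F) ((hs.le hle).2 h hh)
  -- the number is large
  have hsM : -M i ≤ s := by
    by_contra hcon
    push Not at hcon
    obtain ⟨τ₁, hτ₁, J₁, H₁⟩ := (hneg (-M i - s) (by linarith)).sub hs''
    obtain ⟨τ₂, hτ₂, J₂, H₂⟩ := hatt
    obtain ⟨J, hJ, F, A, hA⟩ := hne'' (min τ₁ τ₂) (lt_min hτ₁ hτ₂) (max J₁ J₂)
    have h5 := H₁ J ((le_max_left _ _).trans hJ) F A (S''.mono (min_le_left _ _) hA)
    have h6 := H₂ J ((le_max_right _ _).trans hJ) F A (S''.mono (min_le_right _ _) hA)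
    apply h5
    rw [hq']
    left
    have e : s + (-M i - s) = -M i := by ring
    rw [e]
    exact h6
  refine ⟨-s, ⟨fun h hh => ?_, fun h hh => ?_⟩⟩
  · have hi : (0 : ℝ) < (i : ℝ) + 1 := by positivity
    have key : Bas S' (fun J F A => qCp (Q i) (s - h) J F A) := by
      refine ⟨min (1 / 2) (min h (1 / ((i : ℝ) + 1))), lt_min (by norm_num)
        (lt_min hh (by positivity)), 0, fun J hJ F A hA => ?_⟩
      have k1 : min (1 / 2) (min h (1 / ((i : ℝ) + 1))) ≤ h :=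
        (min_le_right _ _).trans (min_le_left _ _)
      have k2 : min (1 / 2) (min h (1 / ((i : ℝ) + 1))) ≤ 1 / ((i : ℝ) + 1) :=
        (min_le_right _ _).trans (min_le_right _ _)
      have k0 : min (1 / 2) (min h (1 / ((i : ℝ) + 1))) ≤ 1 / 2 := min_le_left _ _
      have k3 : ((i : ℝ) + 1) * min (1 / 2) (min h (1 / ((i : ℝ) + 1))) ≤ 1 := by
        rw [le_div_iff₀ hi] at k2
        linarith
      have k4 := (hall _ J F A k3 hA).2
      rw [hPe] at k4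
      have k5 : ¬ s - min (1 / 2) (min h (1 / ((i : ℝ) + 1))) ≤ -M i - 1 := by
        push Not
        linarith
      rcases k4 with k4 | k4
      · rw [hq'] at k4
        rcases k4 with k4 | k4
        · exact qCp.anti _ _ _ J F A (by linarith) k4
        · exact absurd k4 k5
      · exact absurd k4 k5
    refine Bas.mono 0 key ?_
    rintro J - F A ⟨X, C, Y, a1, a2⟩
    refine ⟨X, C, Y, a1, fun v => (a2 v).trans (le_of_eq ?_)⟩
    congr 1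
    ring
  · refine Bas.mono 0 (hneg h hh) ?_
    intro J _ F A h5 h6
    apply h5
    rw [hq']
    left
    have e : -(-s) + h = s + h := by ring
    rwa [e] at h6

/-- **The numbers of countably many parameters exist in a subclass.** -/
theorem alt_exq {ι : Type} [Countable ι] {S : PCl m} (hS : S.Ne) (hpos : ∀ (τ : ℝ) (J : ℕ)
      (F : Fam m J) (A : F.Ω → Prop), S.St τ J F A → 0 < Pe F.p A) (P : ι → Par m) :
    ∃ S' : PCl m, S'.Ne ∧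
      (∀ (τ : ℝ) (J : ℕ) (F : Fam m J) (A : F.Ω → Prop), S'.St τ J F A → S.St τ J F A) ∧
      ∀ i, (P i).s₀ ≤ (P i).s₁ → ∀ S'' : PCl m, S''.Ne → SubC S'' S' →
        AltE S'' (P i).I (P i).κ (P i).K (P i).e₀ (P i).ρ₀ (P i).π₀ (P i).w →
        ∃ θ : ℝ, CNum (altQ (P i).I (P i).I₀ (P i).κ (P i).K (P i).e₀ (P i).ρ₀ (P i).π₀ (P i).w
          (P i).s₀ (P i).s₁) S' θ := by
  classical
  rcases isEmpty_or_nonempty {i : ι // (P i).s₀ ≤ (P i).s₁} with he | he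
  · exact ⟨S, hS, fun _ _ _ _ h => h, fun i h1 => (he.false ⟨i, h1⟩).elim⟩
  · obtain ⟨e, hesurj⟩ := exists_surjective_nat {i : ι // (P i).s₀ ≤ (P i).s₁}
    obtain ⟨S', h1, h2, h3⟩ := ext_cq hS hpos (fun n => altQ (P (e n).1).I (P (e n).1).I₀
      (P (e n).1).κ (P (e n).1).K (P (e n).1).e₀ (P (e n).1).ρ₀ (P (e n).1).π₀ (P (e n).1).w
      (P (e n).1).s₀ (P (e n).1).s₁)
      (fun n => ((P (e n).1).s₁ - (P (e n).1).s₀) * Real.log 2 + 2)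
      (fun n => by
        have := mul_nonneg (sub_nonneg.2 (e n).2) (Real.log_nonneg (show (1 : ℝ) ≤ 2 by norm_num))
        linarith)
    refine ⟨S', h1, h2, fun i a S'' hne hs b => ?_⟩
    obtain ⟨n, hn⟩ := hesurj ⟨i, a⟩
    have h4 := h3 n S'' hne hs (by
      have := alt_lo (I₀ := (P (e n).1).I₀) (S := S'') (I := (P (e n).1).I) (κ := (P (e n).1).κ)
        (K := (P (e n).1).K) (e₀ := (P (e n).1).e₀) (ρ₀ := (P (e n).1).ρ₀)
        (π₀ := (P (e n).1).π₀) (w := (P (e n).1).w) (s₀ := (P (e n).1).s₀)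
        (s₁ := (P (e n).1).s₁) (by rw [hn]; exact b) (e n).2
      exact this)
    rw [hn] at h4
    exact h4

/-- **The numbers near a window are linear.** -/
def AltAt (S : PCl m) (I I₀ : Finset (Fin m)) (κ : Fin m) (K : ℕ) (e₀ ρ₀ π₀ : ℝ) (s : ℝ → ℝ)
    (x φ e : ℝ) (k : ℕ) : Prop :=
  ∀ w o : ℚ, x - (1 / 2) ^ k ≤ w → w ≤ o → (o : ℝ) ≤ x + (1 / 2) ^ k →
    ∃ θ : ℝ, CNum (altQ I I₀ κ K e₀ ρ₀ π₀ w (s w) (s o)) S θ ∧
      |θ - φ * (o - w)| ≤ e * (1 / 2) ^ k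

theorem AltAt.sub {S S' : PCl m} (hs : ∀ (τ : ℝ) (J : ℕ) (F : Fam m J) (A : F.Ω → Prop),
    S'.St τ J F A → S.St τ J F A) {I I₀ : Finset (Fin m)} {κ : Fin m} {K : ℕ} {e₀ ρ₀ π₀ : ℝ}
    {s : ℝ → ℝ} {x φ e : ℝ} {k : ℕ} (h : AltAt S I I₀ κ K e₀ ρ₀ π₀ s x φ e k) :
    AltAt S' I I₀ κ K e₀ ρ₀ π₀ s x φ e k := fun w o h1 h2 h3 => by
  obtain ⟨θ, h4, h5⟩ := h w o h1 h2 h3
  exact ⟨θ, h4.subc hs, h5⟩

/-- **The numbers are linear at almost every window**, in one subclass, for countably many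
parameters. -/
theorem alt_rate {ι : Type} [Countable ι] {S : PCl m} (hS : S.Ne) (hpos : ∀ (τ : ℝ) (J : ℕ)
      (F : Fam m J) (A : F.Ω → Prop), S.St τ J F A → 0 < Pe F.p A) (I I₀ : ι → Finset (Fin m))
    (κ : ι → Fin m) (K : ι → ℕ) (e₀ ρ₀ π₀ : ι → ℝ) (s : ι → ℝ → ℝ) {A B : ℝ} (hB : B ≤ 1)
    (hmono : ∀ i, MonotoneOn (s i) (Set.Ioo A B)) :
    ∃ S' : PCl m, S'.Ne ∧
      (∀ (τ : ℝ) (J : ℕ) (F : Fam m J) (A : F.Ω → Prop), S'.St τ J F A → S.St τ J F A) ∧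
      ∀ᵐ g : ℝ, g ∈ Set.Ioo A B → ∀ i, ∀ S'' : PCl m, S''.Ne → SubC S'' S' →
        ∀ w₀ : ℝ, A < w₀ → w₀ < g → AltE S'' (I i) (κ i) (K i) (e₀ i) (ρ₀ i) (π₀ i) w₀ →
        ∃ φ : ℝ, 0 ≤ φ ∧ ∀ e : ℝ, 0 < e → ∃ k₀ : ℕ, ∀ k ≥ k₀,
          AltAt S' (I i) (I₀ i) (κ i) (K i) (e₀ i) (ρ₀ i) (π₀ i) (s i) g φ e k := by
  classical
  obtain ⟨S', h1, h2, h3⟩ := alt_exq hS hpos (ι := ι × ℚ × ℚ) (fun j =>
    ⟨I j.1, I₀ j.1, κ j.1, K j.1, e₀ j.1, ρ₀ j.1, π₀ j.1, j.2.1, s j.1 j.2.1, s j.1 j.2.2⟩)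
  refine ⟨S', h1, h2, ?_⟩
  have hpos' : ∀ (τ : ℝ) (J : ℕ) (F : Fam m J) (A : F.Ω → Prop), S'.St τ J F A → 0 < Pe F.p A :=
    fun τ J F A h => hpos τ J F A (h2 τ J F A h)
  -- existence passes to the class
  have hEx : ∀ (i : ι) (S'' : PCl m), S''.Ne → SubC S'' S' → ∀ w : ℚ, A < w → (w : ℝ) < B →
      AltE S'' (I i) (κ i) (K i) (e₀ i) (ρ₀ i) (π₀ i) w →
      AltE S' (I i) (κ i) (K i) (e₀ i) (ρ₀ i) (π₀ i) w := by
    intro i S'' hne hs w _ _ hE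
    obtain ⟨θ, hθ⟩ := h3 (i, w, w) le_rfl S'' hne hs hE
    refine Bas.mono 0 (alt_att hθ 1 one_pos) ?_
    rintro J - F A ⟨V, z, z', G, h, -⟩
    exact ⟨V, z, z', G, h⟩
  obtain ⟨θ, hθ⟩ : ∃ θ : ι → ℚ → ℚ → ℝ, θ = fun (i : ι) (w o : ℚ) =>
    if h : ∃ θ : ℝ, CNum (altQ (I i) (I₀ i) (κ i) (K i) (e₀ i) (ρ₀ i) (π₀ i) w (s i w) (s i o))
      S' θ then h.choose else 0 := ⟨_, rfl⟩
  have hnum : ∀ (i : ι) (a : ℚ), A < a → (a : ℝ) < B →
      AltE S' (I i) (κ i) (K i) (e₀ i) (ρ₀ i) (π₀ i) a → ∀ w o : ℚ, (a : ℝ) < w → w ≤ o →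
      (o : ℝ) < B → CNum (altQ (I i) (I₀ i) (κ i) (K i) (e₀ i) (ρ₀ i) (π₀ i) w (s i w) (s i o))
        S' (θ i w o) := by
    intro i a ha haB hE w o haw hwo hoB
    have hwo' : (w : ℝ) ≤ o := by exact_mod_cast hwo
    have hex : ∃ θ : ℝ, CNum (altQ (I i) (I₀ i) (κ i) (K i) (e₀ i) (ρ₀ i) (π₀ i) w (s i w)
        (s i o)) S' θ :=
      h3 (i, w, o) (hmono i ⟨by linarith, by linarith⟩ ⟨by linarith, hoB⟩ hwo') S' h1
        (fun _ _ _ _ h => h) (hE.win haw.le (by linarith))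
    rw [hθ]
    simp only [dif_pos hex]
    exact hex.choose_spec
  have key : ∀ j : ι × ℚ, ∀ᵐ g : ℝ, A < j.2 → (j.2 : ℝ) < B →
      AltE S' (I j.1) (κ j.1) (K j.1) (e₀ j.1) (ρ₀ j.1) (π₀ j.1) j.2 →
      g ∈ Set.Ioo (j.2 : ℝ) B → ∃ φ : ℝ, 0 ≤ φ ∧ ∀ e : ℝ, 0 < e → ∃ r₀ : ℝ, 0 < r₀ ∧
      ∀ r : ℝ, 0 < r → r < r₀ → ∀ w o : ℚ, g - r ≤ w → w ≤ o → (o : ℝ) ≤ g + r →
        |θ j.1 w o - φ * (o - w)| ≤ e * r := by
    rintro ⟨i, a⟩
    by_cases hall : A < a ∧ (a : ℝ) < B ∧ AltE S' (I i) (κ i) (K i) (e₀ i) (ρ₀ i) (π₀ i) a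
    · obtain ⟨c1, c2, c3⟩ := hall
      have hn := hnum i a c1 c2 c3
      have hl := lin_ae (θ := θ i) (A := a) (B := B)
        (fun w o b1 b2 b3 => alt_nonneg h1 hpos' (hn w o b1 b2 b3))
        (fun w v o b1 b2 b3 b4 => by
          have b2' : (w : ℝ) ≤ v := by exact_mod_cast b2
          have b3' : (v : ℝ) ≤ o := by exact_mod_cast b3
          exact alt_super h1 hpos' b2' (by linarith)
            (hmono i ⟨by linarith, by linarith⟩ ⟨by linarith, by linarith⟩ b2')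
            (hmono i ⟨by linarith, by linarith⟩ ⟨by linarith, by linarith⟩ b3')
            (hn w o b1 (b2.trans b3) b4) (hn w v b1 b2 (by linarith))
            (hn v o (by linarith) b3 b4))
      filter_upwards [hl] with g hg _ _ _ hgB
      exact hg hgB
    · refine Filter.Eventually.of_forall fun g c1 c2 c3 => absurd ⟨c1, c2, c3⟩ hall
  filter_upwards [MeasureTheory.ae_all_iff.2 key] with g hg hgAB i S'' hne hs w₀ hw₀ hw₀g hE
  obtain ⟨a, ha1, ha2⟩ := exists_rat_btwn hw₀g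
  have haB : (a : ℝ) < B := ha2.trans hgAB.2
  have hEa := hEx i S'' hne hs a (by linarith) haB (hE.win ha1.le (by linarith))
  obtain ⟨φ, hφ, hφe⟩ := hg (i, a) (by linarith) haB hEa ⟨ha2, hgAB.2⟩
  refine ⟨φ, hφ, fun e he => ?_⟩
  obtain ⟨r₀, hr₀, H⟩ := hφe e he
  obtain ⟨k₀, hk₀⟩ := exists_pow_lt_of_lt_one (lt_min hr₀ (lt_min (sub_pos.2 ha2)
    (sub_pos.2 hgAB.2))) (show (1 / 2 : ℝ) < 1 by norm_num)
  refine ⟨k₀, fun k hk w o c1 c2 c3 => ?_⟩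
  have hkk : (1 / 2 : ℝ) ^ k ≤ (1 / 2) ^ k₀ := pow_le_pow_of_le_one (by norm_num) (by norm_num) hk
  have d1 := hkk.trans_lt (hk₀.trans_le (min_le_left _ _))
  have d2 := hkk.trans_lt (hk₀.trans_le ((min_le_right _ _).trans (min_le_left _ _)))
  have d3 := hkk.trans_lt (hk₀.trans_le ((min_le_right _ _).trans (min_le_right _ _)))
  exact ⟨θ i w o, hnum i a (by linarith) haB hEa w o (by linarith) c2 (by linarith),
    H _ (by positivity) d1 w o c1 c2 c3⟩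

/-! ### The property of the windows -/

open Pool.PKG Pool.CHT Pool.GRW
open Pool.TOP (TopS)
open Pool.LEV (Law)

/-- The parameters: the place of the target, the number of the exact places, the complexity; the
exponents of the gradient and of the radius, the accuracy, the error. -/
abbrev AltI : Type := (ℕ × ℕ × ℕ) × ((ℚ × ℚ × ℚ) × ℚ)

/-- **The rate of a coordinate alone** at a window `x`. -/
structure AltQ {n : ℕ} (p : AltI) (k₀ : ℕ) (S : PCl n)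
    (P : List (Fin n) × Fin n → ℝ → ℝ → ℝ) (θ : ℝ) (c : ℕ → Fin n) (Pt : ℝ → ℝ → ℝ)
    (r : ℝ → ℝ) (L T : ℕ → ℝ → ℝ → ℝ) (κ : ℕ → Kg) (G : Set ℝ) (x : ℝ) : Prop where
  rate : 0 < p.2.2 → ∀ S' : PCl n, S'.Ne → SubC S' S → ∀ w₀ : ℝ, 0 < w₀ → w₀ < x →
    AltE S' ((range p.1.1).image c) (c p.1.1) p.1.2.2 p.2.1.1 p.2.1.2.1 p.2.1.2.2 w₀ →
    ∃ φ : ℝ, 0 ≤ φ ∧ ∀ k ≥ k₀, AltAt S ((range p.1.1).image c) ((range p.1.2.1).image c)
      (c p.1.1) p.1.2.2 p.2.1.1 p.2.1.2.1 p.2.1.2.2 (fun w => L p.1.1 w w) x φ p.2.2 k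

/-- The property passes to subclasses. -/
theorem AltQ.sub {n : ℕ} {p : AltI} {k₀ : ℕ} {S S' : PCl n}
    {P : List (Fin n) × Fin n → ℝ → ℝ → ℝ} {θ : ℝ} {c : ℕ → Fin n} {Pt : ℝ → ℝ → ℝ}
    {r : ℝ → ℝ} {L T : ℕ → ℝ → ℝ → ℝ} {κ : ℕ → Kg} {G : Set ℝ} {x : ℝ}
    (hs : ∀ (τ : ℝ) (J : ℕ) (F : Fam n J) (A : F.Ω → Prop), S'.St τ J F A → S.St τ J F A)
    (h : AltQ p k₀ S P θ c Pt r L T κ G x) : AltQ p k₀ S' P θ c Pt r L T κ G x where
  rate := fun h1 S'' hne hs'' w₀ h2 h3 h4 => by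
    obtain ⟨φ, hφ, h5⟩ := h.rate h1 S'' hne (fun τ J F A h => hs τ J F A (hs'' τ J F A h)) w₀ h2
      h3 h4
    exact ⟨φ, hφ, fun k hk => (h5 k hk).sub hs⟩

theorem her_alt (n : ℕ) : HerQ (AltQ : PropG n AltI) :=
  fun _ _ _ _ _ _ _ _ _ _ _ _ _ _ hs h => h.sub hs

/-- **The rate of a coordinate alone exists at almost every window**, in a subclass. -/
theorem aePG_alt (n : ℕ) : AePG n (AltQ : PropG n AltI) := by
  classical
  intro hn S P r P' Λ PB PQ H hTop hF o G hG hGs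
  obtain ⟨al, g₀, s, d', e', K₁, N₁, hal, hg₀, hC⟩ := H.cl
  obtain ⟨S', a1, a2, a3⟩ := alt_rate (ι := (ℕ × ℕ × ℕ) × (ℚ × ℚ × ℚ)) hC.ne hC.pos
    (fun i => (range i.1.1).image (cc hn o.1.1)) (fun i => (range i.1.2.1).image (cc hn o.1.1))
    (fun i => cc hn o.1.1 i.1.1) (fun i => i.1.2.2) (fun i => i.2.1) (fun i => i.2.2.1)
    (fun i => i.2.2.2) (fun i w => LvL hn P P' o i.1.1 w w) (A := 0) (B := 1) le_rfl
    (fun i w hw w' hw' hww => by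
      have hl := H.toPkT.lawL o i.1.1
      exact (hl.mono_a w w' w hw.1.le le_rfl hww hw'.2.le).trans
        (hl.mono_w w' w w' hw.1.le hww le_rfl hw'.2.le))
  refine ⟨S', a1, a2, ?_⟩
  filter_upwards [a3] with g h1 hg κ hκ p
  have ho := hGs hg
  obtain ⟨α, Q, c', F⟩ := H.toPk.fac hTop hF ho
  by_cases hex : 0 < p.2.2 ∧ ∃ S'' : PCl n, S''.Ne ∧ SubC S'' S' ∧ ∃ w₀ : ℝ, 0 < w₀ ∧ w₀ < g ∧
      AltE S'' ((range p.1.1).image (cc hn o.1.1)) (cc hn o.1.1 p.1.1) p.1.2.2 p.2.1.1 p.2.1.2.1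
        p.2.1.2.2 w₀
  · obtain ⟨he, S'', hne, hs, w₀, b1, b2, b3⟩ := hex
    obtain ⟨φ, hφ, h2⟩ := h1 ⟨F.g0, F.g1⟩ (p.1, p.2.1) S'' hne hs w₀ b1 b2 b3
    obtain ⟨k₀, hk₀⟩ := h2 p.2.2 (by exact_mod_cast he)
    exact ⟨k₀, ⟨fun _ _ _ _ _ _ _ _ => ⟨φ, hφ, hk₀⟩⟩⟩
  · exact ⟨0, ⟨fun he S'' hne hs w₀ b1 b2 b3 => absurd ⟨he, S'', hne, hs, w₀, b1, b2, b3⟩ hex⟩⟩

end Pool.ALT
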