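import Pool.Agent.H60.ALT.Alo
import Pool.Agent.H42.D2.Npd

/-!
# The natural labels with labels of the chain

`NbF`: a natural label of the window `v`, with a natural label of the window `a` over the same label
of the family, and labels of the chain at the window `v`, over one code. `nbf_ex`: they exist;
`nbf_npc`, `nbf_lb`, `nbf_row`: the hypotheses of the near path theorem; `nbf_nph`: all of them from
`AlO`.
-/

set_option autoImplicit false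

namespace Pool.ALT

open Finset Real MvPolynomial
open Pool.Agent.H49.Ent Pool.Agent.H32.Dense Pool.STK Pool.KA Pool.KSAT Pool.K2S Pool.PB Pool.S6C
  Pool.GEN Pool.RCD Pool.LA91 Pool.OWN68 Pool.PKG
open Pool.UNJ (ceI)
open Pool.GRD (LbP)
open Pool.AJX (LbX)
open Pool.NPZ (Fm4 NpC VaD ChJ NpH)

variable {m : ℕ}

/-- **Natural labels with labels of the chain.** -/
def NbF (Ψ : Fml m) (c : ℕ → Fin m) (r : ℕ) (κ : Fin m) (D : ℕ)
    (w v p₁ p₂ eN uN pN a pa₁ pa₂ ea ua pa : ℝ) (Kc : ℕ) (e : ℝ) (E rd pc : ℕ → ℝ) : Fm4 m :=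
  fun J F A V z z' G g =>
    NzQ Ψ c r κ D D D D w v p₁ p₂ eN uN pN a pa₁ pa₂ ea ua pa J F A V z z' G ∧
      LbX F c 0 r Kc e E v rd pc A z z' g

variable {Ψ : Fml m} {c : ℕ → Fin m} {r : ℕ} {κ : Fin m} {D : ℕ}
  {w v p₁ p₂ eN uN pN a pa₁ pa₂ ea ua pa : ℝ} {Kc : ℕ} {e : ℝ} {E rd pc : ℕ → ℝ}

/-- A label with a finer code. -/
theorem lbok_code {J : ℕ} {F : Fam m J} {I : Finset (Fin m)} {k : Fin m} {K e r w ρ P : ℕ}
    {A : F.Ω → Prop} {V V' : Type} {z : PtT F → V} {z' : LnT F → V}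
    {G : V → MvPolynomial (Option (Fin m)) ℝ} (h : LbOK F I k K e r w ρ P A z z' G)
    (y : PtT F → V') (y' : LnT F → V') (φ : V' → V) (h1 : ∀ x, φ (y' x) = z' x)
    (h2 : ∀ ω, A ω → y (ptr F r ω) = y' (slam F w ω)) :
    LbOK F I k K e r w ρ P A y y' (fun x => G (φ x)) := by
  refine ⟨fun x => h.deg _, fun x => h.dep _, h2, fun ω hω => ?_, fun ω hω => ?_, fun ω hω => ?_⟩
  · simp only [h1]
    exact h.pos ω hω
  · simp only [h1]
    exact h.vel ω hω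
  · simp only [h1]
    exact h.lip ω hω

/-- **The labels exist**, over the joint code. -/
theorem nbf_ex {S : PCl m} (h1 : Bas S (fun J F A => ∃ (V : Type) (z : PtT F → V)
      (z' : LnT F → V) (G : V → MvPolynomial (Option (Fin m)) ℝ),
      NzQ Ψ c r κ D D D D w v p₁ p₂ eN uN pN a pa₁ pa₂ ea ua pa J F A V z z' G))
    (h2 : Bas S (fun J F A => ∃ (V : Type) (z : PtT F → V) (z' : LnT F → V)
      (g : V → ℕ → MvPolynomial (Option (Fin m)) ℝ), LbX F c 0 r Kc e E v rd pc A z z' g ∧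
        ∀ ω, A ω → z (ptr F J ω) = z' (slam F ⌊v * J⌋₊ ω))) :
    Bas S (fun J F A => ∃ (V : Type) (z : PtT F → V) (z' : LnT F → V)
      (G : V → MvPolynomial (Option (Fin m)) ℝ) (g : V → ℕ → MvPolynomial (Option (Fin m)) ℝ),
      NbF Ψ c r κ D w v p₁ p₂ eN uN pN a pa₁ pa₂ ea ua pa Kc e E rd pc J F A V z z' G g) := by
  refine Bas.mono 0 (h1.and h2) ?_
  rintro J - F A ⟨⟨V₁, z₁, z₁', G, hG⟩, V₂, z₂, z₂', g, hg, hc⟩
  have hc1 : ∀ ω, A ω → z₁ (ptr F J ω) = z₁' (slam F ⌊v * J⌋₊ ω) := by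
    obtain ⟨_, _, _, _, _, _, _, _, _, _, _, _, _, _, _, _, a2, -⟩ := hG
    exact a2.lb.cls
  have hcc : ∀ ω, A ω → (fun x => (z₁ x, z₂ x)) (ptr F J ω) =
      (fun x => (z₁' x, z₂' x)) (slam F ⌊v * J⌋₊ ω) := fun ω hω => by
    show (z₁ (ptr F J ω), z₂ (ptr F J ω)) = _
    rw [hc1 ω hω, hc ω hω]
  exact ⟨V₁ × V₂, fun x => (z₁ x, z₂ x), fun x => (z₁' x, z₂' x), fun x => G x.1, fun x => g x.2,
    hG.code _ _ Prod.fst (fun _ => rfl) hcc,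
    fun i a b => lbok_code (hg i a b) _ _ Prod.snd (fun _ => rfl) hcc⟩

/-- **The labels exist**, if the chain is not empty. -/
theorem nbf_ex' {S : PCl m} (hr : 1 ≤ r) (h1 : Bas S (fun J F A => ∃ (V : Type) (z : PtT F → V)
      (z' : LnT F → V) (G : V → MvPolynomial (Option (Fin m)) ℝ),
      NzQ Ψ c r κ D D D D w v p₁ p₂ eN uN pN a pa₁ pa₂ ea ua pa J F A V z z' G))
    (h2 : Bas S (fun J F A => ∃ (V : Type) (z : PtT F → V) (z' : LnT F → V)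
      (g : V → ℕ → MvPolynomial (Option (Fin m)) ℝ), LbX F c 0 r Kc e E v rd pc A z z' g)) :
    Bas S (fun J F A => ∃ (V : Type) (z : PtT F → V) (z' : LnT F → V)
      (G : V → MvPolynomial (Option (Fin m)) ℝ) (g : V → ℕ → MvPolynomial (Option (Fin m)) ℝ),
      NbF Ψ c r κ D w v p₁ p₂ eN uN pN a pa₁ pa₂ ea ua pa Kc e E rd pc J F A V z z' G g) := by
  refine nbf_ex h1 (Bas.mono 0 h2 ?_)
  rintro J - F A ⟨V, z, z', g, hg⟩
  exact ⟨V, z, z', g, hg, (hg 0 le_rfl hr).cls⟩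

theorem nbf_hs (hΨs : ∀ (J : ℕ) (F : Fam m J) (A B : F.Ω → Prop) (V : Type)
      (z : PtT F → V) (z' : LnT F → V) (G : V → MvPolynomial (Option (Fin m)) ℝ), Sub B A →
      Ψ J F A V z z' G → Ψ J F B V z z' G) (J : ℕ) (F : Fam m J) (A B : F.Ω → Prop) (V : Type)
    (z : PtT F → V) (z' : LnT F → V) (G : V → MvPolynomial (Option (Fin m)) ℝ)
    (g : V → ℕ → MvPolynomial (Option (Fin m)) ℝ) (hB : Sub B A)
    (h : NbF Ψ c r κ D w v p₁ p₂ eN uN pN a pa₁ pa₂ ea ua pa Kc e E rd pc J F A V z z' G g) :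
    NbF Ψ c r κ D w v p₁ p₂ eN uN pN a pa₁ pa₂ ea ua pa Kc e E rd pc J F B V z z' G g :=
  ⟨NzQ.hs hΨs J F A B V z z' G hB h.1, h.2.sub hB⟩

theorem nbf_nzf {J : ℕ} {F : Fam m J} {A : F.Ω → Prop} {V : Type} {z : PtT F → V}
    {z' : LnT F → V} {G : V → MvPolynomial (Option (Fin m)) ℝ}
    {g : V → ℕ → MvPolynomial (Option (Fin m)) ℝ}
    (h : NbF Ψ c r κ D w v p₁ p₂ eN uN pN a pa₁ pa₂ ea ua pa Kc e E rd pc J F A V z z' G g) :
    NzF Ψ c r κ D D D w v p₁ p₂ eN uN pN J F A V z z' G := h.1.nzf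

/-- **The label**: degree, gradient, radius, precision. -/
theorem nbf_lb {J : ℕ} {F : Fam m J} {A : F.Ω → Prop} {V : Type} {z : PtT F → V}
    {z' : LnT F → V} {G : V → MvPolynomial (Option (Fin m)) ℝ}
    {g : V → ℕ → MvPolynomial (Option (Fin m)) ℝ}
    (h : NbF Ψ c r κ D w v p₁ p₂ eN uN pN a pa₁ pa₂ ea ua pa Kc e E rd pc J F A V z z' G g) :
    LbOK F ((range (r + 1)).image c) κ (D * max 1 D) ⌊max eN uN * J⌋₊ J ⌊v * J⌋₊
      ⌊(0 + max eN uN) * J⌋₊ ⌊pN * J⌋₊ A z z' G := by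
  obtain ⟨_, _, _, _, _, _, _, _, _, _, _, _, _, _, _, _, a2, -⟩ := h.1
  have hJ : (0 : ℝ) ≤ J := Nat.cast_nonneg J
  refine a2.lb.mono (Finset.Subset.refl _) (by rw [max_self])
    (Nat.floor_le_floor (mul_le_mul_of_nonneg_right (le_max_left _ _) hJ)) ?_ le_rfl
  rw [zero_add]
  exact Nat.floor_le_floor (mul_le_mul_of_nonneg_right (le_max_right _ _) hJ)

/-- **The conditions of the near path theorem** for the family. -/
theorem nbf_npc (hΨd : ∀ (J : ℕ) (F : Fam m J) (A : F.Ω → Prop) (V : Type) (z : PtT F → V)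
      (z' : LnT F → V) (G : V → MvPolynomial (Option (Fin m)) ℝ), Ψ J F A V z z' G →
      (∀ y, (G y).totalDegree ≤ D) ∧ (∀ y, DpI ((range (r + 1)).image c) (G y)) ∧
      ∀ ω, A ω → z (ptr F J ω) = z' (slam F ⌊w * J⌋₊ ω))
    (hwv : w ≤ v) (hva : v ≤ a) (ha : a ≤ 1) :
    NpC (NbF Ψ c r κ D w v p₁ p₂ eN uN pN a pa₁ pa₂ ea ua pa Kc e E rd pc) c 0 r κ Kc
      (max 1 (D * max 1 D)) v a pN pa e E rd pc := by
  intro J F A V z z' G g h
  have h1 := nzq_vad hΨd hwv hva ha h.1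
  simp only [max_self] at h1
  obtain ⟨_, _, _, _, _, _, _, _, _, _, _, _, _, _, _, _, a2, -⟩ := h.1
  refine ⟨h.2, fun ω hω => ?_, h1, a2.lb.cls⟩
  have e1 : ojet F κ 0 (G (z' (slam F ⌊v * J⌋₊ ω))) ω =
      F.x ω κ - eval (bt F ω) (G (z' (slam F ⌊v * J⌋₊ ω))) := hgt_eq F κ z' _ G ω
  rw [e1]
  exact a2.lb.pos ω hω

/-- **The rows** over the exact point of the chain. -/
theorem nbf_row {S : PCl m} (hpos : ∀ (τ : ℝ) (J : ℕ) (F : Fam m J) (A : F.Ω → Prop),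
      S.St τ J F A → 0 < Pe F.p A) {p q r' n h d : ℝ}
    (H : AlpD S Ψ c r κ D w v a p q r' n h d p₁ p₂ eN uN pN) {sa sb : ℝ} (h1 : p ≤ sa)
    (h2 : sa ≤ sb) (h3 : sb ≤ p + r') {δ : ℝ} (hδ : 0 < δ) {b pb₁ pb₂ eb ub pb : ℝ} :
    Bas S (fun J F A => ∀ (V : Type) (z : PtT F → V) (z' : LnT F → V)
      (G : V → MvPolynomial (Option (Fin m)) ℝ) (g : V → ℕ → MvPolynomial (Option (Fin m)) ℝ),
      NbF Ψ c r κ D w v p₁ p₂ eN uN pN b pb₁ pb₂ eb ub pb Kc e E rd pc J F A V z z' G g →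
      CH (Pool.Agent.H49.Ent.cond F.p A True)
        (fun ω => ⌊(2 : ℝ) ^ (sb * J) * ojet F κ 0 (G (z' (slam F ⌊v * J⌋₊ ω))) ω⌋)
        (fun ω => (⌊(2 : ℝ) ^ (sa * J) * ojet F κ 0 (G (z' (slam F ⌊v * J⌋₊ ω))) ω⌋,
          (ceI ((range r).image c) (fun _ => J) (F.x ω),
            (z' (slam F ⌊v * J⌋₊ ω), F.W ω)))) ≤
        ((1 - h) * (sb - sa) * Real.log 2 + (d + δ)) * J) := by
  refine Bas.mono 0 (H.row0 hpos h1 h2 h3 hδ) ?_
  intro J _ F A HR V z z' G g hG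
  have := HR V z z' G (nbf_nzf hG)
  rw [← add_assoc]
  exact this

end Pool.ALT

namespace Pool.ALT

open Finset Real MvPolynomial
open Pool.Agent.H49.Ent Pool.Agent.H32.Dense Pool.STK Pool.KA Pool.KSAT Pool.K2S Pool.PB Pool.S6C
  Pool.GEN Pool.RCD Pool.LA91 Pool.OWN68 Pool.PKG
open Pool.NPZ (Fm4 NpC VaD ChJ NpH)

/-- **The hypotheses of the near path theorem** from `AlO`. -/
theorem nbf_nph {r₀ : ℕ} {S : PCl (r₀ + 2)} {c : ℕ → Fin (r₀ + 2)} {L : ℕ → ℝ → ℝ → ℝ}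
    {D N' : ℕ} {V' : ℕ → ℝ} {i j : ℕ} {R h δ lam rr ℓ g₂ X η μ e₀ π₀ q t : ℝ}
    {Ψ : Fml (r₀ + 2)} {w p₁ p₂ eN uN pN pa₁ pa₂ ea ua pa : ℝ}
    (hpos : ∀ (τ : ℝ) (J : ℕ) (F : Fam (r₀ + 2) J) (A : F.Ω → Prop), S.St τ J F A →
      0 < Pe F.p A)
    (H : AlO S c L D N' V' i j R h δ lam rr ℓ g₂ X η μ e₀ π₀ q t Ψ w p₁ p₂ eN uN pN pa₁ pa₂ ea
      ua pa) (hμ : 0 ≤ μ) {lamJ q₁ ρ g₀ : ℝ} {E pc s n lv rd : ℕ → ℝ}
    (hch : ChJ S c 0 r₀ (t + V' i * q) (t + V' j * q) lamJ q₁ ρ g₀ E pc s n lv rd)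
    (Kc : ℕ) {e δN δ₂ b : ℝ} (he : 0 < e) (h1 : δ * lam * q / 8 ≤ e) (h8 : e ≤ ρ / 8)
    (hg : e ≤ g₀ / 2) (hδN : δ ≤ δN) (hq₁ : lam * q + δ * lam * q / 8 ≤ q₁) (hδ₂ : 0 < δ₂)
    (hd : δ * (lam * q) / 4 + δ₂ + (r₀ + 1) * ρ < δN * (lam * q) / 2)
    (hL : δ * lam * q / 8 < L (r₀ + 1) (t + V' i * q) (t + V' i * q))
    (hb : t + V' j * q ≤ b) (hb1 : b ≤ 1) :
    NpH (D * max 1 D) h δN S c 0 r₀ (t + V' i * q) (t + V' j * q) lamJ q₁ ρ g₀ E pc s n lv rd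
      (c (r₀ + 1)) ((range (r₀ + 1)).image c) Kc (max 1 (D * max 1 D)) e
      (L (r₀ + 1) (t + V' i * q) (t + V' i * q)) pN pa (lam * q) (δ * (lam * q) / 4 + δ₂) 0
      (max eN uN) b
      (NbF Ψ c r₀ (c (r₀ + 1)) D w (t + V' i * q) p₁ p₂ eN uN pN (t + V' j * q) pa₁ pa₂ ea ua pa
        Kc e E rd pc) := by
  have A := H.alp 1 (by linarith) le_rfl
  have hpN := H.pN1
  have hpp := A.pNp
  have hpa := H.pa1
  have hq0 := A.q0
  have hδq : δ * (lam * q) ≤ δN * (lam * q) := mul_le_mul_of_nonneg_right hδN hq0.le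
  have e1 : δ * lam * q / 8 = δ * (lam * q) / 8 := by ring
  rw [e1] at h1 hq₁ hL hpN
  exact
    { ch := hch
      e0 := he
      e8 := h8
      eg := hg
      pN0 := by linarith
      pNP := hpp
      Pe := by linarith
      Pδ := by linarith
      Pa := hpa
      Pq := by linarith
      q0 := hq0
      vq := A.vq
      wa := hb
      a1 := hb1
      rG0 := le_rfl
      eG0 := lt_max_of_lt_left A.eN0
      dd := hd
      npc := nbf_npc (H.fam hμ) A.wv A.va A.a1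
      lb := fun J F A V z z' G g h => nbf_lb h
      hs := fun J F A' B V z z' G g hB h => nbf_hs A.hs J F A' B V z z' G g hB h
      row := fun sa sb k1 k2 k3 => nbf_row hpos A k1 k2 (by linarith [A.qr]) hδ₂ }

end Pool.ALT
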