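import Pool.Agent.H23.LOV.Sup

/-!
# Superadditive interval functions are linear in the small boxes of almost every point

`lin_ae`: `θ w o`, `w ≤ o` rational, nonnegative with `θ w v + θ v o ≤ θ w o`. Then at almost every
`g` there is a rate `φ` with `|θ w o - φ (o - w)| ≤ e r` in the box of radius `r`, for all small `r`.
-/

set_option autoImplicit false

namespace Pool.ALT

open MeasureTheory Set Filter Topology Pool.LOV23

section

variable {F : ℝ → ℝ → ℝ} {A B : ℝ}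

theorem diag_zero (h0 : ∀ w o, A ≤ w → w ≤ o → o ≤ B → 0 ≤ F w o)
    (h2 : ∀ w v o, A ≤ w → w ≤ v → v ≤ o → o ≤ B → F w v + F v o ≤ F w o) {b : ℝ} (hA : A ≤ b)
    (hB : b ≤ B) : F b b = 0 := by
  have h3 := h2 b b b hA le_rfl le_rfl hB
  have h4 := h0 b b hA le_rfl hB
  linarith

/-- Cutting a partition at a point. -/
theorem parts_cut (h0 : ∀ w o, A ≤ w → w ≤ o → o ≤ B → 0 ≤ F w o)
    (h2 : ∀ w v o, A ≤ w → w ≤ v → v ≤ o → o ≤ B → F w v + F v o ≤ F w o) {a b c s : ℝ}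
    (ha : A ≤ a) (hab : a ≤ b) (hbc : b ≤ c) (hc : c ≤ B) (hs : s ∈ parts F a c) :
    ∃ s₁ ∈ parts F a b, ∃ s₂ ∈ parts F b c, s₁ + s₂ ≤ s := by
  obtain ⟨u, n, hu, hu0, hun, rfl⟩ := hs
  refine ⟨∑ i ∈ Finset.range n, F (min (u i) b) (min (u (i + 1)) b),
    ⟨fun i => min (u i) b, n, ?_, ?_, ?_, rfl⟩,
    ∑ i ∈ Finset.range n, F (max (u i) b) (max (u (i + 1)) b),
    ⟨fun i => max (u i) b, n, ?_, ?_, ?_, rfl⟩, ?_⟩
  · exact fun i j hij => min_le_min_right _ (hu hij)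
  · show min (u 0) b = a
    rw [hu0]
    exact min_eq_left hab
  · show min (u n) b = b
    rw [hun]
    exact min_eq_right hbc
  · exact fun i j hij => max_le_max_right _ (hu hij)
  · show max (u 0) b = b
    rw [hu0]
    exact max_eq_right hab
  · show max (u n) b = c
    rw [hun]
    exact max_eq_left hbc
  rw [← Finset.sum_add_distrib]
  refine Finset.sum_le_sum fun i hi => ?_
  rw [Finset.mem_range] at hi
  have h3 : A ≤ u i := by
    rw [← hu0] at ha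
    exact ha.trans (hu (Nat.zero_le i))
  have h4 : u i ≤ u (i + 1) := hu (Nat.le_succ i)
  have h5 : u (i + 1) ≤ B := (hu (by omega : i + 1 ≤ n)).trans (hun.le.trans hc)
  have hbb := diag_zero h0 h2 (ha.trans hab) (hbc.trans hc)
  rcases le_total (u (i + 1)) b with h6 | h6
  · rw [min_eq_left (h4.trans h6), min_eq_left h6, max_eq_right (h4.trans h6), max_eq_right h6,
      hbb, add_zero]
  · rcases le_total (u i) b with h7 | h7
    · rw [min_eq_left h7, min_eq_right h6, max_eq_right h7, max_eq_left h6]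
      exact h2 _ _ _ h3 h7 h6 h5
    · rw [min_eq_right h7, min_eq_right h6, max_eq_left h7, max_eq_left h6, hbb, zero_add]

/-- **The additive minorant is additive.** -/
theorem Phi_eq (h0 : ∀ w o, A ≤ w → w ≤ o → o ≤ B → 0 ≤ F w o)
    (h2 : ∀ w v o, A ≤ w → w ≤ v → v ≤ o → o ≤ B → F w v + F v o ≤ F w o) {a b c : ℝ} (ha : A ≤ a)
    (hab : a ≤ b) (hbc : b ≤ c) (hc : c ≤ B) : Phi F a c = Phi F a b + Phi F b c := by
  refine le_antisymm (Phi_add h0 ha hab hbc hc) ?_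
  refine le_of_forall_pos_le_add fun e he => ?_
  obtain ⟨s, hs, hs'⟩ := exists_lt_Phi (F := F) (hab.trans hbc) he
  obtain ⟨s₁, h1, s₂, h3, h4⟩ := parts_cut h0 h2 ha hab hbc hc hs
  have h5 := Phi_le h0 ha (hbc.trans hc) h1
  have h6 := Phi_le h0 (ha.trans hab) hc h3
  linarith

theorem Phi_nonneg (h0 : ∀ w o, A ≤ w → w ≤ o → o ≤ B → 0 ≤ F w o) {a b : ℝ} (ha : A ≤ a)
    (hab : a ≤ b) (hb : b ≤ B) : 0 ≤ Phi F a b :=
  le_csInf ⟨_, parts_one F hab⟩ fun _ hs => parts_nonneg h0 ha hb hs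

/-- **Linear at almost every point**, one interval. -/
theorem lin_one (hAB : A < B) (h0 : ∀ w o, A ≤ w → w ≤ o → o ≤ B → 0 ≤ F w o)
    (h2 : ∀ w v o, A ≤ w → w ≤ v → v ≤ o → o ≤ B → F w v + F v o ≤ F w o) :
    ∀ᵐ g : ℝ, g ∈ Ioo A B → ∃ φ : ℝ, 0 ≤ φ ∧ ∀ e : ℝ, 0 < e → ∃ r₀ : ℝ, 0 < r₀ ∧
      ∀ r : ℝ, 0 < r → r < r₀ → ∀ w o : ℝ, g - r ≤ w → w ≤ o → o ≤ g + r →
        |F w o - φ * (o - w)| ≤ e * r := by
  have hmon : MonotoneOn (fun x => Phi F A x) (Icc A B) := by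
    intro x hx y hy hxy
    have h3 := Phi_eq h0 h2 le_rfl hx.1 hxy hy.2
    have h4 := Phi_nonneg h0 hx.1 hxy hy.2
    dsimp only
    linarith
  have hd : ∀ᵐ x : ℝ, x ∈ Ioo A B → DifferentiableAt ℝ (fun x => Phi F A x) x := by
    filter_upwards [hmon.ae_differentiableWithinAt_of_mem] with x hx hx'
    exact (hx ⟨hx'.1.le, hx'.2.le⟩).differentiableAt (Icc_mem_nhds hx'.1 hx'.2)
  have hdf : ∀ᵐ g : ℝ, ∀ j : ℕ, g ∈ Ioo A B → ∃ r₀ : ℝ, 0 < r₀ ∧ ∀ r : ℝ, 0 < r → r < r₀ →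
      ∀ w o : ℝ, g - r ≤ w → w ≤ o → o ≤ g + r → Df F w o ≤ 3 * (1 / ((j : ℝ) + 1)) * r := by
    rw [ae_all_iff]
    intro j
    exact volume_bad h0 h2 hAB (by positivity)
  filter_upwards [hd, hdf] with g hd hdf hg
  have hd := hd hg
  obtain ⟨φ, hφ⟩ : ∃ φ : ℝ, φ = deriv (fun x => Phi F A x) g := ⟨_, rfl⟩
  have hφ0 : 0 ≤ φ := by
    rw [hφ, ← derivWithin_of_mem_nhds (Icc_mem_nhds hg.1 hg.2)]
    exact hmon.derivWithin_nonneg
  refine ⟨φ, hφ0, fun e he => ?_⟩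
  have h1 := hd.hasDerivAt
  rw [← hφ, hasDerivAt_iff_isLittleO_nhds_zero] at h1
  have h2' := h1.def (show 0 < e / 4 by positivity)
  obtain ⟨s, hs, hs'⟩ := Metric.eventually_nhds_iff.1 h2'
  obtain ⟨j, hj⟩ := exists_nat_one_div_lt (show 0 < e / 6 by positivity)
  obtain ⟨r₀, hr₀, hr⟩ := hdf j hg
  refine ⟨min r₀ (min s (min (g - A) (B - g))), lt_min hr₀ (lt_min hs (lt_min (by linarith [hg.1])
    (by linarith [hg.2]))), fun r hr1 hr2 w o hw hwo ho => ?_⟩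
  have k1 : r < r₀ := hr2.trans_le (min_le_left _ _)
  have k2 : r < s := hr2.trans_le ((min_le_right _ _).trans (min_le_left _ _))
  have k3 : r < g - A := hr2.trans_le ((min_le_right _ _).trans ((min_le_right _ _).trans
    (min_le_left _ _)))
  have k4 : r < B - g := hr2.trans_le ((min_le_right _ _).trans ((min_le_right _ _).trans
    (min_le_right _ _)))
  have d1 : ∀ x : ℝ, g - r ≤ x → x ≤ g + r →
      |Phi F A x - Phi F A g - φ * (x - g)| ≤ e / 4 * r := by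
    intro x hx1 hx2
    have hxr : |x - g| ≤ r := by
      rw [abs_le]
      constructor <;> linarith
    have h3 := hs' (y := x - g) (by
      rw [dist_zero_right, Real.norm_eq_abs]
      linarith)
    rw [Real.norm_eq_abs, Real.norm_eq_abs, smul_eq_mul, add_sub_cancel] at h3
    have h4 : x - g + g = x := by ring
    have h5 : |Phi F A x - Phi F A g - (x - g) * φ| ≤ e / 4 * |x - g| := by
      first
        | exact h3
        | (rw [← h4]; simpa using h3)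
    rw [mul_comm φ]
    exact h5.trans (mul_le_mul_of_nonneg_left hxr (by positivity))
  have a1 := abs_le.1 (d1 w hw (by linarith))
  have a2 := abs_le.1 (d1 o (by linarith) ho)
  have a3 := Phi_eq h0 h2 le_rfl (show A ≤ w by linarith) hwo (show o ≤ B by linarith)
  have a4 := hr r hr1 k1 w o hw hwo ho
  have a5 := Df_nonneg h0 (show A ≤ w by linarith) hwo (show o ≤ B by linarith)
  have a6 : 3 * (1 / ((j : ℝ) + 1)) * r ≤ e / 2 * r :=
    mul_le_mul_of_nonneg_right (by linarith) hr1.le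
  unfold Df at a4 a5
  rw [abs_le]
  constructor <;> nlinarith [a1.1, a1.2, a2.1, a2.2]

end

/-- **Superadditive numbers at rational indices are linear in the small boxes of almost every
point.** -/
theorem lin_ae {θ : ℚ → ℚ → ℝ} {A B : ℝ}
    (h0 : ∀ w o : ℚ, A < w → w ≤ o → (o : ℝ) < B → 0 ≤ θ w o)
    (h2 : ∀ w v o : ℚ, A < w → w ≤ v → v ≤ o → (o : ℝ) < B → θ w v + θ v o ≤ θ w o) :
    ∀ᵐ g : ℝ, g ∈ Ioo A B → ∃ φ : ℝ, 0 ≤ φ ∧ ∀ e : ℝ, 0 < e → ∃ r₀ : ℝ, 0 < r₀ ∧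
      ∀ r : ℝ, 0 < r → r < r₀ → ∀ w o : ℚ, g - r ≤ w → w ≤ o → (o : ℝ) ≤ g + r →
        |θ w o - φ * (o - w)| ≤ e * r := by
  have key : ∀ a b : ℚ, A < a → a < b → (b : ℝ) < B →
      ∀ᵐ g : ℝ, g ∈ Ioo (a : ℝ) b → ∃ φ : ℝ, 0 ≤ φ ∧ ∀ e : ℝ, 0 < e → ∃ r₀ : ℝ, 0 < r₀ ∧
        ∀ r : ℝ, 0 < r → r < r₀ → ∀ w o : ℚ, g - r ≤ w → w ≤ o → (o : ℝ) ≤ g + r →
          |θ w o - φ * (o - w)| ≤ e * r := by
    intro a b ha hab hb
    have habR : (a : ℝ) < b := by exact_mod_cast hab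
    have h0' : ∀ w o : ℚ, (a : ℝ) ≤ w → w ≤ o → (o : ℝ) ≤ b → 0 ≤ θ w o := fun w o a1 a2 a3 =>
      h0 w o (ha.trans_le a1) a2 (a3.trans_lt hb)
    have h2' : ∀ w v o : ℚ, (a : ℝ) ≤ w → w ≤ v → v ≤ o → (o : ℝ) ≤ b →
        θ w v + θ v o ≤ θ w o := fun w v o a1 a2 a3 a4 =>
      h2 w v o (ha.trans_le a1) a2 a3 (a4.trans_lt hb)
    have hmon : ∀ w o w' o' : ℚ, (a : ℝ) ≤ w → w ≤ w' → w' ≤ o' → o' ≤ o → (o : ℝ) ≤ b →
        θ w' o' ≤ θ w o := by
      intro w o w' o' hw a1 a2 a3 ho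
      have b1 : (w : ℝ) ≤ w' := by exact_mod_cast a1
      have b3 : (o' : ℝ) ≤ o := by exact_mod_cast a3
      have b2 : (w' : ℝ) ≤ o' := by exact_mod_cast a2
      have c1 := h2' w w' o hw a1 (a2.trans a3) ho
      have c2 := h2' w' o' o (hw.trans b1) a2 a3 ho
      have c3 := h0' w w' hw a1 (by linarith)
      have c4 := h0' o' o (by linarith) a3 ho
      linarith
    obtain ⟨T, hT⟩ : ∃ T : ℝ → ℝ → Set ℝ, T = fun w o => {x | x = 0 ∨ ∃ w' o' : ℚ, w ≤ (w' : ℝ) ∧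
      w' ≤ o' ∧ (o' : ℝ) ≤ o ∧ x = θ w' o'} := ⟨_, rfl⟩
    have hz : ∀ w o, (0 : ℝ) ∈ T w o := by
      intro w o
      rw [hT]
      exact Or.inl rfl
    have hbd : ∀ w o : ℝ, (a : ℝ) ≤ w → w ≤ o → o ≤ b → BddAbove (T w o) := by
      intro w o hw hwo ho
      refine ⟨max 0 (θ a b), ?_⟩
      rintro x hx
      rw [hT] at hx
      rcases hx with rfl | ⟨w', o', a1, a2, a3, rfl⟩
      · exact le_max_left _ _
      · refine (hmon a b w' o' le_rfl ?_ a2 ?_ le_rfl).trans (le_max_right _ _)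
        · exact_mod_cast hw.trans a1
        · exact_mod_cast a3.trans ho
    obtain ⟨G, hG⟩ : ∃ G : ℝ → ℝ → ℝ, G = fun w o => sSup (T w o) := ⟨_, rfl⟩
    have hGe : ∀ w o : ℚ, (a : ℝ) ≤ w → w ≤ o → (o : ℝ) ≤ b → G w o = θ w o := by
      intro w o hw hwo ho
      have hwo' : (w : ℝ) ≤ o := by exact_mod_cast hwo
      rw [hG]
      refine le_antisymm (csSup_le ⟨0, hz _ _⟩ ?_) (le_csSup (hbd _ _ hw hwo' ho) ?_)
      · intro x hx
        rw [hT] at hx
        rcases hx with rfl | ⟨w', o', a1, a2, a3, rfl⟩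
        · exact h0' w o hw hwo ho
        · exact hmon w o w' o' hw (by exact_mod_cast a1) a2 (by exact_mod_cast a3) ho
      · rw [hT]
        exact Or.inr ⟨w, o, le_rfl, hwo, le_rfl, rfl⟩
    have hG0 : ∀ w o : ℝ, (a : ℝ) ≤ w → w ≤ o → o ≤ b → 0 ≤ G w o := by
      intro w o a1 a2 a3
      rw [hG]
      exact le_csSup (hbd w o a1 a2 a3) (hz w o)
    have hGs : ∀ w v o : ℝ, (a : ℝ) ≤ w → w ≤ v → v ≤ o → o ≤ b → G w v + G v o ≤ G w o := by
      intro w v o hw hwv hvo ho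
      have hb' := hbd w o hw (hwv.trans hvo) ho
      have key : ∀ x ∈ T w v, ∀ x' ∈ T v o, x + x' ≤ G w o := by
        intro x hx x' hx'
        rw [hT] at hx hx'
        have gle : ∀ w' o' : ℚ, w ≤ w' → w' ≤ o' → (o' : ℝ) ≤ o → θ w' o' ≤ G w o := by
          intro w' o' a1 a2 a3
          rw [hG]
          refine le_csSup hb' ?_
          rw [hT]
          exact Or.inr ⟨w', o', a1, a2, a3, rfl⟩
        rcases hx with rfl | ⟨w1, v1, a1, a2, a3, rfl⟩
        · rcases hx' with rfl | ⟨v2, o2, b1, b2, b3, rfl⟩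
          · rw [add_zero]
            exact hG0 w o hw (hwv.trans hvo) ho
          · rw [zero_add]
            exact gle v2 o2 (hwv.trans b1) b2 b3
        · rcases hx' with rfl | ⟨v2, o2, b1, b2, b3, rfl⟩
          · rw [add_zero]
            exact gle w1 v1 a1 a2 (a3.trans hvo)
          · have c0 : v1 ≤ v2 := by
              have : (v1 : ℝ) ≤ v2 := a3.trans b1
              exact_mod_cast this
            have a2' : (w1 : ℝ) ≤ v1 := by exact_mod_cast a2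
            have b2' : (v2 : ℝ) ≤ o2 := by exact_mod_cast b2
            have c1 := h2' w1 v1 o2 (hw.trans a1) a2 (c0.trans b2) (b3.trans ho)
            have c2 := h2' v1 v2 o2 (by linarith) c0 b2 (b3.trans ho)
            have c3 := h0' v1 v2 (by linarith) c0 (by linarith)
            have c4 := gle w1 o2 a1 (a2.trans (c0.trans b2)) b3
            linarith
      rw [hG] at key ⊢
      have k1 : ∀ x' ∈ T v o, sSup (T w v) ≤ sSup (T w o) - x' := by
        intro x' hx'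
        exact csSup_le ⟨0, hz _ _⟩ fun x hx => by linarith [key x hx x' hx']
      have k2 : sSup (T v o) ≤ sSup (T w o) - sSup (T w v) :=
        csSup_le ⟨0, hz _ _⟩ fun x' hx' => by linarith [k1 x' hx']
      simp only
      linarith
    filter_upwards [lin_one habR hG0 hGs] with g hg hgab
    obtain ⟨φ, hφ, hg⟩ := hg hgab
    refine ⟨φ, hφ, fun e he => ?_⟩
    obtain ⟨r₀, hr₀, hr⟩ := hg e he
    refine ⟨min r₀ (min (g - a) (b - g)), lt_min hr₀ (lt_min (by linarith [hgab.1])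
      (by linarith [hgab.2])), fun r hr1 hr2 w o hw hwo ho => ?_⟩
    have l1 : r < r₀ := hr2.trans_le (min_le_left _ _)
    have l3 : r < g - a := hr2.trans_le ((min_le_right _ _).trans (min_le_left _ _))
    have l4 : r < b - g := hr2.trans_le ((min_le_right _ _).trans (min_le_right _ _))
    have hwo' : (w : ℝ) ≤ o := by exact_mod_cast hwo
    rw [← hGe w o (by linarith) hwo (by linarith)]
    exact hr r hr1 l1 w o hw hwo' ho
  have hall : ∀ᵐ g : ℝ, ∀ a b : ℚ, A < a → a < b → (b : ℝ) < B → g ∈ Ioo (a : ℝ) b →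
      ∃ φ : ℝ, 0 ≤ φ ∧ ∀ e : ℝ, 0 < e → ∃ r₀ : ℝ, 0 < r₀ ∧
        ∀ r : ℝ, 0 < r → r < r₀ → ∀ w o : ℚ, g - r ≤ w → w ≤ o → (o : ℝ) ≤ g + r →
          |θ w o - φ * (o - w)| ≤ e * r := by
    rw [ae_all_iff]
    intro a
    rw [ae_all_iff]
    intro b
    by_cases h : A < a ∧ a < b ∧ (b : ℝ) < B
    · filter_upwards [key a b h.1 h.2.1 h.2.2] with g hg _ _ _ h5
      exact hg h5
    · refine Filter.Eventually.of_forall fun g h1 h2 h3 => ?_
      exact absurd ⟨h1, h2, h3⟩ h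
  filter_upwards [hall] with g hg hgAB
  obtain ⟨a, ha1, ha2⟩ := exists_rat_btwn hgAB.1
  obtain ⟨b, hb1, hb2⟩ := exists_rat_btwn hgAB.2
  exact hg a b ha1 (by exact_mod_cast ha2.trans hb1) hb2 ⟨ha2, hb1⟩

end Pool.ALT
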