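import Pool.Agent.H60.ALT.Num
import Pool.Agent.H60.ALT.Lin
import Pool.Agent.H68.OWN.Nd
import Pool.Agent.H68.OWN.Nf

/-!
# The number of a coordinate alone

`altQ`: the competitors are the own heights of the coordinate `κ` over the closed polynomials over
`I` of complexity `K` and accuracy `π₀` at the window `w`, digits from `s₀` to `s₁`, given the
polynomial and the coordinates in `I₀`. `alt_low`, `alt_att`: the number. `alt_super`: the numbers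
are superadditive. `alt_rate`: at almost every window they are linear.
-/

set_option autoImplicit false

namespace Pool.ALT

open Finset Real MvPolynomial
open Pool.Agent.H49.Ent Pool.Agent.H32.Dense Pool.STK Pool.KA Pool.KSAT Pool.K2S Pool.PB Pool.S6C
  Pool.GEN Pool.RCD Pool.LA91 Pool.OWN68
open Pool.GRD (LbP)
open Pool.UNJ (ceI)

variable {m : ℕ}

/-- The own height, to `s J` digits. -/
noncomputable def xa {J : ℕ} (F : Fam m J) (κ : Fin m) {V : Type} (z' : LnT F → V) (W : ℕ)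
    (G : V → MvPolynomial (Option (Fin m)) ℝ) (s : ℝ) (ω : F.Ω) : ℤ :=
  ⌊(2 : ℝ) ^ (s * J) * hgt F κ z' W G ω⌋

/-- The condition: the first digits, the label, the coordinates in `I₀`, time and side
information. -/
noncomputable def ya {J : ℕ} (F : Fam m J) (I₀ : Finset (Fin m)) (κ : Fin m) {V : Type}
    (z' : LnT F → V) (W : ℕ) (G : V → MvPolynomial (Option (Fin m)) ℝ) (s : ℝ) (ω : F.Ω) :
    ℤ × (V × ((Fin m → ℤ) × (ℕ × F.ζ))) :=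
  (xa F κ z' W G s ω, (z' (slam F W ω), (ceI I₀ (fun _ => J) (F.x ω), F.W ω)))

/-- **The competitors.** -/
def altQ (I I₀ : Finset (Fin m)) (κ : Fin m) (K : ℕ) (e₀ ρ₀ π₀ w s₀ s₁ : ℝ) : Cp m where
  P J F A X C Y := ∃ (V : Type) (z : PtT F → V) (z' : LnT F → V)
    (G : V → MvPolynomial (Option (Fin m)) ℝ), LbOK F I κ K ⌊e₀ * J⌋₊ J ⌊w * J⌋₊ ⌊ρ₀ * J⌋₊
      ⌊π₀ * J⌋₊ A z z' G ∧
    (∀ ω, A ω → X ω = xa F κ z' ⌊w * J⌋₊ G s₁ ω) ∧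
    ∀ ω ω', A ω → A ω' → (Y ω = Y ω' ↔ ya F I₀ κ z' ⌊w * J⌋₊ G s₀ ω =
      ya F I₀ κ z' ⌊w * J⌋₊ G s₀ ω')
  sub := by
    rintro J F A B X C Y hB ⟨V, z, z', G, h1, h2, h3⟩
    exact ⟨V, z, z', G, h1.sub hB, fun ω hω => h2 ω (hB ω hω),
      fun ω ω' hω hω' => h3 ω ω' (hB ω hω) (hB ω' hω')⟩

variable {I I₀ : Finset (Fin m)} {κ : Fin m} {K : ℕ} {e₀ ρ₀ π₀ w s₀ s₁ : ℝ}

/-- The cells only matter on the event. -/
theorem CBd.congr {J : ℕ} {F : Fam m J} {A : F.Ω → Prop} {X X' : F.Ω → ℤ} {C C' : Type}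
    {Y : F.Ω → C} {Y' : F.Ω → C'} {b : ℝ} (h : CBd F A X Y b) (hX : ∀ ω, A ω → X ω = X' ω)
    (hY : ∀ ω ω', A ω → A ω' → Y' ω = Y' ω' → Y ω = Y ω') : CBd F A X' Y' b := by
  classical
  intro v
  by_cases hv : ∃ ω, A ω ∧ Y' ω = v
  · obtain ⟨ω₀, h0, rfl⟩ := hv
    refine le_trans ?_ (h (Y ω₀))
    have h1 : cset F.p X' (fun ω => A ω ∧ Y' ω = Y' ω₀) ⊆
        cset F.p X (fun ω => A ω ∧ Y ω = Y ω₀) := by
      intro x hx
      obtain ⟨ω, a1, ⟨a2, a3⟩, a4⟩ := of_mem_cset hx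
      rw [← a4, ← hX ω a2]
      exact mem_cset X a1 ⟨a2, hY ω ω₀ a2 h0 a3⟩
    have h2 := Finset.card_le_card h1
    rw [cset_card, cset_card] at h2
    exact_mod_cast h2
  · have h1 : cset F.p X' (fun ω => A ω ∧ Y' ω = v) = ∅ := by
      rw [Finset.eq_empty_iff_forall_notMem]
      intro x hx
      obtain ⟨ω, a1, a2, a4⟩ := of_mem_cset hx
      exact hv ⟨ω, a2⟩
    rw [← cset_card, h1, card_empty, Nat.cast_zero]
    exact (Real.exp_pos _).le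

/-- **The lower bound**, for all labels. -/
theorem alt_low {S : PCl m} (hpos : ∀ (τ : ℝ) (J : ℕ) (F : Fam m J) (A : F.Ω → Prop),
      S.St τ J F A → 0 < Pe F.p A) {θ : ℝ} (hθ : CNum (altQ I I₀ κ K e₀ ρ₀ π₀ w s₀ s₁) S θ) (h : ℝ)
    (hh : 0 < h) : Bas S (fun J F A => ∀ (V : Type) (z : PtT F → V) (z' : LnT F → V)
      (G : V → MvPolynomial (Option (Fin m)) ℝ), LbOK F I κ K ⌊e₀ * J⌋₊ J ⌊w * J⌋₊ ⌊ρ₀ * J⌋₊
      ⌊π₀ * J⌋₊ A z z' G →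
      (θ - h) * J ≤ CH (Pool.Agent.H49.Ent.cond F.p A True) (xa F κ z' ⌊w * J⌋₊ G s₁)
        (ya F I₀ κ z' ⌊w * J⌋₊ G s₀)) := by
  refine Bas.mono 0 (hθ.low hpos h hh) ?_
  intro J _ F A H V z z' G hG
  exact H _ _ _ ⟨V, z, z', G, hG, fun _ _ => rfl, fun _ _ _ _ => Iff.rfl⟩

/-- **The number is attained.** -/
theorem alt_att {S : PCl m} {θ : ℝ} (hθ : CNum (altQ I I₀ κ K e₀ ρ₀ π₀ w s₀ s₁) S θ) (h : ℝ)
    (hh : 0 < h) : Bas S (fun J F A => ∃ (V : Type) (z : PtT F → V) (z' : LnT F → V)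
      (G : V → MvPolynomial (Option (Fin m)) ℝ), LbOK F I κ K ⌊e₀ * J⌋₊ J ⌊w * J⌋₊ ⌊ρ₀ * J⌋₊
      ⌊π₀ * J⌋₊ A z z' G ∧
      CBd F A (xa F κ z' ⌊w * J⌋₊ G s₁) (ya F I₀ κ z' ⌊w * J⌋₊ G s₀) ((θ + h) * J)) := by
  refine Bas.mono 0 (hθ.at' h hh) ?_
  rintro J - F A ⟨X, C, Y, ⟨V, z, z', G, h1, h2, h3⟩, h4⟩
  exact ⟨V, z, z', G, h1, h4.congr h2 fun ω ω' hω hω' e => (h3 ω ω' hω hω').2 e⟩

/-! ### Digits -/

/-- Fewer digits from more digits. -/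
theorem fl_few {Ω C : Type} [Fintype Ω] {q : Ω → ℝ} (hq : IsLaw q) (x : Ω → ℝ) {s t : ℝ}
    (h0 : 0 ≤ s) (hst : s ≤ t) (Y : Ω → C)
    (hY : ∀ ω ω', 0 < q ω → 0 < q ω' → Y ω = Y ω' → ⌊t * x ω⌋ = ⌊t * x ω'⌋) :
    CH q (fun ω => ⌊s * x ω⌋) Y ≤ Real.log 5 := by
  have e5 : (5 : ℝ) = 2 * ((2 : ℕ) : ℝ) + 1 := by norm_num
  rw [e5]
  refine CH_pair hq _ _ fun ω ω' hω hω' e => ?_
  rcases eq_or_lt_of_le (h0.trans hst) with h1 | h1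
  · have h2 : s = 0 := le_antisymm (hst.trans h1.symm.le) h0
    rw [h2]
    simp
  · have h2 := fl_scale h0 (B := 1) (by linarith) h1 (hY ω ω' hω hω' e)
    have h3 := floor_sub_le (D := 1) (a := s * x ω) (b := s * x ω') (by exact_mod_cast h2)
    exact h3

theorem p2_mono {s t : ℝ} {J : ℕ} (h : s ≤ t) : (2 : ℝ) ^ (s * J) ≤ 2 ^ (t * J) :=
  Real.rpow_le_rpow_of_exponent_le (by norm_num)
    (mul_le_mul_of_nonneg_right h (Nat.cast_nonneg J))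

/-- **The chain rule** for three numbers of digits. -/
theorem ch_three {J : ℕ} {F : Fam m J} {q : F.Ω → ℝ} (hq : IsLaw q) {V : Type} (z' : LnT F → V)
    (W : ℕ) (G : V → MvPolynomial (Option (Fin m)) ℝ) {a b c : ℝ} (hab : a ≤ b) (hbc : b ≤ c) :
    CH q (xa F κ z' W G b) (ya F I₀ κ z' W G a) + CH q (xa F κ z' W G c) (ya F I₀ κ z' W G b) ≤
      CH q (xa F κ z' W G c) (ya F I₀ κ z' W G a) + 2 * Real.log 5 := by
  have h0 := hq.nonneg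
  obtain ⟨y, hy⟩ : ∃ y : F.Ω → V × ((Fin m → ℤ) × (ℕ × F.ζ)), y = fun ω =>
    (z' (slam F W ω), (ceI I₀ (fun _ => J) (F.x ω), F.W ω)) := ⟨_, rfl⟩
  have e1 : ∀ s, ya F I₀ κ z' W G s = fun ω => (xa F κ z' W G s ω, y ω) := fun s => by
    rw [hy]
    rfl
  rw [e1, e1]
  have p0 : ∀ s : ℝ, (0 : ℝ) ≤ 2 ^ (s * J) := fun s => (Real.rpow_pos_of_pos (by norm_num) _).le
  have h1 := CH_exch h0 (xa F κ z' W G b) (xa F κ z' W G c)
    (fun ω => (xa F κ z' W G a ω, y ω))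
  have h2 : CH q (xa F κ z' W G b) (fun ω => (xa F κ z' W G c ω, (xa F κ z' W G a ω, y ω))) ≤
      Real.log 5 := fl_few hq _ (p0 b) (p2_mono hbc) _ fun ω ω' _ _ e => (Prod.ext_iff.mp e).1
  have h3 := CH_le_add h0 (xa F κ z' W G c) (xa F κ z' W G a)
    (fun ω => (xa F κ z' W G b ω, y ω))
  have h4 : CH q (xa F κ z' W G a) (fun ω => (xa F κ z' W G b ω, y ω)) ≤ Real.log 5 :=
    fl_few hq _ (p0 a) (p2_mono hab) _ fun ω ω' _ _ e => (Prod.ext_iff.mp e).1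
  have h5 : CH q (xa F κ z' W G c) (fun ω => (xa F κ z' W G a ω, (xa F κ z' W G b ω, y ω))) ≤
      CH q (xa F κ z' W G c) (fun ω => (xa F κ z' W G b ω, (xa F κ z' W G a ω, y ω))) := by
    refine CH_mono_cond h0 fun ω ω' _ _ e => ?_
    simp only [Prod.mk.injEq] at e ⊢
    exact ⟨e.2.1, e.1, e.2.2⟩
  linarith

/-- The number of the digits. -/
theorem xa_cnt {J : ℕ} {F : Fam m J} {q : F.Ω → ℝ} (hq : IsLaw q) {V : Type} (z' : LnT F → V)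
    (W : ℕ) (G : V → MvPolynomial (Option (Fin m)) ℝ) {a c : ℝ} (hac : a ≤ c) :
    CH q (xa F κ z' W G c) (ya F I₀ κ z' W G a) ≤ (c - a) * Real.log 2 * J + Real.log 7 := by
  have hJ0 : (0 : ℝ) ≤ J := Nat.cast_nonneg J
  obtain ⟨D, hD⟩ : ∃ D : ℕ, D = ⌈(2 : ℝ) ^ ((c - a) * J)⌉₊ := ⟨_, rfl⟩
  have hp : (0 : ℝ) < 2 ^ ((c - a) * J) := Real.rpow_pos_of_pos (by norm_num) _
  have hp1 : (1 : ℝ) ≤ 2 ^ ((c - a) * J) :=
    Real.one_le_rpow (by norm_num) (mul_nonneg (by linarith) hJ0)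
  have hD1 : (2 : ℝ) ^ ((c - a) * J) ≤ D := by rw [hD]; exact Nat.le_ceil _
  have hD2 : (D : ℝ) < 2 ^ ((c - a) * J) + 1 := by rw [hD]; exact Nat.ceil_lt_add_one hp.le
  have h1 : CH q (xa F κ z' W G c) (ya F I₀ κ z' W G a) ≤ Real.log (2 * ((D + 1 : ℕ) : ℝ) + 1) := by
    refine CH_pair hq _ _ fun ω ω' _ _ e => floor_sub_le ?_
    have e1 : ⌊(2 : ℝ) ^ (a * J) * hgt F κ z' W G ω⌋ = ⌊(2 : ℝ) ^ (a * J) * hgt F κ z' W G ω'⌋ :=
      (Prod.ext_iff.mp e).1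
    have h2 := fl_scale (s := 2 ^ (c * J)) (t := 2 ^ (a * J)) (B := 2 ^ ((c - a) * J))
      (Real.rpow_pos_of_pos (by norm_num) _).le (by
        rw [← Real.rpow_add (by norm_num)]
        refine Real.rpow_le_rpow_of_exponent_le (by norm_num) (le_of_eq (by ring)))
      (Real.rpow_pos_of_pos (by norm_num) _) e1
    exact h2.trans hD1
  refine h1.trans ?_
  have h3 : (2 * ((D + 1 : ℕ) : ℝ) + 1) ≤ 2 ^ ((c - a) * J) * 7 := by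
    push_cast
    linarith
  have h4 := Real.log_le_log (by positivity) h3
  rw [Real.log_mul hp.ne' (by norm_num), Real.log_rpow (by norm_num)] at h4
  refine h4.trans (le_of_eq ?_)
  ring

/-- The trivial bound for the number of values. -/
theorem alt_cbd {J : ℕ} (F : Fam m J) (A : F.Ω → Prop) {V : Type} (z' : LnT F → V)
    (W : ℕ) (G : V → MvPolynomial (Option (Fin m)) ℝ) {a c : ℝ} (hac : a ≤ c) :
    CBd F A (xa F κ z' W G c) (ya F I₀ κ z' W G a) ((c - a) * Real.log 2 * J + Real.log 7) := by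
  classical
  have hJ0 : (0 : ℝ) ≤ J := Nat.cast_nonneg J
  obtain ⟨D, hD⟩ : ∃ D : ℕ, D = ⌈(2 : ℝ) ^ ((c - a) * J)⌉₊ := ⟨_, rfl⟩
  have hp : (0 : ℝ) < 2 ^ ((c - a) * J) := Real.rpow_pos_of_pos (by norm_num) _
  have hp1 : (1 : ℝ) ≤ 2 ^ ((c - a) * J) :=
    Real.one_le_rpow (by norm_num) (mul_nonneg (by linarith) hJ0)
  have hD1 : (2 : ℝ) ^ ((c - a) * J) ≤ D := by rw [hD]; exact Nat.le_ceil _
  have hD2 : (D : ℝ) < 2 ^ ((c - a) * J) + 1 := by rw [hD]; exact Nat.ceil_lt_add_one hp.le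
  have hb : (2 * ((D + 1 : ℕ) : ℝ) + 1) ≤ Real.exp ((c - a) * Real.log 2 * J + Real.log 7) := by
    rw [Real.exp_add, Real.exp_log (by norm_num : (0 : ℝ) < 7)]
    have e1 : Real.exp ((c - a) * Real.log 2 * J) = 2 ^ ((c - a) * J) := by
      rw [Real.rpow_def_of_pos (by norm_num)]
      congr 1
      ring
    rw [e1]
    push_cast
    linarith
  intro v
  by_cases hv : ∃ ω, 0 < F.p ω ∧ A ω ∧ ya F I₀ κ z' W G a ω = v
  · obtain ⟨ω₀, -, h0, rfl⟩ := hv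
    have h1 : cset F.p (xa F κ z' W G c) (fun ω => A ω ∧ ya F I₀ κ z' W G a ω =
        ya F I₀ κ z' W G a ω₀) ⊆ Finset.Icc (xa F κ z' W G c ω₀ - ((D + 1 : ℕ) : ℤ))
          (xa F κ z' W G c ω₀ + ((D + 1 : ℕ) : ℤ)) := by
      intro x hx
      obtain ⟨ω, a1, ⟨a2, a3⟩, a4⟩ := of_mem_cset hx
      have e1 : ⌊(2 : ℝ) ^ (a * J) * hgt F κ z' W G ω⌋ =
        ⌊(2 : ℝ) ^ (a * J) * hgt F κ z' W G ω₀⌋ := (Prod.ext_iff.mp a3).1
      have h2 := fl_scale (s := 2 ^ (c * J)) (t := 2 ^ (a * J)) (B := 2 ^ ((c - a) * J))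
        (Real.rpow_pos_of_pos (by norm_num) _).le (by
          rw [← Real.rpow_add (by norm_num)]
          refine Real.rpow_le_rpow_of_exponent_le (by norm_num) (le_of_eq (by ring)))
        (Real.rpow_pos_of_pos (by norm_num) _) e1
      have h3 := floor_sub_le (h2.trans hD1)
      rw [← a4, Finset.mem_Icc]
      rw [abs_le] at h3
      constructor
      · show _ ≤ ⌊(2 : ℝ) ^ (c * J) * hgt F κ z' W G ω⌋
        unfold xa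
        linarith [h3.1]
      · show ⌊(2 : ℝ) ^ (c * J) * hgt F κ z' W G ω⌋ ≤ _
        unfold xa
        linarith [h3.2]
    have h2 := Finset.card_le_card h1
    rw [cset_card, Int.card_Icc] at h2
    have h3 : (xa F κ z' W G c ω₀ + ((D + 1 : ℕ) : ℤ) + 1 - (xa F κ z' W G c ω₀ -
        ((D + 1 : ℕ) : ℤ))).toNat = 2 * (D + 1) + 1 := by
      omega
    rw [h3] at h2
    refine le_trans ?_ hb
    have h4 : (cnt F.p (xa F κ z' W G c) (fun ω => A ω ∧ ya F I₀ κ z' W G a ω =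
        ya F I₀ κ z' W G a ω₀) : ℝ) ≤ ((2 * (D + 1) + 1 : ℕ) : ℝ) := by exact_mod_cast h2
    refine h4.trans (le_of_eq ?_)
    push_cast
    ring
  · have h1 : cset F.p (xa F κ z' W G c) (fun ω => A ω ∧ ya F I₀ κ z' W G a ω = v) = ∅ := by
      rw [Finset.eq_empty_iff_forall_notMem]
      intro x hx
      obtain ⟨ω, a1, a2, a4⟩ := of_mem_cset hx
      exact hv ⟨ω, a1, a2⟩
    rw [← cset_card, h1, card_empty, Nat.cast_zero]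
    exact (Real.exp_pos _).le

/-- A label of the window `W` at a shorter window. -/
def wz {J : ℕ} {F : Fam m J} {V : Type} (z' : LnT F → V) (W W₁ : ℕ) : LnT F → V :=
  fun s => z' (s.1, s.2.1, s.2.2 / 2 ^ (W₁ - W))

theorem wz_slam {J : ℕ} {F : Fam m J} {V : Type} (z' : LnT F → V) {W W₁ : ℕ} (h : W ≤ W₁)
    (h1 : W₁ ≤ J) (ω : F.Ω) : wz z' W W₁ (slam F W₁ ω) = z' (slam F W ω) := by
  unfold wz
  rw [slam_coarse F h h1 ω]

theorem xa_wz {J : ℕ} {F : Fam m J} {V : Type} (z' : LnT F → V) {W W₁ : ℕ} (h : W ≤ W₁)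
    (h1 : W₁ ≤ J) (G : V → MvPolynomial (Option (Fin m)) ℝ) (s : ℝ) :
    xa F κ (wz z' W W₁) W₁ G s = xa F κ z' W G s := by
  funext ω
  unfold xa hgt
  rw [wz_slam z' h h1]

theorem ya_wz {J : ℕ} {F : Fam m J} {V : Type} (z' : LnT F → V) {W W₁ : ℕ} (h : W ≤ W₁)
    (h1 : W₁ ≤ J) (G : V → MvPolynomial (Option (Fin m)) ℝ) (s : ℝ) :
    ya F I₀ κ (wz z' W W₁) W₁ G s = ya F I₀ κ z' W G s := by
  funext ω
  unfold ya
  rw [xa_wz z' h h1, wz_slam z' h h1]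

theorem floorw {w w₁ : ℝ} (h : w ≤ w₁) (h1 : w₁ ≤ 1) (J : ℕ) :
    ⌊w * J⌋₊ ≤ ⌊w₁ * J⌋₊ ∧ ⌊w₁ * J⌋₊ ≤ J :=
  ⟨Nat.floor_le_floor (mul_le_mul_of_nonneg_right h (Nat.cast_nonneg J)), floor_le h1 J⟩

/-- A label for windows is a label for shorter windows. -/
theorem lbok_win {J : ℕ} {F : Fam m J} {k : Fin m} {K e r w w' ρ P : ℕ} {A : F.Ω → Prop}
    {V : Type} {z : PtT F → V} {z' : LnT F → V} {G : V → MvPolynomial (Option (Fin m)) ℝ}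
    (h : LbOK F I k K e r w ρ P A z z' G) (hw : w ≤ w') (hw' : w' ≤ J) :
    LbOK F I k K e r w' ρ P A z (wz z' w w') G where
  deg := h.deg
  dep := h.dep
  cls := fun ω hω => by rw [wz_slam z' hw hw']; exact h.cls ω hω
  pos := fun ω hω => by rw [wz_slam z' hw hw']; exact h.pos ω hω
  vel := fun ω hω => by
    rw [wz_slam z' hw hw']
    refine (h.vel ω hω).trans ?_
    exact div_le_div_of_nonneg_right (pow_le_pow_right₀ (by norm_num) hw) (by positivity)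
  lip := fun ω hω => by rw [wz_slam z' hw hw']; exact h.lip ω hω

/-- **The numbers are superadditive.** -/
theorem alt_super {S : PCl m} (hS : S.Ne) (hpos : ∀ (τ : ℝ) (J : ℕ) (F : Fam m J)
      (A : F.Ω → Prop), S.St τ J F A → 0 < Pe F.p A) {w w₁ s₀ s₁ s₂ θ θ₁ θ₂ : ℝ} (hw : w ≤ w₁)
    (hw1 : w₁ ≤ 1) (h01 : s₀ ≤ s₁) (h12 : s₁ ≤ s₂) (N : CNum (altQ I I₀ κ K e₀ ρ₀ π₀ w s₀ s₂) S θ)
    (N₁ : CNum (altQ I I₀ κ K e₀ ρ₀ π₀ w s₀ s₁) S θ₁) (N₂ : CNum (altQ I I₀ κ K e₀ ρ₀ π₀ w₁ s₁ s₂) S θ₂) :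
    θ₁ + θ₂ ≤ θ := by
  refine le_of_bas hS fun ε hε => ?_
  obtain ⟨J₁, hJ₁⟩ := exists_nat_ge (2 * Real.log 5 / (ε / 4))
  refine Bas.mono J₁ (((alt_att N (ε / 4) (by positivity)).and
    (alt_low hpos N₁ (ε / 4) (by positivity))).and
    ((alt_low hpos N₂ (ε / 4) (by positivity)).and (pos_bas hpos))) ?_
  rintro J hJ F A ⟨⟨⟨V, z, z', G, hG, hC⟩, H₁⟩, H₂, hA⟩
  obtain ⟨f1, f2⟩ := floorw hw hw1 J
  have hq := isLaw_cond F.isLaw hA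
  have a1 := hC.ent hA
  have a2 := H₁ V z z' G hG
  have a3 := H₂ V z _ G (lbok_win hG f1 f2)
  have a4 := ch_three (I₀ := I₀) (κ := κ) hq z' ⌊w * J⌋₊ G h01 h12
  change (θ₂ - ε / 4) * J ≤ CH _ (xa F κ (wz z' ⌊w * J⌋₊ ⌊w₁ * J⌋₊) ⌊w₁ * J⌋₊ G s₂)
    (ya F I₀ κ (wz z' ⌊w * J⌋₊ ⌊w₁ * J⌋₊) ⌊w₁ * J⌋₊ G s₁) at a3
  rw [xa_wz z' f1 f2, ya_wz z' f1 f2] at a3
  have a5 : 2 * Real.log 5 ≤ ε / 4 * J := by
    have e1 : (J₁ : ℝ) ≤ J := by exact_mod_cast hJ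
    have e2 := hJ₁.trans e1
    rw [div_le_iff₀ (by positivity)] at e2
    linarith
  linarith

theorem alt_nonneg {S : PCl m} (hS : S.Ne) (hpos : ∀ (τ : ℝ) (J : ℕ) (F : Fam m J)
      (A : F.Ω → Prop), S.St τ J F A → 0 < Pe F.p A) {θ : ℝ}
    (N : CNum (altQ I I₀ κ K e₀ ρ₀ π₀ w s₀ s₁) S θ) : 0 ≤ θ := by
  refine le_of_bas hS fun ε hε => ?_
  refine Bas.mono 0 ((alt_att N ε hε).and (pos_bas hpos)) ?_
  rintro J - F A ⟨⟨V, z, z', G, hG, hC⟩, hA⟩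
  have a1 := hC.ent hA
  have a2 := CH_nonneg (isLaw_cond F.isLaw hA).nonneg (xa F κ z' ⌊w * J⌋₊ G s₁)
    (ya F I₀ κ z' ⌊w * J⌋₊ G s₀)
  linarith

/-- There are labels of complexity `K` and accuracy `π₀` at the window `w`. -/
def AltE (S : PCl m) (I : Finset (Fin m)) (κ : Fin m) (K : ℕ) (e₀ ρ₀ π₀ w : ℝ) : Prop :=
  Bas S (fun J F A => ∃ (V : Type) (z : PtT F → V) (z' : LnT F → V)
    (G : V → MvPolynomial (Option (Fin m)) ℝ), LbOK F I κ K ⌊e₀ * J⌋₊ J ⌊w * J⌋₊ ⌊ρ₀ * J⌋₊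
      ⌊π₀ * J⌋₊ A z z' G)

theorem AltE.win {S : PCl m} (h : AltE S I κ K e₀ ρ₀ π₀ w) {w₁ : ℝ} (hw : w ≤ w₁) (hw1 : w₁ ≤ 1) :
    AltE S I κ K e₀ ρ₀ π₀ w₁ := by
  refine Bas.mono 0 h ?_
  rintro J - F A ⟨V, z, z', G, hG⟩
  obtain ⟨f1, f2⟩ := floorw hw hw1 J
  exact ⟨V, z, _, G, lbok_win hG f1 f2⟩

theorem alt_lo {S : PCl m} (h : AltE S I κ K e₀ ρ₀ π₀ w) (hs : s₀ ≤ s₁) :
    Bas S (qCp (altQ I I₀ κ K e₀ ρ₀ π₀ w s₀ s₁) (-((s₁ - s₀) * Real.log 2 + 2))) := by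
  refine Bas.mono 1 h ?_
  rintro J hJ F A ⟨V, z, z', G, hG⟩
  refine ⟨_, _, _, ⟨V, z, z', G, hG, fun _ _ => rfl, fun _ _ _ _ => Iff.rfl⟩, fun v => ?_⟩
  refine (alt_cbd (κ := κ) (I₀ := I₀) F A z' ⌊w * J⌋₊ G hs v).trans (Real.exp_le_exp.2 ?_)
  have h1 : (1 : ℝ) ≤ J := by exact_mod_cast hJ
  have h2 : Real.log 7 ≤ 2 := by
    rw [Real.log_le_iff_le_exp (by norm_num)]
    have h3 := Real.exp_one_gt_d9
    have h4 : Real.exp 2 = Real.exp 1 * Real.exp 1 := by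
      rw [← Real.exp_add]
      norm_num
    rw [h4]
    nlinarith
  nlinarith

/-- The parameters of a number. -/
structure Par (m : ℕ) where
  I : Finset (Fin m)
  I₀ : Finset (Fin m)
  κ : Fin m
  K : ℕ
  e₀ : ℝ
  ρ₀ : ℝ
  π₀ : ℝ
  w : ℝ
  s₀ : ℝ
  s₁ : ℝ

/-- **The numbers of countably many parameters exist in a subclass.** -/
theorem alt_ext {ι : Type} [Countable ι] {S : PCl m} (hS : S.Ne) (hpos : ∀ (τ : ℝ) (J : ℕ)
      (F : Fam m J) (A : F.Ω → Prop), S.St τ J F A → 0 < Pe F.p A) (P : ι → Par m) :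
    ∃ S' : PCl m, S'.Ne ∧
      (∀ (τ : ℝ) (J : ℕ) (F : Fam m J) (A : F.Ω → Prop), S'.St τ J F A → S.St τ J F A) ∧
      ∀ i, (P i).s₀ ≤ (P i).s₁ → AltE S (P i).I (P i).κ (P i).K (P i).e₀ (P i).ρ₀ (P i).π₀ (P i).w →
        ∃ θ : ℝ, CNum (altQ (P i).I (P i).I₀ (P i).κ (P i).K (P i).e₀ (P i).ρ₀ (P i).π₀ (P i).w (P i).s₀ (P i).s₁)
          S' θ := by
  classical
  obtain ⟨κ', hκ'⟩ : ∃ κ' : Type, κ' = {i : ι // (P i).s₀ ≤ (P i).s₁ ∧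
    AltE S (P i).I (P i).κ (P i).K (P i).e₀ (P i).ρ₀ (P i).π₀ (P i).w} := ⟨_, rfl⟩
  subst hκ'
  rcases isEmpty_or_nonempty {i : ι // (P i).s₀ ≤ (P i).s₁ ∧
    AltE S (P i).I (P i).κ (P i).K (P i).e₀ (P i).ρ₀ (P i).π₀ (P i).w} with he | he
  · exact ⟨S, hS, fun _ _ _ _ h => h, fun i h1 h2 => (he.false ⟨i, h1, h2⟩).elim⟩
  · obtain ⟨e, hesurj⟩ := exists_surjective_nat {i : ι // (P i).s₀ ≤ (P i).s₁ ∧
      AltE S (P i).I (P i).κ (P i).K (P i).e₀ (P i).ρ₀ (P i).π₀ (P i).w}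
    obtain ⟨S', h1, h2, h3⟩ := ext_cp hS hpos (fun n => altQ (P (e n).1).I (P (e n).1).I₀
      (P (e n).1).κ (P (e n).1).K (P (e n).1).e₀ (P (e n).1).ρ₀ (P (e n).1).π₀ (P (e n).1).w (P (e n).1).s₀ (P (e n).1).s₁)
      (fun n => ((P (e n).1).s₁ - (P (e n).1).s₀) * Real.log 2 + 2)
      (fun n => alt_lo (e n).2.2 (e n).2.1)
    refine ⟨S', h1, h2, fun i a b => ?_⟩
    obtain ⟨n, hn⟩ := hesurj ⟨i, a, b⟩
    have h4 := h3 n
    rw [hn] at h4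
    exact h4

end Pool.ALT
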