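import Pool.Agent.H71.AVG.Law

/-!
# Reading a coordinate through a polynomial of bounded degree

`seg_slope`: between two points with the same number of roots of `f' ^ 2 - m ^ 2` and of
`f' ^ 2 - M ^ 2` below them the slope of `f` is between `m` and `M`. `read_low`: if `Z` is a
polynomial of `X` with slopes in `[m, M]`, up to `E`, then the digits of `Z` from `a` to `a'` carry
the entropy of `X`, up to the digits of `X` which are known and the digits which are not read.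
-/

set_option autoImplicit false

namespace Pool.ALT

open Finset Real
open Pool.Agent.H49.Ent Pool.Agent.H32.Dense Pool.STK

/-- The number of roots below a point. -/
noncomputable def nlt (P : Polynomial ℝ) (u : ℝ) : ℤ :=
  ((P.roots.toFinset.filter (fun r => r < u)).card : ℤ)

theorem nlt_nonneg (P : Polynomial ℝ) (u : ℝ) : 0 ≤ nlt P u := Int.natCast_nonneg _

theorem nlt_le (P : Polynomial ℝ) {K : ℕ} (hP : P.natDegree ≤ K) (u : ℝ) : nlt P u ≤ K := by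
  unfold nlt
  have h1 : (P.roots.toFinset.filter (fun r => r < u)).card ≤ K := by
    refine (Finset.card_filter_le _ _).trans ?_
    refine (Multiset.toFinset_card_le _).trans ?_
    exact (Polynomial.card_roots' P).trans hP
  exact_mod_cast h1

theorem nlt_lt {P : Polynomial ℝ} (h0 : P ≠ 0) {u u' r : ℝ} (h1 : u ≤ r) (h2 : r < u')
    (hr : P.eval r = 0) : nlt P u < nlt P u' := by
  unfold nlt
  have h3 : (P.roots.toFinset.filter (fun r => r < u)) ⊂
      (P.roots.toFinset.filter (fun r => r < u')) := by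
    rw [Finset.ssubset_iff_of_subset]
    · refine ⟨r, ?_, ?_⟩
      · rw [Finset.mem_filter, Multiset.mem_toFinset, Polynomial.mem_roots h0]
        exact ⟨hr, h2⟩
      · rw [Finset.mem_filter]
        rintro ⟨-, h4⟩
        linarith
    · intro x hx
      rw [Finset.mem_filter] at hx ⊢
      exact ⟨hx.1, by linarith [hx.2]⟩
  exact_mod_cast Finset.card_lt_card h3

/-- No sign change between two points with the same number of roots below them. -/
theorem seg_sign {P : Polynomial ℝ} {u u' : ℝ} (hn : nlt P u = nlt P u') (h0 : 0 ≤ P.eval u)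
    {x : ℝ} (hx : u ≤ x) (hx' : x ≤ u') : 0 ≤ P.eval x := by
  by_contra hneg
  push Not at hneg
  have hP : P ≠ 0 := by
    intro h
    rw [h, Polynomial.eval_zero] at hneg
    exact lt_irrefl _ hneg
  have hc : ContinuousOn (fun y => P.eval y) (Set.Icc u x) := P.continuous.continuousOn
  have h1 := intermediate_value_Icc' hx hc
  obtain ⟨r, hr, hr0⟩ := h1 ⟨hneg.le, h0⟩
  have hrx : r ≠ x := by
    rintro rfl
    change P.eval r = 0 at hr0
    rw [hr0] at hneg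
    exact lt_irrefl _ hneg
  have h2 : r < u' := lt_of_lt_of_le (lt_of_le_of_ne hr.2 hrx) hx'
  have h3 := nlt_lt hP hr.1 h2 hr0
  omega

theorem seg_one {f : Polynomial ℝ} {m M u u' : ℝ} (hm : 0 ≤ m) (hM : 0 ≤ M) (huu : u ≤ u')
    (h1 : m ≤ |(Polynomial.derivative f).eval u|) (h2 : |(Polynomial.derivative f).eval u| ≤ M)
    (hn1 : nlt (Polynomial.derivative f ^ 2 - Polynomial.C (m ^ 2)) u =
      nlt (Polynomial.derivative f ^ 2 - Polynomial.C (m ^ 2)) u')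
    (hn2 : nlt (Polynomial.C (M ^ 2) - Polynomial.derivative f ^ 2) u =
      nlt (Polynomial.C (M ^ 2) - Polynomial.derivative f ^ 2) u') :
    m * |u - u'| ≤ |f.eval u - f.eval u'| ∧ |f.eval u - f.eval u'| ≤ M * |u - u'| := by
  rcases eq_or_lt_of_le huu with rfl | hlt
  · simp
  obtain ⟨c, hc, hc'⟩ := exists_deriv_eq_slope (fun y => f.eval y) hlt
    f.continuous.continuousOn f.differentiable.differentiableOn
  rw [Polynomial.deriv] at hc'
  have e1 : f.eval u' - f.eval u = (Polynomial.derivative f).eval c * (u' - u) := by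
    rw [hc']
    have : u' - u ≠ 0 := by linarith
    field_simp
  have e2 : |f.eval u - f.eval u'| = |(Polynomial.derivative f).eval c| * |u - u'| := by
    rw [abs_sub_comm, e1, abs_mul, abs_sub_comm u' u]
  have s1 := seg_sign hn1 (by
    rw [Polynomial.eval_sub, Polynomial.eval_pow, Polynomial.eval_C]
    have := pow_le_pow_left₀ hm h1 2
    rw [sq_abs] at this
    linarith) hc.1.le hc.2.le
  have s2 := seg_sign hn2 (by
    rw [Polynomial.eval_sub, Polynomial.eval_pow, Polynomial.eval_C]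
    have := pow_le_pow_left₀ (abs_nonneg _) h2 2
    rw [sq_abs] at this
    linarith) hc.1.le hc.2.le
  rw [Polynomial.eval_sub, Polynomial.eval_pow, Polynomial.eval_C] at s1 s2
  have g1 : m ≤ |(Polynomial.derivative f).eval c| := by
    exact le_of_sq_le_sq' hm (abs_nonneg _) (by rw [sq_abs]; linarith)
  have g2 : |(Polynomial.derivative f).eval c| ≤ M := by
    exact le_of_sq_le_sq' (abs_nonneg _) hM (by rw [sq_abs]; linarith)
  rw [e2]
  exact ⟨mul_le_mul_of_nonneg_right g1 (abs_nonneg _),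
    mul_le_mul_of_nonneg_right g2 (abs_nonneg _)⟩
where
  le_of_sq_le_sq' {a b : ℝ} (ha : 0 ≤ a) (hb : 0 ≤ b) (h : a ^ 2 ≤ b ^ 2) : a ≤ b := by
    have := abs_le_of_sq_le_sq h hb
    rwa [abs_of_nonneg ha] at this

/-- **Between two points with the same numbers of roots below them** the slope is bounded. -/
theorem seg_slope {f : Polynomial ℝ} {m M u u' : ℝ} (hm : 0 ≤ m) (hM : 0 ≤ M)
    (h1 : m ≤ |(Polynomial.derivative f).eval u|) (h2 : |(Polynomial.derivative f).eval u| ≤ M)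
    (h1' : m ≤ |(Polynomial.derivative f).eval u'|)
    (h2' : |(Polynomial.derivative f).eval u'| ≤ M)
    (hn1 : nlt (Polynomial.derivative f ^ 2 - Polynomial.C (m ^ 2)) u =
      nlt (Polynomial.derivative f ^ 2 - Polynomial.C (m ^ 2)) u')
    (hn2 : nlt (Polynomial.C (M ^ 2) - Polynomial.derivative f ^ 2) u =
      nlt (Polynomial.C (M ^ 2) - Polynomial.derivative f ^ 2) u') :
    m * |u - u'| ≤ |f.eval u - f.eval u'| ∧ |f.eval u - f.eval u'| ≤ M * |u - u'| := by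
  rcases le_total u u' with h | h
  · exact seg_one hm hM h h1 h2 hn1 hn2
  · have := seg_one hm hM h h1' h2' hn1.symm hn2.symm
    rwa [abs_sub_comm u' u, abs_sub_comm (f.eval u') (f.eval u)] at this

/-- One more bounded integer. -/
theorem CH_idx {Ω C T : Type} [Fintype Ω] {q : Ω → ℝ} (hq : IsLaw q) (X : Ω → T) (Y : Ω → C)
    (n : Ω → ℤ) {N : ℕ} (h0 : ∀ ω, 0 ≤ n ω) (h1 : ∀ ω, n ω ≤ N) :
    CH q X Y ≤ Real.log (2 * N + 1) + CH q X (fun ω => (n ω, Y ω)) := by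
  have a1 := CH_le_add hq.nonneg X n Y
  have a2 := Pool.AVG71.CH_pair_int hq n Y (D := N) (Nat.cast_nonneg N) (by
    intro ω ω' _ _ _
    have b1 : |n ω - n ω'| ≤ (N : ℤ) := by
      rw [abs_le]
      have := h0 ω
      have := h0 ω'
      have := h1 ω
      have := h1 ω'
      constructor <;> omega
    have b2 : ((|n ω - n ω'| : ℤ) : ℝ) ≤ ((N : ℤ) : ℝ) := by exact_mod_cast b1
    push_cast at b2
    exact b2)
  linarith

theorem fl_sub {a b : ℝ} (M : ℝ) (h : |a - b| ≤ M) : |((⌊a⌋ : ℤ) : ℝ) - (⌊b⌋ : ℤ)| ≤ M + 1 := by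
  have c1 := Int.floor_le a
  have c2 := Int.lt_floor_add_one a
  have c3 := Int.floor_le b
  have c4 := Int.lt_floor_add_one b
  rw [abs_le] at h ⊢
  constructor <;> linarith [h.1, h.2]

theorem fl_eq {a x y : ℝ} (ha : 0 < a) (h : ⌊a * x⌋ = ⌊a * y⌋) : |x - y| ≤ 1 / a := by
  have c1 := Int.floor_le (a * x)
  have c2 := Int.lt_floor_add_one (a * x)
  have c3 := Int.floor_le (a * y)
  have c4 := Int.lt_floor_add_one (a * y)
  rw [h] at c1 c2
  have h5 : |a * (x - y)| ≤ 1 := by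
    rw [mul_sub, abs_le]
    constructor <;> linarith
  rw [abs_mul, abs_of_pos ha] at h5
  rw [le_div_iff₀ ha]
  linarith

/-- **Reading a coordinate through a polynomial.** -/
theorem read_low {Ω C : Type} [Fintype Ω] {q : Ω → ℝ} (hq : IsLaw q) (K : ℕ)
    (f : C → Polynomial ℝ) (hf : ∀ y, (f y).natDegree ≤ K) (Y : Ω → C) (X : Ω → ℤ) (J : ℕ)
    (Z : Ω → ℝ) {m M ℓ E a a' : ℝ} (hm : 0 < m) (hM : 0 ≤ M) (hE : 0 ≤ E) (hℓ0 : 0 ≤ ℓ)
    (ha : 0 < a) (ha' : 0 < a')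
    (hsl : ∀ ω, 0 < q ω → m ≤ |(Polynomial.derivative (f (Y ω))).eval ((X ω : ℝ) / 2 ^ J)| ∧
      |(Polynomial.derivative (f (Y ω))).eval ((X ω : ℝ) / 2 ^ J)| ≤ M)
    (hZ : ∀ ω, 0 < q ω → |Z ω - (f (Y ω)).eval ((X ω : ℝ) / 2 ^ J)| ≤ E)
    (hℓ : ∀ ω ω', 0 < q ω → 0 < q ω' → Y ω = Y ω' →
      |(X ω : ℝ) / 2 ^ J - (X ω' : ℝ) / 2 ^ J| ≤ ℓ) :
    CH q X Y ≤ CH q (fun ω => ⌊a' * Z ω⌋) (fun ω => (⌊a * Z ω⌋, Y ω)) +
      Real.log (2 * (a * (M * ℓ + 2 * E) + 1) + 1) +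
      Real.log (2 * (2 ^ J * ((1 / a' + 2 * E) / m)) + 1) +
      2 * Real.log (2 * ((2 * K : ℕ) : ℝ) + 1) := by
  have h0 := hq.nonneg
  obtain ⟨P₁, hP₁⟩ : ∃ P₁ : C → Polynomial ℝ, P₁ = fun y => Polynomial.derivative (f y) ^ 2 -
    Polynomial.C (m ^ 2) := ⟨_, rfl⟩
  obtain ⟨P₂, hP₂⟩ : ∃ P₂ : C → Polynomial ℝ, P₂ = fun y => Polynomial.C (M ^ 2) -
    Polynomial.derivative (f y) ^ 2 := ⟨_, rfl⟩
  have hd : ∀ y, (Polynomial.derivative (f y) ^ 2).natDegree ≤ 2 * K := fun y => by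
    refine Polynomial.natDegree_pow_le.trans ?_
    have h1 := (Polynomial.natDegree_derivative_le (f y)).trans (Nat.sub_le_sub_right (hf y) 1)
    omega
  have hd₁ : ∀ y, (P₁ y).natDegree ≤ 2 * K := fun y => by
    rw [hP₁]
    refine (Polynomial.natDegree_sub_le _ _).trans (max_le (hd y) ?_)
    rw [Polynomial.natDegree_C]
    exact Nat.zero_le _
  have hd₂ : ∀ y, (P₂ y).natDegree ≤ 2 * K := fun y => by
    rw [hP₂]
    refine (Polynomial.natDegree_sub_le _ _).trans (max_le ?_ (hd y))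
    rw [Polynomial.natDegree_C]
    exact Nat.zero_le _
  obtain ⟨n₁, hn₁⟩ : ∃ n₁ : Ω → ℤ, n₁ = fun ω => nlt (P₁ (Y ω)) ((X ω : ℝ) / 2 ^ J) := ⟨_, rfl⟩
  obtain ⟨n₂, hn₂⟩ : ∃ n₂ : Ω → ℤ, n₂ = fun ω => nlt (P₂ (Y ω)) ((X ω : ℝ) / 2 ^ J) := ⟨_, rfl⟩
  have i1 := CH_idx hq X Y n₁ (N := 2 * K) (fun ω => by rw [hn₁]; exact nlt_nonneg _ _)
    (fun ω => by rw [hn₁]; exact nlt_le _ (hd₁ _) _)
  have i2 := CH_idx hq X (fun ω => (n₁ ω, Y ω)) n₂ (N := 2 * K)
    (fun ω => by rw [hn₂]; exact nlt_nonneg _ _)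
    (fun ω => by rw [hn₂]; exact nlt_le _ (hd₂ _) _)
  obtain ⟨Y', hY'⟩ : ∃ Y' : Ω → ℤ × (ℤ × C), Y' = fun ω => (n₂ ω, (n₁ ω, Y ω)) := ⟨_, rfl⟩
  have i2' : CH q X (fun ω => (n₁ ω, Y ω)) ≤ Real.log (2 * ((2 * K : ℕ) : ℝ) + 1) +
      CH q X Y' := by
    rw [hY']
    exact i2
  -- two samples
  have two : ∀ ω ω', 0 < q ω → 0 < q ω' → Y' ω = Y' ω' → Y ω = Y ω' ∧
      m * |(X ω : ℝ) / 2 ^ J - (X ω' : ℝ) / 2 ^ J| ≤
        |(f (Y ω)).eval ((X ω : ℝ) / 2 ^ J) - (f (Y ω')).eval ((X ω' : ℝ) / 2 ^ J)| ∧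
      |(f (Y ω)).eval ((X ω : ℝ) / 2 ^ J) - (f (Y ω')).eval ((X ω' : ℝ) / 2 ^ J)| ≤
        M * |(X ω : ℝ) / 2 ^ J - (X ω' : ℝ) / 2 ^ J| := by
    intro ω ω' hω hω' e
    rw [hY'] at e
    simp only [Prod.mk.injEq] at e
    obtain ⟨e2, e1, e0⟩ := e
    rw [hn₁] at e1
    rw [hn₂] at e2
    have s1 := hsl ω hω
    have s2 := hsl ω' hω'
    simp only [← e0] at e1 e2 s2 ⊢
    rw [hP₁] at e1
    rw [hP₂] at e2
    exact ⟨trivial, seg_slope hm.le hM s1.1 s1.2 s2.1 s2.2 e1 e2⟩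
  -- the first digits
  have j1 := CH_le_add h0 X (fun ω => ⌊a * Z ω⌋) Y'
  have j2 : CH q (fun ω => ⌊a * Z ω⌋) Y' ≤ Real.log (2 * (a * (M * ℓ + 2 * E) + 1) + 1) := by
    refine Pool.AVG71.CH_pair_int hq _ _ (by positivity) fun ω ω' hω hω' e => ?_
    obtain ⟨e0, -, t2⟩ := two ω ω' hω hω' e
    refine fl_sub _ ?_
    rw [← mul_sub, abs_mul, abs_of_pos ha]
    refine mul_le_mul_of_nonneg_left ?_ ha.le
    have z1 := hZ ω hω
    have z2 := hZ ω' hω'
    have z3 := mul_le_mul_of_nonneg_left (hℓ ω ω' hω hω' e0) hM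
    have e3 : Z ω - Z ω' = (Z ω - (f (Y ω)).eval ((X ω : ℝ) / 2 ^ J)) -
      (Z ω' - (f (Y ω')).eval ((X ω' : ℝ) / 2 ^ J)) +
      ((f (Y ω)).eval ((X ω : ℝ) / 2 ^ J) - (f (Y ω')).eval ((X ω' : ℝ) / 2 ^ J)) := by ring
    rw [e3]
    refine (abs_add_le _ _).trans ?_
    have z4 := abs_sub (Z ω - (f (Y ω)).eval ((X ω : ℝ) / 2 ^ J))
      (Z ω' - (f (Y ω')).eval ((X ω' : ℝ) / 2 ^ J))
    linarith
  -- the last digits
  have j3 := CH_le_add h0 X (fun ω => ⌊a' * Z ω⌋) (fun ω => (⌊a * Z ω⌋, Y' ω))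
  have j4 : CH q X (fun ω => (⌊a' * Z ω⌋, (⌊a * Z ω⌋, Y' ω))) ≤
      Real.log (2 * (2 ^ J * ((1 / a' + 2 * E) / m)) + 1) := by
    refine Pool.AVG71.CH_pair_int hq _ _ (by positivity) fun ω ω' hω hω' e => ?_
    simp only [Prod.mk.injEq] at e
    obtain ⟨ea, -, e⟩ := e
    obtain ⟨e0, t1, -⟩ := two ω ω' hω hω' e
    have z0 := fl_eq ha' ea
    have z1 := hZ ω hω
    have z2 := hZ ω' hω'
    have e3 : (f (Y ω)).eval ((X ω : ℝ) / 2 ^ J) - (f (Y ω')).eval ((X ω' : ℝ) / 2 ^ J) =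
      (Z ω - Z ω') - ((Z ω - (f (Y ω)).eval ((X ω : ℝ) / 2 ^ J)) -
      (Z ω' - (f (Y ω')).eval ((X ω' : ℝ) / 2 ^ J))) := by ring
    have z5 : |(f (Y ω)).eval ((X ω : ℝ) / 2 ^ J) - (f (Y ω')).eval ((X ω' : ℝ) / 2 ^ J)| ≤
        1 / a' + 2 * E := by
      rw [e3]
      refine (abs_sub _ _).trans ?_
      have z4 := abs_sub (Z ω - (f (Y ω)).eval ((X ω : ℝ) / 2 ^ J))
        (Z ω' - (f (Y ω')).eval ((X ω' : ℝ) / 2 ^ J))
      linarith
    have z6 : |(X ω : ℝ) / 2 ^ J - (X ω' : ℝ) / 2 ^ J| ≤ (1 / a' + 2 * E) / m := by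
      rw [le_div_iff₀ hm]
      linarith
    have e4 : (X ω : ℝ) - X ω' = 2 ^ J * ((X ω : ℝ) / 2 ^ J - (X ω' : ℝ) / 2 ^ J) := by
      field_simp
    rw [e4, abs_mul, abs_of_pos (show (0 : ℝ) < 2 ^ J by positivity)]
    exact mul_le_mul_of_nonneg_left z6 (by positivity)
  have j5 : CH q (fun ω => ⌊a' * Z ω⌋) (fun ω => (⌊a * Z ω⌋, Y' ω)) ≤
      CH q (fun ω => ⌊a' * Z ω⌋) (fun ω => (⌊a * Z ω⌋, Y ω)) := by
    refine CH_mono_cond h0 fun ω ω' _ _ e => ?_
    rw [hY'] at e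
    simp only [Prod.mk.injEq] at e ⊢
    exact ⟨e.1, e.2.2.2⟩
  linarith

/-- **A polynomial with a slope which is not small** determines the coordinate. -/
theorem read_up {Ω C : Type} [Fintype Ω] {q : Ω → ℝ} (hq : IsLaw q) (K : ℕ)
    (f : C → Polynomial ℝ) (hf : ∀ y, (f y).natDegree ≤ K) (Y : Ω → C) (X : Ω → ℤ) (J : ℕ)
    {m E : ℝ} (hm : 0 < m) (hE : 0 ≤ E)
    (hsl : ∀ ω, 0 < q ω → m ≤ |(Polynomial.derivative (f (Y ω))).eval ((X ω : ℝ) / 2 ^ J)|)
    (hZ : ∀ ω, 0 < q ω → |(f (Y ω)).eval ((X ω : ℝ) / 2 ^ J)| ≤ E) :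
    CH q X Y ≤ Real.log (2 * (2 ^ J * (2 * E / m)) + 1) +
      2 * Real.log (2 * ((2 * K : ℕ) : ℝ) + 1) := by
  have h0 := hq.nonneg
  obtain ⟨P₁, hP₁⟩ : ∃ P₁ : C → Polynomial ℝ, P₁ = fun y => Polynomial.derivative (f y) ^ 2 -
    Polynomial.C (m ^ 2) := ⟨_, rfl⟩
  have hd : ∀ y, (Polynomial.derivative (f y) ^ 2).natDegree ≤ 2 * K := fun y => by
    refine Polynomial.natDegree_pow_le.trans ?_
    have h1 := (Polynomial.natDegree_derivative_le (f y)).trans (Nat.sub_le_sub_right (hf y) 1)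
    omega
  have hd₁ : ∀ y, (P₁ y).natDegree ≤ 2 * K := fun y => by
    rw [hP₁]
    refine (Polynomial.natDegree_sub_le _ _).trans (max_le (hd y) ?_)
    rw [Polynomial.natDegree_C]
    exact Nat.zero_le _
  obtain ⟨n₁, hn₁⟩ : ∃ n₁ : Ω → ℤ, n₁ = fun ω => nlt (P₁ (Y ω)) ((X ω : ℝ) / 2 ^ J) := ⟨_, rfl⟩
  have i1 := CH_idx hq X Y n₁ (N := 2 * K) (fun ω => by rw [hn₁]; exact nlt_nonneg _ _)
    (fun ω => by rw [hn₁]; exact nlt_le _ (hd₁ _) _)
  have i2 : CH q X (fun ω => (n₁ ω, Y ω)) ≤ Real.log (2 * (2 ^ J * (2 * E / m)) + 1) := by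
    refine Pool.AVG71.CH_pair_int hq _ _ (by positivity) fun ω ω' hω hω' e => ?_
    simp only [Prod.mk.injEq] at e
    obtain ⟨e1, e0⟩ := e
    rw [hn₁] at e1
    have s1 := hsl ω hω
    have s2 := hsl ω' hω'
    have z1 := hZ ω hω
    have z2 := hZ ω' hω'
    simp only [← e0] at e1 s2 z2
    rw [hP₁] at e1
    have key : m * |(X ω : ℝ) / 2 ^ J - (X ω' : ℝ) / 2 ^ J| ≤
        |(f (Y ω)).eval ((X ω : ℝ) / 2 ^ J) - (f (Y ω)).eval ((X ω' : ℝ) / 2 ^ J)| := by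
      rcases le_total ((X ω : ℝ) / 2 ^ J) ((X ω' : ℝ) / 2 ^ J) with h | h
      · exact seg_low hm.le h s1 e1
      · have := seg_low hm.le h s2 e1.symm
        rwa [abs_sub_comm ((X ω' : ℝ) / 2 ^ J), abs_sub_comm ((f (Y ω)).eval _)] at this
    have z3 := abs_sub ((f (Y ω)).eval ((X ω : ℝ) / 2 ^ J)) ((f (Y ω)).eval ((X ω' : ℝ) / 2 ^ J))
    have z6 : |(X ω : ℝ) / 2 ^ J - (X ω' : ℝ) / 2 ^ J| ≤ 2 * E / m := by
      rw [le_div_iff₀ hm]
      linarith
    have e4 : (X ω : ℝ) - X ω' = 2 ^ J * ((X ω : ℝ) / 2 ^ J - (X ω' : ℝ) / 2 ^ J) := by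
      field_simp
    rw [e4, abs_mul, abs_of_pos (show (0 : ℝ) < 2 ^ J by positivity)]
    exact mul_le_mul_of_nonneg_left z6 (by positivity)
  have i3 : 0 ≤ Real.log (2 * ((2 * K : ℕ) : ℝ) + 1) := Real.log_nonneg (by
    have : (0 : ℝ) ≤ ((2 * K : ℕ) : ℝ) := Nat.cast_nonneg _
    linarith)
  linarith
where
  seg_low {f : Polynomial ℝ} {m u u' : ℝ} (hm : 0 ≤ m) (huu : u ≤ u')
      (h1 : m ≤ |(Polynomial.derivative f).eval u|)
      (hn1 : nlt (Polynomial.derivative f ^ 2 - Polynomial.C (m ^ 2)) u =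
        nlt (Polynomial.derivative f ^ 2 - Polynomial.C (m ^ 2)) u') :
      m * |u - u'| ≤ |f.eval u - f.eval u'| := by
    rcases eq_or_lt_of_le huu with rfl | hlt
    · simp
    obtain ⟨c, hc, hc'⟩ := exists_deriv_eq_slope (fun y => f.eval y) hlt
      f.continuous.continuousOn f.differentiable.differentiableOn
    rw [Polynomial.deriv] at hc'
    have e1 : f.eval u' - f.eval u = (Polynomial.derivative f).eval c * (u' - u) := by
      rw [hc']
      have : u' - u ≠ 0 := by linarith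
      field_simp
    have e2 : |f.eval u - f.eval u'| = |(Polynomial.derivative f).eval c| * |u - u'| := by
      rw [abs_sub_comm, e1, abs_mul, abs_sub_comm u' u]
    have s1 := seg_sign hn1 (by
      rw [Polynomial.eval_sub, Polynomial.eval_pow, Polynomial.eval_C]
      have := pow_le_pow_left₀ hm h1 2
      rw [sq_abs] at this
      linarith) hc.1.le hc.2.le
    rw [Polynomial.eval_sub, Polynomial.eval_pow, Polynomial.eval_C] at s1
    have g1 : m ≤ |(Polynomial.derivative f).eval c| := by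
      rw [← sq_abs] at s1
      have := abs_le_of_sq_le_sq (a := m) (b := |(Polynomial.derivative f).eval c|) (by linarith)
        (abs_nonneg _)
      rwa [abs_of_nonneg hm] at this
    rw [e2]
    exact mul_le_mul_of_nonneg_right g1 (abs_nonneg _)

end Pool.ALT
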