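import Pool.Agent.H60.ALT.Nzc

/-!
# Naturalization of a blind label

`BlC`: the labels of a family have the slopes of the labels of the window `v`, at the samples.
`box_pt`: then there are samples in each large event with the same slopes on the whole box. `nz_p`:
a blind label has a natural correction over the base. `blind_bt`: the slopes at the exact samples.
-/

set_option autoImplicit false

namespace Pool.ALT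

open Finset Real MvPolynomial
open Pool.Agent.H49.Ent Pool.Agent.H32.Dense Pool.STK Pool.KA Pool.KSAT Pool.K2S Pool.PB Pool.S6C
  Pool.GEN Pool.RCD Pool.LA91 Pool.OWN68
open Pool.UNJ (ceI)
open Pool.GRW (xr xr_near)
open Pool.BFL (Pb)
open Pool.GRD (LbP)
open Pool.LIV (Pb_mono25 Pb_or25)

variable {m : ℕ}

/-- The degree of a derivative. -/
theorem pd_dg {ι : Type} (p : MvPolynomial ι ℝ) (o : ι) :
    (pderiv o p).totalDegree ≤ p.totalDegree := by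
  classical
  conv_lhs => rw [p.as_sum, map_sum]
  refine (totalDegree_finsetSum _ _).trans (Finset.sup_le fun s hs => ?_)
  rw [pderiv_monomial]
  refine (totalDegree_monomial_le _ _).trans ?_
  refine le_trans ?_ (le_totalDegree hs)
  rw [Finsupp.sum, Finsupp.sum]
  have h1 : (s - Finsupp.single o 1).support ⊆ s.support := by
    intro x hx
    rw [Finsupp.mem_support_iff] at hx ⊢
    intro h
    apply hx
    rw [Finsupp.tsub_apply, h, Nat.zero_sub]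
  refine (Finset.sum_le_sum_of_subset h1).trans (Finset.sum_le_sum fun x _ => ?_)
  rw [Finsupp.tsub_apply]
  exact Nat.sub_le _ _

/-- A part of an event, from its probability. -/
theorem pe_part {Ω : Type} [Fintype Ω] {p : Ω → ℝ} {A : Ω → Prop} (h0 : ∀ ω, 0 ≤ p ω)
    (hA : 0 < Pe p A) (Q : Ω → Prop) {η : ℝ}
    (h : Pb (Pool.Agent.H49.Ent.cond p A True) Q ≤ η) :
    (1 - η) * Pe p A ≤ Pe p (fun ω => A ω ∧ ¬ Q ω) := by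
  classical
  rw [Pb_cond hA, div_le_iff₀ hA] at h
  have h1 : Pe p A ≤ Pe p (fun ω => A ω ∧ Q ω) + Pe p (fun ω => A ω ∧ ¬ Q ω) := by
    unfold Pe law
    rw [← Finset.sum_add_distrib]
    refine Finset.sum_le_sum fun ω _ => ?_
    have := h0 ω
    by_cases hA' : A ω
    · by_cases hQ : Q ω
      · simp [hA', hQ]
      · simp [hA', hQ]
    · simp [hA']
  linarith

/-- **The labels of the family `Ψ` have the slope of the labels of the window `v`**, at the rounded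
samples: degrees `K₁`, `Ku`, precisions `p₁`, `p₂`; up to `x₀`. -/
def BlC (S : PCl m) (c : ℕ → Fin m) (r₀ : ℕ) (κ : Fin m) (w v : ℝ) (K₁ Ku : ℕ) (p₁ p₂ x₀ : ℝ)
    (Ψ : ∀ (J : ℕ) (F : Fam m J), (F.Ω → Prop) → ∀ V : Type, (PtT F → V) → (LnT F → V) →
      (V → MvPolynomial (Option (Fin m)) ℝ) → Prop) : Prop :=
  ∀ η χ : ℝ, 0 < η → 0 < χ → Bas S (fun J F A => ∀ (V : Type) (z : PtT F → V) (z' : LnT F → V)
      (G : V → MvPolynomial (Option (Fin m)) ℝ), Ψ J F A V z z' G →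
      ∀ (P₁ : ℕ) (V₁ : Type) (z₁ : PtT F → V₁) (z₁' : LnT F → V₁)
      (G₁ : V₁ → MvPolynomial (Option (Fin m)) ℝ),
      LbP F ((range (r₀ + 1)).image c) κ K₁ J ⌊v * J⌋₊ P₁ A z₁ z₁' G₁ → (p₁ + χ) * J ≤ P₁ →
      ∀ (P₂ : ℕ) (V₂ : Type) (z₂ : PtT F → V₂) (z₂' : LnT F → V₂)
      (H : V₂ → MvPolynomial (Option (Fin m)) ℝ),
      LbP F ((range r₀).image c) (c r₀) Ku J ⌊v * J⌋₊ P₂ A z₂ z₂' H → (p₂ + χ) * J ≤ P₂ →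
      Pb (Pool.Agent.H49.Ent.cond F.p A True) (fun ω => (2 : ℝ) ^ (x₀ * J) ≤
        |eval (xr F ω) (pderiv (some (c r₀)) (G₁ (z₁' (slam F ⌊v * J⌋₊ ω)) -
          G (z' (slam F ⌊w * J⌋₊ ω))))|) ≤ η)

/-- The same at the exact samples. -/
def BlB (S : PCl m) (c : ℕ → Fin m) (r₀ : ℕ) (κ : Fin m) (w v : ℝ) (K₁ Ku : ℕ) (p₁ p₂ x₀ : ℝ)
    (Ψ : ∀ (J : ℕ) (F : Fam m J), (F.Ω → Prop) → ∀ V : Type, (PtT F → V) → (LnT F → V) →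
      (V → MvPolynomial (Option (Fin m)) ℝ) → Prop) : Prop :=
  ∀ η χ : ℝ, 0 < η → 0 < χ → Bas S (fun J F A => ∀ (V : Type) (z : PtT F → V) (z' : LnT F → V)
      (G : V → MvPolynomial (Option (Fin m)) ℝ), Ψ J F A V z z' G →
      ∀ (P₁ : ℕ) (V₁ : Type) (z₁ : PtT F → V₁) (z₁' : LnT F → V₁)
      (G₁ : V₁ → MvPolynomial (Option (Fin m)) ℝ),
      LbP F ((range (r₀ + 1)).image c) κ K₁ J ⌊v * J⌋₊ P₁ A z₁ z₁' G₁ → (p₁ + χ) * J ≤ P₁ →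
      ∀ (P₂ : ℕ) (V₂ : Type) (z₂ : PtT F → V₂) (z₂' : LnT F → V₂)
      (H : V₂ → MvPolynomial (Option (Fin m)) ℝ),
      LbP F ((range r₀).image c) (c r₀) Ku J ⌊v * J⌋₊ P₂ A z₂ z₂' H → (p₂ + χ) * J ≤ P₂ →
      Pb (Pool.Agent.H49.Ent.cond F.p A True) (fun ω => (2 : ℝ) ^ (x₀ * J) <
        |eval (bt F ω) (pderiv (some (c r₀)) (G₁ (z₁' (slam F ⌊v * J⌋₊ ω)) -
          G (z' (slam F ⌊w * J⌋₊ ω))))|) ≤ η)

/-- **The slopes on the boxes.** -/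
theorem box_pt (r₀ K K₁ : ℕ) : ∃ C : ℝ, 1 ≤ C ∧ ∀ {m : ℕ} {S : PCl m} {C₀ : ℝ} (_ : TmC S C₀)
    (_ : ∀ (τ : ℝ) (J : ℕ) (F : Fam m J) (A : F.Ω → Prop), S.St τ J F A → 0 < Pe F.p A)
    {c : ℕ → Fin m} {κ : Fin m} (_ : Set.InjOn c (Set.Iio (r₀ + 1))) {Ku : ℕ}
    {w v u₀ u₂ e₂ p₂ : ℝ} {s : ℕ → ℝ} (_ : FulC S c r₀ (r₀ + 1) v s)
    (_ : Ful S ((range r₀).image c) v u₀)
    (_ : Upg S ((range r₀).image c) (c r₀) Ku v u₂ p₂ e₂) (_ : 0 ≤ w) (_ : w ≤ v)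
    (_ : v ≤ u₀) (_ : p₂ ≤ s r₀) (ε : ℝ), 0 < ε → C * (s r₀ - p₂) ≤ ε → u₀ + ε < 1 →
    e₂ + p₂ + ε < 1 →
    ∀ (x₀ p₁ η χ : ℝ), 0 < η → 0 < χ →
    ∀ Ψ : ∀ (J : ℕ) (F : Fam m J), (F.Ω → Prop) → ∀ V : Type, (PtT F → V) → (LnT F → V) →
      (V → MvPolynomial (Option (Fin m)) ℝ) → Prop,
    (∀ (J : ℕ) (F : Fam m J) (A : F.Ω → Prop) (V : Type) (z : PtT F → V) (z' : LnT F → V)
      (G : V → MvPolynomial (Option (Fin m)) ℝ), Ψ J F A V z z' G →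
      (∀ y, (G y).totalDegree ≤ K) ∧ (∀ y, DpI ((range (r₀ + 1)).image c) (G y)) ∧
      ∀ ω, A ω → z (ptr F J ω) = z' (slam F ⌊w * J⌋₊ ω)) →
    (∀ (J : ℕ) (F : Fam m J) (A B : F.Ω → Prop) (V : Type) (z : PtT F → V)
      (z' : LnT F → V) (G : V → MvPolynomial (Option (Fin m)) ℝ), Sub B A →
      Ψ J F A V z z' G → Ψ J F B V z z' G) →
    BlC S c r₀ κ w v K₁ Ku p₁ p₂ x₀ Ψ →
    Bas S (fun J F A => ∀ (V : Type) (z : PtT F → V) (z' : LnT F → V)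
      (G : V → MvPolynomial (Option (Fin m)) ℝ), Ψ J F A V z z' G →
      ∀ (P₁ : ℕ) (V₁ : Type) (z₁ : PtT F → V₁) (z₁' : LnT F → V₁)
      (G₁ : V₁ → MvPolynomial (Option (Fin m)) ℝ),
      LbP F ((range (r₀ + 1)).image c) κ K₁ J ⌊v * J⌋₊ P₁ A z₁ z₁' G₁ → (p₁ + χ) * J ≤ P₁ →
      ∀ (P₂ : ℕ) (V₂ : Type) (z₂ : PtT F → V₂) (z₂' : LnT F → V₂)
      (H : V₂ → MvPolynomial (Option (Fin m)) ℝ),
      LbP F ((range r₀).image c) (c r₀) Ku J ⌊v * J⌋₊ P₂ A z₂ z₂' H → (p₂ + χ) * J ≤ P₂ →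
      ∀ R : F.Ω → Prop, Sub R A → Pe F.p A ≤ 1 / η * Pe F.p R → ∃ ω, R ω ∧
        ∀ x : Option (Fin m) → ℝ, |x none - F.t ω| ≤ 1 / 2 ^ ⌊u₀ * J⌋₊ →
        (∀ l < r₀, |x (some (c l)) - xr F ω (some (c l))| ≤ 1 / 2 ^ ⌊u₀ * J⌋₊) →
        |x (some (c r₀)) - eval x (H (z₂' (slam F ⌊v * J⌋₊ ω)))| ≤ 2 / 2 ^ ⌊p₂ * J⌋₊ →
        |eval x (pderiv (some (c r₀)) (G₁ (z₁' (slam F ⌊v * J⌋₊ ω)) -
          G (z' (slam F ⌊w * J⌋₊ ω))))| ≤ 2 ^ (ε * J) * 2 ^ (x₀ * J)) := by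
  classical
  obtain ⟨C, hC, hbox⟩ := box_cls r₀ (max K K₁)
  refine ⟨C, hC, ?_⟩
  intro m S C₀ htm hpos c κ hinj Ku w v u₀ u₂ e₂ p₂ s hful hbase U₂ hw0 hwv hvu hps ε hε hCε huε
    hroom x₀ p₁ η χ hη hχ Ψ hΨd hΨs hbl
  have hv0 : 0 ≤ v := hw0.trans hwv
  have he₂ : 0 ≤ e₂ := by
    obtain ⟨x, _, _, k1, k2, _⟩ := U₂.ex
    linarith
  have hbox := hbox htm hinj (Ku := Ku) hful hbase hv0 hvu U₂.u1.le he₂ U₂.p0 hps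
  have hv1 : v ≤ 1 := U₂.vu.trans U₂.u1.le
  refine Bas.mono 0 (((Pool.GRW.bas_part (U₂.up htm hχ) (c := 1 / η) (by positivity)).and
    (Pool.GRW.bas_part (hbl (1 / 2) χ (by norm_num) hχ) (c := 4 / η) (by positivity))).and
    ((Pool.GRW.bas_part (hbox ε hε hCε huε hroom) (c := 8 / η) (by positivity)).and
      (pos_bas hpos))) ?_
  rintro J - F A ⟨⟨H1, H2⟩, H3, hA⟩ V z z' G hΨ P₁ V₁ z₁ z₁' G₁ hG₁ hP₁ P₂ V₂ z₂ z₂' H hH hP₂ R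
    hRA hR1
  have hJ0 : (0 : ℝ) ≤ J := Nat.cast_nonneg J
  obtain ⟨B₁, b1, b2, b3⟩ := H1 R hRA hR1 P₂ V₂ z₂ z₂' H (hH.sub hRA) hP₂
  have b2' : Pe F.p A ≤ 4 / η * Pe F.p B₁ := by
    have : 1 / η * Pe F.p R ≤ 1 / η * (4 * Pe F.p B₁) :=
      mul_le_mul_of_nonneg_left (by linarith) (by positivity)
    calc Pe F.p A ≤ 1 / η * (4 * Pe F.p B₁) := hR1.trans this
      _ = 4 / η * Pe F.p B₁ := by ring
  have hB₁A : Sub B₁ A := fun ω hω => hRA ω (b1 ω hω)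
  have hB₁0 : 0 < Pe F.p B₁ := by
    by_contra hneg
    push Not at hneg
    have h5 : 4 / η * Pe F.p B₁ ≤ 0 := mul_nonpos_of_nonneg_of_nonpos (by positivity) hneg
    linarith
  have h6 := H2 B₁ hB₁A b2' V z z' G (hΨs J F A B₁ V z z' G hB₁A hΨ) P₁ V₁ z₁ z₁' G₁
    (hG₁.sub hB₁A) hP₁ P₂ V₂ z₂ z₂' H (hH.sub hB₁A) hP₂
  have h7 := pe_part F.isLaw.nonneg hB₁0 _ h6
  obtain ⟨B₂, hB₂⟩ : ∃ B₂ : F.Ω → Prop, B₂ = fun ω => B₁ ω ∧ ¬ (2 : ℝ) ^ (x₀ * J) ≤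
        |eval (xr F ω) (pderiv (some (c r₀)) (G₁ (z₁' (slam F ⌊v * J⌋₊ ω)) -
          G (z' (slam F ⌊w * J⌋₊ ω))))| := ⟨_, rfl⟩
  rw [← hB₂] at h7
  have hB₂B₁ : Sub B₂ B₁ := fun ω hω => by
    rw [hB₂] at hω
    exact hω.1
  have hB₂A : Sub B₂ A := fun ω hω => hB₁A ω (hB₂B₁ ω hω)
  have b4 : Pe F.p A ≤ 8 / η * Pe F.p B₂ := by
    have : 4 / η * Pe F.p B₁ ≤ 4 / η * (2 * Pe F.p B₂) :=
      mul_le_mul_of_nonneg_left (by linarith) (by positivity)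
    calc Pe F.p A ≤ 4 / η * (2 * Pe F.p B₂) := b2'.trans this
      _ = 8 / η * Pe F.p B₂ := by ring
  have hB₂0 : 0 < Pe F.p B₂ := by linarith
  obtain ⟨f1, f2⟩ := floorw hwv hv1 J
  obtain ⟨hGd, hGp, hGc⟩ := hΨd J F A V z z' G hΨ
  -- the polynomial
  have h8 := H3 B₂ hB₂A b4 (V₁ × V) (fun y => (z₁ y, z y))
    (fun y => (z₁' y, wz z' ⌊w * J⌋₊ ⌊v * J⌋₊ y))
    (fun y => pderiv (some (c r₀)) (G₁ y.1 - G y.2))
    (fun y => (pd_dg _ _).trans ((totalDegree_sub _ _).trans (max_le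
      ((hG₁.deg _).trans (le_max_right _ _)) ((hGd _).trans (le_max_left _ _)))))
    (fun y b b' h0 hb => ?_) (fun ω hω => ?_) V₂ z₂ z₂' H (b3.sub hB₂B₁) (2 ^ (x₀ * J))
    (Real.rpow_pos_of_pos (by norm_num) _) (fun ω hω => ?_)
  · -- the end
    obtain ⟨ω, hω, hbx⟩ : ∃ ω, B₂ ω ∧ ∀ x : Option (Fin m) → ℝ,
        |x none - F.t ω| ≤ 1 / 2 ^ ⌊u₀ * J⌋₊ →
        (∀ l < r₀, |x (some (c l)) - xr F ω (some (c l))| ≤ 1 / 2 ^ ⌊u₀ * J⌋₊) →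
        |x (some (c r₀)) - eval x (H (z₂' (slam F ⌊v * J⌋₊ ω)))| ≤ 2 / 2 ^ ⌊p₂ * J⌋₊ →
        |eval x (pderiv (some (c r₀)) (G₁ (z₁' (slam F ⌊v * J⌋₊ ω)) -
          G (wz z' ⌊w * J⌋₊ ⌊v * J⌋₊ (slam F ⌊v * J⌋₊ ω))))| ≤ 2 ^ (ε * J) * 2 ^ (x₀ * J) := by
      by_contra hno
      push Not at hno
      rw [Pb_all (isLaw_cond F.isLaw hB₂0) (fun ω hω => by
        intro hall
        obtain ⟨x, a1, a2, a3, a4⟩ := hno ω (of_cond_pos hω)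
        exact absurd (hall x a1 a2 a3) (not_le.2 a4))] at h8
      norm_num at h8
    refine ⟨ω, b1 ω (hB₂B₁ ω hω), fun x h1 h2 h3 => ?_⟩
    have h9 := hbx x h1 h2 h3
    rw [wz_slam z' f1 f2] at h9
    exact h9
  · have hsub : DpI ((range (r₀ + 1)).image c) (G₁ y.1 - G y.2) := DpI.sub (hG₁.dep _) (hGp _)
    have h9 : Pool.GEN.DepC c (r₀ + 1) (G₁ y.1 - G y.2) := fun a a' ha hb' =>
      hsub a a' ha fun i hi => by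
        obtain ⟨l, hl, rfl⟩ := mem_image.1 hi
        exact hb' l (mem_range.1 hl)
    exact (h9.pderiv _) b b' h0 fun l hl => hb _ (mem_image_of_mem _ (mem_range.2 hl))
  · refine Prod.ext (hG₁.cls ω (hB₂A ω hω)) ?_
    show z (ptr F J ω) = wz z' ⌊w * J⌋₊ ⌊v * J⌋₊ (slam F ⌊v * J⌋₊ ω)
    rw [wz_slam z' f1 f2]
    exact hGc ω (hB₂A ω hω)
  · rw [hB₂] at hω
    have := hω.2
    push Not at this
    show |eval (xr F ω) (pderiv (some (c r₀)) (G₁ (z₁' (slam F ⌊v * J⌋₊ ω)) -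
          G (wz z' ⌊w * J⌋₊ ⌊v * J⌋₊ (slam F ⌊v * J⌋₊ ω))))| ≤ _
    rw [wz_slam z' f1 f2]
    exact this.le

/-- **The box contains the segment from the sample to the chart.** -/
theorem seg_box {J : ℕ} {F : Fam m J} {c : ℕ → Fin m} {r₀ : ℕ}
    (hinj : Set.InjOn c (Set.Iio (r₀ + 1))) {u₀ p₂ : ℝ} (hu₀ : u₀ ≤ 1)
    {h : MvPolynomial (Option (Fin m)) ℝ} (hh : DpI ((range r₀).image c) h) {P₂ : ℕ}
    (hP₂ : p₂ * J ≤ P₂) {ω : F.Ω} {g : MvPolynomial (Option (Fin m)) ℝ} {M : ℝ}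
    (hbx : ∀ x : Option (Fin m) → ℝ, |x none - F.t ω| ≤ 1 / 2 ^ ⌊u₀ * J⌋₊ →
      (∀ l < r₀, |x (some (c l)) - xr F ω (some (c l))| ≤ 1 / 2 ^ ⌊u₀ * J⌋₊) →
      |x (some (c r₀)) - eval x h| ≤ 2 / 2 ^ ⌊p₂ * J⌋₊ → |eval x g| ≤ M) {y : ℝ}
    (hy : |y - eval (bt F ω) h| ≤ 1 / 2 ^ P₂) :
    |eval (Function.update (bt F ω) (some (c r₀)) y) g| ≤ M := by
  have hne : ∀ l < r₀, (some (c l) : Option (Fin m)) ≠ some (c r₀) := fun l hl h => by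
    have h3 := hinj (Set.mem_Iio.2 (by omega : l < r₀ + 1))
      (Set.mem_Iio.2 (Nat.lt_succ_self r₀)) (Option.some.inj h)
    omega
  refine hbx _ ?_ (fun l hl => ?_) ?_
  · rw [Function.update_of_ne (by simp)]
    have : bt F ω none = F.t ω := rfl
    rw [this, sub_self, abs_zero]
    positivity
  · rw [Function.update_of_ne (hne l hl), abs_sub_comm]
    refine (xr_near F ω (some (c l))).trans ?_
    have h10 : ⌊u₀ * J⌋₊ ≤ J := floor_le hu₀ J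
    exact one_div_le_one_div_of_le (by positivity) (pow_le_pow_right₀ (by norm_num) h10)
  · rw [Function.update_self]
    have e1 : eval (Function.update (bt F ω) (some (c r₀)) y) h = eval (bt F ω) h := by
      refine hh _ _ (Function.update_of_ne (by simp) _ _) fun i hi => ?_
      obtain ⟨l, hl, rfl⟩ := mem_image.1 hi
      exact Function.update_of_ne (hne l (mem_range.1 hl)) _ _
    rw [e1]
    refine hy.trans ?_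
    have h10 : ⌊p₂ * J⌋₊ ≤ P₂ := Nat.floor_le_of_le hP₂
    calc (1 : ℝ) / 2 ^ P₂ ≤ 1 / 2 ^ ⌊p₂ * J⌋₊ :=
          one_div_le_one_div_of_le (by positivity) (pow_le_pow_right₀ (by norm_num) h10)
      _ ≤ 2 / 2 ^ ⌊p₂ * J⌋₊ := div_le_div_of_nonneg_right (by norm_num) (by positivity)

/-- From a point of each large event to a probability. -/
theorem pb_of_pt {Ω : Type} [Fintype Ω] {p : Ω → ℝ} {A : Ω → Prop} (hA : 0 < Pe p A)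
    {η : ℝ} (hη : 0 < η) (Q : Ω → Prop)
    (h : ∀ R : Ω → Prop, Sub R A → Pe p A ≤ 1 / η * Pe p R → ∃ ω, R ω ∧ ¬ Q ω) :
    Pb (Pool.Agent.H49.Ent.cond p A True) Q ≤ η := by
  by_contra hcon
  rw [not_le, Pb_cond hA, lt_div_iff₀ hA] at hcon
  obtain ⟨ω, h1, h2⟩ := h (fun ω => A ω ∧ Q ω) (fun ω hω => hω.1) (by
    rw [one_div, ← div_eq_inv_mul, le_div_iff₀ hη]
    linarith)
  exact h2 h1.2

/-- **A blind label has a natural correction over the base.** -/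
theorem nz_p (r₀ K K₁ : ℕ) : ∃ C : ℝ, 1 ≤ C ∧ ∀ {m : ℕ} {S : PCl m} {C₀ : ℝ} (_ : TmC S C₀)
    (_ : ∀ (τ : ℝ) (J : ℕ) (F : Fam m J) (A : F.Ω → Prop), S.St τ J F A → 0 < Pe F.p A)
    {c : ℕ → Fin m} {κ : Fin m} (_ : Set.InjOn c (Set.Iio (r₀ + 1))) {Ku : ℕ}
    {w v u₀ u₂ e₂ p₂ : ℝ} {s : ℕ → ℝ} (_ : FulC S c r₀ (r₀ + 1) v s)
    (_ : Ful S ((range r₀).image c) v u₀)
    (_ : Upg S ((range r₀).image c) (c r₀) Ku v u₂ p₂ e₂) (_ : 0 ≤ w) (_ : w ≤ v)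
    (_ : v ≤ u₀) (_ : p₂ ≤ s r₀) (ε : ℝ), 0 < ε → C * (s r₀ - p₂) ≤ ε → u₀ + ε < 1 →
    e₂ + p₂ + ε < 1 →
    ∀ (x₀ p₁ η χ : ℝ), 0 < η → 0 < χ →
    ∀ Ψ : ∀ (J : ℕ) (F : Fam m J), (F.Ω → Prop) → ∀ V : Type, (PtT F → V) → (LnT F → V) →
      (V → MvPolynomial (Option (Fin m)) ℝ) → Prop,
    (∀ (J : ℕ) (F : Fam m J) (A : F.Ω → Prop) (V : Type) (z : PtT F → V) (z' : LnT F → V)
      (G : V → MvPolynomial (Option (Fin m)) ℝ), Ψ J F A V z z' G →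
      (∀ y, (G y).totalDegree ≤ K) ∧ (∀ y, DpI ((range (r₀ + 1)).image c) (G y)) ∧
      ∀ ω, A ω → z (ptr F J ω) = z' (slam F ⌊w * J⌋₊ ω)) →
    (∀ (J : ℕ) (F : Fam m J) (A B : F.Ω → Prop) (V : Type) (z : PtT F → V)
      (z' : LnT F → V) (G : V → MvPolynomial (Option (Fin m)) ℝ), Sub B A →
      Ψ J F A V z z' G → Ψ J F B V z z' G) →
    BlC S c r₀ κ w v K₁ Ku p₁ p₂ x₀ Ψ →
    Bas S (fun J F A => ∀ (V : Type) (z : PtT F → V) (z' : LnT F → V)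
      (G : V → MvPolynomial (Option (Fin m)) ℝ), Ψ J F A V z z' G →
      ∀ (P₁ : ℕ) (V₁ : Type) (z₁ : PtT F → V₁) (z₁' : LnT F → V₁)
      (G₁ : V₁ → MvPolynomial (Option (Fin m)) ℝ),
      LbP F ((range (r₀ + 1)).image c) κ K₁ J ⌊v * J⌋₊ P₁ A z₁ z₁' G₁ → (p₁ + χ) * J ≤ P₁ →
      ∀ (P₂ : ℕ) (V₂ : Type) (z₂ : PtT F → V₂) (z₂' : LnT F → V₂)
      (H : V₂ → MvPolynomial (Option (Fin m)) ℝ),
      LbP F ((range r₀).image c) (c r₀) Ku J ⌊v * J⌋₊ P₂ A z₂ z₂' H → (p₂ + χ) * J ≤ P₂ →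
      Pb (Pool.Agent.H49.Ent.cond F.p A True) (fun ω =>
        ¬ |F.x ω κ - eval (bt F ω) (G (z' (slam F ⌊w * J⌋₊ ω)) +
          sbu (c r₀) (H (z₂' (slam F ⌊v * J⌋₊ ω)))
            (G₁ (z₁' (slam F ⌊v * J⌋₊ ω)) - G (z' (slam F ⌊w * J⌋₊ ω))))| ≤
          1 / 2 ^ P₁ + 2 ^ (ε * J) * 2 ^ (x₀ * J) * (1 / 2 ^ P₂)) ≤ η) := by
  obtain ⟨C, hC, hbox⟩ := box_pt r₀ K K₁
  refine ⟨C, hC, ?_⟩
  intro m S C₀ htm hpos c κ hinj Ku w v u₀ u₂ e₂ p₂ s hful hbase U₂ hw0 hwv hvu hps ε hε hCε huε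
    hroom x₀ p₁ η χ hη hχ Ψ hΨd hΨs hbl
  have hbox := hbox htm hpos (κ := κ) hinj hful hbase U₂ hw0 hwv hvu hps
  refine Bas.mono 0 ((hbox ε hε hCε huε hroom x₀ p₁ η χ hη hχ Ψ hΨd hΨs hbl).and
    (pos_bas hpos)) ?_
  rintro J - F A ⟨H0, hA⟩ V z z' G hΨ P₁ V₁ z₁ z₁' G₁ hG₁ hP₁ P₂ V₂ z₂ z₂' H hH hP₂
  refine pb_of_pt hA hη _ fun R hRA hR1 => ?_
  obtain ⟨ω, hω, hbx⟩ := H0 V z z' G hΨ P₁ V₁ z₁ z₁' G₁ hG₁ hP₁ P₂ V₂ z₂ z₂' H hH hP₂ R hRA hR1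
  refine ⟨ω, hω, fun hn => hn (nz_val (by positivity) (hG₁.pos ω (hRA ω hω))
    (hH.pos ω (hRA ω hω)) fun y hy => seg_box hinj (by linarith) (hH.dep _) ?_ hbx hy)⟩
  have := mul_nonneg hχ.le (Nat.cast_nonneg (α := ℝ) J)
  linarith

/-- **The slopes at the exact samples.** -/
theorem blind_bt (r₀ K K₁ : ℕ) : ∃ C : ℝ, 1 ≤ C ∧ ∀ {m : ℕ} {S : PCl m} {C₀ : ℝ} (_ : TmC S C₀)
    (_ : ∀ (τ : ℝ) (J : ℕ) (F : Fam m J) (A : F.Ω → Prop), S.St τ J F A → 0 < Pe F.p A)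
    {c : ℕ → Fin m} {κ : Fin m} (_ : Set.InjOn c (Set.Iio (r₀ + 1))) {Ku : ℕ}
    {w v u₀ u₂ e₂ p₂ : ℝ} {s : ℕ → ℝ} (_ : FulC S c r₀ (r₀ + 1) v s)
    (_ : Ful S ((range r₀).image c) v u₀)
    (_ : Upg S ((range r₀).image c) (c r₀) Ku v u₂ p₂ e₂) (_ : 0 ≤ w) (_ : w ≤ v)
    (_ : v ≤ u₀) (_ : p₂ ≤ s r₀) (ε : ℝ), 0 < ε → C * (s r₀ - p₂) ≤ ε → u₀ + ε < 1 →
    e₂ + p₂ + ε < 1 →
    ∀ (x₀ p₁ : ℝ) (Ψ : ∀ (J : ℕ) (F : Fam m J), (F.Ω → Prop) → ∀ V : Type, (PtT F → V) →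
      (LnT F → V) → (V → MvPolynomial (Option (Fin m)) ℝ) → Prop),
    (∀ (J : ℕ) (F : Fam m J) (A : F.Ω → Prop) (V : Type) (z : PtT F → V) (z' : LnT F → V)
      (G : V → MvPolynomial (Option (Fin m)) ℝ), Ψ J F A V z z' G →
      (∀ y, (G y).totalDegree ≤ K) ∧ (∀ y, DpI ((range (r₀ + 1)).image c) (G y)) ∧
      ∀ ω, A ω → z (ptr F J ω) = z' (slam F ⌊w * J⌋₊ ω)) →
    (∀ (J : ℕ) (F : Fam m J) (A B : F.Ω → Prop) (V : Type) (z : PtT F → V)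
      (z' : LnT F → V) (G : V → MvPolynomial (Option (Fin m)) ℝ), Sub B A →
      Ψ J F A V z z' G → Ψ J F B V z z' G) →
    BlC S c r₀ κ w v K₁ Ku p₁ p₂ x₀ Ψ → BlB S c r₀ κ w v K₁ Ku p₁ p₂ (ε + x₀) Ψ := by
  obtain ⟨C, hC, hbox⟩ := box_pt r₀ K K₁
  refine ⟨C, hC, ?_⟩
  intro m S C₀ htm hpos c κ hinj Ku w v u₀ u₂ e₂ p₂ s hful hbase U₂ hw0 hwv hvu hps ε hε hCε huε
    hroom x₀ p₁ Ψ hΨd hΨs hbl η χ hη hχ
  have hbox := hbox htm hpos (κ := κ) hinj hful hbase U₂ hw0 hwv hvu hps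
  refine Bas.mono 0 ((hbox ε hε hCε huε hroom x₀ p₁ η χ hη hχ Ψ hΨd hΨs hbl).and
    (pos_bas hpos)) ?_
  rintro J - F A ⟨H0, hA⟩ V z z' G hΨ P₁ V₁ z₁ z₁' G₁ hG₁ hP₁ P₂ V₂ z₂ z₂' H hH hP₂
  refine pb_of_pt hA hη _ fun R hRA hR1 => ?_
  obtain ⟨ω, hω, hbx⟩ := H0 V z z' G hΨ P₁ V₁ z₁ z₁' G₁ hG₁ hP₁ P₂ V₂ z₂ z₂' H hH hP₂ R hRA hR1
  refine ⟨ω, hω, not_lt.2 ?_⟩
  have h1 := seg_box hinj (by linarith) (hH.dep _) (P₂ := P₂) (by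
    have := mul_nonneg hχ.le (Nat.cast_nonneg (α := ℝ) J)
    linarith) hbx (y := F.x ω (c r₀)) (hH.pos ω (hRA ω hω))
  have e1 : Function.update (bt F ω) (some (c r₀)) (F.x ω (c r₀)) = bt F ω :=
    Function.update_eq_self _ _
  rw [e1] at h1
  refine h1.trans (le_of_eq ?_)
  rw [← Real.rpow_add (by norm_num)]
  congr 1
  ring

end Pool.ALT
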