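import Pool.Agent.H60.ALT.Nzp
import Pool.Agent.H68.OWN.Jn

/-!
# Fullness behind more digits and of fewer coordinates

`ceI_cnt2`: the number of the values of the digits between `n` and `n'`. `ful_up`: fullness behind
more digits. `ful_res`: fullness of fewer coordinates.
-/

set_option autoImplicit false

namespace Pool.ALT

open Finset Real MvPolynomial
open Pool.Agent.H49.Ent Pool.Agent.H32.Dense Pool.STK Pool.KA Pool.KSAT Pool.K2S Pool.PB Pool.S6C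
  Pool.GEN Pool.RCD Pool.LA91 Pool.OWN68
open Pool.UNJ (ceI)

variable {m J : ℕ}

/-- The number of the values of the digits between `n` and `n'`. -/
theorem ceI_cnt2 {F : Fam m J} {p : F.Ω → ℝ} (hp : IsLaw p) (I : Finset (Fin m)) {n n' : ℕ}
    (hn : n ≤ n') : CH p (fun ω => ceI I (fun _ => n') (F.x ω))
      (fun ω => ceI I (fun _ => n) (F.x ω)) ≤ I.card * (((n' - n : ℕ) : ℝ) * Real.log 2) := by
  classical
  have h0 := hp.nonneg
  refine (CH_pis h0 _ _).trans ?_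
  have h1 : ∀ i ∈ (univ : Finset (Fin m)), CH p (fun ω => ceI I (fun _ => n') (F.x ω) i)
      (fun ω => ceI I (fun _ => n) (F.x ω)) ≤
      if i ∈ I then ((n' - n : ℕ) : ℝ) * Real.log 2 else 0 := by
    intro i _
    by_cases hi : i ∈ I
    · rw [if_pos hi]
      have h2 := CH_le_card h0 hp.sum_one (fun ω => ceI I (fun _ => n') (F.x ω) i)
        (fun ω => ceI I (fun _ => n) (F.x ω))
        (fun b => Finset.Ico (b i * 2 ^ (n' - n)) ((b i + 1) * 2 ^ (n' - n))) (fun ω _ => by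
          have e1 : ceI I (fun _ => n') (F.x ω) i = ⌊(2 : ℝ) ^ n' * F.x ω i⌋ := if_pos hi
          have e2 : ceI I (fun _ => n) (F.x ω) i = ⌊(2 : ℝ) ^ n * F.x ω i⌋ := if_pos hi
          have e3 : (2 : ℝ) ^ n' = 2 ^ n * 2 ^ (n' - n) := by
            rw [← pow_add]
            congr 1
            omega
          have hp0 : (0 : ℝ) < 2 ^ (n' - n) := by positivity
          rw [e1, e2, Finset.mem_Ico]
          constructor
          · rw [Int.le_floor]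
            push_cast
            rw [e3]
            have := Int.floor_le ((2 : ℝ) ^ n * F.x ω i)
            nlinarith
          · rw [Int.floor_lt]
            push_cast
            rw [e3]
            have := Int.lt_floor_add_one ((2 : ℝ) ^ n * F.x ω i)
            nlinarith)
      refine h2.trans (le_of_eq ?_)
      have e4 : ∀ b : Fin m → ℤ, ((Finset.Ico (b i * 2 ^ (n' - n))
          ((b i + 1) * 2 ^ (n' - n))).card : ℝ) = 2 ^ (n' - n) := by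
        intro b
        rw [Int.card_Ico]
        have e5 : (b i + 1) * 2 ^ (n' - n) - b i * 2 ^ (n' - n) = ((2 ^ (n' - n) : ℕ) : ℤ) := by
          push_cast
          ring
        rw [e5, Int.toNat_natCast]
        push_cast
        rfl
      simp only [e4]
      rw [Ex_const hp.sum_one, Real.log_pow]
    · rw [if_neg hi]
      refine le_of_eq (CH_eq_zero h0 fun ω ω' _ _ _ => ?_)
      unfold ceI
      rw [if_neg hi, if_neg hi]
  refine (Finset.sum_le_sum h1).trans (le_of_eq ?_)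
  rw [Finset.sum_ite_mem, Finset.univ_inter, Finset.sum_const, nsmul_eq_mul]

/-- **Fullness behind more digits.** -/
theorem ful_up {S : PCl m} (hpos : ∀ (τ : ℝ) (J : ℕ) (F : Fam m J) (A : F.Ω → Prop),
      S.St τ J F A → 0 < Pe F.p A) {I : Finset (Fin m)} {w u u' : ℝ} (h : Ful S I w u)
    (hu : u ≤ u') (hu' : u' ≤ 1) : Ful S I w u' := by
  intro ρ hρ
  refine Bas.mono 0 ((h ρ hρ).and (pos_bas hpos)) ?_
  rintro J - F A ⟨h1, hA⟩ V z z' hz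
  have hq := isLaw_cond F.isLaw hA
  have hJ0 : (0 : ℝ) ≤ J := Nat.cast_nonneg J
  have h2 := h1 V z z' hz
  have hn : ⌊u * J⌋₊ ≤ ⌊u' * J⌋₊ := Nat.floor_le_floor (mul_le_mul_of_nonneg_right hu hJ0)
  have hn' : ⌊u' * J⌋₊ ≤ J := Nat.floor_le_of_le (mul_le_of_le_one_left hJ0 hu')
  obtain ⟨X, hX⟩ : ∃ X : F.Ω → Fin m → ℤ, X = fun ω => ceI I (fun _ => J) (F.x ω) := ⟨_, rfl⟩
  obtain ⟨X', hX'⟩ : ∃ X : F.Ω → Fin m → ℤ, X = fun ω => ceI I (fun _ => ⌊u' * J⌋₊) (F.x ω) :=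
    ⟨_, rfl⟩
  obtain ⟨X₀, hX₀⟩ : ∃ X : F.Ω → Fin m → ℤ, X = fun ω => ceI I (fun _ => ⌊u * J⌋₊) (F.x ω) :=
    ⟨_, rfl⟩
  have h3 := CH_le_add hq.nonneg X X' (fun ω => (X₀ ω, z' (slam F ⌊w * J⌋₊ ω), F.W ω))
  have h4 : CH (Pool.Agent.H49.Ent.cond F.p A True) X' (fun ω => (X₀ ω, z' (slam F ⌊w * J⌋₊ ω),
      F.W ω)) ≤ I.card * (((⌊u' * J⌋₊ - ⌊u * J⌋₊ : ℕ) : ℝ) * Real.log 2) := by
    rw [hX', hX₀]
    refine le_trans (CH_mono_cond hq.nonneg fun ω ω' _ _ e => ?_) (ceI_cnt2 hq I hn)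
    simp only [Prod.mk.injEq] at e
    exact e.1
  have h5 : CH (Pool.Agent.H49.Ent.cond F.p A True) X (fun ω => (X' ω, (X₀ ω,
      z' (slam F ⌊w * J⌋₊ ω), F.W ω))) ≤ CH (Pool.Agent.H49.Ent.cond F.p A True) X
      (fun ω => (X' ω, z' (slam F ⌊w * J⌋₊ ω), F.W ω)) := by
    refine CH_mono_cond hq.nonneg fun ω ω' _ _ e => ?_
    simp only [Prod.mk.injEq] at e ⊢
    exact ⟨e.1, e.2.2⟩
  rw [hX, hX₀] at h3
  rw [hX₀] at h4
  rw [hX, hX₀, hX'] at h5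
  rw [hX'] at h3 h4
  have e1 : ((J - ⌊u * J⌋₊ : ℕ) : ℝ) = ((J - ⌊u' * J⌋₊ : ℕ) : ℝ) +
      ((⌊u' * J⌋₊ - ⌊u * J⌋₊ : ℕ) : ℝ) := by
    rw [← Nat.cast_add]
    congr 1
    omega
  rw [e1] at h2
  have e2 : (I.card : ℝ) * ((((J - ⌊u' * J⌋₊ : ℕ) : ℝ) + ((⌊u' * J⌋₊ - ⌊u * J⌋₊ : ℕ) : ℝ)) *
      Real.log 2) = I.card * (((J - ⌊u' * J⌋₊ : ℕ) : ℝ) * Real.log 2) +
      I.card * (((⌊u' * J⌋₊ - ⌊u * J⌋₊ : ℕ) : ℝ) * Real.log 2) := by ring
  rw [e2] at h2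
  linarith

/-- **Fullness of fewer coordinates.** -/
theorem ful_res {S : PCl m} (hpos : ∀ (τ : ℝ) (J : ℕ) (F : Fam m J) (A : F.Ω → Prop),
      S.St τ J F A → 0 < Pe F.p A) {I I' : Finset (Fin m)} {w u : ℝ} (h : Ful S I w u)
    (hu : u ≤ 1) (hI : I' ⊆ I) : Ful S I' w u := by
  classical
  intro ρ hρ
  refine Bas.mono 0 ((h ρ hρ).and (pos_bas hpos)) ?_
  rintro J - F A ⟨h1, hA⟩ V z z' hz
  have hq := isLaw_cond F.isLaw hA
  have hJ0 : (0 : ℝ) ≤ J := Nat.cast_nonneg J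
  have h2 := h1 V z z' hz
  have hn : ⌊u * J⌋₊ ≤ J := Nat.floor_le_of_le (mul_le_of_le_one_left hJ0 hu)
  obtain ⟨X, hX⟩ : ∃ X : F.Ω → Fin m → ℤ, X = fun ω => ceI I (fun _ => J) (F.x ω) := ⟨_, rfl⟩
  obtain ⟨X', hX'⟩ : ∃ X : F.Ω → Fin m → ℤ, X = fun ω => ceI I' (fun _ => J) (F.x ω) := ⟨_, rfl⟩
  obtain ⟨X'', hX''⟩ : ∃ X : F.Ω → Fin m → ℤ, X = fun ω => ceI (I \ I') (fun _ => J) (F.x ω) :=
    ⟨_, rfl⟩
  obtain ⟨X₀, hX₀⟩ : ∃ X : F.Ω → Fin m → ℤ, X = fun ω => ceI I (fun _ => ⌊u * J⌋₊) (F.x ω) :=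
    ⟨_, rfl⟩
  obtain ⟨X₁, hX₁⟩ : ∃ X : F.Ω → Fin m → ℤ, X = fun ω => ceI I' (fun _ => ⌊u * J⌋₊) (F.x ω) :=
    ⟨_, rfl⟩
  have hsub : ∀ (a : ℕ) (ω ω' : F.Ω), ceI I (fun _ => a) (F.x ω) = ceI I (fun _ => a) (F.x ω') →
      ∀ I₁ ⊆ I, ceI I₁ (fun _ => a) (F.x ω) = ceI I₁ (fun _ => a) (F.x ω') := by
    intro a ω ω' e I₁ hI₁
    funext i
    have e1 := congrFun e i
    unfold ceI at e1 ⊢
    by_cases hi : i ∈ I₁
    · rw [if_pos (hI₁ hi), if_pos (hI₁ hi)] at e1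
      rw [if_pos hi, if_pos hi, e1]
    · rw [if_neg hi, if_neg hi]
  have h3 := CH_le_add hq.nonneg X X' (fun ω => (X₀ ω, z' (slam F ⌊w * J⌋₊ ω), F.W ω))
  have h4 : CH (Pool.Agent.H49.Ent.cond F.p A True) X' (fun ω => (X₀ ω, z' (slam F ⌊w * J⌋₊ ω),
      F.W ω)) ≤ CH (Pool.Agent.H49.Ent.cond F.p A True) X' (fun ω => (X₁ ω,
      z' (slam F ⌊w * J⌋₊ ω), F.W ω)) := by
    refine CH_mono_cond hq.nonneg fun ω ω' _ _ e => ?_
    rw [hX₀] at e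
    rw [hX₁]
    simp only [Prod.mk.injEq] at e ⊢
    exact ⟨hsub _ ω ω' e.1 I' hI, e.2⟩
  have h5 : CH (Pool.Agent.H49.Ent.cond F.p A True) X (fun ω => (X' ω, (X₀ ω,
      z' (slam F ⌊w * J⌋₊ ω), F.W ω))) ≤
      (I \ I').card * (((J - ⌊u * J⌋₊ : ℕ) : ℝ) * Real.log 2) := by
    have k1 := CH_le_add hq.nonneg X X'' (fun ω => (X' ω, (X₀ ω, z' (slam F ⌊w * J⌋₊ ω),
      F.W ω)))
    have k2 : CH (Pool.Agent.H49.Ent.cond F.p A True) X (fun ω => (X'' ω, (X' ω, (X₀ ω,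
        z' (slam F ⌊w * J⌋₊ ω), F.W ω)))) ≤ 0 := by
      refine le_of_eq (CH_eq_zero hq.nonneg fun ω ω' _ _ e => ?_)
      rw [hX'', hX'] at e
      rw [hX]
      simp only [Prod.mk.injEq] at e
      funext i
      have e1 := congrFun e.1 i
      have e2 := congrFun e.2.1 i
      show ceI I (fun _ => J) (F.x ω) i = ceI I (fun _ => J) (F.x ω') i
      unfold ceI at e1 e2 ⊢
      by_cases hi : i ∈ I
      · rw [if_pos hi, if_pos hi]
        by_cases hi' : i ∈ I'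
        · rw [if_pos hi', if_pos hi'] at e2
          exact e2
        · rw [if_pos (Finset.mem_sdiff.2 ⟨hi, hi'⟩), if_pos (Finset.mem_sdiff.2 ⟨hi, hi'⟩)] at e1
          exact e1
      · rw [if_neg hi, if_neg hi]
    have k3 : CH (Pool.Agent.H49.Ent.cond F.p A True) X'' (fun ω => (X' ω, (X₀ ω,
        z' (slam F ⌊w * J⌋₊ ω), F.W ω))) ≤
        (I \ I').card * (((J - ⌊u * J⌋₊ : ℕ) : ℝ) * Real.log 2) := by
      rw [hX'', hX₀]
      refine le_trans (CH_mono_cond hq.nonneg fun ω ω' _ _ e => ?_)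
        (ceI_cnt2 hq (I \ I') hn)
      simp only [Prod.mk.injEq] at e
      exact hsub _ ω ω' e.2.1 _ Finset.sdiff_subset
    linarith
  rw [hX, hX₀] at h3
  rw [hX, hX₀] at h5
  rw [hX₀, hX', hX₁] at h4
  rw [hX'] at h3 h5
  have e1 : (I.card : ℝ) = I'.card + (I \ I').card := by
    have := Finset.card_sdiff_add_card_eq_card hI
    rw [← this]
    push_cast
    ring
  rw [e1] at h2
  have e2 : ((I'.card : ℝ) + (I \ I').card) * (((J - ⌊u * J⌋₊ : ℕ) : ℝ) * Real.log 2) =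
      I'.card * (((J - ⌊u * J⌋₊ : ℕ) : ℝ) * Real.log 2) +
      (I \ I').card * (((J - ⌊u * J⌋₊ : ℕ) : ℝ) * Real.log 2) := by ring
  rw [e2] at h2
  linarith

end Pool.ALT
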