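import Pool.Agent.H60.ALT.Blw

/-!
# Blindness

`blind_cls`: a closed label at the window `w` whose own height is not full between the levels `sa`
and `sb` has at the window `v` the slope of the natural labels, up to the level `sa`.
-/

set_option autoImplicit false

namespace Pool.ALT

open Finset Real MvPolynomial
open Pool.Agent.H49.Ent Pool.Agent.H32.Dense Pool.STK Pool.KA Pool.KSAT Pool.K2S Pool.PB Pool.S6C
  Pool.GEN Pool.RCD Pool.LA91 Pool.OWN68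
open Pool.UNJ (ceI)
open Pool.GRW (xr xr_near)
open Pool.BFL (Pb)

variable {m : ℕ}

/-! ### Numbers -/

theorem inv_fl (x : ℝ) (J : ℕ) : (1 : ℝ) / 2 ^ ⌊x * J⌋₊ ≤ 2 * 2 ^ (-x * J) := by
  have h1 := Nat.lt_floor_add_one (x * J)
  have h2 : (2 : ℝ) ^ (x * J) ≤ 2 ^ (⌊x * J⌋₊ + 1) := by
    rw [← Real.rpow_natCast]
    refine Real.rpow_le_rpow_of_exponent_le (by norm_num) ?_
    push_cast
    exact h1.le
  have h3 : (0 : ℝ) < 2 ^ (x * J) := Real.rpow_pos_of_pos (by norm_num) _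
  have e1 : (2 : ℝ) ^ (-x * J) = 1 / 2 ^ (x * J) := by
    rw [neg_mul, Real.rpow_neg (by norm_num), one_div]
  rw [e1, pow_succ] at *
  rw [mul_one_div, div_le_div_iff₀ (by positivity) h3]
  linarith

theorem rnd_le {m : ℕ} {e x : ℝ} (he : 0 ≤ e) (h : e + x < 1) : ∃ J₀ : ℕ, ∀ J ≥ J₀,
    (2 : ℝ) ^ ⌊e * J⌋₊ * ((m + 1) * (1 / 2 ^ J)) ≤ 2 ^ (-x * J) := by
  obtain ⟨J₀, hJ₀⟩ := exists_nat_ge ((Real.log (m + 1) + 1) / ((1 - (e + x)) * Real.log 2))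
  refine ⟨J₀, fun J hJ => ?_⟩
  have hl2 : 0 < Real.log 2 := Real.log_pos (by norm_num)
  have hJ' : (J₀ : ℝ) ≤ J := by exact_mod_cast hJ
  have h1 := hJ₀.trans hJ'
  rw [div_le_iff₀ (mul_pos (by linarith) hl2)] at h1
  have h2 : (m : ℝ) + 1 ≤ 2 ^ ((1 - (e + x)) * J) := by
    rw [Real.rpow_def_of_pos (by norm_num), ← Real.log_le_iff_le_exp (by positivity)]
    linarith
  have h3 : (2 : ℝ) ^ ⌊e * J⌋₊ ≤ 2 ^ (e * J) := by
    rw [← Real.rpow_natCast]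
    exact Real.rpow_le_rpow_of_exponent_le (by norm_num) (Nat.floor_le (by positivity))
  have e2 : (1 : ℝ) / 2 ^ J = 2 ^ (-(J : ℝ)) := by
    rw [Real.rpow_neg (by norm_num), Real.rpow_natCast, one_div]
  rw [e2]
  calc (2 : ℝ) ^ ⌊e * J⌋₊ * ((m + 1) * 2 ^ (-(J : ℝ))) ≤
      2 ^ (e * J) * (2 ^ ((1 - (e + x)) * J) * 2 ^ (-(J : ℝ))) :=
        mul_le_mul h3 (mul_le_mul_of_nonneg_right h2 (Real.rpow_pos_of_pos (by norm_num) _).le)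
          (mul_nonneg (by positivity) (Real.rpow_pos_of_pos (by norm_num) _).le)
          (Real.rpow_pos_of_pos (by norm_num) _).le
    _ = 2 ^ (-x * J) := by
        rw [← Real.rpow_add (by norm_num), ← Real.rpow_add (by norm_num)]
        congr 1
        ring

theorem log_le_of {x a C : ℝ} {J : ℕ} (hx : 0 < x) (hC : 0 < C) (h : x ≤ C * 2 ^ (a * J)) :
    Real.log x ≤ a * J * Real.log 2 + Real.log C := by
  have h1 := Real.log_le_log hx h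
  rw [Real.log_mul hC.ne' (Real.rpow_pos_of_pos (by norm_num) _).ne',
    Real.log_rpow (by norm_num)] at h1
  linarith

theorem one_le_p2 {a : ℝ} {J : ℕ} (h : 0 ≤ a) : (1 : ℝ) ≤ 2 ^ (a * J) :=
  Real.one_le_rpow (by norm_num) (mul_nonneg h (Nat.cast_nonneg J))

/-- The two logarithms of the reading. -/
theorem num_read {J : ℕ} {sa sb x σ p₁ p₂ E ℓ : ℝ} (hσ : 0 ≤ σ) (hsa : sa ≤ p₁) (hsb : p₁ ≤ sb)
    (hx : p₂ - sa ≤ x) (hx1 : x ≤ 1 - p₁) (hE0 : 0 ≤ E) (hℓ0 : 0 ≤ ℓ)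
    (hE : E ≤ 4 * 2 ^ (-p₁ * J)) (hℓ : ℓ ≤ 8 * 2 ^ (-p₂ * J)) :
    Real.log (2 * (2 ^ (sa * J) * (2 ^ ((x + σ) * J) * ℓ + 2 * E) + 1) + 1) +
      Real.log (2 * (2 ^ (J : ℕ) * ((1 / 2 ^ (sb * J) + 2 * E) / 2 ^ (x * J))) + 1) ≤
      (1 + sa + σ - p₁ - p₂) * J * Real.log 2 + (Real.log 35 + Real.log 19) := by
  have p : ∀ a : ℝ, (0 : ℝ) < 2 ^ (a * J) := fun a => Real.rpow_pos_of_pos (by norm_num) _
  have mul2 : ∀ a b : ℝ, (2 : ℝ) ^ (a * J) * 2 ^ (b * J) = 2 ^ ((a + b) * J) := fun a b => by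
    rw [← Real.rpow_add (by norm_num)]
    congr 1
    ring
  have t1 : Real.log (2 * (2 ^ (sa * J) * (2 ^ ((x + σ) * J) * ℓ + 2 * E) + 1) + 1) ≤
      (sa + x + σ - p₂) * J * Real.log 2 + Real.log 35 := by
    refine log_le_of (by
      have := mul_nonneg (p sa).le (add_nonneg (mul_nonneg (p (x + σ)).le hℓ0)
        (mul_nonneg (by norm_num : (0 : ℝ) ≤ 2) hE0))
      linarith) (by norm_num) ?_
    have h1 : (2 : ℝ) ^ (sa * J) * ((2 : ℝ) ^ ((x + σ) * J) * ℓ + 2 * E) ≤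
        (2 : ℝ) ^ (sa * J) *
          ((2 : ℝ) ^ ((x + σ) * J) * (8 * 2 ^ (-p₂ * J)) + 2 * (4 * 2 ^ (-p₁ * J))) :=
      mul_le_mul_of_nonneg_left (add_le_add (mul_le_mul_of_nonneg_left hℓ (p _).le)
        (mul_le_mul_of_nonneg_left hE (by norm_num))) (p _).le
    have h2 : (2 : ℝ) ^ (sa * J) *
        ((2 : ℝ) ^ ((x + σ) * J) * (8 * 2 ^ (-p₂ * J)) + 2 * (4 * 2 ^ (-p₁ * J))) =
        8 * 2 ^ ((sa + x + σ - p₂) * J) + 8 * 2 ^ ((sa - p₁) * J) := by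
      have e1 : (2 : ℝ) ^ ((sa + x + σ - p₂) * J) =
          2 ^ (sa * J) * (2 ^ ((x + σ) * J) * 2 ^ (-p₂ * J)) := by
        rw [mul2, mul2]
        congr 1
        ring
      have e2 : (2 : ℝ) ^ ((sa - p₁) * J) = 2 ^ (sa * J) * 2 ^ (-p₁ * J) := by
        rw [mul2]
        congr 1
      rw [e1, e2]
      ring
    have h3 : (2 : ℝ) ^ ((sa - p₁) * J) ≤ 2 ^ ((sa + x + σ - p₂) * J) :=
      p2_mono (by linarith)
    have h4 : (1 : ℝ) ≤ 2 ^ ((sa + x + σ - p₂) * J) := one_le_p2 (by linarith)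
    rw [h2] at h1
    linarith
  have t2 : Real.log (2 * (2 ^ (J : ℕ) * ((1 / 2 ^ (sb * J) + 2 * E) / 2 ^ (x * J))) + 1) ≤
      (1 - p₁ - x) * J * Real.log 2 + Real.log 19 := by
    have g0 : (0 : ℝ) ≤ 2 ^ (J : ℕ) * ((1 / 2 ^ (sb * J) + 2 * E) / 2 ^ (x * J)) := by
      have := (p sb).le
      have := (p x).le
      positivity
    refine log_le_of (by linarith) (by norm_num) ?_
    have h0 : (1 : ℝ) / 2 ^ (sb * J) ≤ 2 ^ (-p₁ * J) := by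
      rw [one_div, ← Real.rpow_neg (by norm_num)]
      refine Real.rpow_le_rpow_of_exponent_le (by norm_num) ?_
      have := mul_le_mul_of_nonneg_right hsb (Nat.cast_nonneg (α := ℝ) J)
      linarith
    have h1 : (2 : ℝ) ^ (J : ℕ) * ((1 / 2 ^ (sb * J) + 2 * E) / 2 ^ (x * J)) ≤
        2 ^ (J : ℕ) * ((2 ^ (-p₁ * J) + 2 * (4 * 2 ^ (-p₁ * J))) / 2 ^ (x * J)) :=
      mul_le_mul_of_nonneg_left (div_le_div_of_nonneg_right (by linarith) (p x).le)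
        (by positivity)
    have h2 : (2 : ℝ) ^ (J : ℕ) * ((2 ^ (-p₁ * J) + 2 * (4 * 2 ^ (-p₁ * J))) / 2 ^ (x * J)) =
        9 * 2 ^ ((1 - p₁ - x) * J) := by
      have e1 : (2 : ℝ) ^ ((1 - p₁ - x) * J) * 2 ^ (x * J) = 2 ^ (J : ℕ) * 2 ^ (-p₁ * J) := by
        rw [mul2, ← Real.rpow_natCast 2 J, ← Real.rpow_add (by norm_num)]
        congr 1
        ring
      have e2 : (2 : ℝ) ^ (x * J) ≠ 0 := (p x).ne'
      rw [mul_div_assoc', div_eq_iff e2]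
      linear_combination (-9) * e1
    have h4 : (1 : ℝ) ≤ 2 ^ ((1 - p₁ - x) * J) := one_le_p2 (by linarith)
    rw [h2] at h1
    linarith
  linarith

/-- The logarithm of the top slopes. -/
theorem num_top {J : ℕ} {x π₀ p₁ E y : ℝ} (hE0 : 0 ≤ E) (hE : E ≤ 6 * 2 ^ (-π₀ * J))
    (hy : 0 ≤ y) (hxy : 1 - π₀ - x ≤ y) :
    Real.log (2 * (2 ^ (J : ℕ) * (2 * E / 2 ^ (x * J))) + 1) ≤
      y * J * Real.log 2 + Real.log 25 := by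
  have p : ∀ a : ℝ, (0 : ℝ) < 2 ^ (a * J) := fun a => Real.rpow_pos_of_pos (by norm_num) _
  have mul2 : ∀ a b : ℝ, (2 : ℝ) ^ (a * J) * 2 ^ (b * J) = 2 ^ ((a + b) * J) := fun a b => by
    rw [← Real.rpow_add (by norm_num)]
    congr 1
    ring
  have g0 : (0 : ℝ) ≤ 2 ^ (J : ℕ) * (2 * E / 2 ^ (x * J)) := by
    have := (p x).le
    positivity
  refine log_le_of (by linarith) (by norm_num) ?_
  have h1 : (2 : ℝ) ^ (J : ℕ) * (2 * E / 2 ^ (x * J)) ≤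
      2 ^ (J : ℕ) * (2 * (6 * 2 ^ (-π₀ * J)) / 2 ^ (x * J)) :=
    mul_le_mul_of_nonneg_left (div_le_div_of_nonneg_right (by linarith) (p x).le) (by positivity)
  have h2 : (2 : ℝ) ^ (J : ℕ) * (2 * (6 * 2 ^ (-π₀ * J)) / 2 ^ (x * J)) =
      12 * 2 ^ ((1 - π₀ - x) * J) := by
    have e1 : (2 : ℝ) ^ ((1 - π₀ - x) * J) * 2 ^ (x * J) = 2 ^ (J : ℕ) * 2 ^ (-π₀ * J) := by
      rw [mul2, ← Real.rpow_natCast 2 J, ← Real.rpow_add (by norm_num)]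
      congr 1
      ring
    have e2 : (2 : ℝ) ^ (x * J) ≠ 0 := (p x).ne'
    rw [mul_div_assoc', div_eq_iff e2]
    linear_combination (-12) * e1
  have h3 : (2 : ℝ) ^ ((1 - π₀ - x) * J) ≤ 2 ^ (y * J) := p2_mono hxy
  have h4 : (1 : ℝ) ≤ 2 ^ (y * J) := one_le_p2 hy
  rw [h2] at h1
  linarith

/-! ### The classes of the slopes -/

theorem ladder {x₀ σ t : ℝ} {J : ℕ} (N : ℕ) (h : (2 : ℝ) ^ (x₀ * J) ≤ t) :
    ∃ j : Fin (N + 1), (2 : ℝ) ^ ((x₀ + (j : ℕ) * σ) * J) ≤ t ∧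
      ((j : ℕ) < N → t ≤ (2 : ℝ) ^ ((x₀ + (j : ℕ) * σ + σ) * J)) := by
  induction N with
  | zero =>
    refine ⟨0, ?_, fun h => absurd h (Nat.lt_irrefl 0)⟩
    simpa using h
  | succ N ih =>
    obtain ⟨j, h1, h2⟩ := ih
    by_cases hj : (j : ℕ) < N
    · exact ⟨⟨j, by omega⟩, h1, fun _ => h2 hj⟩
    · have hjN : (j : ℕ) = N := by omega
      by_cases h3 : t ≤ (2 : ℝ) ^ ((x₀ + (j : ℕ) * σ + σ) * J)
      · exact ⟨⟨j, by omega⟩, h1, fun _ => h3⟩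
      · push Not at h3
        refine ⟨⟨N + 1, by omega⟩, ?_, fun h => absurd h (Nat.lt_irrefl _)⟩
        rw [hjN] at h3
        refine le_trans (le_of_eq ?_) h3.le
        congr 1
        push_cast
        ring

/-- **Blindness**: the slope of a label whose own height is not full between the levels `sa` and
`sb` is the slope of the labels of the window `v`, up to the level `sa`. -/
theorem blind_cls {S : PCl m} (hpos : ∀ (τ : ℝ) (J : ℕ) (F : Fam m J) (A : F.Ω → Prop),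
      S.St τ J F A → 0 < Pe F.p A) {c : ℕ → Fin m} {r₀ : ℕ} {κ : Fin m} {K K₁ Ku : ℕ}
    {w v e₀ ρ₀ π₀ e₁ ρ₁ p₁ e₂ ρ₂ p₂ sa sb x₀ gap σ : ℝ} {s : ℕ → ℝ}
    (hful : FulC S c r₀ (r₀ + 1) v s) (hwv : w ≤ v) (hv : v ≤ 1) (hρ₀ : ρ₀ ≤ 1) (hρ₁ : ρ₁ ≤ 1)
    (hρ₂ : ρ₂ ≤ 1) (he₀ : 0 ≤ e₀) (he₁ : 0 ≤ e₁) (he₂ : 0 ≤ e₂) (h0 : e₀ + p₁ < 1)
    (h1 : e₁ + p₁ < 1) (h2 : e₂ + p₂ < 1) (hσ : 0 < σ) (hsa : sa ≤ p₁) (hsb : p₁ ≤ sb)
    (hπ : π₀ ≤ p₁) (hx₀ : p₂ - sa ≤ x₀)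
    (hgap : ((sb - p₁) + (s r₀ - p₂) + 3 * σ) * Real.log 2 ≤ gap) (hs1 : s r₀ + 3 * σ ≤ 1)
    (hroom : p₁ + s r₀ - π₀ + 3 * σ ≤ 1)
    (Ψ : ∀ (J : ℕ) (F : Fam m J), (F.Ω → Prop) → ∀ V : Type, (PtT F → V) → (LnT F → V) →
      (V → MvPolynomial (Option (Fin m)) ℝ) → Prop)
    (hΨl : ∀ (J : ℕ) (F : Fam m J) (A : F.Ω → Prop) (V : Type) (z : PtT F → V) (z' : LnT F → V)
      (G : V → MvPolynomial (Option (Fin m)) ℝ), Ψ J F A V z z' G →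
      LbOK F ((range (r₀ + 1)).image c) κ K ⌊e₀ * J⌋₊ J ⌊w * J⌋₊ ⌊ρ₀ * J⌋₊ ⌊π₀ * J⌋₊ A z z' G)
    (hΨs : ∀ (J : ℕ) (F : Fam m J) (A B : F.Ω → Prop) (V : Type) (z : PtT F → V)
      (z' : LnT F → V) (G : V → MvPolynomial (Option (Fin m)) ℝ), Sub B A →
      Ψ J F A V z z' G → Ψ J F B V z z' G)
    (hrow : Bas S (fun J F A => ∀ (V : Type) (z : PtT F → V) (z' : LnT F → V)
      (G : V → MvPolynomial (Option (Fin m)) ℝ), Ψ J F A V z z' G →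
      CH (Pool.Agent.H49.Ent.cond F.p A True) (xa F κ z' ⌊w * J⌋₊ G sb)
        (ya F ((range r₀).image c) κ z' ⌊w * J⌋₊ G sa) ≤
        ((sb - sa) * Real.log 2 - gap) * J)) {η : ℝ} (hη : 0 < η) :
    Bas S (fun J F A => ∀ (V : Type) (z : PtT F → V) (z' : LnT F → V)
      (G : V → MvPolynomial (Option (Fin m)) ℝ), Ψ J F A V z z' G →
      ∀ (V₁ : Type) (z₁ : PtT F → V₁) (z₁' : LnT F → V₁)
      (G₁ : V₁ → MvPolynomial (Option (Fin m)) ℝ),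
      LbOK F ((range (r₀ + 1)).image c) κ K₁ ⌊e₁ * J⌋₊ J ⌊v * J⌋₊ ⌊ρ₁ * J⌋₊ ⌊p₁ * J⌋₊ A z₁ z₁' G₁ →
      ∀ (V₂ : Type) (z₂ : PtT F → V₂) (z₂' : LnT F → V₂)
      (H : V₂ → MvPolynomial (Option (Fin m)) ℝ),
      LbOK F ((range r₀).image c) (c r₀) Ku ⌊e₂ * J⌋₊ J ⌊v * J⌋₊ ⌊ρ₂ * J⌋₊ ⌊p₂ * J⌋₊ A z₂ z₂' H →
      Pb (Pool.Agent.H49.Ent.cond F.p A True) (fun ω => (2 : ℝ) ^ (x₀ * J) ≤
        |eval (xr F ω) (pderiv (some (c r₀)) (G₁ (z₁' (slam F ⌊v * J⌋₊ ω)) -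
          G (z' (slam F ⌊w * J⌋₊ ω))))|) ≤ η) := by
  have hl2 : 0 < Real.log 2 := Real.log_pos (by norm_num)
  obtain ⟨N, hN⟩ := exists_nat_ge ((s r₀ - π₀ + 3 * σ - x₀) / σ)
  rw [div_le_iff₀ hσ] at hN
  obtain ⟨C₁, hC₁⟩ : ∃ C₁ : ℝ, C₁ = Real.log 35 + Real.log 19 + Real.log 25 +
    2 * Real.log (2 * ((2 * max K K₁ : ℕ) : ℝ) + 1) := ⟨_, rfl⟩
  have l35 : 0 ≤ Real.log 35 := Real.log_nonneg (by norm_num)
  have l19 : 0 ≤ Real.log 19 := Real.log_nonneg (by norm_num)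
  have l25 : 0 ≤ Real.log 25 := Real.log_nonneg (by norm_num)
  obtain ⟨J₁, hJ₁⟩ := exists_nat_ge ((C₁ + 1) / (σ * Real.log 2))
  obtain ⟨J₂, hJ₂⟩ := rnd_le (m := m) (x := p₁) he₀ h0
  obtain ⟨J₃, hJ₃⟩ := rnd_le (m := m) (x := p₁) he₁ h1
  obtain ⟨J₄, hJ₄⟩ := rnd_le (m := m) (x := p₂) he₂ h2
  have hcN : 0 < ((N : ℝ) + 1) / η := by positivity
  refine Bas.mono (max (max J₁ J₂) (max J₃ J₄)) (((Pool.GRW.bas_part hrow hcN).and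
    (Pool.GRW.bas_part (hful σ hσ) hcN)).and (pos_bas hpos)) ?_
  rintro J hJ F A ⟨⟨Hrow, Hful⟩, hA⟩ V z z' G hΨ V₁ z₁ z₁' G₁ hG₁ V₂ z₂ z₂' H hH
  have hJ1 : (J₁ : ℝ) ≤ J := by
    exact_mod_cast (le_max_left _ _).trans ((le_max_left _ _).trans hJ)
  have hJ2 := hJ₂ J ((le_max_right _ _).trans ((le_max_left _ _).trans hJ))
  have hJ3 := hJ₃ J ((le_max_left _ _).trans ((le_max_right _ _).trans hJ))
  have hJ4 := hJ₄ J ((le_max_right _ _).trans ((le_max_right _ _).trans hJ))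
  have hJ0 : (0 : ℝ) ≤ J := Nat.cast_nonneg J
  have hC : C₁ + 1 ≤ σ * Real.log 2 * J := by
    have := hJ₁.trans hJ1
    rw [div_le_iff₀ (mul_pos hσ hl2)] at this
    linarith
  have hG := hΨl J F A V z z' G hΨ
  obtain ⟨f1, f2⟩ := floorw hwv hv J
  have g0 : ⌊ρ₀ * J⌋₊ ≤ J := floor_le hρ₀ J
  have g1 : ⌊ρ₁ * J⌋₊ ≤ J := floor_le hρ₁ J
  have g2 : ⌊ρ₂ * J⌋₊ ≤ J := floor_le hρ₂ J
  obtain ⟨t, ht⟩ : ∃ t : F.Ω → ℝ, t = fun ω => |eval (xr F ω) (pderiv (some (c r₀))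
    (G₁ (z₁' (slam F ⌊v * J⌋₊ ω)) - G (z' (slam F ⌊w * J⌋₊ ω))))| := ⟨_, rfl⟩
  have htω : ∀ ω, |eval (xr F ω) (pderiv (some (c r₀)) (G₁ (z₁' (slam F ⌊v * J⌋₊ ω)) -
      G (z' (slam F ⌊w * J⌋₊ ω))))| = t ω := fun ω => by rw [ht]
  simp only [htω]
  by_contra hcon
  push Not at hcon
  have hq := isLaw_cond F.isLaw hA
  have hun := Pool.ORD65.Pb_union hq.nonneg (B := fun ω => (2 : ℝ) ^ (x₀ * J) ≤ t ω)
    (N := fun (j : Fin (N + 1)) ω => (2 : ℝ) ^ ((x₀ + (j : ℕ) * σ) * J) ≤ t ω ∧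
      ((j : ℕ) < N → t ω ≤ (2 : ℝ) ^ ((x₀ + (j : ℕ) * σ + σ) * J)))
    (fun ω hω => ladder N hω)
  obtain ⟨j, hj⟩ : ∃ j : Fin (N + 1), η / (N + 1) ≤ Pb (Pool.Agent.H49.Ent.cond F.p A True)
      (fun ω => (2 : ℝ) ^ ((x₀ + (j : ℕ) * σ) * J) ≤ t ω ∧
        ((j : ℕ) < N → t ω ≤ (2 : ℝ) ^ ((x₀ + (j : ℕ) * σ + σ) * J))) := by
    by_contra hno
    push Not at hno
    have h3 := Finset.sum_lt_sum_of_nonempty (s := (univ : Finset (Fin (N + 1))))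
      Finset.univ_nonempty fun j _ => hno j
    rw [Finset.sum_const, Finset.card_univ, Fintype.card_fin, nsmul_eq_mul] at h3
    have h4 : ((N + 1 : ℕ) : ℝ) * (η / (N + 1)) = η := by
      push_cast
      field_simp
    rw [h4] at h3
    linarith
  obtain ⟨x, hx⟩ : ∃ x : ℝ, x = x₀ + (j : ℕ) * σ := ⟨_, rfl⟩
  have hjσ : 0 ≤ ((j : ℕ) : ℝ) * σ := by positivity
  rw [← hx] at hj
  obtain ⟨B, hBe⟩ : ∃ B : F.Ω → Prop, B = fun ω => A ω ∧ ((2 : ℝ) ^ (x * J) ≤ t ω ∧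
    ((j : ℕ) < N → t ω ≤ (2 : ℝ) ^ ((x + σ) * J))) := ⟨_, rfl⟩
  have hBA : Sub B A := fun ω hω => by
    rw [hBe] at hω
    exact hω.1
  rw [Pb_cond hA] at hj
  have hPB : Pe F.p A ≤ ((N : ℝ) + 1) / η * Pe F.p B := by
    rw [hBe]
    rw [le_div_iff₀ hA] at hj
    rw [div_mul_eq_mul_div, le_div_iff₀ hη]
    rw [div_mul_eq_mul_div, div_le_iff₀ (by positivity)] at hj
    linarith
  have hB : 0 < Pe F.p B := by
    by_contra h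
    push Not at h
    have : Pe F.p B = 0 := le_antisymm h (Pe_nonneg F.isLaw B)
    rw [this, mul_zero] at hPB
    linarith
  have hGB := hG.sub hBA
  have hG₁B := hG₁.sub hBA
  have hHB := hH.sub hBA
  have hfulB := Hful B hBA hPB (V × (V₁ × V₂))
    (fun s => (z s, (z₁ s, z₂ s)))
    (fun s => (wz z' ⌊w * J⌋₊ ⌊v * J⌋₊ s, (z₁' s, z₂' s))) (fun ω hω => by
      refine Prod.ext ?_ (Prod.ext (hG₁B.cls ω hω) (hHB.cls ω hω))
      show z (ptr F J ω) = wz z' ⌊w * J⌋₊ ⌊v * J⌋₊ (slam F ⌊v * J⌋₊ ω)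
      rw [wz_slam z' f1 f2]
      exact hGB.cls ω hω) r₀ le_rfl (Nat.lt_succ_self _)
  have hBx : ∀ ω, B ω → (2 : ℝ) ^ (x * J) ≤ t ω := fun ω hω => by
    rw [hBe] at hω
    exact hω.2.1
  have hxpos : (0 : ℝ) < 2 ^ (x * J) := Real.rpow_pos_of_pos (by norm_num) _
  have hπ1 := inv_fl π₀ J
  have hp1 := inv_fl p₁ J
  have hp2 := inv_fl p₂ J
  have hπp : (2 : ℝ) ^ (-p₁ * J) ≤ 2 ^ (-π₀ * J) := p2_mono (by linarith)
  have hlK : 0 ≤ Real.log (2 * ((2 * max K K₁ : ℕ) : ℝ) + 1) := Real.log_nonneg (by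
    have : (0 : ℝ) ≤ ((2 * max K K₁ : ℕ) : ℝ) := Nat.cast_nonneg _
    linarith)
  by_cases hcase : (j : ℕ) < N ∧ x ≤ 1 - p₁
  · -- a class of slopes which are read
    obtain ⟨hjN, hx1⟩ := hcase
    have hBx' : ∀ ω, B ω → t ω ≤ (2 : ℝ) ^ ((x + σ) * J) := fun ω hω => by
      rw [hBe] at hω
      exact hω.2.2 hjN
    have key := ev_read (sa := sa) (sb := sb) (M := 2 ^ ((x + σ) * J)) hB f1 f2 g0 g1 g2 hGB hG₁B
      hHB hxpos (Real.rpow_pos_of_pos (by norm_num) _).le hfulB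
      (fun ω hω => by
        rw [htω]
        exact ⟨hBx ω hω, hBx' ω hω⟩) le_rfl le_rfl
    have hb := num_read (J := J) (sa := sa) (sb := sb) (x := x) (σ := σ) (p₁ := p₁) (p₂ := p₂)
      (E := 1 / 2 ^ ⌊p₁ * J⌋₊ + 2 ^ ⌊e₁ * J⌋₊ * ((m + 1) * (1 / 2 ^ J)) +
        2 ^ ⌊e₀ * J⌋₊ * ((m + 1) * (1 / 2 ^ J)))
      (ℓ := 2 * (1 / 2 ^ J + 1 / 2 ^ ⌊p₂ * J⌋₊ + 2 ^ ⌊e₂ * J⌋₊ * ((m + 1) * (1 / 2 ^ J))))
      hσ.le hsa hsb (by linarith) hx1 (by positivity) (by positivity) (by linarith) (by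
        have h5 : (1 : ℝ) / 2 ^ J ≤ 2 ^ (-p₂ * J) := by
          rw [← Real.rpow_natCast, one_div, ← Real.rpow_neg (by norm_num)]
          refine Real.rpow_le_rpow_of_exponent_le (by norm_num) ?_
          nlinarith
        linarith)
    have hr := Hrow B hBA hPB V z z' G (hΨs J F A B V z z' G hBA hΨ)
    have e1 : ((1 - s r₀) - σ) * Real.log 2 * J ≤ ((sb - sa) * Real.log 2 - gap) * J +
        ((1 + sa + σ - p₁ - p₂) * J * Real.log 2 + C₁) := by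
      have := key
      rw [hC₁]
      linarith
    have e2 : ((sb - p₁) + (s r₀ - p₂) + 3 * σ) * Real.log 2 * J ≤ gap * J :=
      mul_le_mul_of_nonneg_right hgap hJ0
    nlinarith
  · -- the top
    have hxt : s r₀ - π₀ + 3 * σ ≤ x := by
      by_cases hjN : (j : ℕ) < N
      · have : ¬ x ≤ 1 - p₁ := fun h => hcase ⟨hjN, h⟩
        push Not at this
        linarith
      · have h3 : (j : ℕ) = N := by have := j.2; omega
        rw [hx, h3]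
        linarith
    have key := ev_top (z₂' := z₂') hB f1 f2 g0 g1 hGB hG₁B hxpos hfulB
      (fun ω hω => by
        rw [htω]
        exact hBx ω hω) le_rfl
    have hb := num_top (J := J) (x := x) (π₀ := π₀) (p₁ := p₁)
      (E := 1 / 2 ^ ⌊π₀ * J⌋₊ + (1 / 2 ^ ⌊p₁ * J⌋₊ + 2 ^ ⌊e₁ * J⌋₊ * ((m + 1) * (1 / 2 ^ J)) +
        2 ^ ⌊e₀ * J⌋₊ * ((m + 1) * (1 / 2 ^ J)))) (y := 1 - s r₀ - 3 * σ) (by positivity)
      (by linarith) (by linarith) (by linarith)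
    have e1 : ((1 - s r₀) - σ) * Real.log 2 * J ≤ (1 - s r₀ - 3 * σ) * J * Real.log 2 + C₁ := by
      rw [hC₁]
      linarith
    nlinarith

end Pool.ALT
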