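import Pool.Agent.H60.ALT.Rate
import Pool.Agent.H60.ALT.Blc

/-!
# The rows of the optimal labels

`AltL`: the labels whose digits are counted. `alt_row`: their rows on all blocks. `AltG`: the
numbers on a grid of windows. `alt_grid`: the rows and the blindness on the grid.
-/

set_option autoImplicit false

namespace Pool.ALT

open Finset Real MvPolynomial
open Pool.Agent.H49.Ent Pool.Agent.H32.Dense Pool.STK Pool.KA Pool.KSAT Pool.K2S Pool.PB Pool.S6C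
  Pool.GEN Pool.RCD Pool.LA91 Pool.OWN68
open Pool.UNJ (ceI)
open Pool.GRW (xr xr_near)
open Pool.BFL (Pb)

variable {m : ℕ}

/-- **The labels whose digits are counted**: from the level `s₀` to the level `s₁` the own height
has at most `exp (b J)` values given the label, the coordinates in `I₀` and the first digits. -/
structure AltL (I I₀ : Finset (Fin m)) (κ : Fin m) (K : ℕ) (e₀ ρ₀ π₀ w s₀ s₁ b : ℝ) {J : ℕ}
    (F : Fam m J) (A : F.Ω → Prop) {V : Type} (z : PtT F → V) (z' : LnT F → V)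
    (G : V → MvPolynomial (Option (Fin m)) ℝ) : Prop where
  lb : LbOK F I κ K ⌊e₀ * J⌋₊ J ⌊w * J⌋₊ ⌊ρ₀ * J⌋₊ ⌊π₀ * J⌋₊ A z z' G
  cnt : CBd F A (xa F κ z' ⌊w * J⌋₊ G s₁) (ya F I₀ κ z' ⌊w * J⌋₊ G s₀) (b * J)

variable {I I₀ : Finset (Fin m)} {κ : Fin m} {K : ℕ} {e₀ ρ₀ π₀ w s₀ s₁ b : ℝ}

theorem AltL.sub {J : ℕ} {F : Fam m J} {A B : F.Ω → Prop} {V : Type} {z : PtT F → V}
    {z' : LnT F → V} {G : V → MvPolynomial (Option (Fin m)) ℝ}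
    (h : AltL I I₀ κ K e₀ ρ₀ π₀ w s₀ s₁ b F A z z' G) (hB : Sub B A) :
    AltL I I₀ κ K e₀ ρ₀ π₀ w s₀ s₁ b F B z z' G := ⟨h.lb.sub hB, h.cnt.sub hB⟩

/-- **The labels exist.** -/
theorem alt_ex {S : PCl m} {θ : ℝ} (hθ : CNum (altQ I I₀ κ K e₀ ρ₀ π₀ w s₀ s₁) S θ)
    (hb : θ < b) : Bas S (fun J F A => ∃ (V : Type) (z : PtT F → V) (z' : LnT F → V)
      (G : V → MvPolynomial (Option (Fin m)) ℝ),
      AltL I I₀ κ K e₀ ρ₀ π₀ w s₀ s₁ b F A z z' G) := by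
  refine Bas.mono 0 (alt_att hθ (b - θ) (by linarith)) ?_
  rintro J - F A ⟨V, z, z', G, h1, h2⟩
  refine ⟨V, z, z', G, h1, ?_⟩
  have e : θ + (b - θ) = b := by ring
  rwa [e] at h2

/-- **The rows** of the counted labels on all blocks. -/
theorem alt_row {S : PCl m} (hpos : ∀ (τ : ℝ) (J : ℕ) (F : Fam m J) (A : F.Ω → Prop),
      S.St τ J F A → 0 < Pe F.p A) {v : ℝ} {sa sb θ₁ θ₂ d : ℝ} (hwv : w ≤ v) (hv : v ≤ 1)
    (h0 : s₀ ≤ sa) (h1 : sa ≤ sb) (h2 : sb ≤ s₁)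
    (N₁ : CNum (altQ I I₀ κ K e₀ ρ₀ π₀ w s₀ sa) S θ₁)
    (N₂ : CNum (altQ I I₀ κ K e₀ ρ₀ π₀ v sb s₁) S θ₂) (hd : b - θ₁ - θ₂ < d) :
    Bas S (fun J F A => ∀ (V : Type) (z : PtT F → V) (z' : LnT F → V)
      (G : V → MvPolynomial (Option (Fin m)) ℝ),
      AltL I I₀ κ K e₀ ρ₀ π₀ w s₀ s₁ b F A z z' G →
      CH (Pool.Agent.H49.Ent.cond F.p A True) (xa F κ z' ⌊w * J⌋₊ G sb)
        (ya F I₀ κ z' ⌊w * J⌋₊ G sa) ≤ d * J) := by
  obtain ⟨h, hh⟩ : ∃ h : ℝ, h = (d - (b - θ₁ - θ₂)) / 4 := ⟨_, rfl⟩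
  have hh0 : 0 < h := by rw [hh]; linarith
  obtain ⟨J₁, hJ₁⟩ := exists_nat_ge (4 * Real.log 5 / h)
  refine Bas.mono J₁ (((alt_low hpos N₁ h hh0).and (alt_low hpos N₂ h hh0)).and
    (pos_bas hpos)) ?_
  rintro J hJ F A ⟨⟨H₁, H₂⟩, hA⟩ V z z' G hG
  obtain ⟨f1, f2⟩ := floorw hwv hv J
  have hq := isLaw_cond F.isLaw hA
  have a1 := hG.cnt.ent hA
  have a2 := H₁ V z z' G hG.lb
  have a3 := H₂ V z _ G (lbok_win hG.lb f1 f2)
  rw [xa_wz z' f1 f2, ya_wz z' f1 f2] at a3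
  have a4 := ch_three (I₀ := I₀) (κ := κ) hq z' ⌊w * J⌋₊ G h0 (h1.trans h2)
  have a5 := ch_three (I₀ := I₀) (κ := κ) hq z' ⌊w * J⌋₊ G h1 h2
  have a6 : 4 * Real.log 5 ≤ h * J := by
    have e1 : (J₁ : ℝ) ≤ J := by exact_mod_cast hJ
    have e2 := hJ₁.trans e1
    rw [div_le_iff₀ hh0] at e2
    linarith
  have e3 : d * J = (b - θ₁ - θ₂) * J + 4 * (h * J) := by rw [hh]; ring
  have e4 : 0 ≤ h * J := mul_nonneg hh0.le (Nat.cast_nonneg J)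
  rw [e3]
  linarith

end Pool.ALT
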