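import Pool.Agent.H60.ALT.Nza
import Pool.Agent.H60.ALT.Row

/-!
# The counted labels near a window

`AlF`: the family of the counted labels. `rec_ex`: they exist, `rec_row`: their rows on all blocks,
`rec_blind`: their slopes, from the linear numbers near a window.
-/

set_option autoImplicit false

namespace Pool.ALT

open Finset Real MvPolynomial
open Pool.Agent.H49.Ent Pool.Agent.H32.Dense Pool.STK Pool.KA Pool.KSAT Pool.K2S Pool.PB Pool.S6C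
  Pool.GEN Pool.RCD Pool.LA91 Pool.OWN68
open Pool.UNJ (ceI)
open Pool.GRW (xr xr_near)
open Pool.BFL (Pb)
open Pool.GRD (LbP)

variable {m : ℕ}

/-- The family of the counted labels. -/
def AlF (I I₀ : Finset (Fin m)) (κ : Fin m) (K : ℕ) (e₀ ρ₀ π₀ w s₀ s₁ b : ℝ) :
    ∀ (J : ℕ) (F : Fam m J), (F.Ω → Prop) → ∀ V : Type, (PtT F → V) → (LnT F → V) →
      (V → MvPolynomial (Option (Fin m)) ℝ) → Prop :=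
  fun _ F A _ z z' G => AltL I I₀ κ K e₀ ρ₀ π₀ w s₀ s₁ b F A z z' G

variable {I I₀ : Finset (Fin m)} {κ : Fin m} {K : ℕ} {e₀ ρ₀ π₀ : ℝ}

theorem AlF.hs {w s₀ s₁ b : ℝ} (J : ℕ) (F : Fam m J) (A B : F.Ω → Prop) (V : Type)
    (z : PtT F → V) (z' : LnT F → V) (G : V → MvPolynomial (Option (Fin m)) ℝ) (hB : Sub B A)
    (h : AlF I I₀ κ K e₀ ρ₀ π₀ w s₀ s₁ b J F A V z z' G) :
    AlF I I₀ κ K e₀ ρ₀ π₀ w s₀ s₁ b J F B V z z' G := AltL.sub h hB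

theorem AlF.hl {w s₀ s₁ b : ℝ} (J : ℕ) (F : Fam m J) (A : F.Ω → Prop) (V : Type)
    (z : PtT F → V) (z' : LnT F → V) (G : V → MvPolynomial (Option (Fin m)) ℝ)
    (h : AlF I I₀ κ K e₀ ρ₀ π₀ w s₀ s₁ b J F A V z z' G) :
    LbOK F I κ K ⌊e₀ * J⌋₊ J ⌊w * J⌋₊ ⌊ρ₀ * J⌋₊ ⌊π₀ * J⌋₊ A z z' G := AltL.lb h

theorem AlF.hd {w s₀ s₁ b : ℝ} (J : ℕ) (F : Fam m J) (A : F.Ω → Prop) (V : Type)
    (z : PtT F → V) (z' : LnT F → V) (G : V → MvPolynomial (Option (Fin m)) ℝ)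
    (h : AlF I I₀ κ K e₀ ρ₀ π₀ w s₀ s₁ b J F A V z z' G) :
    (∀ y, (G y).totalDegree ≤ K) ∧ (∀ y, DpI I (G y)) ∧
      ∀ ω, A ω → z (ptr F J ω) = z' (slam F ⌊w * J⌋₊ ω) :=
  ⟨(AltL.lb h).deg, (AltL.lb h).dep, (AltL.lb h).cls⟩

/-- **The counted labels exist.** -/
theorem rec_ex {S : PCl m} {s : ℝ → ℝ} {x φ e : ℝ} {k : ℕ} (he : 0 < e)
    (h : AltAt S I I₀ κ K e₀ ρ₀ π₀ s x φ e k) {w o₁ : ℚ} (h1 : x - (1 / 2) ^ k ≤ w)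
    (h2 : w ≤ o₁) (h3 : (o₁ : ℝ) ≤ x + (1 / 2) ^ k) :
    Bas S (fun J F A => ∃ (V : Type) (z : PtT F → V) (z' : LnT F → V)
      (G : V → MvPolynomial (Option (Fin m)) ℝ), AlF I I₀ κ K e₀ ρ₀ π₀ w (s w) (s o₁)
        (φ * (o₁ - w) + 2 * e * (1 / 2) ^ k) J F A V z z' G) := by
  obtain ⟨θ, h4, h5⟩ := h w o₁ h1 h2 h3
  refine alt_ex h4 ?_
  have h6 := (abs_le.1 h5).2
  have h7 : 0 < e * (1 / 2) ^ k := by positivity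
  linarith

/-- **The rows of the counted labels.** -/
theorem rec_row {S : PCl m} (hpos : ∀ (τ : ℝ) (J : ℕ) (F : Fam m J) (A : F.Ω → Prop),
      S.St τ J F A → 0 < Pe F.p A) {s : ℝ → ℝ} {x φ e : ℝ} {k : ℕ}
    (h : AltAt S I I₀ κ K e₀ ρ₀ π₀ s x φ e k) {w o o' o₁ : ℚ} (h1 : x - (1 / 2) ^ k ≤ w)
    (h2 : w ≤ o) (h3 : o ≤ o') (h4 : o' ≤ o₁) (h5 : (o₁ : ℝ) ≤ x + (1 / 2) ^ k)
    (h6 : (o' : ℝ) ≤ 1) (s1 : s w ≤ s o) (s2 : s o ≤ s o') (s3 : s o' ≤ s o₁) {d : ℝ}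
    (hd : φ * (o' - o) + 4 * e * (1 / 2) ^ k < d) :
    Bas S (fun J F A => ∀ (V : Type) (z : PtT F → V) (z' : LnT F → V)
      (G : V → MvPolynomial (Option (Fin m)) ℝ), AlF I I₀ κ K e₀ ρ₀ π₀ w (s w) (s o₁)
        (φ * (o₁ - w) + 2 * e * (1 / 2) ^ k) J F A V z z' G →
      CH (Pool.Agent.H49.Ent.cond F.p A True) (xa F κ z' ⌊(w : ℝ) * J⌋₊ G (s o'))
        (ya F I₀ κ z' ⌊(w : ℝ) * J⌋₊ G (s o)) ≤ d * J) := by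
  have h2' : (w : ℝ) ≤ o := by exact_mod_cast h2
  have h3' : (o : ℝ) ≤ o' := by exact_mod_cast h3
  have h4' : (o' : ℝ) ≤ o₁ := by exact_mod_cast h4
  obtain ⟨θ₁, a1, a2⟩ := h w o h1 h2 (by linarith)
  obtain ⟨θ₂, b1, b2⟩ := h o' o₁ (by linarith) h4 h5
  refine alt_row hpos (h2'.trans h3') h6 s1 s2 s3 a1 b1 ?_
  have a3 := (abs_le.1 a2).1
  have b3 := (abs_le.1 b2).1
  linarith

/-- **The slopes of the counted labels**, if the rate is not the full one. -/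
theorem rec_blind {S : PCl m} {C₀ : ℝ} (htm : TmC S C₀) (hpos : ∀ (τ : ℝ) (J : ℕ) (F : Fam m J)
      (A : F.Ω → Prop), S.St τ J F A → 0 < Pe F.p A) {c : ℕ → Fin m} {r₀ : ℕ}
    {K₁ Ku : ℕ} {v u₁ e₁ p₁ u₂ e₂ p₂ x₀ σ : ℝ} {sf : ℕ → ℝ}
    (hful : FulC S c r₀ (r₀ + 1) v sf)
    (U₁ : Upg S ((range (r₀ + 1)).image c) κ K₁ v u₁ p₁ e₁)
    (U₂ : Upg S ((range r₀).image c) (c r₀) Ku v u₂ p₂ e₂)
    {s : ℝ → ℝ} {x φ e : ℝ} {k : ℕ}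
    (h : AltAt S ((range (r₀ + 1)).image c) ((range r₀).image c) κ K e₀ ρ₀ π₀ s x φ e k)
    {w o o' o₁ : ℚ} (h1 : x - (1 / 2) ^ k ≤ w) (h2 : w ≤ o) (h3 : o ≤ o') (h4 : o' ≤ o₁)
    (h5 : (o₁ : ℝ) ≤ x + (1 / 2) ^ k) (h6 : (o' : ℝ) ≤ 1) (s1 : s w ≤ s o) (s2 : s o ≤ s o')
    (s3 : s o' ≤ s o₁) (hwv : (w : ℝ) ≤ v) (hρ₀ : ρ₀ ≤ 1) (he₀ : 0 ≤ e₀) (r0 : e₀ + p₁ < 1)
    (r1 : e₁ + p₁ < 1) (r2 : e₂ + p₂ < 1) (hσ : 0 < σ) (hsa : s o ≤ p₁) (hsb : p₁ ≤ s o')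
    (hπ : π₀ ≤ p₁) (hx₀ : p₂ - s o ≤ x₀)
    (hgap : φ * (o' - o) + 4 * e * (1 / 2) ^ k + ((s o' - p₁) + (sf r₀ - p₂) + 3 * σ) *
      Real.log 2 < (s o' - s o) * Real.log 2) (hs1 : sf r₀ + 3 * σ ≤ 1)
    (hroom : p₁ + sf r₀ - π₀ + 3 * σ ≤ 1) :
    BlC S c r₀ κ w v K₁ Ku p₁ p₂ x₀ (AlF ((range (r₀ + 1)).image c) ((range r₀).image c) κ K e₀
      ρ₀ π₀ w (s w) (s o₁) (φ * (o₁ - w) + 2 * e * (1 / 2) ^ k)) := by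
  intro η χ hη hχ
  exact blind_p htm hpos hful U₁ U₂ hwv hρ₀ he₀ r0 r1 r2 hσ hsa hsb hπ hx₀ le_rfl hs1 hroom
    (AlF ((range (r₀ + 1)).image c) ((range r₀).image c) κ K e₀
      ρ₀ π₀ w (s w) (s o₁) (φ * (o₁ - w) + 2 * e * (1 / 2) ^ k)) (fun J F A V z z' G => AlF.hl J F A V z z' G)
    (fun J F A B V z z' G => AlF.hs J F A B V z z' G)
    (rec_row hpos h h1 h2 h3 h4 h5 h6 s1 s2 s3 (by linarith)) hη hχ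

end Pool.ALT
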