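import Pool.Agent.H60.ALT.Nzo

/-!
# The own heights of the natural labels

`near_val`: a polynomial of the base at the near point. `NzF`: the family of the natural labels.
`nzf_few`: their heights are few bits given the closed codes of a later window and the near point of
the base. `nzf_row`: their rows.
-/

set_option autoImplicit false

namespace Pool.ALT

open Finset Real MvPolynomial
open Pool.Agent.H49.Ent Pool.Agent.H32.Dense Pool.STK Pool.KA Pool.KSAT Pool.K2S Pool.PB Pool.S6C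
  Pool.GEN Pool.RCD Pool.LA91 Pool.OWN68
open Pool.UNJ (ceI)
open Pool.GRW (xr xr_near)
open Pool.BFL (Pb)
open Pool.GRD (LbP)
open Pool.LIV (Pb_mono25 Pb_or25)

/-- The point of the base to `n` digits, with the other coordinates of the sample. -/
noncomputable def npt {m J : ℕ} (F : Fam m J) (I : Finset (Fin m)) (n : ℕ) (ω : F.Ω) :
    Option (Fin m) → ℝ
  | none => F.t ω
  | some i => if i ∈ I then (ceI I (fun _ => n) (F.x ω) i : ℝ) / 2 ^ n else F.x ω i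

theorem npt_near {m J : ℕ} (F : Fam m J) (I : Finset (Fin m)) (n : ℕ) (ω : F.Ω)
    (o : Option (Fin m)) : |npt F I n ω o - bt F ω o| ≤ 1 / 2 ^ n := by
  cases o with
  | none =>
    show |F.t ω - F.t ω| ≤ _
    rw [sub_self, abs_zero]
    positivity
  | some i =>
    show |(if i ∈ I then (ceI I (fun _ => n) (F.x ω) i : ℝ) / 2 ^ n else F.x ω i) - F.x ω i| ≤ _
    by_cases hi : i ∈ I
    · rw [if_pos hi]
      have e1 : ceI I (fun _ => n) (F.x ω) i = ⌊(2 : ℝ) ^ n * F.x ω i⌋ := by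
        unfold ceI
        rw [if_pos hi]
      rw [e1]
      exact fl_near n _
    · rw [if_neg hi, sub_self, abs_zero]
      positivity

theorem npt_eval {m J : ℕ} {F : Fam m J} {I : Finset (Fin m)} {n : ℕ} {ω : F.Ω}
    {Φ : MvPolynomial (Option (Fin m)) ℝ} (h : DpI I Φ) :
    eval (npt F I n ω) Φ =
      eval (Pool.LA91.bx I J n (F.T ω) (ceI I (fun _ => n) (F.x ω))) Φ := by
  refine h _ _ rfl fun i hi => ?_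
  show (if i ∈ I then (ceI I (fun _ => n) (F.x ω) i : ℝ) / 2 ^ n else F.x ω i) =
    if i ∈ I then (ceI I (fun _ => n) (F.x ω) i : ℝ) / 2 ^ n else 0
  rw [if_pos hi, if_pos hi]

/-- **A polynomial of the base at the near point.** -/
theorem near_val {m J : ℕ} {F : Fam m J} {I : Finset (Fin m)} {ω : F.Ω}
    {P Q Φ : MvPolynomial (Option (Fin m)) ℝ} {ρ n : ℕ} {E₁ E₂ : ℝ} (hn : ρ ≤ n)
    (hP : ∀ b : Option (Fin m) → ℝ, (∀ o, |b o - bt F ω o| ≤ 1 / 2 ^ ρ) →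
      ∀ o, |eval b (pderiv o P)| ≤ E₁)
    (hQ : ∀ b : Option (Fin m) → ℝ, (∀ o, |b o - bt F ω o| ≤ 1 / 2 ^ ρ) →
      ∀ o, |eval b (pderiv o Q)| ≤ E₂) (hΦ : Φ = P - Q) (hd : DpI I Φ) :
    |eval (bt F ω) Φ - eval (Pool.LA91.bx I J n (F.T ω) (ceI I (fun _ => n) (F.x ω))) Φ| ≤
      (E₁ + E₂) * ((m + 1) * (1 / 2 ^ n)) := by
  rw [← npt_eval hd, abs_sub_comm]
  have h1 := mvσ Φ (bt F ω) (npt F I n ω) (E₁ + E₂) fun y hy o => by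
    have h2 : ∀ o, |y o - bt F ω o| ≤ 1 / 2 ^ ρ := fun o =>
      ((hy o).trans (npt_near F I n ω o)).trans (inv_mono hn)
    rw [hΦ, map_sub, map_sub]
    exact (abs_sub _ _).trans (add_le_add (hP y h2 o) (hQ y h2 o))
  have hE : 0 ≤ E₁ + E₂ := by
    have h2 : ∀ o, |bt F ω o - bt F ω o| ≤ 1 / 2 ^ ρ := fun o => by
      rw [sub_self, abs_zero]
      positivity
    have := (abs_nonneg _).trans (hP _ h2 none)
    have := (abs_nonneg _).trans (hQ _ h2 none)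
    linarith
  refine h1.trans (mul_le_mul_of_nonneg_left ?_ hE)
  refine (Finset.sum_le_sum fun o _ => npt_near F I n ω o).trans (le_of_eq ?_)
  rw [Finset.sum_const, Finset.card_univ, Fintype.card_option, Fintype.card_fin, nsmul_eq_mul]
  push_cast
  ring

/-- The type of the families of labels. -/
abbrev Fml (m : ℕ) : Type 1 := ∀ (J : ℕ) (F : Fam m J), (F.Ω → Prop) → ∀ V : Type,
  (PtT F → V) → (LnT F → V) → (V → MvPolynomial (Option (Fin m)) ℝ) → Prop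

/-- The data of a natural label `G` at the window `v`, from a label `G₀` at the window `w` and the
labels `G₁`, `H` at the window `v`. -/
structure NzL {m : ℕ} (c : ℕ → Fin m) (r₀ : ℕ) (κ : Fin m) (K K₁ Ku : ℕ)
    (w v p₁ p₂ e u p : ℝ) {J : ℕ} (F : Fam m J) (A : F.Ω → Prop) {V V₀ V₁ V₂ : Type}
    (z : PtT F → V) (z' : LnT F → V) (G : V → MvPolynomial (Option (Fin m)) ℝ)
    (z₀' : LnT F → V₀) (G₀ : V₀ → MvPolynomial (Option (Fin m)) ℝ) (P₁ : ℕ) (z₁ : PtT F → V₁)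
    (z₁' : LnT F → V₁) (G₁ : V₁ → MvPolynomial (Option (Fin m)) ℝ) (P₂ : ℕ) (z₂ : PtT F → V₂)
    (z₂' : LnT F → V₂) (H : V₂ → MvPolynomial (Option (Fin m)) ℝ)
    (f : V → V₀ × (V₁ × V₂)) : Prop where
  l1 : LbP F ((range (r₀ + 1)).image c) κ K₁ J ⌊v * J⌋₊ P₁ A z₁ z₁' G₁
  q1 : p₁ * J ≤ P₁
  l2 : LbP F ((range r₀).image c) (c r₀) Ku J ⌊v * J⌋₊ P₂ A z₂ z₂' H
  q2 : p₂ * J ≤ P₂
  cod : ∀ x, f (z' x) = (wz z₀' ⌊w * J⌋₊ ⌊v * J⌋₊ x, (z₁' x, z₂' x))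
  pol : ∀ y, G y = nzG (c r₀) G₀ G₁ H (f y)
  lb : LbOK F ((range (r₀ + 1)).image c) κ (max K K₁ * max 1 Ku) ⌊e * J⌋₊ J ⌊v * J⌋₊
    ⌊u * J⌋₊ ⌊p * J⌋₊ A z z' G

theorem NzL.sub {m : ℕ} {c : ℕ → Fin m} {r₀ : ℕ} {κ : Fin m} {K K₁ Ku : ℕ}
    {w v p₁ p₂ e u p : ℝ} {J : ℕ} {F : Fam m J} {A B : F.Ω → Prop} {V V₀ V₁ V₂ : Type}
    {z : PtT F → V} {z' : LnT F → V} {G : V → MvPolynomial (Option (Fin m)) ℝ}
    {z₀' : LnT F → V₀} {G₀ : V₀ → MvPolynomial (Option (Fin m)) ℝ} {P₁ : ℕ} {z₁ : PtT F → V₁}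
    {z₁' : LnT F → V₁} {G₁ : V₁ → MvPolynomial (Option (Fin m)) ℝ} {P₂ : ℕ} {z₂ : PtT F → V₂}
    {z₂' : LnT F → V₂} {H : V₂ → MvPolynomial (Option (Fin m)) ℝ}
    {f : V → V₀ × (V₁ × V₂)}
    (h : NzL c r₀ κ K K₁ Ku w v p₁ p₂ e u p F A z z' G z₀' G₀ P₁ z₁ z₁' G₁ P₂ z₂ z₂' H f)
    (hB : Sub B A) :
    NzL c r₀ κ K K₁ Ku w v p₁ p₂ e u p F B z z' G z₀' G₀ P₁ z₁ z₁' G₁ P₂ z₂ z₂' H f :=
  ⟨h.l1.sub hB, h.q1, h.l2.sub hB, h.q2, h.cod, h.pol, h.lb.sub hB⟩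

/-- **The family of the natural labels.** -/
def NzF {m : ℕ} (Ψ : Fml m) (c : ℕ → Fin m) (r₀ : ℕ) (κ : Fin m) (K K₁ Ku : ℕ)
    (w v p₁ p₂ e u p : ℝ) : Fml m := fun J F A V z z' G =>
  ∃ (V₀ V₁ V₂ : Type) (z₀ : PtT F → V₀) (z₀' : LnT F → V₀)
    (G₀ : V₀ → MvPolynomial (Option (Fin m)) ℝ) (P₁ : ℕ) (z₁ : PtT F → V₁) (z₁' : LnT F → V₁)
    (G₁ : V₁ → MvPolynomial (Option (Fin m)) ℝ) (P₂ : ℕ) (z₂ : PtT F → V₂)
    (z₂' : LnT F → V₂) (H : V₂ → MvPolynomial (Option (Fin m)) ℝ)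
    (f : V → V₀ × (V₁ × V₂)), Ψ J F A V₀ z₀ z₀' G₀ ∧
      NzL c r₀ κ K K₁ Ku w v p₁ p₂ e u p F A z z' G z₀' G₀ P₁ z₁ z₁' G₁ P₂ z₂ z₂' H f

theorem NzF.hs {m : ℕ} {Ψ : Fml m} {c : ℕ → Fin m} {r₀ : ℕ} {κ : Fin m} {K K₁ Ku : ℕ}
    {w v p₁ p₂ e u p : ℝ} (hΨs : ∀ (J : ℕ) (F : Fam m J) (A B : F.Ω → Prop) (V : Type)
      (z : PtT F → V) (z' : LnT F → V) (G : V → MvPolynomial (Option (Fin m)) ℝ), Sub B A →
      Ψ J F A V z z' G → Ψ J F B V z z' G) (J : ℕ) (F : Fam m J) (A B : F.Ω → Prop) (V : Type)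
    (z : PtT F → V) (z' : LnT F → V) (G : V → MvPolynomial (Option (Fin m)) ℝ) (hB : Sub B A)
    (h : NzF Ψ c r₀ κ K K₁ Ku w v p₁ p₂ e u p J F A V z z' G) :
    NzF Ψ c r₀ κ K K₁ Ku w v p₁ p₂ e u p J F B V z z' G := by
  obtain ⟨V₀, V₁, V₂, z₀, z₀', G₀, P₁, z₁, z₁', G₁, P₂, z₂, z₂', H, f, h1, h2⟩ := h
  exact ⟨V₀, V₁, V₂, z₀, z₀', G₀, P₁, z₁, z₁', G₁, P₂, z₂, z₂', H, f,
    hΨs J F A B V₀ z₀ z₀' G₀ hB h1, h2.sub hB⟩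

theorem NzF.lb {m : ℕ} {Ψ : Fml m} {c : ℕ → Fin m} {r₀ : ℕ} {κ : Fin m} {K K₁ Ku : ℕ}
    {w v p₁ p₂ e u p : ℝ} {J : ℕ} {F : Fam m J} {A : F.Ω → Prop} {V : Type}
    {z : PtT F → V} {z' : LnT F → V} {G : V → MvPolynomial (Option (Fin m)) ℝ}
    (h : NzF Ψ c r₀ κ K K₁ Ku w v p₁ p₂ e u p J F A V z z' G) :
    LbOK F ((range (r₀ + 1)).image c) κ (max K K₁ * max 1 Ku) ⌊e * J⌋₊ J ⌊v * J⌋₊
      ⌊u * J⌋₊ ⌊p * J⌋₊ A z z' G := by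
  obtain ⟨V₀, V₁, V₂, z₀, z₀', G₀, P₁, z₁, z₁', G₁, P₂, z₂, z₂', H, f, h1, h2⟩ := h
  exact h2.lb

/-- **The natural labels of the window `v` exist** on a large part of each large part of an
event, for all labels of the family and of the window. -/
def NzO {m : ℕ} (S : PCl m) (Ψ : Fml m) (c : ℕ → Fin m) (r₀ : ℕ) (κ : Fin m) (K K₁ Ku : ℕ)
    (w v p₁ p₂ e u p : ℝ) : Prop :=
  ∀ η : ℝ, 0 < η → Bas S (fun J F A => ∀ (V : Type) (z : PtT F → V) (z' : LnT F → V)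
      (G : V → MvPolynomial (Option (Fin m)) ℝ), Ψ J F A V z z' G →
      ∀ (P₁ : ℕ) (V₁ : Type) (z₁ : PtT F → V₁) (z₁' : LnT F → V₁)
      (G₁ : V₁ → MvPolynomial (Option (Fin m)) ℝ),
      LbP F ((range (r₀ + 1)).image c) κ K₁ J ⌊v * J⌋₊ P₁ A z₁ z₁' G₁ → p₁ * J ≤ P₁ →
      ∀ (P₂ : ℕ) (V₂ : Type) (z₂ : PtT F → V₂) (z₂' : LnT F → V₂)
      (H : V₂ → MvPolynomial (Option (Fin m)) ℝ),
      LbP F ((range r₀).image c) (c r₀) Ku J ⌊v * J⌋₊ P₂ A z₂ z₂' H → p₂ * J ≤ P₂ →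
      ∀ R : F.Ω → Prop, Sub R A → Pe F.p A ≤ 1 / η * Pe F.p R →
      ∃ B : F.Ω → Prop, Sub B R ∧ Pe F.p R ≤ 8 * Pe F.p B ∧
        LbOK F ((range (r₀ + 1)).image c) κ (max K K₁ * max 1 Ku) ⌊e * J⌋₊ J ⌊v * J⌋₊
          ⌊u * J⌋₊ ⌊p * J⌋₊ B (fun y => (z y, (z₁ y, z₂ y)))
          (fun x => (wz z' ⌊w * J⌋₊ ⌊v * J⌋₊ x, (z₁' x, z₂' x))) (nzG (c r₀) G G₁ H))

theorem NzO.sub {m : ℕ} {S S' : PCl m} (hs : ∀ (τ : ℝ) (J : ℕ) (F : Fam m J)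
    (A : F.Ω → Prop), S'.St τ J F A → S.St τ J F A) {Ψ : Fml m} {c : ℕ → Fin m} {r₀ : ℕ}
    {κ : Fin m} {K K₁ Ku : ℕ} {w v p₁ p₂ e u p : ℝ}
    (h : NzO S Ψ c r₀ κ K K₁ Ku w v p₁ p₂ e u p) : NzO S' Ψ c r₀ κ K K₁ Ku w v p₁ p₂ e u p :=
  fun η hη => Bas.sub hs (h η hη)

/-- **The family of natural labels is not empty.** -/
theorem nzf_ex {m : ℕ} {S : PCl m} {Ψ : Fml m} {c : ℕ → Fin m} {r₀ : ℕ} {κ : Fin m}
    {K K₁ Ku : ℕ} {w v p₁ p₂ e u p : ℝ} (h : NzO S Ψ c r₀ κ K K₁ Ku w v p₁ p₂ e u p)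
    (hΨs : ∀ (J : ℕ) (F : Fam m J) (A B : F.Ω → Prop) (V : Type)
      (z : PtT F → V) (z' : LnT F → V) (G : V → MvPolynomial (Option (Fin m)) ℝ), Sub B A →
      Ψ J F A V z z' G → Ψ J F B V z z' G)
    (hex : Bas S (fun J F A => ∃ (V : Type) (z : PtT F → V) (z' : LnT F → V)
      (G : V → MvPolynomial (Option (Fin m)) ℝ), Ψ J F A V z z' G))
    (h1 : Bas S (fun J F A => ∃ (P₁ : ℕ) (V₁ : Type) (z₁ : PtT F → V₁) (z₁' : LnT F → V₁)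
      (G₁ : V₁ → MvPolynomial (Option (Fin m)) ℝ),
      LbP F ((range (r₀ + 1)).image c) κ K₁ J ⌊v * J⌋₊ P₁ A z₁ z₁' G₁ ∧ p₁ * J ≤ P₁))
    (h2 : Bas S (fun J F A => ∃ (P₂ : ℕ) (V₂ : Type) (z₂ : PtT F → V₂) (z₂' : LnT F → V₂)
      (H : V₂ → MvPolynomial (Option (Fin m)) ℝ),
      LbP F ((range r₀).image c) (c r₀) Ku J ⌊v * J⌋₊ P₂ A z₂ z₂' H ∧ p₂ * J ≤ P₂)) :
    Bas S (fun J F A => ∃ B : F.Ω → Prop, Sub B A ∧ Pe F.p A ≤ 8 * Pe F.p B ∧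
      ∃ (V : Type) (z : PtT F → V) (z' : LnT F → V)
        (G : V → MvPolynomial (Option (Fin m)) ℝ),
        NzF Ψ c r₀ κ K K₁ Ku w v p₁ p₂ e u p J F B V z z' G) := by
  refine Bas.mono 0 (((h 1 one_pos).and hex).and (h1.and h2)) ?_
  rintro J - F A ⟨⟨H, V, z, z', G, hΨ⟩, ⟨P₁, V₁, z₁, z₁', G₁, hG₁, hP₁⟩, P₂, V₂, z₂, z₂', H₂, hH₂,
    hP₂⟩
  obtain ⟨B, b1, b2, b3⟩ := H V z z' G hΨ P₁ V₁ z₁ z₁' G₁ hG₁ hP₁ P₂ V₂ z₂ z₂' H₂ hH₂ hP₂ A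
    (fun ω h => h) (by rw [div_one, one_mul])
  exact ⟨B, b1, b2, _, _, _, _, V, V₁, V₂, z, z', G, P₁, z₁, z₁', G₁, P₂, z₂, z₂', H₂, id,
    hΨs J F A B V z z' G b1 hΨ, hG₁.sub b1, hP₁, hH₂.sub b1, hP₂, fun _ => rfl, fun _ => rfl, b3⟩

end Pool.ALT
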