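import Pool.Agent.H60.ALT.Nzr
import Pool.Agent.H71.AJX.Rbx

/-!
# The own path over a counted label

`alp_path`: all jets of the own path of `κ` over the natural labels of a blind family are few bits
given the ball, if the rows of the family given the exact point of the base are not full.
-/

set_option autoImplicit false

namespace Pool.ALT

open Finset Real MvPolynomial
open Pool.Agent.H49.Ent Pool.Agent.H32.Dense Pool.STK Pool.KA Pool.KSAT Pool.K2S Pool.PB Pool.S6C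
  Pool.GEN Pool.RCD Pool.LA91 Pool.OWN68
open Pool.UNJ (ceI)
open Pool.GRW (xr xr_near)
open Pool.BFL (Pb)
open Pool.GRD (LbP)
open Pool.LIV (Pb_mono25 Pb_or25)

/-- Near digits of the base from a context. -/
theorem ctx_few {m J : ℕ} {F : Fam m J} {q : F.Ω → ℝ} (hq : IsLaw q) (I : Finset (Fin m)) (n D : ℕ)
    {Γ : Type} (Y : F.Ω → Γ)
    (h : ∀ ω ω', 0 < q ω → 0 < q ω' → Y ω = Y ω' → ∀ i ∈ I, |F.x ω i - F.x ω' i| ≤ D / 2 ^ n) :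
    CH q (fun ω => ceI I (fun _ => n) (F.x ω)) Y ≤ m * Real.log (2 * (D + 1) + 1) := by
  classical
  refine (CH_pis hq.nonneg _ _).trans ?_
  have h1 : ∀ i ∈ (univ : Finset (Fin m)), CH q (fun ω => ceI I (fun _ => n) (F.x ω) i) Y ≤
      Real.log (2 * (D + 1) + 1) := by
    intro i _
    have e5 : (2 : ℝ) * (D + 1) + 1 = 2 * ((D + 1 : ℕ) : ℝ) + 1 := by push_cast; ring
    rw [e5]
    refine CH_pair hq _ _ fun ω ω' hω hω' e => ?_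
    unfold ceI
    by_cases hi : i ∈ I
    · rw [if_pos hi, if_pos hi]
      refine floor_sub_le ?_
      rw [← mul_sub, abs_mul, abs_of_pos (by positivity)]
      have h2 := h ω ω' hω hω' e i hi
      rw [le_div_iff₀ (by positivity)] at h2
      linarith
    · rw [if_neg hi, if_neg hi, sub_self, abs_zero]
      positivity
  refine (Finset.sum_le_sum h1).trans (le_of_eq ?_)
  rw [Finset.sum_const, Finset.card_univ, Fintype.card_fin, nsmul_eq_mul]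

/-- **The own path over the counted labels.** -/
theorem alp_path (K K₁ Kb : ℕ) {h : ℝ} (hh : 0 < h) (hh1 : h ≤ 1) {ε : ℝ} (hε : 0 < ε) :
    ∃ δ : ℝ, 0 < δ ∧ ∃ N₀ : ℕ, 0 < N₀ ∧
    ∀ {m : ℕ} {S : PCl m} {C₀ : ℝ} (_ : TmC S C₀)
    (_ : ∀ (τ : ℝ) (J : ℕ) (F : Fam m J) (A : F.Ω → Prop), S.St τ J F A → 0 < Pe F.p A)
    {Ψ : Fml m} {c : ℕ → Fin m} {r₀ : ℕ} {κ : Fin m} {Ku : ℕ}
    {w v p₁ p₂ eN uN pN e₀ ρ₀ π₀ a pa₁ pa₂ ea ua pa n p q : ℝ}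
    (_ : NzO S Ψ c r₀ κ K K₁ Ku w a pa₁ pa₂ ea ua pa)
    (_ : Bas S (fun J F A => ∃ (P₁ : ℕ) (V₁ : Type) (z₁ : PtT F → V₁) (z₁' : LnT F → V₁)
      (G₁ : V₁ → MvPolynomial (Option (Fin m)) ℝ),
      LbP F ((range (r₀ + 1)).image c) κ K₁ J ⌊a * J⌋₊ P₁ A z₁ z₁' G₁ ∧ pa₁ * J ≤ P₁))
    (_ : Bas S (fun J F A => ∃ (P₂ : ℕ) (V₂ : Type) (z₂ : PtT F → V₂) (z₂' : LnT F → V₂)
      (H : V₂ → MvPolynomial (Option (Fin m)) ℝ),
      LbP F ((range r₀).image c) (c r₀) Ku J ⌊a * J⌋₊ P₂ A z₂ z₂' H ∧ pa₂ * J ≤ P₂))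
    (_ : Ful S ((range r₀).image c) a n)
    (_ : ∀ (J : ℕ) (F : Fam m J) (A : F.Ω → Prop) (V : Type) (z : PtT F → V) (z' : LnT F → V)
      (G : V → MvPolynomial (Option (Fin m)) ℝ), Ψ J F A V z z' G →
      LbOK F ((range (r₀ + 1)).image c) κ K ⌊e₀ * J⌋₊ J ⌊w * J⌋₊ ⌊ρ₀ * J⌋₊ ⌊π₀ * J⌋₊ A z z' G)
    (_ : 0 ≤ v) (_ : w ≤ v) (_ : v ≤ a) (_ : a ≤ 1) (_ : 0 < eN) (_ : 0 ≤ e₀) (_ : 0 ≤ pN)
    (_ : 0 ≤ ea) (_ : ρ₀ ≤ 1) (_ : n ≤ 1) (_ : p + q + e₀ < 1) (_ : p + q ≤ pa)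
    (_ : p + q + ea < n) (_ : p + q + eN < n) (_ : ua ≤ n) (_ : uN ≤ n) (_ : v + q ≤ 1)
    (_ : 0 < q) (_ : pN < p) (_ : p - pN ≤ δ * q / 8)
    (_ : ∀ sa sb : ℝ, p ≤ sa → sa ≤ sb → sb ≤ p + q →
      Bas S (fun J F A => ∀ (V : Type) (z : PtT F → V) (z' : LnT F → V)
      (G : V → MvPolynomial (Option (Fin m)) ℝ), Ψ J F A V z z' G →
      CH (Pool.Agent.H49.Ent.cond F.p A True) (xa F κ z' ⌊w * J⌋₊ G sb)
        (ya F ((range r₀).image c) κ z' ⌊w * J⌋₊ G sa) ≤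
        ((1 - h) * (sb - sa) * Real.log 2 + δ * q / 4) * J))
    {U₀ : Type} {Qu : Qt m U₀}
    {α γ : ∀ J : ℕ, Fam m J → Type} {f : ∀ (J : ℕ) (F : Fam m J), F.Ω → α J F}
    {y : ∀ (J : ℕ) (F : Fam m J), F.Ω → γ J F}
    (_ : ∀ (J : ℕ) (F : Fam m J), ∃ φ : α J F → PtT F, ∀ ω, ptr F J ω = φ (f J F ω))
    (_ : Kn0 ((range r₀).image c) n y) (D : ℕ)
    (Θ : ∀ (J : ℕ) (F : Fam m J), (F.Ω → Prop) → ∀ V C : Type, (PtT F → V) → (LnT F → V) →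
      (V → MvPolynomial (Option (Fin m)) ℝ) → (LnT F → C) → Prop)
    (_ : ∀ (J : ℕ) (F : Fam m J) (A : F.Ω → Prop) (V C : Type) (z : PtT F → V) (z' : LnT F → V)
      (G : V → MvPolynomial (Option (Fin m)) ℝ) (cc : LnT F → C), Θ J F A V C z z' G cc →
      NzF Ψ c r₀ κ K K₁ Kb w v p₁ p₂ eN uN pN J F A V z z' G ∧
      ∀ ω ω', A ω → A ω' → cc (slam F ⌊v * J⌋₊ ω) = cc (slam F ⌊v * J⌋₊ ω') → F.T ω = F.T ω' →
        ∀ i ∈ (range r₀).image c, |F.x ω i - F.x ω' i| ≤ D / 2 ^ ⌊n * J⌋₊)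
    (_ : ∀ (J : ℕ) (F : Fam m J) (A B : F.Ω → Prop) (V C : Type) (z : PtT F → V)
      (z' : LnT F → V) (G : V → MvPolynomial (Option (Fin m)) ℝ) (c : LnT F → C), Sub B A →
      Θ J F A V C z z' G c → Θ J F B V C z z' G c),
    (∀ K₀ : ℕ, Bas S (fun J F A => ∀ (V C : Type) (z : PtT F → V) (z' : LnT F → V)
      (G : V → MvPolynomial (Option (Fin m)) ℝ) (c : LnT F → C), Θ J F A V C z z' G c →
      ∀ u₀ : F.Ω → U₀, Qu.P K₀ (p - pN) J F A u₀ →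
      ∃ (V₁ : Type) (z₁ : F.Ω → V₁), Cl2 (f J F) (vg a J F) A z₁ ∧
      CH (Pool.Agent.H49.Ent.cond F.p A True) (fun ω => c (vg v J F ω))
        (fun ω => (u₀ ω, (z₁ ω, y J F ω))) ≤ δ * q * J)) →
    ∀ K₀ : ℕ, Bas S (fun J F A => ∀ (V C : Type) (z : PtT F → V) (z' : LnT F → V)
        (G : V → MvPolynomial (Option (Fin m)) ℝ) (c : LnT F → C), Θ J F A V C z z' G c →
        ∀ u₀ : F.Ω → U₀, Qu.P K₀ (p - pN) J F A u₀ →
        ∃ (V₁ : Type) (z₁ : F.Ω → V₁), Cl2 (f J F) (vg a J F) A z₁ ∧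
          CH (Pool.Agent.H49.Ent.cond F.p A True)
            (fun ω => ((z' (vg v J F ω), (vg v J F ω).2), (c (vg v J F ω),
              fun j : Fin (max K K₁ * max 1 Kb + 3) => ⌊jr F ⌊v * J⌋₊ (2 ^ ((p + q) * J)) κ z' G j
                (vg v J F ω)⌋)))
            (fun ω => (u₀ ω, (z₁ ω, y J F ω))) ≤ ε * q * J) := by
  classical
  obtain ⟨δ, hδ, N₀, hN₀, H⟩ := Pool.AJX.path_rb (max K K₁ * max 1 Kb) hh hh1 hε
  refine ⟨δ, hδ, N₀, hN₀, ?_⟩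
  intro m S C₀ htm hpos Ψ c r₀ κ Ku w v p₁ p₂ eN uN pN e₀ ρ₀ π₀ a pa₁ pa₂ ea ua pa n p q hNz hE1
    hE2 hful hΨl hv0 hwv hva ha heN he₀ hpN hea hρ₀ hn hpq₀ hpqa hpqe hpqN hun huN hvq hq hpNp hpd
    hrow U₀ Qu α γ f y hf hy D Θ hΘ hΘs hctx
  have hN0 : (0 : ℝ) < N₀ := by exact_mod_cast hN₀
  have hδq : 0 < δ * q := by positivity
  have hv1 : v < 1 := by linarith
  have hΨd : ∀ (J : ℕ) (F : Fam m J) (A : F.Ω → Prop) (V : Type) (z : PtT F → V)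
      (z' : LnT F → V) (G : V → MvPolynomial (Option (Fin m)) ℝ), Ψ J F A V z z' G →
      (∀ y, (G y).totalDegree ≤ K) ∧ (∀ y, DpI ((range (r₀ + 1)).image c) (G y)) ∧
      ∀ ω, A ω → z (ptr F J ω) = z' (slam F ⌊w * J⌋₊ ω) := fun J F A V z z' G h => by
    have hlb := hΨl J F A V z z' G h
    exact ⟨hlb.deg, hlb.dep, hlb.cls⟩
  refine H htm (I := (range (r₀ + 1)).image c) (κ := κ) (w := v) (a := a) (p := p) (q := q)
    (r := max 0 (uN - eN)) hv0 hva ha hq hvq (le_max_left _ _) (Qu := Qu) hf (fun J F => ?_)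
    (e := p - pN) (e' := eN) (by linarith) heN Θ (fun J F A V C z z' G cc h1 => ?_) hΘs hctx
    (fun i hi x hx0 hxi => ?_) (fun K₀ => ?_) (fun j hj hj0 => ?_)
  · obtain ⟨φ, hφ⟩ := hy J F
    exact ⟨fun x => (φ x).1, fun ω => (congrArg Prod.fst (hφ ω)).symm⟩
  · have h2 := (hΘ J F A V C z z' G cc h1).1.lb
    have e1 : p - (p - pN) = pN := by ring
    rw [e1]
    refine h2.mono (Finset.Subset.refl _) le_rfl le_rfl (Nat.floor_le_floor ?_) le_rfl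
    refine mul_le_mul_of_nonneg_right ?_ (Nat.cast_nonneg J)
    have := le_max_right 0 (uN - eN)
    linarith
  · -- the rows
    have hi' : (i : ℝ) ≤ N₀ := by exact_mod_cast hi
    have e0 : q * i / N₀ ≤ q := by
      rw [div_le_iff₀ hN0]
      exact mul_le_mul_of_nonneg_left hi' hq.le
    have e1 : 0 ≤ q * i / N₀ := by positivity
    obtain ⟨sb, hsb⟩ : ∃ sb : ℝ, sb = p + (q - q * i / N₀) := ⟨_, rfl⟩
    have hr := hrow (p + x) sb (by linarith) (by rw [hsb]; linarith) (by rw [hsb]; linarith)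
    have hR := nzf_rown hpos hNz hE1 hE2 hful hΨl hwv hva ha heN.le he₀ hpN hea hρ₀ hn
      (by rw [hsb]; linarith : sb + e₀ < 1) (by rw [hsb]; linarith : p + x ≤ sb)
      (by rw [hsb]; linarith) (by rw [hsb]; linarith) (by rw [hsb]; linarith) hun huN hr
      (Kb := Kb) (p₁ := p₁) (p₂ := p₂) (pN := pN) (eN := eN) (uN := uN)
      (show 0 < δ * q / 4 by linarith)
    obtain ⟨J₁, hJ₁⟩ := exists_nat_ge (m * Real.log (2 * (D + 1) + 1) / (δ * q / 4))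
    refine Bas.mono J₁ (hR.and (pos_bas hpos)) ?_
    rintro J hJ F A ⟨HR, hA⟩ V C z z' G cc hΘ'
    have hqL := isLaw_cond F.isLaw hA
    obtain ⟨hnz, hnear⟩ := hΘ J F A V C z z' G cc hΘ'
    have j1 : m * Real.log (2 * (D + 1) + 1) ≤ δ * q / 4 * J := by
      have e1 : (J₁ : ℝ) ≤ J := by exact_mod_cast hJ
      have e2 := hJ₁.trans e1
      rw [div_le_iff₀ (by positivity)] at e2
      linarith
    have h3 := HR V z z' G hnz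
    obtain ⟨X₀, hX₀⟩ : ∃ X₀ : F.Ω → ℤ, X₀ = fun ω => ⌊(2 : ℝ) ^ ((p + x) * J) *
      ojet F κ 0 (G (z' (slam F ⌊v * J⌋₊ ω))) ω⌋ := ⟨_, rfl⟩
    obtain ⟨X, hX⟩ : ∃ X : F.Ω → ℤ, X = fun ω => ⌊(2 : ℝ) ^ (sb * J) *
      ojet F κ 0 (G (z' (slam F ⌊v * J⌋₊ ω))) ω⌋ := ⟨_, rfl⟩
    obtain ⟨N, hN⟩ : ∃ N : F.Ω → Fin m → ℤ, N = fun ω =>
      ceI ((range r₀).image c) (fun _ => ⌊n * J⌋₊) (F.x ω) := ⟨_, rfl⟩
    have h4 := CH_le_add hqL.nonneg X N (fun ω => (X₀ ω, (z' (slam F ⌊v * J⌋₊ ω),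
      (cc (slam F ⌊v * J⌋₊ ω), F.W ω))))
    have h5 : CH (Pool.Agent.H49.Ent.cond F.p A True) N (fun ω => (X₀ ω,
        (z' (slam F ⌊v * J⌋₊ ω), (cc (slam F ⌊v * J⌋₊ ω), F.W ω)))) ≤
        m * Real.log (2 * (D + 1) + 1) := by
      rw [hN]
      refine ctx_few hqL _ _ D _ fun ω ω' hω hω' e => ?_
      simp only [Prod.mk.injEq] at e
      exact hnear ω ω' (of_cond_pos hω) (of_cond_pos hω') e.2.2.1
        (Prod.ext_iff.mp e.2.2.2).1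
    have h6 : CH (Pool.Agent.H49.Ent.cond F.p A True) X (fun ω => (N ω, (X₀ ω,
        (z' (slam F ⌊v * J⌋₊ ω), (cc (slam F ⌊v * J⌋₊ ω), F.W ω))))) ≤
        CH (Pool.Agent.H49.Ent.cond F.p A True) X (fun ω => (X₀ ω, (N ω,
          (z' (slam F ⌊v * J⌋₊ ω), F.W ω)))) := by
      refine CH_mono_cond hqL.nonneg fun ω ω' _ _ e => ?_
      simp only [Prod.mk.injEq] at e ⊢
      exact ⟨e.2.1, e.1, e.2.2.1, e.2.2.2.2⟩
    have h7 : CH (Pool.Agent.H49.Ent.cond F.p A True) X (fun ω => (X₀ ω, (N ω,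
          (z' (slam F ⌊v * J⌋₊ ω), F.W ω)))) ≤
        ((1 - h) * (sb - (p + x)) * Real.log 2 + δ * q / 4 + δ * q / 4) * J := by
      rw [hX, hX₀, hN]
      exact h3
    have goal : CH (Pool.Agent.H49.Ent.cond F.p A True) X (fun ω => (X₀ ω,
        (z' (slam F ⌊v * J⌋₊ ω), (cc (slam F ⌊v * J⌋₊ ω), F.W ω)))) ≤
        ((1 - h) * ((q - q * i / N₀) - x) * Real.log 2 + δ * q) * J := ?_
    · rw [hX, hX₀, hsb] at goal
      exact goal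
    have e7 : ((1 - h) * ((q - q * i / N₀) - x) * Real.log 2 + δ * q) * J =
        ((1 - h) * (sb - (p + x)) * Real.log 2 + δ * q / 4 + δ * q / 4) * J +
        2 * (δ * q / 4 * J) := by
      rw [hsb]
      ring
    rw [e7]
    have e8 : 0 ≤ δ * q / 4 * J := by positivity
    linarith
  · -- the value
    have F1 := nzf_few hpos hNz hΨd hwv hva ha hea heN.le hpN hpqa hpqe hpqN hun huN (Kb := Kb)
      (p₁ := p₁) (p₂ := p₂) hδq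
    refine Bas.mono 0 ((F1.and (pos_bas hpos)).and (hE1.and hE2)) ?_
    rintro J - F A ⟨⟨K1, hA⟩, ⟨P₁, V₁, z₁, z₁', G₁, hG₁, hP₁⟩, P₂, V₂, z₂, z₂', H₂, hH, hP₂⟩ V C z
      z' G cc hΘ' u₀ -
    have hqL := isLaw_cond F.isLaw hA
    obtain ⟨hnz, hnear⟩ := hΘ J F A V C z z' G cc hΘ'
    obtain ⟨g1, g2⟩ := floorw hva ha J
    have hlb := hnz.lb
    refine ⟨(V₁ × V₂) × (V × F.ζ), fun ω => ((z₁' (slam F ⌊a * J⌋₊ ω), z₂' (slam F ⌊a * J⌋₊ ω)),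
      (z' (slam F ⌊v * J⌋₊ ω), F.Z ω)), ⟨?_, ?_⟩, ?_⟩
    · obtain ⟨φ, hφ⟩ := hf J F
      refine ⟨fun x => ((z₁ (φ x), z₂ (φ x)), (z (φ x), (φ x).2.2)), fun ω hω => ?_⟩
      beta_reduce
      rw [← hφ ω, hG₁.cls ω hω, hH.cls ω hω, hlb.cls ω hω]
      rfl
    · refine ⟨fun x => ((z₁' x, z₂' x), (wz z' ⌊v * J⌋₊ ⌊a * J⌋₊ x, x.2.1)), fun ω hω => ?_⟩
      show _ = ((z₁' (slam F ⌊a * J⌋₊ ω), z₂' (slam F ⌊a * J⌋₊ ω)),
        (wz z' ⌊v * J⌋₊ ⌊a * J⌋₊ (slam F ⌊a * J⌋₊ ω), F.Z ω))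
      rw [wz_slam z' g1 g2]
    · refine le_trans (CH_mono_cond hqL.nonneg fun ω ω' _ _ e => ?_)
        (K1 V z z' G hnz P₁ V₁ z₁ z₁' G₁ hG₁ hP₁ P₂ V₂ z₂ z₂' H₂ hH hP₂)
      simp only [Prod.mk.injEq] at e
      obtain ⟨-, ⟨⟨e1, e2⟩, e3, e4⟩, e5⟩ := e
      obtain ⟨φ, hφ⟩ := hy J F
      have e6 := hφ ω
      have e7 := hφ ω'
      rw [e5, e7] at e6
      have e8 := (Prod.ext_iff.mp e6).1
      have e9 := (Prod.ext_iff.mp e6).2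
      refine Prod.ext (Prod.ext e1 e2) (Prod.ext e9.symm (Prod.ext e3 (Prod.ext e8.symm e4)))
  · exact f1_jetq htm hv0 hv1 (by linarith) Qu f (vg a) y hδq hpd

end Pool.ALT
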