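import Pool.Agent.H60.ALT.Nzw

/-!
# The data for the own path over the counted labels

`xa_lv`: rows for other levels. `rec_rowl`: the rows of the counted labels at real levels. `AlpD`:
the data of the theorem `alp_path` in one structure; `alpD_path`: the theorem; `AlpD.row0`,
`AlpD.rown`: the rows of the natural labels.
-/

set_option autoImplicit false

namespace Pool.ALT

open Finset Real MvPolynomial
open Pool.Agent.H49.Ent Pool.Agent.H32.Dense Pool.STK Pool.KA Pool.KSAT Pool.K2S Pool.PB Pool.S6C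
  Pool.GEN Pool.RCD Pool.LA91 Pool.OWN68
open Pool.UNJ (ceI)
open Pool.GRD (LbP)

variable {m : ℕ}

/-- **Rows for other levels.** -/
theorem xa_lv {J : ℕ} {F : Fam m J} {q : F.Ω → ℝ} (hq : IsLaw q) {I₀ : Finset (Fin m)}
    {κ : Fin m} {V : Type} (z' : LnT F → V) (W : ℕ) (G : V → MvPolynomial (Option (Fin m)) ℝ)
    {s₀ sa sb s₁ : ℝ} (ha : s₀ ≤ sa) (hb : sb ≤ s₁) :
    CH q (xa F κ z' W G sb) (ya F I₀ κ z' W G sa) ≤
      CH q (xa F κ z' W G s₁) (ya F I₀ κ z' W G s₀) + 2 * Real.log 5 := by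
  have h0 := hq.nonneg
  obtain ⟨y, hy⟩ : ∃ y : F.Ω → V × ((Fin m → ℤ) × (ℕ × F.ζ)), y = fun ω =>
    (z' (slam F W ω), (ceI I₀ (fun _ => J) (F.x ω), F.W ω)) := ⟨_, rfl⟩
  have e1 : ∀ s, ya F I₀ κ z' W G s = fun ω => (xa F κ z' W G s ω, y ω) := fun s => by
    rw [hy]
    rfl
  rw [e1, e1]
  have p0 : ∀ s : ℝ, (0 : ℝ) ≤ 2 ^ (s * J) := fun s => (Real.rpow_pos_of_pos (by norm_num) _).le
  have h1 := CH_le_add h0 (xa F κ z' W G sb) (xa F κ z' W G s₁)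
    (fun ω => (xa F κ z' W G sa ω, y ω))
  have h2 : CH q (xa F κ z' W G sb) (fun ω => (xa F κ z' W G s₁ ω, (xa F κ z' W G sa ω, y ω))) ≤
      Real.log 5 := fl_few hq _ (p0 sb) (p2_mono hb) _ fun ω ω' _ _ e => (Prod.ext_iff.mp e).1
  have h3 := CH_le_add h0 (xa F κ z' W G s₁) (xa F κ z' W G s₀)
    (fun ω => (xa F κ z' W G sa ω, y ω))
  have h4 : CH q (xa F κ z' W G s₀) (fun ω => (xa F κ z' W G sa ω, y ω)) ≤ Real.log 5 :=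
    fl_few hq _ (p0 s₀) (p2_mono ha) _ fun ω ω' _ _ e => (Prod.ext_iff.mp e).1
  have h5 : CH q (xa F κ z' W G s₁) (fun ω => (xa F κ z' W G s₀ ω, (xa F κ z' W G sa ω, y ω))) ≤
      CH q (xa F κ z' W G s₁) (fun ω => (xa F κ z' W G s₀ ω, y ω)) := by
    refine CH_mono_cond h0 fun ω ω' _ _ e => ?_
    simp only [Prod.mk.injEq] at e ⊢
    exact ⟨e.1, e.2.2⟩
  linarith

/-- **The rows of the counted labels at real levels.** -/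
theorem rec_rowl {S : PCl m} {I I₀ : Finset (Fin m)} {κ : Fin m} {K : ℕ} {e₀ ρ₀ π₀ : ℝ}
    (hpos : ∀ (τ : ℝ) (J : ℕ) (F : Fam m J) (A : F.Ω → Prop),
      S.St τ J F A → 0 < Pe F.p A) {s : ℝ → ℝ} {x φ e : ℝ} {k : ℕ}
    (h : AltAt S I I₀ κ K e₀ ρ₀ π₀ s x φ e k) {w o o' o₁ : ℚ} (h1 : x - (1 / 2) ^ k ≤ w)
    (h2 : w ≤ o) (h3 : o ≤ o') (h4 : o' ≤ o₁) (h5 : (o₁ : ℝ) ≤ x + (1 / 2) ^ k)
    (h6 : (o' : ℝ) ≤ 1) (s1 : s w ≤ s o) (s2 : s o ≤ s o') (s3 : s o' ≤ s o₁) {d : ℝ}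
    (hd : φ * (o' - o) + 4 * e * (1 / 2) ^ k < d) {sa sb : ℝ} (ha : s o ≤ sa) (hb : sb ≤ s o') :
    Bas S (fun J F A => ∀ (V : Type) (z : PtT F → V) (z' : LnT F → V)
      (G : V → MvPolynomial (Option (Fin m)) ℝ), AlF I I₀ κ K e₀ ρ₀ π₀ w (s w) (s o₁)
        (φ * (o₁ - w) + 2 * e * (1 / 2) ^ k) J F A V z z' G →
      CH (Pool.Agent.H49.Ent.cond F.p A True) (xa F κ z' ⌊(w : ℝ) * J⌋₊ G sb)
        (ya F I₀ κ z' ⌊(w : ℝ) * J⌋₊ G sa) ≤ d * J) := by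
  obtain ⟨d', hd1, hd2⟩ := exists_between hd
  obtain ⟨J₁, hJ₁⟩ := exists_nat_ge (2 * Real.log 5 / (d - d'))
  refine Bas.mono J₁ ((rec_row hpos h h1 h2 h3 h4 h5 h6 s1 s2 s3 hd1).and (pos_bas hpos)) ?_
  rintro J hJ F A ⟨H, hA⟩ V z z' G hG
  have hq := isLaw_cond F.isLaw hA
  have h7 := xa_lv hq (I₀ := I₀) (κ := κ) z' ⌊(w : ℝ) * J⌋₊ G ha hb
  have h8 := H V z z' G hG
  have h9 : 2 * Real.log 5 ≤ (d - d') * J := by
    have e1 : (J₁ : ℝ) ≤ J := by exact_mod_cast hJ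
    have e2 := hJ₁.trans e1
    rw [div_le_iff₀ (by linarith)] at e2
    linarith
  linarith

/-- **The data for the own path over the labels of the family** `Ψ`: window `w` of the family, `v` of
the path, `a` of the value; level `p`, `q` more digits for the path, `r ≥ q` more digits for the
rows, `n` digits of the base; deficit `h`, error `d`; the natural labels at `v` have accuracies `p₁`,
`p₂`, gradient exponent `eN`, radius `uN` and precision `pN`. -/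
structure AlpD (S : PCl m) (Ψ : Fml m) (c : ℕ → Fin m) (r₀ : ℕ) (κ : Fin m) (D : ℕ)
    (w v a p q r n h d p₁ p₂ eN uN pN : ℝ) : Prop where
  hs : ∀ (J : ℕ) (F : Fam m J) (A B : F.Ω → Prop) (V : Type) (z : PtT F → V) (z' : LnT F → V)
    (G : V → MvPolynomial (Option (Fin m)) ℝ), Sub B A → Ψ J F A V z z' G → Ψ J F B V z z' G
  lb : ∃ e₀ ρ₀ π₀ : ℝ, 0 ≤ e₀ ∧ ρ₀ ≤ 1 ∧ p + r + e₀ < 1 ∧ ∀ (J : ℕ) (F : Fam m J)
    (A : F.Ω → Prop) (V : Type) (z : PtT F → V) (z' : LnT F → V)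
    (G : V → MvPolynomial (Option (Fin m)) ℝ), Ψ J F A V z z' G →
    LbOK F ((range (r₀ + 1)).image c) κ D ⌊e₀ * J⌋₊ J ⌊w * J⌋₊ ⌊ρ₀ * J⌋₊ ⌊π₀ * J⌋₊ A z z' G
  top : ∃ pa₁ pa₂ ea ua pa : ℝ, 0 ≤ ea ∧ p + q ≤ pa ∧ p + q + ea < n ∧ ua ≤ n ∧
    NzO S Ψ c r₀ κ D D D w a pa₁ pa₂ ea ua pa ∧
    Bas S (fun J F A => ∃ (P₁ : ℕ) (V₁ : Type) (z₁ : PtT F → V₁) (z₁' : LnT F → V₁)
      (G₁ : V₁ → MvPolynomial (Option (Fin m)) ℝ),
      LbP F ((range (r₀ + 1)).image c) κ D J ⌊a * J⌋₊ P₁ A z₁ z₁' G₁ ∧ pa₁ * J ≤ P₁) ∧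
    Bas S (fun J F A => ∃ (P₂ : ℕ) (V₂ : Type) (z₂ : PtT F → V₂) (z₂' : LnT F → V₂)
      (H : V₂ → MvPolynomial (Option (Fin m)) ℝ),
      LbP F ((range r₀).image c) (c r₀) D J ⌊a * J⌋₊ P₂ A z₂ z₂' H ∧ pa₂ * J ≤ P₂)
  ful : Ful S ((range r₀).image c) a n
  v0 : 0 ≤ v
  wv : w ≤ v
  va : v ≤ a
  a1 : a ≤ 1
  n1 : n ≤ 1
  eN0 : 0 < eN
  pN0 : 0 ≤ pN
  peN : p + r + eN < n
  qr : q ≤ r
  uNn : uN ≤ n
  vq : v + q ≤ 1
  q0 : 0 < q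
  pNp : pN < p
  acc : p - pN ≤ d / 2
  row : ∀ sa sb : ℝ, p ≤ sa → sa ≤ sb → sb ≤ p + r →
    Bas S (fun J F A => ∀ (V : Type) (z : PtT F → V) (z' : LnT F → V)
      (G : V → MvPolynomial (Option (Fin m)) ℝ), Ψ J F A V z z' G →
      CH (Pool.Agent.H49.Ent.cond F.p A True) (xa F κ z' ⌊w * J⌋₊ G sb)
        (ya F ((range r₀).image c) κ z' ⌊w * J⌋₊ G sa) ≤
        ((1 - h) * (sb - sa) * Real.log 2 + d) * J)

variable {S : PCl m} {Ψ : Fml m} {c : ℕ → Fin m} {r₀ : ℕ} {κ : Fin m} {D : ℕ}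
  {w v a p q r n h d p₁ p₂ eN uN pN : ℝ}

theorem AlpD.sub {S' : PCl m} (hS : ∀ (τ : ℝ) (J : ℕ) (F : Fam m J) (A : F.Ω → Prop),
    S'.St τ J F A → S.St τ J F A)
    (H : AlpD S Ψ c r₀ κ D w v a p q r n h d p₁ p₂ eN uN pN) :
    AlpD S' Ψ c r₀ κ D w v a p q r n h d p₁ p₂ eN uN pN := by
  obtain ⟨pa₁, pa₂, ea, ua, pa, t1, t2, t3, t4, t5, t6, t7⟩ := H.top
  exact { hs := H.hs
          lb := H.lb
          top := ⟨pa₁, pa₂, ea, ua, pa, t1, t2, t3, t4, t5.sub hS, t6.sub hS, t7.sub hS⟩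
          ful := H.ful.sub hS
          v0 := H.v0, wv := H.wv, va := H.va, a1 := H.a1, n1 := H.n1, eN0 := H.eN0
          pN0 := H.pN0, peN := H.peN, qr := H.qr, uNn := H.uNn, vq := H.vq, q0 := H.q0, pNp := H.pNp
          acc := H.acc
          row := fun sa sb h1 h2 h3 => (H.row sa sb h1 h2 h3).sub hS }

/-- A larger error. -/
theorem AlpD.mono {d' : ℝ} (hd : d ≤ d')
    (H : AlpD S Ψ c r₀ κ D w v a p q r n h d p₁ p₂ eN uN pN) :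
    AlpD S Ψ c r₀ κ D w v a p q r n h d' p₁ p₂ eN uN pN := by
  have hacc := H.acc
  exact { H with
    acc := by linarith
    row := fun sa sb h1 h2 h3 => by
      refine Bas.mono 0 (H.row sa sb h1 h2 h3) ?_
      intro J _ F A h4 V z z' G hG
      exact (h4 V z z' G hG).trans
        (mul_le_mul_of_nonneg_right (by linarith) (Nat.cast_nonneg J)) }

/-- **The own path over the natural labels of the family.** -/
theorem alpD_path (D : ℕ) {h : ℝ} (hh : 0 < h) (hh1 : h ≤ 1) {ε : ℝ} (hε : 0 < ε) :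
    ∃ δ : ℝ, 0 < δ ∧ ∀ {m : ℕ} {S : PCl m} {C₀ : ℝ} (_ : TmC S C₀)
    (_ : ∀ (τ : ℝ) (J : ℕ) (F : Fam m J) (A : F.Ω → Prop), S.St τ J F A → 0 < Pe F.p A)
    {Ψ : Fml m} {c : ℕ → Fin m} {r₀ : ℕ} {κ : Fin m} {w v a p q r n p₁ p₂ eN uN pN : ℝ}
    (_ : AlpD S Ψ c r₀ κ D w v a p q r n h (δ * q / 4) p₁ p₂ eN uN pN)
    {U₀ : Type} {Qu : Qt m U₀}
    {α γ : ∀ J : ℕ, Fam m J → Type} {f : ∀ (J : ℕ) (F : Fam m J), F.Ω → α J F}
    {y : ∀ (J : ℕ) (F : Fam m J), F.Ω → γ J F}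
    (_ : ∀ (J : ℕ) (F : Fam m J), ∃ φ : α J F → PtT F, ∀ ω, ptr F J ω = φ (f J F ω))
    (_ : Kn0 ((range r₀).image c) n y) (B : ℕ)
    (Θ : ∀ (J : ℕ) (F : Fam m J), (F.Ω → Prop) → ∀ V C : Type, (PtT F → V) → (LnT F → V) →
      (V → MvPolynomial (Option (Fin m)) ℝ) → (LnT F → C) → Prop)
    (_ : ∀ (J : ℕ) (F : Fam m J) (A : F.Ω → Prop) (V C : Type) (z : PtT F → V) (z' : LnT F → V)
      (G : V → MvPolynomial (Option (Fin m)) ℝ) (cc : LnT F → C), Θ J F A V C z z' G cc →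
      NzF Ψ c r₀ κ D D D w v p₁ p₂ eN uN pN J F A V z z' G ∧
      ∀ ω ω', A ω → A ω' → cc (slam F ⌊v * J⌋₊ ω) = cc (slam F ⌊v * J⌋₊ ω') → F.T ω = F.T ω' →
        ∀ i ∈ (range r₀).image c, |F.x ω i - F.x ω' i| ≤ B / 2 ^ ⌊n * J⌋₊)
    (_ : ∀ (J : ℕ) (F : Fam m J) (A B : F.Ω → Prop) (V C : Type) (z : PtT F → V)
      (z' : LnT F → V) (G : V → MvPolynomial (Option (Fin m)) ℝ) (c : LnT F → C), Sub B A →
      Θ J F A V C z z' G c → Θ J F B V C z z' G c),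
    (∀ K₀ : ℕ, Bas S (fun J F A => ∀ (V C : Type) (z : PtT F → V) (z' : LnT F → V)
      (G : V → MvPolynomial (Option (Fin m)) ℝ) (c : LnT F → C), Θ J F A V C z z' G c →
      ∀ u₀ : F.Ω → U₀, Qu.P K₀ (p - pN) J F A u₀ →
      ∃ (V₁ : Type) (z₁ : F.Ω → V₁), Cl2 (f J F) (vg a J F) A z₁ ∧
      CH (Pool.Agent.H49.Ent.cond F.p A True) (fun ω => c (vg v J F ω))
        (fun ω => (u₀ ω, (z₁ ω, y J F ω))) ≤ δ * q * J)) →
    ∀ K₀ : ℕ, Bas S (fun J F A => ∀ (V C : Type) (z : PtT F → V) (z' : LnT F → V)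
        (G : V → MvPolynomial (Option (Fin m)) ℝ) (c : LnT F → C), Θ J F A V C z z' G c →
        ∀ u₀ : F.Ω → U₀, Qu.P K₀ (p - pN) J F A u₀ →
        ∃ (V₁ : Type) (z₁ : F.Ω → V₁), Cl2 (f J F) (vg a J F) A z₁ ∧
          CH (Pool.Agent.H49.Ent.cond F.p A True)
            (fun ω => ((z' (vg v J F ω), (vg v J F ω).2), (c (vg v J F ω),
              fun j : Fin (max D D * max 1 D + 3) => ⌊jr F ⌊v * J⌋₊ (2 ^ ((p + q) * J)) κ z' G j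
                (vg v J F ω)⌋)))
            (fun ω => (u₀ ω, (z₁ ω, y J F ω))) ≤ ε * q * J) := by
  obtain ⟨δ, hδ, N₀, hN₀, Hp⟩ := alp_path D D D hh hh1 hε
  refine ⟨δ, hδ, ?_⟩
  intro m S C₀ htm hpos Ψ c r₀ κ w v a p q r n p₁ p₂ eN uN pN H U₀ Qu α γ f y hf hy B Θ hΘ hΘs hctx
  obtain ⟨e₀, ρ₀, π₀, l1, l2, l3, l4⟩ := H.lb
  obtain ⟨pa₁, pa₂, ea, ua, pa, t1, t2, t3, t4, t5, t6, t7⟩ := H.top
  have hacc := H.acc
  have hqr := H.qr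
  have hpe := H.peN
  exact Hp htm hpos t5 t6 t7 H.ful l4 H.v0 H.wv H.va H.a1 H.eN0 l1 H.pN0 t1 l2 H.n1
    (by linarith) t2 t3 (by linarith) t4 H.uNn H.vq H.q0 H.pNp (by linarith)
    (fun sa sb h1 h2 h3 => H.row sa sb h1 h2 (by linarith)) hf hy B Θ hΘ hΘs hctx

/-- **The rows of the natural labels**, given the exact point of the base. -/
theorem AlpD.row0 (hpos : ∀ (τ : ℝ) (J : ℕ) (F : Fam m J) (A : F.Ω → Prop),
      S.St τ J F A → 0 < Pe F.p A)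
    (H : AlpD S Ψ c r₀ κ D w v a p q r n h d p₁ p₂ eN uN pN) {sa sb : ℝ} (h1 : p ≤ sa)
    (h2 : sa ≤ sb) (h3 : sb ≤ p + r) {δ : ℝ} (hδ : 0 < δ) :
    Bas S (fun J F A => ∀ (V : Type) (z : PtT F → V) (z' : LnT F → V)
      (G : V → MvPolynomial (Option (Fin m)) ℝ),
      NzF Ψ c r₀ κ D D D w v p₁ p₂ eN uN pN J F A V z z' G →
      CH (Pool.Agent.H49.Ent.cond F.p A True)
        (fun ω => ⌊(2 : ℝ) ^ (sb * J) * ojet F κ 0 (G (z' (slam F ⌊v * J⌋₊ ω))) ω⌋)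
        (fun ω => (⌊(2 : ℝ) ^ (sa * J) * ojet F κ 0 (G (z' (slam F ⌊v * J⌋₊ ω))) ω⌋,
          (ceI ((range r₀).image c) (fun _ => J) (F.x ω),
            (z' (slam F ⌊v * J⌋₊ ω), F.W ω)))) ≤
        ((1 - h) * (sb - sa) * Real.log 2 + d + δ) * J) := by
  obtain ⟨e₀, ρ₀, π₀, l1, l2, l3, l4⟩ := H.lb
  have hn := H.n1
  have hpe := H.peN
  have R := nzf_row hpos l4 H.wv (H.va.trans H.a1) H.eN0.le l1 (H.uNn.trans H.n1) l2
    (by linarith : sb + eN < 1) (by linarith) h2 (H.row sa sb h1 h2 h3) (K₁ := D) (Kb := D)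
    (pN := pN) (p₁ := p₁) (p₂ := p₂)
  obtain ⟨J₁, hJ₁⟩ := exists_nat_ge (2 * Real.log 9 / δ)
  refine Bas.mono J₁ R ?_
  intro J hJ F A HR V z z' G hG
  have h9 : 2 * Real.log 9 ≤ δ * J := by
    have e1 : (J₁ : ℝ) ≤ J := by exact_mod_cast hJ
    have e2 := hJ₁.trans e1
    rw [div_le_iff₀ hδ] at e2
    linarith
  have := HR V z z' G hG
  linarith

/-- **The rows of the natural labels**, given `n` digits of the base. -/
theorem AlpD.rown (hpos : ∀ (τ : ℝ) (J : ℕ) (F : Fam m J) (A : F.Ω → Prop),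
      S.St τ J F A → 0 < Pe F.p A)
    (H : AlpD S Ψ c r₀ κ D w v a p q r n h d p₁ p₂ eN uN pN) {sa sb : ℝ} (h1 : p ≤ sa)
    (h2 : sa ≤ sb) (h3 : sb ≤ p + q) {δ : ℝ} (hδ : 0 < δ) :
    Bas S (fun J F A => ∀ (V : Type) (z : PtT F → V) (z' : LnT F → V)
      (G : V → MvPolynomial (Option (Fin m)) ℝ),
      NzF Ψ c r₀ κ D D D w v p₁ p₂ eN uN pN J F A V z z' G →
      CH (Pool.Agent.H49.Ent.cond F.p A True)
        (fun ω => ⌊(2 : ℝ) ^ (sb * J) * ojet F κ 0 (G (z' (slam F ⌊v * J⌋₊ ω))) ω⌋)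
        (fun ω => (⌊(2 : ℝ) ^ (sa * J) * ojet F κ 0 (G (z' (slam F ⌊v * J⌋₊ ω))) ω⌋,
          (ceI ((range r₀).image c) (fun _ => ⌊n * J⌋₊) (F.x ω),
            (z' (slam F ⌊v * J⌋₊ ω), F.W ω)))) ≤
        ((1 - h) * (sb - sa) * Real.log 2 + d + δ) * J) := by
  obtain ⟨e₀, ρ₀, π₀, l1, l2, l3, l4⟩ := H.lb
  obtain ⟨pa₁, pa₂, ea, ua, pa, t1, t2, t3, t4, t5, t6, t7⟩ := H.top
  have hpe := H.peN
  have hqr := H.qr
  exact nzf_rown hpos t5 t6 t7 H.ful l4 H.wv H.va H.a1 H.eN0.le l1 H.pN0 t1 l2 H.n1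
    (by linarith) h2 (by linarith) (by linarith) (by linarith) t4 H.uNn
    (H.row sa sb h1 h2 (by linarith)) hδ

end Pool.ALT
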