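import Pool.Agent.H60.ALT.Alq

/-!
# The choice of the windows

`alp_lin`: the data `AlpD` from the data `AlW` of two windows and linear levels.
-/

set_option autoImplicit false

namespace Pool.ALT

open Finset Real MvPolynomial
open Pool.Agent.H49.Ent Pool.Agent.H32.Dense Pool.STK Pool.KA Pool.KSAT Pool.K2S Pool.PB Pool.S6C
  Pool.GEN Pool.RCD Pool.LA91 Pool.OWN68
open Pool.UNJ (ceI)
open Pool.GRD (LbP)

/-- The gap of a block. -/
theorem gap_num {b h L φ X hX y τ E D : ℝ} (hh : 0 < h) (hh1 : h ≤ 1) (hL : 1 / 2 < L)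
    (hL1 : L < 1) (hX0 : 0 < X) (hhX : hX = h * X) (hφ : φ ≤ (1 - h) * b * L)
    (hy : X ≤ b * y) (hτ : b * τ = hX / 8) (hyt : 0 ≤ y + τ)
    (hE : E ≤ hX / 8) (hD : b * y - hX / 8 ≤ D) : φ * (y + τ) + E < D * L := by
  have hX1 : 0 < hX := by rw [hhX]; positivity
  have h1 : φ * (y + τ) ≤ (1 - h) * b * L * (y + τ) := mul_le_mul_of_nonneg_right hφ hyt
  have e1 : (1 - h) * b * L * (y + τ) = L * ((1 - h) * (b * y) + (1 - h) * (b * τ)) := by ring
  rw [e1, hτ] at h1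
  have h2 : (1 - h) * (hX / 8) ≤ hX / 8 := by
    have := mul_le_mul_of_nonneg_right (show 1 - h ≤ 1 by linarith) (show 0 ≤ hX / 8 by positivity)
    linarith
  have h3 : h * X ≤ h * (b * y) := mul_le_mul_of_nonneg_left hy hh.le
  have h4 : (1 - h) * (b * y) + (1 - h) * (hX / 8) + hX * (3 / 4) ≤ D := by
    have e2 : (1 - h) * (b * y) = b * y - h * (b * y) := by ring
    rw [e2]
    rw [← hhX] at h3
    linarith
  have h5 : L * ((1 - h) * (b * y) + (1 - h) * (hX / 8) + hX * (3 / 4)) ≤ L * D :=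
    mul_le_mul_of_nonneg_left h4 (by linarith)
  have h6 : 1 / 2 * hX < L * hX := mul_lt_mul_of_pos_right hL hX1
  have e3 : L * ((1 - h) * (b * y) + (1 - h) * (hX / 8) + hX * (3 / 4)) =
      L * ((1 - h) * (b * y) + (1 - h) * (hX / 8)) + L * hX * (3 / 4) := by ring
  rw [e3] at h5
  have e4 : D * L = L * D := mul_comm _ _
  rw [e4]
  linarith

theorem row_num {b h L φ hX y τ E sa sb G : ℝ} (hh1 : h ≤ 1) (hh : 0 < h) (hL : 0 < L)
    (hL1 : L < 1) (hX1 : 0 ≤ hX) (hφ : φ ≤ (1 - h) * b * L) (hy0 : 0 ≤ y) (hb : 0 < b)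
    (hy : b * y ≤ sb - sa + hX / 8 + 2 * (b * τ)) (hτ : b * τ = hX / 8)
    (hE : E ≤ hX / 8) (hG : hX / 2 < G) : φ * y + E < (1 - h) * (sb - sa) * L + G := by
  have h1 : φ * y ≤ (1 - h) * b * L * y := mul_le_mul_of_nonneg_right hφ hy0
  have e1 : (1 - h) * b * L * y = (1 - h) * L * (b * y) := by ring
  rw [e1] at h1
  have hk : 0 ≤ (1 - h) * L := mul_nonneg (by linarith) hL.le
  have hk1 : (1 - h) * L ≤ 1 := by
    have := mul_le_mul (show 1 - h ≤ 1 by linarith) hL1.le hL.le zero_le_one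
    linarith
  have h2 := mul_le_mul_of_nonneg_left hy hk
  have h3 : (1 - h) * L * (hX * (3 / 8)) ≤ 1 * (hX * (3 / 8)) :=
    mul_le_mul_of_nonneg_right hk1 (by positivity)
  have e2 : (1 - h) * L * (sb - sa + hX / 8 + 2 * (b * τ)) = (1 - h) * (sb - sa) * L +
      (1 - h) * L * (hX * (3 / 8)) := by
    rw [hτ]
    ring
  rw [e2] at h2
  linarith

/-- **The data for the own path** from the data of two windows. -/
theorem alp_lin (D : ℕ) {b h δ lam rr g M ℓ₀ : ℝ} (hb : 0 < b) (hh : 0 < h) (hh1 : h ≤ 1)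
    (hδ : 0 < δ) (hlam : 0 < lam) (hrr : lam ≤ rr) (hg : 0 < g) (hM : 0 < M) (hℓ₀ : 0 < ℓ₀) :
    ∃ ℓ ε e₁ : ℝ, 0 < ℓ ∧ ℓ ≤ ℓ₀ ∧ 0 < ε ∧ 0 < e₁ ∧
    ∀ {m : ℕ} {S : PCl m} {C₀ : ℝ} (_ : TmC S C₀)
    (_ : ∀ (τ : ℝ) (J : ℕ) (F : Fam m J) (A : F.Ω → Prop), S.St τ J F A → 0 < Pe F.p A)
    {c : ℕ → Fin m} {r₀ : ℕ} {κ : Fin m} {Kf : ℕ} (_ : Kf ≤ D)
    (_ : Set.InjOn c (Set.Iio (r₀ + 1))) {e₀ ρ₀ π₀ : ℝ} {s : ℝ → ℝ} {x φ e : ℝ} {k : ℕ}
    (_ : AltAt S ((range (r₀ + 1)).image c) ((range r₀).image c) κ Kf e₀ ρ₀ π₀ s x φ e k)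
    {K q t s₀ v a μ puv Ev Euv uv pua Ea Eua ua : ℝ}
    (_ : AlW S c r₀ κ D v (s v) puv Ev Euv uv) (_ : AlW S c r₀ κ D a (s a) pua Ea Eua ua)
    (_ : 0 < e) (_ : e ≤ e₁) (_ : φ ≤ (1 - h) * b * Real.log 2) (_ : 0 < q)
    (_ : x - (1 / 2) ^ k ≤ t - (K + 1) * q) (_ : t + (K + 1) * q ≤ x + (1 / 2) ^ k)
    (_ : (1 / 2) ^ k ≤ M * q) (_ : 0 ≤ t - (K + 1) * q) (_ : t + (K + 1) * q ≤ 1)
    (_ : ∀ y : ℝ, |y - t| ≤ (K + 1) * q → |s y - s₀ - b * (y - t)| ≤ ε * q)
    (_ : ∀ y y' : ℝ, |y - t| ≤ (K + 1) * q → |y' - t| ≤ (K + 1) * q → y ≤ y' → s y ≤ s y')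
    (_ : |v - t| ≤ K * q) (_ : |a - t| ≤ K * q) (_ : (lam + g) * q ≤ b * (a - v))
    (_ : (rr + g) * q ≤ b * (t + K * q - v)) (_ : ρ₀ ≤ 1) (_ : 0 ≤ e₀) (_ : 0 < μ)
    (_ : (8 * b + 8 * rr) * q ≤ μ) (_ : μ ≤ s v)
    (_ : e₀ + s a + μ ≤ 1) (_ : Ev + s v + μ ≤ 1) (_ : Ea + s a + μ ≤ 1) (_ : uv + μ ≤ 1)
    (_ : ua + μ ≤ 1) (_ : π₀ < s v) (_ : s v + puv - π₀ < 1) (_ : s a + pua - π₀ < 1),
    ∃ (w o₁ : ℚ) (p₁ p₂ pN : ℝ), t - (K + 1) * q ≤ w ∧ (w : ℝ) ≤ v ∧ v - q / 2 ≤ w ∧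
      v - 2 * ℓ * q ≤ w ∧ (w : ℝ) ≤ v - ℓ * q ∧
      t + K * q ≤ o₁ ∧ (o₁ : ℝ) ≤ t + (K + 1) * q ∧ p₁ < s v ∧ p₂ < puv ∧
      pN < s v ∧ s v - δ * lam * q / 8 ≤ pN ∧
      NzO S (AlF ((range (r₀ + 1)).image c) ((range r₀).image c) κ Kf e₀ ρ₀ π₀ w (s w) (s o₁)
        (φ * (o₁ - w) + 2 * e * (1 / 2) ^ k)) c r₀ κ D D D w v p₁ p₂ (Ev + μ / 4) (uv + μ / 8)
        pN ∧
      Bas S (fun J F A => ∃ (V : Type) (z : PtT F → V) (z' : LnT F → V)
        (G : V → MvPolynomial (Option (Fin m)) ℝ), AlF ((range (r₀ + 1)).image c)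
          ((range r₀).image c) κ Kf e₀ ρ₀ π₀ w (s w) (s o₁)
          (φ * (o₁ - w) + 2 * e * (1 / 2) ^ k) J F A V z z' G) ∧
      ∀ n : ℝ, 1 - μ / 2 ≤ n → n ≤ 1 →
        AlpD S (AlF ((range (r₀ + 1)).image c) ((range r₀).image c) κ Kf e₀ ρ₀ π₀ w (s w) (s o₁)
          (φ * (o₁ - w) + 2 * e * (1 / 2) ^ k)) c r₀ κ D w v a (s v) (lam * q) (rr * q) n h
          (δ * (lam * q) / 4) p₁ p₂ (Ev + μ / 4) (uv + μ / 8) pN := by
  obtain ⟨ℓ, hℓ⟩ : ∃ ℓ : ℝ, ℓ = min (δ * lam / (16 * b)) (min (g / (8 * b)) (min (1 / 4) ℓ₀)) :=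
    ⟨_, rfl⟩
  have hℓ0 : 0 < ℓ := by
    rw [hℓ]
    exact lt_min (by positivity) (lt_min (by positivity) (lt_min (by norm_num) hℓ₀))
  have l1 : 16 * (b * ℓ) ≤ δ * lam := by
    have : ℓ ≤ δ * lam / (16 * b) := by rw [hℓ]; exact min_le_left _ _
    rw [le_div_iff₀ (by positivity)] at this
    linarith
  have l2 : 8 * (b * ℓ) ≤ g := by
    have : ℓ ≤ g / (8 * b) := by rw [hℓ]; exact (min_le_right _ _).trans (min_le_left _ _)
    rw [le_div_iff₀ (by positivity)] at this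
    linarith
  have l3 : ℓ ≤ 1 / 4 := by
    rw [hℓ]
    exact (min_le_right _ _).trans ((min_le_right _ _).trans (min_le_left _ _))
  have l4 : ℓ ≤ ℓ₀ := by
    rw [hℓ]
    exact (min_le_right _ _).trans ((min_le_right _ _).trans (min_le_right _ _))
  refine ⟨ℓ, h * b * ℓ / 16, h * b * ℓ / (32 * M), hℓ0, l4, by positivity, by positivity, ?_⟩
  intro m S C₀ htm hpos c r₀ κ Kf hKf hinj e₀ ρ₀ π₀ s x φ e k hat K q t s₀ v a μ puv Ev Euv uv pua Ea
    Eua ua hv ha he0 he1 hφ hq hk0 hk1 hkM ht0 ht1 hlin hmono hvK haK hva hvr hρ₀ he₀ hμ hμq hμs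
    m1 m2 m3 m4 m5 hπv hrv hra
  have hL : 1 / 2 < Real.log 2 := by
    have := Real.log_two_gt_d9
    linarith
  have hL1 : Real.log 2 < 1 := by
    have := Real.log_two_lt_d9
    linarith
  -- products
  obtain ⟨X, hX⟩ : ∃ X : ℝ, X = b * ℓ * q := ⟨_, rfl⟩
  obtain ⟨Y, hY⟩ : ∃ Y : ℝ, Y = h * X := ⟨_, rfl⟩
  obtain ⟨τ, hτ⟩ : ∃ τ : ℝ, τ = h * ℓ * q / 8 := ⟨_, rfl⟩
  obtain ⟨lq, hlq⟩ : ∃ lq : ℝ, lq = ℓ * q := ⟨_, rfl⟩
  obtain ⟨Kq, hKq⟩ : ∃ Kq : ℝ, Kq = K * q := ⟨_, rfl⟩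
  have hX0 : 0 < X := by rw [hX]; positivity
  have hY0 : 0 < Y := by rw [hY]; positivity
  have hYX : Y ≤ X := by
    rw [hY]
    have := mul_le_mul_of_nonneg_right hh1 hX0.le
    linarith
  have hτ0 : 0 < τ := by rw [hτ]; positivity
  have hlq0 : 0 < lq := by rw [hlq]; positivity
  have hlqq : lq ≤ q / 4 := by
    rw [hlq]
    have := mul_le_mul_of_nonneg_right l3 hq.le
    linarith
  have hτl : τ ≤ lq / 8 := by
    rw [hτ, hlq]
    have := mul_le_mul_of_nonneg_right hh1 (show 0 ≤ ℓ * q / 8 by positivity)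
    linarith
  have hbl : b * lq = X := by rw [hlq, hX]; ring
  have hbτ : b * τ = Y / 8 := by rw [hτ, hY, hX]; ring
  have hεq : h * b * ℓ / 16 * q = Y / 16 := by rw [hY, hX]; ring
  have hXδ : 16 * X ≤ δ * lam * q := by
    rw [hX]
    have := mul_le_mul_of_nonneg_right l1 hq.le
    linarith
  have hXg : 8 * X ≤ g * q := by
    rw [hX]
    have := mul_le_mul_of_nonneg_right l2 hq.le
    linarith
  have hXb : X ≤ b * q / 4 := by
    rw [hX]
    have := mul_le_mul_of_nonneg_right (mul_le_mul_of_nonneg_left l3 hb.le) hq.le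
    linarith
  have hE : 4 * e * (1 / 2) ^ k ≤ Y / 8 := by
    have k1 : 4 * e * (1 / 2 : ℝ) ^ k ≤ 4 * (h * b * ℓ / (32 * M)) * (M * q) := by
      refine mul_le_mul (by linarith) hkM (by positivity) (by positivity)
    have k2 : 4 * (h * b * ℓ / (32 * M)) * (M * q) = Y / 8 := by
      rw [hY, hX]
      field_simp
      norm_num
    linarith
  have hKq1 : (K + 1) * q = Kq + q := by rw [hKq]; ring
  rw [hKq1] at hk0 hk1 ht0 ht1 hlin hmono ⊢
  rw [← hKq]
  rw [← hKq] at hvK haK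
  rw [hεq] at hlin
  have hvK' := abs_le.1 hvK
  have haK' := abs_le.1 haK
  obtain ⟨hvK1, hvK2⟩ := hvK'
  obtain ⟨haK1, haK2⟩ := haK'
  have hva' : lam * q + g * q ≤ b * (a - v) := by
    have e1 : lam * q + g * q = (lam + g) * q := by ring
    rw [e1]
    exact hva
  have hlq1 : 0 < lam * q := by positivity
  have hlr : lam * q ≤ rr * q := mul_le_mul_of_nonneg_right hrr hq.le
  have hgq : 0 < g * q := by positivity
  have hbq : 0 < b * q := by positivity
  have hμ1 : 8 * (b * q) + 8 * (rr * q) ≤ μ := by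
    have e1 : 8 * (b * q) + 8 * (rr * q) = (8 * b + 8 * rr) * q := by ring
    rw [e1]
    exact hμq
  have hvr' : rr * q + g * q ≤ b * (t + Kq - v) := by
    have e1 : rr * q + g * q = (rr + g) * q := by ring
    rw [e1, hKq]
    exact hvr
  have bm : ∀ {y y' : ℝ}, y ≤ y' → b * y ≤ b * y' := fun h => mul_le_mul_of_nonneg_left h hb.le
  have hvaτ : v + 8 * τ ≤ a := by
    by_contra hcon
    push Not at hcon
    have k1 := bm (show a - v ≤ 8 * τ by linarith)
    have e1 : b * (8 * τ) = Y := by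
      have : b * (8 * τ) = 8 * (b * τ) := by ring
      rw [this, hbτ]
      ring
    linarith
  -- the linear levels
  have lin : ∀ y : ℝ, -(Kq + q) ≤ y - t → y - t ≤ Kq + q →
      s₀ + b * (y - t) - Y / 16 ≤ s y ∧ s y ≤ s₀ + b * (y - t) + Y / 16 := by
    intro y y1 y2
    have := abs_le.1 (hlin y (abs_le.2 ⟨y1, y2⟩))
    obtain ⟨k1, k2⟩ := this
    constructor <;> linarith
  have mon : ∀ y y' : ℝ, -(Kq + q) ≤ y - t → y ≤ y' → y' - t ≤ Kq + q → s y ≤ s y' := by
    intro y y' y1 y2 y3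
    exact hmono y y' (abs_le.2 ⟨y1, by linarith⟩) (abs_le.2 ⟨by linarith, y3⟩) y2
  -- the windows
  obtain ⟨w, w1, w2⟩ := exists_rat_btwn (show v - lq - τ < v - lq by linarith)
  obtain ⟨w', w1', w2'⟩ := exists_rat_btwn (show v < v + τ by linarith)
  obtain ⟨y, y1, y2⟩ := exists_rat_btwn (show a - lq - τ < a - lq by linarith)
  obtain ⟨y', y1', y2'⟩ := exists_rat_btwn (show a < a + τ by linarith)
  obtain ⟨o₁, o1, o2⟩ := exists_rat_btwn (show t + (Kq + q) - τ < t + (Kq + q) by linarith)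
  have ratle : ∀ {r r' : ℚ}, (r : ℝ) ≤ r' → r ≤ r' := fun h => by exact_mod_cast h
  obtain ⟨lv1, lv2⟩ := lin v (by linarith) (by linarith)
  obtain ⟨la1, la2⟩ := lin a (by linarith) (by linarith)
  obtain ⟨lw1, lw2⟩ := lin w (by linarith) (by linarith)
  obtain ⟨ly1, ly2⟩ := lin y (by linarith) (by linarith)
  have bv : b * (v - t) = b * (v - w) + b * (w - t) := by ring
  have ba : b * (a - t) = b * (a - y) + b * (y - t) := by ring
  have bva : b * (a - t) = b * (a - v) + b * (v - t) := by ring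
  have bw1 : X ≤ b * (v - w) := by
    rw [← hbl]
    exact bm (by linarith)
  have bw2 : b * (v - w) ≤ X + Y / 8 := by
    have := bm (show v - w ≤ lq + τ by linarith)
    rw [mul_add, hbl, hbτ] at this
    exact this
  have by1 : X ≤ b * (a - y) := by
    rw [← hbl]
    exact bm (by linarith)
  have by2 : b * (a - y) ≤ X + Y / 8 := by
    have := bm (show a - y ≤ lq + τ by linarith)
    rw [mul_add, hbl, hbτ] at this
    exact this
  have hsva : s v ≤ s a := mon v a (by linarith) (by linarith) (by linarith)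
  have hswv : s v ≤ s w' := mon v w' (by linarith) w1'.le (by linarith)
  have hsya : s a ≤ s y' := mon a y' (by linarith) y1'.le (by linarith)
  have hw0 : (0 : ℚ) ≤ w := by
    have : (0 : ℝ) ≤ w := by linarith
    exact_mod_cast this
  have hwy : w ≤ y := ratle (by linarith)
  -- the windows of the natural labels
  have hgv : φ * (w' - w) + 4 * e * (1 / 2) ^ k < (s v - s w) * Real.log 2 := by
    have k1 : φ * ((w' : ℝ) - w) ≤ φ * ((v - w) + τ) ∨ φ < 0 := by
      rcases le_or_gt 0 φ with h0 | h0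
      · exact Or.inl (mul_le_mul_of_nonneg_left (by linarith) h0)
      · exact Or.inr h0
    rcases k1 with k1 | k1
    · have k2 := gap_num (E := 4 * e * (1 / 2) ^ k) (D := s v - s w) hh hh1 hL hL1 hX0 hY hφ bw1
        hbτ (by linarith) hE (by linarith)
      linarith
    · have k2 : φ * ((w' : ℝ) - w) ≤ 0 := mul_nonpos_of_nonpos_of_nonneg k1.le (by linarith)
      have k3 : X - Y / 8 ≤ s v - s w := by linarith
      have k4 : (X - Y / 8) * Real.log 2 ≤ (s v - s w) * Real.log 2 :=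
        mul_le_mul_of_nonneg_right k3 (by linarith)
      have k5 : (X - Y / 8) * (1 / 2) ≤ (X - Y / 8) * Real.log 2 :=
        mul_le_mul_of_nonneg_left hL.le (by linarith)
      linarith
  have hga : φ * (y' - y) + 4 * e * (1 / 2) ^ k < (s a - s y) * Real.log 2 := by
    have k1 : φ * ((y' : ℝ) - y) ≤ φ * ((a - y) + τ) ∨ φ < 0 := by
      rcases le_or_gt 0 φ with h0 | h0
      · exact Or.inl (mul_le_mul_of_nonneg_left (by linarith) h0)
      · exact Or.inr h0
    rcases k1 with k1 | k1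
    · have k2 := gap_num (E := 4 * e * (1 / 2) ^ k) (D := s a - s y) hh hh1 hL hL1 hX0 hY hφ by1
        hbτ (by linarith) hE (by linarith)
      linarith
    · have k2 : φ * ((y' : ℝ) - y) ≤ 0 := mul_nonpos_of_nonpos_of_nonneg k1.le (by linarith)
      have k3 : X - Y / 8 ≤ s a - s y := by linarith
      have k4 : (X - Y / 8) * Real.log 2 ≤ (s a - s y) * Real.log 2 :=
        mul_le_mul_of_nonneg_right k3 (by linarith)
      have k5 : (X - Y / 8) * (1 / 2) ≤ (X - Y / 8) * Real.log 2 :=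
        mul_le_mul_of_nonneg_left hL.le (by linarith)
      linarith
  have hvE := hv.pE
  have haE := ha.pE
  have hvE0 := hv.E0
  have haE0 := ha.E0
  have hvu := hv.wu
  have hau := ha.wu
  have hav0 := hv.w0
  obtain ⟨p₁, p₂, hp₁, hp₂, hNv⟩ := nzo_win htm hpos hKf hinj hv hat (w := w) (o := w) (o' := w')
    (o₁ := o₁) (by linarith) le_rfl (ratle (by linarith)) (ratle (by linarith)) (by linarith)
    (by linarith) le_rfl (mon w w' (by linarith) (by linarith) (by linarith))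
    (mon w' o₁ (by linarith) (by linarith) (by linarith)) hw0 (by linarith) hρ₀ he₀ (by linarith)
    hπv hrv (by linarith) hswv hgv (uN := uv + μ / 8) (pN := s w - Y / 8) (eN := Ev + μ / 4)
    (by linarith) (by linarith) (by linarith) (by linarith) (by linarith) (by linarith)
  obtain ⟨pa₁, pa₂, hpa₁, hpa₂, hNa⟩ := nzo_win htm hpos hKf hinj ha hat (w := w) (o := y) (o' := y')
    (o₁ := o₁) (by linarith) hwy (ratle (by linarith)) (ratle (by linarith)) (by linarith)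
    (by linarith) (mon w y (by linarith) (by exact_mod_cast hwy) (by linarith))
    (mon y y' (by linarith) (by linarith) (by linarith))
    (mon y' o₁ (by linarith) (by linarith) (by linarith)) hw0 (by linarith) hρ₀ he₀ (by linarith)
    (by linarith) hra (by linarith) hsya hga (uN := ua + μ / 8) (pN := s y - Y / 8)
    (eN := Ea + μ / 4) (by linarith) (by linarith) (by linarith) (by linarith) (by linarith)
    (by linarith)
  have hex := rec_ex he0 hat (w := w) (o₁ := o₁) (by linarith) (ratle (by linarith))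
    (by linarith)
  refine ⟨w, o₁, p₁, p₂, s w - Y / 8, by linarith, by linarith, by linarith, by linarith,
    by linarith, by linarith, by linarith, hp₁, hp₂, by linarith,
    by linarith, hNv, hex, fun n hn1 hn2 => ?_⟩
  refine { hs := fun J F A B V z z' G hB hG => AlF.hs J F A B V z z' G hB hG
           lb := ⟨e₀, ρ₀, π₀, he₀, hρ₀, by linarith, fun J F A V z z' G hG =>
             (AlF.hl J F A V z z' G hG).mono (Finset.Subset.refl _) hKf le_rfl le_rfl le_rfl⟩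
           top := ⟨pa₁, pa₂, Ea + μ / 4, ua + μ / 8, s y - Y / 8, by linarith, by linarith,
             by linarith, by linarith, hNa, ha.ch1 hpa₁, ha.ch2 hpa₂⟩
           ful := ful_up hpos ha.fI0 (by linarith) hn2
           v0 := hav0
           wv := by linarith
           va := by linarith
           a1 := by linarith
           n1 := hn2
           eN0 := by linarith
           pN0 := by linarith
           peN := by linarith
           qr := hlr
           uNn := by linarith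
           vq := by linarith
           q0 := hlq1
           pNp := by linarith
           acc := by linarith
           row := fun sa sb r1 r2 r3 => ?_ }
  -- the rows
  obtain ⟨z, hz⟩ : ∃ z : ℝ, z = t + (sa - Y / 16 - s₀) / b := ⟨_, rfl⟩
  obtain ⟨z', hz'⟩ : ∃ z' : ℝ, z' = t + (sb + Y / 16 - s₀) / b := ⟨_, rfl⟩
  have bz : b * (z - t) = sa - Y / 16 - s₀ := by
    rw [hz, add_sub_cancel_left, mul_div_cancel₀ _ hb.ne']
  have bz' : b * (z' - t) = sb + Y / 16 - s₀ := by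
    rw [hz', add_sub_cancel_left, mul_div_cancel₀ _ hb.ne']
  have hzz : z ≤ z' := by
    by_contra hcon
    push Not at hcon
    have := mul_lt_mul_of_pos_left (show z' - t < z - t by linarith) hb
    linarith
  have hvz : v - lq ≤ z - τ := by
    by_contra hcon
    push Not at hcon
    have k1 := mul_lt_mul_of_pos_left (show z - t < v - t - lq + τ by linarith) hb
    have e1 : b * (v - t - lq + τ) = b * (v - t) - b * lq + b * τ := by ring
    rw [e1, hbl, hbτ, bz] at k1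
    linarith
  have hza : z' ≤ t + Kq := by
    by_contra hcon
    push Not at hcon
    have k1 := mul_lt_mul_of_pos_left (show t + Kq - t < z' - t by linarith) hb
    have e1 : b * (t + Kq - t) = b * (t + Kq - v) + b * (v - t) := by ring
    rw [bz', e1] at k1
    linarith
  obtain ⟨u₂, u1, u2⟩ := exists_rat_btwn (show z - τ < z by linarith)
  obtain ⟨u₃, u3, u4⟩ := exists_rat_btwn (show z' < z' + τ by linarith)
  obtain ⟨lu1, lu2⟩ := lin u₂ (by linarith) (by linarith)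
  obtain ⟨lu3, lu4⟩ := lin u₃ (by linarith) (by linarith)
  have bu2 := bm (show (u₂ : ℝ) - t ≤ z - t by linarith)
  have bu3 := bm (show z' - t ≤ (u₃ : ℝ) - t by linarith)
  have hu23 : u₂ ≤ u₃ := ratle (by linarith)
  have hwu : w ≤ u₂ := ratle (by linarith)
  refine rec_rowl hpos hat (w := w) (o := u₂) (o' := u₃) (o₁ := o₁) (by linarith) hwu hu23
    (ratle (by linarith)) (by linarith) (by linarith) (mon w u₂ (by linarith) (by linarith)
    (by linarith)) (mon u₂ u₃ (by linarith) (by linarith) (by linarith))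
    (mon u₃ o₁ (by linarith) (by linarith) (by linarith)) ?_ (by linarith) (by linarith)
  refine row_num (b := b) (hX := Y) (τ := τ) hh1 hh (by linarith) hL1 hY0.le hφ (by linarith) hb
    ?_ hbτ hE (by linarith)
  have k1 := bm (show (u₃ : ℝ) - u₂ ≤ (z' - t) - (z - t) + 2 * τ by linarith)
  have e1 : b * ((z' - t) - (z - t) + 2 * τ) = b * (z' - t) - b * (z - t) + 2 * (b * τ) := by ring
  rw [e1, bz, bz'] at k1
  linarith

end Pool.ALT
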