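import Pool.Agent.H60.ALT.Rate
import Pool.Agent.H92.V0F.Vsd

/-!
# The rate of the last coordinate alone, with margins

`AltU`: labels of the target with a gradient exponent exist at all windows of `G` near `x`, and the
numbers of the labels of fixed exponents are linear at `x`, with a margin which is the same for all.
`aePG_altU`: it holds at almost every window, in a subclass; `her_altU`.
-/

set_option autoImplicit false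

namespace Pool.ALT

open Finset Real MeasureTheory Set Filter Topology
open Pool.Agent.H49.Ent Pool.Agent.H32.Dense Pool.STK Pool.KA Pool.KSAT Pool.K2S Pool.PB Pool.S6C
  Pool.GEN Pool.RCD Pool.LA91 Pool.OWN68 Pool.PKG Pool.CHT Pool.GRW
open Pool.TOP (TopS)
open Pool.LEV (Law)
open Pool.V0F (LbU AttUQ aePG_attU her_attU gs_full)

/-- The parameters: the exact places and the complexity; the error. -/
abbrev AltUI : Type := (Finset ℕ × ℕ) × ℚ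

/-- **The rate of the last coordinate alone** at a window `x`, with margins. -/
structure AltU {n : ℕ} (p : AltUI) (k₀ : ℕ) (S : PCl n)
    (P : List (Fin n) × Fin n → ℝ → ℝ → ℝ) (θ : ℝ) (c : ℕ → Fin n) (Pt : ℝ → ℝ → ℝ)
    (r : ℝ → ℝ) (L T : ℕ → ℝ → ℝ → ℝ) (κ : ℕ → Kg) (G : Set ℝ) (x : ℝ) : Prop where
  ex : ∃ e₀ ρ₀ π₀ : ℝ, 0 ≤ e₀ ∧ ρ₀ + (1 / 2) ^ k₀ ≤ 1 ∧
    (∀ w ∈ G, |w - x| ≤ (1 / 2) ^ k₀ → ∃ rk E : ℝ, 0 ≤ rk ∧ rk + (1 / 2) ^ k₀ ≤ ρ₀ ∧ 0 ≤ E ∧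
      E + (1 / 2) ^ k₀ ≤ e₀ ∧ L (n - 2) w w + (1 / 2) ^ k₀ ≤ e₀ + L (n - 1) w w ∧
      L (n - 2) w w + (1 / 2) ^ k₀ ≤ ρ₀ ∧ π₀ + (1 / 2) ^ k₀ ≤ L (n - 1) w w ∧
      e₀ + L (n - 1) w w + (1 / 2) ^ k₀ ≤ 1 ∧
      L (n - 1) w w + L (n - 2) w w + (1 / 2) ^ k₀ ≤ 1 + π₀ ∧
      LbU S ((range (n - 1)).image c) (c (n - 1)) w (L (n - 1) w w) rk E) ∧
    (0 < p.2 → ∀ S' : PCl n, S'.Ne → SubC S' S → ∀ w₀ : ℝ, 0 < w₀ → w₀ < x →
      AltE S' ((range (n - 1)).image c) (c (n - 1)) p.1.2 e₀ ρ₀ π₀ w₀ →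
      ∃ φ : ℝ, 0 ≤ φ ∧ ∀ k ≥ k₀, AltAt S ((range (n - 1)).image c) (p.1.1.image c)
        (c (n - 1)) p.1.2 e₀ ρ₀ π₀ (fun w => L (n - 1) w w) x φ p.2 k)

theorem her_altU (n : ℕ) : HerQ (AltU : PropG n AltUI) := by
  intro p k₀ S S' P θ c Pt r L T κ G x hs h
  obtain ⟨e₀, ρ₀, π₀, h1, h2, h3, h4⟩ := h.ex
  refine ⟨⟨e₀, ρ₀, π₀, h1, h2, fun w hw hwx => ?_, fun hp S'' hne hs'' w₀ k1 k2 k3 => ?_⟩⟩
  · obtain ⟨rk, E, a1, a2, a3, a4, a5, a6, a7, a8, a9, a10⟩ := h3 w hw hwx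
    exact ⟨rk, E, a1, a2, a3, a4, a5, a6, a7, a8, a9, a10.sub hs⟩
  · obtain ⟨φ, hφ, h5⟩ := h4 hp S'' hne (fun τ J F A h => hs τ J F A (hs'' τ J F A h)) w₀ k1 k2 k3
    exact ⟨φ, hφ, fun k hk => (h5 k hk).sub hs⟩

/-- **It holds at almost every window.** -/
theorem aePG_altU (n : ℕ) : AePG n (AltU : PropG n AltUI) := by
  classical
  intro hn S P r P' Λ PB PQ H hTop hF o G hG hGs
  obtain ⟨S₁, a1, a2, a3⟩ := aePG_attU n hn S P r P' Λ PB PQ H hTop hF o G hG hGs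
  have H₁ := H.sub a1 a2
  obtain ⟨al, g₀, s, d', e', K₁, N₁, hal, hg₀, hC⟩ := H₁.cl
  obtain ⟨S', b1, b2, b3⟩ := alt_rate (ι := (Finset ℕ × ℕ) × (ℚ × ℚ × ℚ)) hC.ne hC.pos
    (fun _ => (range (n - 1)).image (cc hn o.1.1)) (fun i => i.1.1.image (cc hn o.1.1))
    (fun _ => cc hn o.1.1 (n - 1)) (fun i => i.1.2) (fun i => i.2.1) (fun i => i.2.2.1)
    (fun i => i.2.2.2) (fun _ w => LvL hn P P' o (n - 1) w w) (A := 0) (B := 1) le_rfl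
    (fun i w hw w' hw' hww => by
      have hl := H.toPkT.lawL o (n - 1)
      exact (hl.mono_a w w' w hw.1.le le_rfl hww hw'.2.le).trans
        (hl.mono_w w' w w' hw.1.le hww le_rfl hw'.2.le))
  refine ⟨S', b1, fun τ J F A h => a2 τ J F A (b2 τ J F A h), ?_⟩
  filter_upwards [a3, b3] with g h1 h2 hg κ hκ p
  obtain ⟨k₁, hk₁⟩ := h1 hg κ hκ ()
  obtain ⟨α, Q, c', F⟩ := H.toPk.fac hTop hF (hGs hg)
  obtain ⟨-, hu0, hu1⟩ := gs_full H.toPk hTop hF (hGs hg)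
  have hg0 := F.g0
  -- the diagonals
  obtain ⟨D, hD⟩ : ∃ D : ℝ → ℝ, D = fun w => LvL hn P P' o (n - 1) w w := ⟨_, rfl⟩
  obtain ⟨U, hU⟩ : ∃ U : ℝ → ℝ, U = fun w => LvL hn P P' o (n - 2) w w := ⟨_, rfl⟩
  have hDc : ContinuousAt D g := by
    have : D = fun v => P v v := by
      rw [hD]
      funext w
      rw [lvL_last]
    rw [this]
    exact F.conP
  have hUc : ContinuousAt U g := by
    have : U = fun v => P' o.2 ((List.range (n - 2)).map (cc hn o.1.1), cc hn o.1.1 (n - 2)) v v := by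
      rw [hU]
      funext w
      rw [LvL_lt o (by omega : n - 2 < n - 1)]
      rfl
    rw [this]
    exact F.con _
  have hUg : U g < 1 := by
    rw [hU]
    exact hu1
  obtain ⟨ν, hν⟩ : ∃ ν : ℝ, ν = min ((1 / 2) ^ k₁) (1 - U g) := ⟨_, rfl⟩
  have hν0 : 0 < ν := by
    rw [hν]
    exact lt_min (by positivity) (by linarith)
  have hν1 : ν ≤ (1 / 2) ^ k₁ := by
    rw [hν]
    exact min_le_left _ _
  have hν2 : ν ≤ 1 - U g := by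
    rw [hν]
    exact min_le_right _ _
  rw [Metric.continuousAt_iff] at hDc hUc
  obtain ⟨d₁, hd₁, hD1⟩ := hDc (ν / 16) (by linarith)
  obtain ⟨d₂, hd₂, hU1⟩ := hUc (ν / 16) (by linarith)
  obtain ⟨e₀, he₀, he₀'⟩ := exists_rat_btwn (show 1 - D g - 3 / 4 * ν < 1 - D g - 5 / 8 * ν by
    linarith)
  obtain ⟨ρ₀, hρ₀, hρ₀'⟩ := exists_rat_btwn (show 1 - 3 / 4 * ν < 1 - 5 / 8 * ν by linarith)
  obtain ⟨π₀, hπ₀, hπ₀'⟩ := exists_rat_btwn (show D g - ν / 4 < D g - ν / 8 by linarith)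
  -- at the windows near `g`
  have hwin : ∀ w ∈ G, |w - g| ≤ (1 / 2) ^ k₁ → |w - g| < d₁ → |w - g| < d₂ → ∃ rk E : ℝ,
      0 ≤ rk ∧ rk + ν / 16 ≤ ρ₀ ∧ 0 ≤ E ∧ E + ν / 16 ≤ e₀ ∧ U w + ν / 16 ≤ e₀ + D w ∧
      U w + ν / 16 ≤ ρ₀ ∧ π₀ + ν / 16 ≤ D w ∧ e₀ + D w + ν / 16 ≤ 1 ∧
      D w + U w + ν / 16 ≤ 1 + π₀ ∧
      LbU S₁ ((range (n - 1)).image (cc hn o.1.1)) (cc hn o.1.1 (n - 1)) w (D w) rk E := by
    intro w hw w1 w2 w3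
    obtain ⟨rk, E, c1, c2, c3, c4, c5⟩ := hk₁ w hw w1
    have e1 := @hD1 w (by rw [Real.dist_eq]; exact w2)
    have e2 := @hU1 w (by rw [Real.dist_eq]; exact w3)
    rw [Real.dist_eq, abs_lt] at e1 e2
    obtain ⟨e1a, e1b⟩ := e1
    obtain ⟨e2a, e2b⟩ := e2
    have c4' : E + D w ≤ 1 - (1 / 2) ^ k₁ := by
      rw [hD]
      exact c4
    refine ⟨rk, E, c1, by linarith, c3, by linarith, by linarith, by linarith, by linarith,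
      by linarith, by linarith, ?_⟩
    rw [hD]
    exact c5
  have he₀0 : (0 : ℝ) ≤ e₀ := by
    obtain ⟨rk, E, -, -, c3, c4, -⟩ := hwin g hg (by
      rw [sub_self, abs_zero]
      positivity) (by rw [sub_self, abs_zero]; exact hd₁) (by rw [sub_self, abs_zero]; exact hd₂)
    linarith
  -- the numbers
  have hnum : ∃ k₂ : ℕ, 0 < p.2 → ∀ S'' : PCl n, S''.Ne → SubC S'' S' → ∀ w₀ : ℝ, 0 < w₀ →
      w₀ < g → AltE S'' ((range (n - 1)).image (cc hn o.1.1)) (cc hn o.1.1 (n - 1)) p.1.2 e₀ ρ₀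
        π₀ w₀ → ∃ φ : ℝ, 0 ≤ φ ∧ ∀ k ≥ k₂, AltAt S' ((range (n - 1)).image (cc hn o.1.1))
          (p.1.1.image (cc hn o.1.1)) (cc hn o.1.1 (n - 1)) p.1.2 e₀ ρ₀ π₀
          (fun w => LvL hn P P' o (n - 1) w w) g φ p.2 k := by
    by_cases hex : 0 < p.2 ∧ ∃ S'' : PCl n, S''.Ne ∧ SubC S'' S' ∧ ∃ w₀ : ℝ, 0 < w₀ ∧ w₀ < g ∧
        AltE S'' ((range (n - 1)).image (cc hn o.1.1)) (cc hn o.1.1 (n - 1)) p.1.2 e₀ ρ₀ π₀ w₀
    · obtain ⟨he, S'', hne, hs, w₀, c1, c2, c3⟩ := hex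
      obtain ⟨φ, hφ, h3⟩ := h2 ⟨F.g0, F.g1⟩ (p.1, (e₀, ρ₀, π₀)) S'' hne hs w₀ c1 c2 c3
      obtain ⟨k₀, hk₀⟩ := h3 p.2 (by exact_mod_cast he)
      exact ⟨k₀, fun _ _ _ _ _ _ _ _ => ⟨φ, hφ, hk₀⟩⟩
    · exact ⟨0, fun he S'' hne hs w₀ c1 c2 c3 => absurd ⟨he, S'', hne, hs, w₀, c1, c2, c3⟩ hex⟩
  obtain ⟨k₂, hk₂⟩ := hnum
  obtain ⟨k₃, hk₃⟩ := exists_pow_lt_of_lt_one (show 0 < min (ν / 16) (min d₁ d₂) from
    lt_min (by linarith) (lt_min hd₁ hd₂)) (show (1 / 2 : ℝ) < 1 by norm_num)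
  obtain ⟨k₀, hk₀⟩ : ∃ k₀ : ℕ, k₀ = max (max k₁ k₂) k₃ := ⟨_, rfl⟩
  have hle : ∀ k : ℕ, k ≤ k₀ → (1 / 2 : ℝ) ^ k₀ ≤ (1 / 2) ^ k := fun k hk =>
    pow_le_pow_of_le_one (by norm_num) (by norm_num) hk
  have i1 := hle k₁ (by rw [hk₀]; exact (le_max_left _ _).trans (le_max_left _ _))
  have i3 := (hle k₃ (by rw [hk₀]; exact le_max_right _ _)).trans_lt hk₃
  have i4 := i3.trans_le (min_le_left _ _)
  have i5 := i3.trans_le ((min_le_right _ _).trans (min_le_left _ _))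
  have i6 := i3.trans_le ((min_le_right _ _).trans (min_le_right _ _))
  refine ⟨k₀, ⟨⟨e₀, ρ₀, π₀, he₀0, by linarith, fun w hw hwx => ?_, fun hp S'' hne hs w₀ c1 c2 c3 => ?_⟩⟩⟩
  · obtain ⟨rk, E, c1, c2, c3, c4, c5, c6, c7, c8, c9, c10⟩ := hwin w hw (hwx.trans i1)
      (hwx.trans_lt i5) (hwx.trans_lt i6)
    rw [hD] at c5 c7 c8 c9 c10
    rw [hU] at c5 c6 c9
    exact ⟨rk, E, c1, by linarith, c3, by linarith, by linarith, by linarith, by linarith,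
      by linarith, by linarith, c10.sub b2⟩
  · obtain ⟨φ, hφ, h3⟩ := hk₂ hp S'' hne hs w₀ c1 c2 c3
    exact ⟨φ, hφ, fun k hk => h3 k ((le_trans (le_max_right _ _) (le_max_left _ _)).trans
      (hk₀ ▸ hk))⟩

end Pool.ALT
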