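import Pool.Agent.H60.ALT.Fmo
import Pool.Agent.H60.ALT.Alp

/-!
# The data of a window for the counted labels

`AlW`: labels of a fixed degree of `κ` over the base and of the last coordinate of the base over the
other ones, with gradient exponents, and fullness. `AlW.upg`, `AlW.upu`: the upgrades; `AlW.ch1`,
`AlW.ch2`: the charts.
-/

set_option autoImplicit false

namespace Pool.ALT

open Finset Real MvPolynomial
open Pool.Agent.H49.Ent Pool.Agent.H32.Dense Pool.STK Pool.KA Pool.KSAT Pool.K2S Pool.PB Pool.S6C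
  Pool.GEN Pool.RCD Pool.LA91 Pool.OWN68
open Pool.UNJ (ceI)
open Pool.GRD (LbP)

variable {m : ℕ}

/-- **The data of a window** `w`: degree `D`, levels `pκ`, `pu`, gradient exponents `E`, `Eu`, all
the base is full behind `u`. -/
structure AlW (S : PCl m) (c : ℕ → Fin m) (r₀ : ℕ) (κ : Fin m) (D : ℕ)
    (w pκ pu E Eu u : ℝ) : Prop where
  w0 : 0 ≤ w
  wu : w ≤ u
  u1 : u < 1
  E0 : 0 ≤ E
  Eu0 : 0 ≤ Eu
  pE : u ≤ pκ + E
  pEu : u ≤ pu + Eu
  rE : pκ + E < 1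
  rEu : pu + Eu < 1
  pk0 : 0 < pκ
  pu0 : 0 < pu
  lb : ∀ e : ℝ, 0 < e → Bas S (fun J F A => ∃ (V : Type) (z : PtT F → V) (z' : LnT F → V)
    (g gu : V → MvPolynomial (Option (Fin m)) ℝ),
    LbOK F ((range (r₀ + 1)).image c) κ D ⌊(E + e) * J⌋₊ J ⌊w * J⌋₊ ⌊(u + e) * J⌋₊
      ⌊(pκ - e) * J⌋₊ A z z' g ∧
    LbOK F ((range r₀).image c) (c r₀) D ⌊(Eu + e) * J⌋₊ J ⌊w * J⌋₊ ⌊(u + e) * J⌋₊
      ⌊(pu - e) * J⌋₊ A z z' gu)
  ful : FulC S c r₀ (r₀ + 1) w (fun _ => pu)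
  fI : Ful S ((range (r₀ + 1)).image c) w u
  fI0 : Ful S ((range r₀).image c) w u

variable {S : PCl m} {c : ℕ → Fin m} {r₀ : ℕ} {κ : Fin m} {D : ℕ} {w pκ pu E Eu u : ℝ}

theorem AlW.sub {S' : PCl m} (hs : ∀ (τ : ℝ) (J : ℕ) (F : Fam m J) (A : F.Ω → Prop),
    S'.St τ J F A → S.St τ J F A) (h : AlW S c r₀ κ D w pκ pu E Eu u) :
    AlW S' c r₀ κ D w pκ pu E Eu u :=
  ⟨h.w0, h.wu, h.u1, h.E0, h.Eu0, h.pE, h.pEu, h.rE, h.rEu, h.pk0, h.pu0,
    fun e he => (h.lb e he).sub hs, h.ful.sub hs, h.fI.sub hs, h.fI0.sub hs⟩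

/-- The upgrade of the charts of `κ`. -/
theorem AlW.upg (h : AlW S c r₀ κ D w pκ pu E Eu u)
    (hpos : ∀ (τ : ℝ) (J : ℕ) (F : Fam m J) (A : F.Ω → Prop), S.St τ J F A → 0 < Pe F.p A)
    {K : ℕ} (hK : D ≤ K) {u' p e : ℝ} (hu : u < u') (hu1 : u' < 1) (he : E < e)
    (hpe' : u' < pκ + e) (hpe : u' < p + e) (hp : 0 ≤ p) :
    Upg S ((range (r₀ + 1)).image c) κ K w u' p e := by
  have hw := h.w0
  have hwu := h.wu
  have hE := h.E0
  have hpk := h.pk0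
  obtain ⟨t, ht⟩ : ∃ t : ℝ, t = min (min (u' - u) (e - E)) (min (pκ + e - u') pκ) / 2 := ⟨_, rfl⟩
  have ht0 : 0 < t := by
    rw [ht]
    exact half_pos (lt_min (lt_min (by linarith) (by linarith)) (lt_min (by linarith) hpk))
  have k1 : 2 * t ≤ u' - u := by
    rw [ht, mul_div_cancel₀ _ (by norm_num)]
    exact (min_le_left _ _).trans (min_le_left _ _)
  have k2 : 2 * t ≤ e - E := by
    rw [ht, mul_div_cancel₀ _ (by norm_num)]
    exact (min_le_left _ _).trans (min_le_right _ _)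
  have k3 : 2 * t ≤ pκ + e - u' := by
    rw [ht, mul_div_cancel₀ _ (by norm_num)]
    exact (min_le_right _ _).trans (min_le_left _ _)
  have k4 : 2 * t ≤ pκ := by
    rw [ht, mul_div_cancel₀ _ (by norm_num)]
    exact (min_le_right _ _).trans (min_le_right _ _)
  refine ⟨by linarith, by linarith, hu1, ful_up hpos h.fI hu.le hu1.le, ⟨E + t, u + t, pκ - t,
    by linarith, by linarith, by linarith, by linarith, by linarith, ?_⟩, hpe, hp⟩
  refine Bas.mono 0 (h.lb t ht0) ?_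
  rintro J - F A ⟨V, z, z', g, gu, h1, -⟩
  exact ⟨V, z, z', g, h1.mono (Finset.Subset.refl _) hK le_rfl le_rfl le_rfl⟩

/-- The upgrade of the charts of the last coordinate of the base. -/
theorem AlW.upu (h : AlW S c r₀ κ D w pκ pu E Eu u)
    (hpos : ∀ (τ : ℝ) (J : ℕ) (F : Fam m J) (A : F.Ω → Prop), S.St τ J F A → 0 < Pe F.p A)
    {K : ℕ} (hK : D ≤ K) {u' p e : ℝ} (hu : u < u') (hu1 : u' < 1) (he : Eu < e)
    (hpe' : u' < pu + e) (hpe : u' < p + e) (hp : 0 ≤ p) :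
    Upg S ((range r₀).image c) (c r₀) K w u' p e := by
  have hw := h.w0
  have hwu := h.wu
  have hE := h.Eu0
  have hpk := h.pu0
  obtain ⟨t, ht⟩ : ∃ t : ℝ, t = min (min (u' - u) (e - Eu)) (min (pu + e - u') pu) / 2 := ⟨_, rfl⟩
  have ht0 : 0 < t := by
    rw [ht]
    exact half_pos (lt_min (lt_min (by linarith) (by linarith)) (lt_min (by linarith) hpk))
  have k1 : 2 * t ≤ u' - u := by
    rw [ht, mul_div_cancel₀ _ (by norm_num)]
    exact (min_le_left _ _).trans (min_le_left _ _)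
  have k2 : 2 * t ≤ e - Eu := by
    rw [ht, mul_div_cancel₀ _ (by norm_num)]
    exact (min_le_left _ _).trans (min_le_right _ _)
  have k3 : 2 * t ≤ pu + e - u' := by
    rw [ht, mul_div_cancel₀ _ (by norm_num)]
    exact (min_le_right _ _).trans (min_le_left _ _)
  have k4 : 2 * t ≤ pu := by
    rw [ht, mul_div_cancel₀ _ (by norm_num)]
    exact (min_le_right _ _).trans (min_le_right _ _)
  refine ⟨by linarith, by linarith, hu1, ful_up hpos h.fI0 hu.le hu1.le, ⟨Eu + t, u + t, pu - t,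
    by linarith, by linarith, by linarith, by linarith, by linarith, ?_⟩, hpe, hp⟩
  refine Bas.mono 0 (h.lb t ht0) ?_
  rintro J - F A ⟨V, z, z', g, gu, -, h1⟩
  exact ⟨V, z, z', gu, h1.mono (Finset.Subset.refl _) hK le_rfl le_rfl le_rfl⟩

/-- The charts of `κ`. -/
theorem AlW.ch1 (h : AlW S c r₀ κ D w pκ pu E Eu u) {p : ℝ} (hp : p < pκ) :
    Bas S (fun J F A => ∃ (P₁ : ℕ) (V₁ : Type) (z₁ : PtT F → V₁) (z₁' : LnT F → V₁)
      (G₁ : V₁ → MvPolynomial (Option (Fin m)) ℝ),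
      LbP F ((range (r₀ + 1)).image c) κ D J ⌊w * J⌋₊ P₁ A z₁ z₁' G₁ ∧ p * J ≤ P₁) := by
  obtain ⟨J₁, hJ₁⟩ := exists_nat_ge (1 / ((pκ - p) / 2))
  refine Bas.mono J₁ (h.lb ((pκ - p) / 2) (by linarith)) ?_
  rintro J hJ F A ⟨V, z, z', g, gu, h1, -⟩
  have hJ0 : (0 : ℝ) ≤ J := Nat.cast_nonneg J
  have hJ1 : 1 ≤ (pκ - p) / 2 * J := by
    have e1 : (J₁ : ℝ) ≤ J := by exact_mod_cast hJ
    have e2 := hJ₁.trans e1
    rw [div_le_iff₀ (by linarith)] at e2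
    linarith
  refine ⟨_, V, z, z', g, LbP.of h1, ?_⟩
  have := Nat.lt_floor_add_one ((pκ - (pκ - p) / 2) * (J : ℝ))
  nlinarith

/-- The charts of the last coordinate of the base. -/
theorem AlW.ch2 (h : AlW S c r₀ κ D w pκ pu E Eu u) {p : ℝ} (hp : p < pu) :
    Bas S (fun J F A => ∃ (P₁ : ℕ) (V₁ : Type) (z₁ : PtT F → V₁) (z₁' : LnT F → V₁)
      (G₁ : V₁ → MvPolynomial (Option (Fin m)) ℝ),
      LbP F ((range r₀).image c) (c r₀) D J ⌊w * J⌋₊ P₁ A z₁ z₁' G₁ ∧ p * J ≤ P₁) := by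
  obtain ⟨J₁, hJ₁⟩ := exists_nat_ge (1 / ((pu - p) / 2))
  refine Bas.mono J₁ (h.lb ((pu - p) / 2) (by linarith)) ?_
  rintro J hJ F A ⟨V, z, z', g, gu, -, h1⟩
  have hJ0 : (0 : ℝ) ≤ J := Nat.cast_nonneg J
  have hJ1 : 1 ≤ (pu - p) / 2 * J := by
    have e1 : (J₁ : ℝ) ≤ J := by exact_mod_cast hJ
    have e2 := hJ₁.trans e1
    rw [div_le_iff₀ (by linarith)] at e2
    linarith
  refine ⟨_, V, z, z', gu, LbP.of h1, ?_⟩
  have := Nat.lt_floor_add_one ((pu - (pu - p) / 2) * (J : ℝ))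
  nlinarith

end Pool.ALT
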