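import Pool.Agent.H60.ALT.Cmp
import Pool.Agent.H60.ALT.Rd
import Pool.Agent.H62.AFN.Hnf
import Pool.Agent.H65.ORD.Rz

/-!
# The digits of a coordinate which are read through a label

`upl`: a polynomial as a polynomial of one coordinate of the chain, the earlier ones rounded.
`ev_read`, `ev_top`: on an event where the slope of the difference of two labels is of a fixed size
the digits of the own height carry the digits of the coordinate.
-/

set_option autoImplicit false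

namespace Pool.ALT

open Finset Real MvPolynomial
open Pool.Agent.H49.Ent Pool.Agent.H32.Dense Pool.STK Pool.KA Pool.KSAT Pool.K2S Pool.PB Pool.S6C
  Pool.GEN Pool.RCD Pool.LA91 Pool.OWN68
open Pool.UNJ (ceI)
open Pool.GRW (xr xr_near)
open Pool.BFL (Pb)

variable {m : ℕ}

open Classical in
/-- The values of the coordinates. -/
noncomputable def upb (c : ℕ → Fin m) (r₀ J : ℕ) (t : ℝ) (xs : Fin r₀ → ℤ) :
    Option (Fin m) → Polynomial ℝ
  | none => Polynomial.C t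
  | some k => if k = c r₀ then Polynomial.X else
      if h : ∃ l : Fin r₀, c l = k then Polynomial.C ((xs h.choose : ℝ) / 2 ^ J) else 0

/-- The polynomial of the coordinate `c r₀`. -/
noncomputable def upl (c : ℕ → Fin m) (r₀ J : ℕ) (t : ℝ) (xs : Fin r₀ → ℤ)
    (G : MvPolynomial (Option (Fin m)) ℝ) : Polynomial ℝ := aeval (upb c r₀ J t xs) G

theorem upl_deg (c : ℕ → Fin m) (r₀ J : ℕ) (t : ℝ) (xs : Fin r₀ → ℤ)
    {G : MvPolynomial (Option (Fin m)) ℝ} {K : ℕ} (h : G.totalDegree ≤ K) :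
    (upl c r₀ J t xs G).natDegree ≤ K := by
  refine Pool.KBX.natDegree_aeval_le G _ (fun j => ?_) h
  rcases j with _ | k
  · show (Polynomial.C t).natDegree ≤ 1
    rw [Polynomial.natDegree_C]
    exact Nat.zero_le _
  · unfold upb
    simp only
    split_ifs
    · exact Polynomial.natDegree_X_le
    · rw [Polynomial.natDegree_C]
      exact Nat.zero_le _
    · rw [Polynomial.natDegree_zero]
      exact Nat.zero_le _

section

variable {J : ℕ} {F : Fam m J} {c : ℕ → Fin m} {r₀ : ℕ}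

theorem upb_none (ω : F.Ω) (x : ℝ) :
    (upb c r₀ J (F.t ω) (fun l : Fin r₀ => F.X J ω (c l)) none).eval x = xr F ω none := by
  show (Polynomial.C (F.t ω)).eval x = _
  rw [Polynomial.eval_C]
  rfl

theorem upb_some (ω : F.Ω) {i : Fin m} (hi : i ∈ (range (r₀ + 1)).image c) :
    (upb c r₀ J (F.t ω) (fun l : Fin r₀ => F.X J ω (c l)) (some i)).eval
      ((F.X J ω (c r₀) : ℝ) / 2 ^ J) = xr F ω (some i) := by
  unfold upb
  simp only
  split_ifs with h1 h2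
  · rw [Polynomial.eval_X, h1]
    rfl
  · rw [Polynomial.eval_C, h2.choose_spec]
    rfl
  · exfalso
    obtain ⟨l, hl, rfl⟩ := mem_image.1 hi
    rw [mem_range] at hl
    rcases Nat.lt_succ_iff_lt_or_eq.1 hl with h | h
    · exact h2 ⟨⟨l, h⟩, rfl⟩
    · exact h1 (by rw [h])

/-- The coordinates of the polynomial. -/
def DpI (I : Finset (Fin m)) (G : MvPolynomial (Option (Fin m)) ℝ) : Prop :=
  ∀ b b' : Option (Fin m) → ℝ, b none = b' none → (∀ i ∈ I, b (some i) = b' (some i)) →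
    eval b G = eval b' G

theorem DpI.sub {I : Finset (Fin m)} {G H : MvPolynomial (Option (Fin m)) ℝ} (h : DpI I G)
    (h' : DpI I H) : DpI I (G - H) := fun b b' h0 hb => by
  rw [map_sub, map_sub, h b b' h0 hb, h' b b' h0 hb]

theorem upl_eval {G : MvPolynomial (Option (Fin m)) ℝ} (h : DpI ((range (r₀ + 1)).image c) G)
    (ω : F.Ω) : (upl c r₀ J (F.t ω) (fun l : Fin r₀ => F.X J ω (c l)) G).eval
      ((F.X J ω (c r₀) : ℝ) / 2 ^ J) = eval (xr F ω) G := by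
  unfold upl
  rw [Pool.KBX.eval_aeval_poly]
  exact h _ _ (upb_none ω _) fun i hi => upb_some ω hi

theorem upl_der {G : MvPolynomial (Option (Fin m)) ℝ} (h : DpI ((range (r₀ + 1)).image c) G)
    (ω : F.Ω) : (Polynomial.derivative (upl c r₀ J (F.t ω)
      (fun l : Fin r₀ => F.X J ω (c l)) G)).eval ((F.X J ω (c r₀) : ℝ) / 2 ^ J) =
      eval (xr F ω) (pderiv (some (c r₀)) G) := by
  classical
  unfold upl
  rw [Pool.GEN.der_aevalσ, Polynomial.eval_finsetSum, Finset.sum_eq_single (some (c r₀))]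
  · rw [Polynomial.eval_mul]
    have e1 : Polynomial.derivative (upb c r₀ J (F.t ω) (fun l : Fin r₀ => F.X J ω (c l))
        (some (c r₀))) = 1 := by
      unfold upb
      simp only [if_true]
      exact Polynomial.derivative_X
    rw [e1, Polynomial.eval_one, mul_one, Pool.KBX.eval_aeval_poly]
    exact Pool.ORD65.dep_pderiv h _ _ _ (upb_none ω _) fun i hi => upb_some ω hi
  · intro o _ ho
    have e1 : Polynomial.derivative (upb c r₀ J (F.t ω) (fun l : Fin r₀ => F.X J ω (c l)) o) =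
        0 := by
      rcases o with _ | k
      · show Polynomial.derivative (Polynomial.C _) = 0
        exact Polynomial.derivative_C
      · unfold upb
        simp only
        split_ifs with h1 h2
        · exact absurd (by rw [h1]) ho
        · exact Polynomial.derivative_C
        · exact Polynomial.derivative_zero
    rw [e1, mul_zero, Polynomial.eval_zero]
  · intro h
    exact absurd (Finset.mem_univ _) h

end

/-! ### On an event -/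

section

variable {J : ℕ} {F : Fam m J} {B : F.Ω → Prop} {c : ℕ → Fin m} {r₀ : ℕ} {κ : Fin m}
  {K K₁ Ku e e₁ e₂ W W' ρ ρ₁ ρ₂ P P₁ P₂ : ℕ} {V V₁ V₂ : Type} {z : PtT F → V} {z' : LnT F → V}
  {G : V → MvPolynomial (Option (Fin m)) ℝ} {z₁ : PtT F → V₁} {z₁' : LnT F → V₁}
  {G₁ : V₁ → MvPolynomial (Option (Fin m)) ℝ} {z₂ : PtT F → V₂} {z₂' : LnT F → V₂}
  {H : V₂ → MvPolynomial (Option (Fin m)) ℝ}

/-- The condition of the reading. -/
noncomputable def yR (F : Fam m J) (c : ℕ → Fin m) (r₀ W W' : ℕ) (z' : LnT F → V) (z₁' : LnT F → V₁)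
    (z₂' : LnT F → V₂) (ω : F.Ω) : (Fin r₀ → ℤ) × ((V × (V₁ × V₂)) × (ℕ × F.ζ)) :=
  ((fun l : Fin r₀ => F.X J ω (c l)), ((wz z' W W' (slam F W' ω), (z₁' (slam F W' ω),
    z₂' (slam F W' ω))), F.W ω))

/-- The difference of the labels as a polynomial of the coordinate. -/
noncomputable def fR (c : ℕ → Fin m) (r₀ J : ℕ) {ζ : Type}
    (G : V → MvPolynomial (Option (Fin m)) ℝ) (G₁ : V₁ → MvPolynomial (Option (Fin m)) ℝ)
    (y : (Fin r₀ → ℤ) × ((V × (V₁ × V₂)) × (ℕ × ζ))) : Polynomial ℝ :=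
  upl c r₀ J ((y.2.2.1 : ℝ) / 2 ^ J) y.1 (G₁ y.2.1.2.1 - G y.2.1.1)

theorem fR_deg (hK : ∀ v, (G v).totalDegree ≤ K) (hK₁ : ∀ v, (G₁ v).totalDegree ≤ K₁)
    (y : (Fin r₀ → ℤ) × ((V × (V₁ × V₂)) × (ℕ × F.ζ))) :
    (fR c r₀ J G G₁ y).natDegree ≤ max K K₁ := by
  refine upl_deg c r₀ J _ _ ?_
  exact (totalDegree_sub _ _).trans (max_le ((hK₁ _).trans (le_max_right _ _))
    ((hK _).trans (le_max_left _ _)))

theorem fR_eval (hW : W ≤ W') (hW' : W' ≤ J) (hG : ∀ v, DpI ((range (r₀ + 1)).image c) (G v))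
    (hG₁ : ∀ v, DpI ((range (r₀ + 1)).image c) (G₁ v)) (ω : F.Ω) :
    (fR c r₀ J G G₁ (yR F c r₀ W W' z' z₁' z₂' ω)).eval ((F.X J ω (c r₀) : ℝ) / 2 ^ J) =
      eval (xr F ω) (G₁ (z₁' (slam F W' ω))) - eval (xr F ω) (G (z' (slam F W ω))) := by
  have h1 := upl_eval (F := F) (((hG₁ (z₁' (slam F W' ω))).sub (hG (z' (slam F W ω))))) ω
  rw [map_sub] at h1
  rw [← h1]
  unfold fR yR
  simp only
  rw [wz_slam z' hW hW']
  rfl

theorem fR_der (hW : W ≤ W') (hW' : W' ≤ J) (hG : ∀ v, DpI ((range (r₀ + 1)).image c) (G v))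
    (hG₁ : ∀ v, DpI ((range (r₀ + 1)).image c) (G₁ v)) (ω : F.Ω) :
    (Polynomial.derivative (fR c r₀ J G G₁ (yR F c r₀ W W' z' z₁' z₂' ω))).eval
      ((F.X J ω (c r₀) : ℝ) / 2 ^ J) = eval (xr F ω) (pderiv (some (c r₀))
        (G₁ (z₁' (slam F W' ω)) - G (z' (slam F W ω)))) := by
  have h1 := upl_der (F := F) (((hG₁ (z₁' (slam F W' ω))).sub (hG (z' (slam F W ω))))) ω
  rw [← h1]
  unfold fR yR
  simp only
  rw [wz_slam z' hW hW']
  rfl

/-- The own height and the difference of the labels. -/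
theorem fR_err (hW : W ≤ W') (hW' : W' ≤ J) (hρ : ρ ≤ J) (hρ₁ : ρ₁ ≤ J)
    (hG : LbOK F ((range (r₀ + 1)).image c) κ K e J W ρ P B z z' G)
    (h₁ : LbOK F ((range (r₀ + 1)).image c) κ K₁ e₁ J W' ρ₁ P₁ B z₁ z₁' G₁) {ω : F.Ω}
    (hω : B ω) : |hgt F κ z' W G ω -
      (fR c r₀ J G G₁ (yR F c r₀ W W' z' z₁' z₂' ω)).eval ((F.X J ω (c r₀) : ℝ) / 2 ^ J)| ≤
      1 / 2 ^ P₁ + 2 ^ e₁ * ((m + 1) * (1 / 2 ^ J)) + 2 ^ e * ((m + 1) * (1 / 2 ^ J)) := by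
  rw [fR_eval hW hW' hG.dep h₁.dep]
  have a1 := Pool.JVE.xr_val hG hρ hω
  have a2 := Pool.JVE.xr_val h₁ hρ₁ hω
  have a3 := h₁.pos ω hω
  rw [hgt_eq]
  have e1 : F.x ω κ - eval (bt F ω) (G (z' (slam F W ω))) -
      (eval (xr F ω) (G₁ (z₁' (slam F W' ω))) - eval (xr F ω) (G (z' (slam F W ω)))) =
      (F.x ω κ - eval (bt F ω) (G₁ (z₁' (slam F W' ω)))) -
      (eval (xr F ω) (G₁ (z₁' (slam F W' ω))) - eval (bt F ω) (G₁ (z₁' (slam F W' ω)))) +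
      (eval (xr F ω) (G (z' (slam F W ω))) - eval (bt F ω) (G (z' (slam F W ω)))) := by ring
  rw [e1]
  refine (abs_add_le _ _).trans ?_
  have a4 := abs_sub (F.x ω κ - eval (bt F ω) (G₁ (z₁' (slam F W' ω))))
    (eval (xr F ω) (G₁ (z₁' (slam F W' ω))) - eval (bt F ω) (G₁ (z₁' (slam F W' ω))))
  linarith

/-- The coordinate is near its label. -/
theorem fR_near (hρ₂ : ρ₂ ≤ J)
    (h₂ : LbOK F ((range r₀).image c) (c r₀) Ku e₂ J W' ρ₂ P₂ B z₂ z₂' H) {ω ω' : F.Ω}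
    (hω : B ω) (hω' : B ω')
    (e : yR F c r₀ W W' z' z₁' z₂' ω = yR F c r₀ W W' z' z₁' z₂' ω') :
    |(F.X J ω (c r₀) : ℝ) / 2 ^ J - (F.X J ω' (c r₀) : ℝ) / 2 ^ J| ≤
      2 * (1 / 2 ^ J + 1 / 2 ^ P₂ + 2 ^ e₂ * ((m + 1) * (1 / 2 ^ J))) := by
  unfold yR at e
  simp only [Prod.mk.injEq] at e
  obtain ⟨ex, ⟨-, -, e2⟩, eW⟩ := e
  have hT : F.T ω = F.T ω' := (Prod.ext_iff.mp eW).1
  have e3 : eval (xr F ω) (H (z₂' (slam F W' ω))) = eval (xr F ω') (H (z₂' (slam F W' ω'))) := by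
    rw [e2]
    refine h₂.dep _ _ _ ?_ fun i hi => ?_
    · show F.t ω = F.t ω'
      unfold Fam.t
      rw [hT]
    · obtain ⟨l, hl, rfl⟩ := mem_image.1 hi
      rw [mem_range] at hl
      show (F.X J ω (c l) : ℝ) / 2 ^ J = (F.X J ω' (c l) : ℝ) / 2 ^ J
      have := congrFun ex ⟨l, hl⟩
      simp only at this
      rw [this]
  have one : ∀ ω₀, B ω₀ → |(F.X J ω₀ (c r₀) : ℝ) / 2 ^ J -
      eval (xr F ω₀) (H (z₂' (slam F W' ω₀)))| ≤
      1 / 2 ^ J + 1 / 2 ^ P₂ + 2 ^ e₂ * ((m + 1) * (1 / 2 ^ J)) := by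
    intro ω₀ hω₀
    have a1 := Pool.JVE.xr_val h₂ hρ₂ hω₀
    have a2 := h₂.pos ω₀ hω₀
    have a3 := xr_near F ω₀ (some (c r₀))
    change |(F.X J ω₀ (c r₀) : ℝ) / 2 ^ J - F.x ω₀ (c r₀)| ≤ 1 / 2 ^ J at a3
    have e1 : (F.X J ω₀ (c r₀) : ℝ) / 2 ^ J - eval (xr F ω₀) (H (z₂' (slam F W' ω₀))) =
        ((F.X J ω₀ (c r₀) : ℝ) / 2 ^ J - F.x ω₀ (c r₀)) +
        (F.x ω₀ (c r₀) - eval (bt F ω₀) (H (z₂' (slam F W' ω₀)))) -
        (eval (xr F ω₀) (H (z₂' (slam F W' ω₀))) -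
          eval (bt F ω₀) (H (z₂' (slam F W' ω₀)))) := by ring
    rw [e1]
    refine (abs_sub _ _).trans ?_
    have a4 := abs_add_le ((F.X J ω₀ (c r₀) : ℝ) / 2 ^ J - F.x ω₀ (c r₀))
      (F.x ω₀ (c r₀) - eval (bt F ω₀) (H (z₂' (slam F W' ω₀))))
    linarith
  have b1 := one ω hω
  have b2 := one ω' hω'
  have e4 : (F.X J ω (c r₀) : ℝ) / 2 ^ J - (F.X J ω' (c r₀) : ℝ) / 2 ^ J =
      ((F.X J ω (c r₀) : ℝ) / 2 ^ J - eval (xr F ω) (H (z₂' (slam F W' ω)))) -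
      ((F.X J ω' (c r₀) : ℝ) / 2 ^ J - eval (xr F ω') (H (z₂' (slam F W' ω')))) := by
    rw [e3]
    ring
  rw [e4]
  refine (abs_sub _ _).trans ?_
  linarith

/-- **The digits which are read**, on an event. -/
theorem ev_read (hB : 0 < Pe F.p B) (hW : W ≤ W') (hW' : W' ≤ J) (hρ : ρ ≤ J) (hρ₁ : ρ₁ ≤ J)
    (hρ₂ : ρ₂ ≤ J) (hG : LbOK F ((range (r₀ + 1)).image c) κ K e J W ρ P B z z' G)
    (h₁ : LbOK F ((range (r₀ + 1)).image c) κ K₁ e₁ J W' ρ₁ P₁ B z₁ z₁' G₁)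
    (h₂ : LbOK F ((range r₀).image c) (c r₀) Ku e₂ J W' ρ₂ P₂ B z₂ z₂' H)
    {θ mm M sa sb : ℝ} (hm : 0 < mm) (hM : 0 ≤ M)
    (hful : θ ≤ CH (Pool.Agent.H49.Ent.cond F.p B True) (fun ω => F.X J ω (c r₀))
      (yR F c r₀ W W' z' z₁' z₂'))
    (hsl : ∀ ω, B ω → mm ≤ |eval (xr F ω) (pderiv (some (c r₀))
        (G₁ (z₁' (slam F W' ω)) - G (z' (slam F W ω))))| ∧
      |eval (xr F ω) (pderiv (some (c r₀))
        (G₁ (z₁' (slam F W' ω)) - G (z' (slam F W ω))))| ≤ M) {E ℓ : ℝ}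
    (hE : 1 / 2 ^ P₁ + 2 ^ e₁ * ((m + 1) * (1 / 2 ^ J)) + 2 ^ e * ((m + 1) * (1 / 2 ^ J)) ≤ E)
    (hℓ : 2 * (1 / 2 ^ J + 1 / 2 ^ P₂ + 2 ^ e₂ * ((m + 1) * (1 / 2 ^ J))) ≤ ℓ) :
    θ ≤ CH (Pool.Agent.H49.Ent.cond F.p B True) (xa F κ z' W G sb)
        (ya F ((range r₀).image c) κ z' W G sa) +
      Real.log (2 * (2 ^ (sa * J) * (M * ℓ + 2 * E) + 1) + 1) +
      Real.log (2 * (2 ^ J * ((1 / 2 ^ (sb * J) + 2 * E) / mm)) + 1) +
      2 * Real.log (2 * ((2 * max K K₁ : ℕ) : ℝ) + 1) := by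
  have hq := isLaw_cond F.isLaw hB
  have hBq : ∀ ω, 0 < Pool.Agent.H49.Ent.cond F.p B True ω → B ω := fun ω hω =>
    of_eq_true ((cond_pos_iff F.isLaw.nonneg B True ω).1 hω).2
  have hE0 : 0 ≤ E := le_trans (by positivity) hE
  have hℓ0 : 0 ≤ ℓ := le_trans (by positivity) hℓ
  have key := read_low hq (max K K₁) (fR c r₀ J G G₁) (fR_deg hG.deg h₁.deg)
    (yR F c r₀ W W' z' z₁' z₂') (fun ω => F.X J ω (c r₀)) J (hgt F κ z' W G) hm hM hE0 hℓ0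
    (a := 2 ^ (sa * J)) (a' := 2 ^ (sb * J)) (Real.rpow_pos_of_pos (by norm_num) _)
    (Real.rpow_pos_of_pos (by norm_num) _)
    (fun ω hω => by rw [fR_der hW hW' hG.dep h₁.dep]; exact hsl ω (hBq ω hω))
    (fun ω hω => (fR_err hW hW' hρ hρ₁ hG h₁ (hBq ω hω)).trans hE)
    (fun ω ω' hω hω' e => (fR_near hρ₂ h₂ (hBq ω hω) (hBq ω' hω') e).trans hℓ)
  have h3 : CH (Pool.Agent.H49.Ent.cond F.p B True)
      (fun ω => ⌊(2 : ℝ) ^ (sb * J) * hgt F κ z' W G ω⌋)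
      (fun ω => (⌊(2 : ℝ) ^ (sa * J) * hgt F κ z' W G ω⌋, yR F c r₀ W W' z' z₁' z₂' ω)) ≤
      CH (Pool.Agent.H49.Ent.cond F.p B True) (xa F κ z' W G sb)
        (ya F ((range r₀).image c) κ z' W G sa) := by
    refine CH_mono_cond hq.nonneg fun ω ω' _ _ h => ?_
    unfold yR at h
    simp only [Prod.mk.injEq] at h
    obtain ⟨h1, hx, ⟨hz, -, -⟩, hWW⟩ := h
    rw [wz_slam z' hW hW', wz_slam z' hW hW'] at hz
    unfold ya
    refine Prod.ext h1 (Prod.ext hz (Prod.ext (funext fun k => ?_) hWW))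
    show (if k ∈ (range r₀).image c then fl J (F.x ω) k else 0) =
      if k ∈ (range r₀).image c then fl J (F.x ω') k else 0
    by_cases hk : k ∈ (range r₀).image c
    · rw [if_pos hk, if_pos hk]
      obtain ⟨l, hl, rfl⟩ := mem_image.1 hk
      exact congrFun hx ⟨l, mem_range.1 hl⟩
    · rw [if_neg hk, if_neg hk]
  linarith

/-- **The top slopes**, on an event. -/
theorem ev_top (hB : 0 < Pe F.p B) (hW : W ≤ W') (hW' : W' ≤ J) (hρ : ρ ≤ J) (hρ₁ : ρ₁ ≤ J)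
    (hG : LbOK F ((range (r₀ + 1)).image c) κ K e J W ρ P B z z' G)
    (h₁ : LbOK F ((range (r₀ + 1)).image c) κ K₁ e₁ J W' ρ₁ P₁ B z₁ z₁' G₁)
    {θ mm : ℝ} (hm : 0 < mm)
    (hful : θ ≤ CH (Pool.Agent.H49.Ent.cond F.p B True) (fun ω => F.X J ω (c r₀))
      (yR F c r₀ W W' z' z₁' z₂'))
    (hsl : ∀ ω, B ω → mm ≤ |eval (xr F ω) (pderiv (some (c r₀))
        (G₁ (z₁' (slam F W' ω)) - G (z' (slam F W ω))))|) {E : ℝ}
    (hE : 1 / 2 ^ P + (1 / 2 ^ P₁ + 2 ^ e₁ * ((m + 1) * (1 / 2 ^ J)) +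
      2 ^ e * ((m + 1) * (1 / 2 ^ J))) ≤ E) :
    θ ≤ Real.log (2 * (2 ^ J * (2 * E / mm)) + 1) +
      2 * Real.log (2 * ((2 * max K K₁ : ℕ) : ℝ) + 1) := by
  have hq := isLaw_cond F.isLaw hB
  have hBq : ∀ ω, 0 < Pool.Agent.H49.Ent.cond F.p B True ω → B ω := fun ω hω =>
    of_eq_true ((cond_pos_iff F.isLaw.nonneg B True ω).1 hω).2
  have hE0 : 0 ≤ E := le_trans (by positivity) hE
  have key := read_up hq (max K K₁) (fR c r₀ J G G₁) (fR_deg hG.deg h₁.deg)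
    (yR F c r₀ W W' z' z₁' z₂') (fun ω => F.X J ω (c r₀)) J hm hE0
    (fun ω hω => by rw [fR_der hW hW' hG.dep h₁.dep]; exact hsl ω (hBq ω hω))
    (fun ω hω => by
      have a1 := fR_err (z₂' := z₂') hW hW' hρ hρ₁ hG h₁ (hBq ω hω)
      have a2 := hG.pos ω (hBq ω hω)
      rw [← hgt_eq] at a2
      refine le_trans ?_ hE
      have e1 : (fR c r₀ J G G₁ (yR F c r₀ W W' z' z₁' z₂' ω)).eval
          ((F.X J ω (c r₀) : ℝ) / 2 ^ J) = hgt F κ z' W G ω - (hgt F κ z' W G ω -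
          (fR c r₀ J G G₁ (yR F c r₀ W W' z' z₁' z₂' ω)).eval
            ((F.X J ω (c r₀) : ℝ) / 2 ^ J)) := by ring
      rw [e1]
      refine (abs_sub _ _).trans ?_
      linarith)
  linarith

end

end Pool.ALT
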