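import Pool.Agent.H60.ALT.Rec

/-!
# Rows over the near digits of the base

`ip_row`: a row given the exact point of the base is a row given its near digits, if the finest
digit is few bits given a closed code and the near digits, and the base is full given these.
`shift_row`: a row after a shift which is known. `f0_jetq`: the natural jets, with the exponents.
-/

set_option autoImplicit false

namespace Pool.ALT

open Finset Real MvPolynomial
open Pool.Agent.H49.Ent Pool.Agent.H32.Dense Pool.STK Pool.KA Pool.KSAT Pool.K2S Pool.PB Pool.S6C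
  Pool.GEN Pool.RCD Pool.LA91 Pool.OWN68
open Pool.UNJ (ceI)
open Pool.GRW (xr xr_near)
open Pool.BFL (Pb)
open Pool.GRD (LbP)

/-- **A row over the near digits of the base**, from the row over its exact point. -/
theorem ip_row {Ω A A₀ B C D E : Type} [Fintype Ω] {q : Ω → ℝ} (hq : IsLaw q) (X : Ω → A)
    (X₀ : Ω → A₀) (V : Ω → B) (N : Ω → C) (L : Ω → D) (Z : Ω → E) {θ a a' b : ℝ}
    (hX : CH q X (fun ω => (Z ω, (N ω, L ω))) ≤ a)
    (hX₀ : CH q X₀ (fun ω => (Z ω, (N ω, L ω))) ≤ a')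
    (hup : CH q V (fun ω => (X₀ ω, (N ω, L ω))) ≤ θ)
    (hful : θ - b ≤ CH q V (fun ω => (Z ω, (N ω, L ω)))) :
    CH q X (fun ω => (X₀ ω, (N ω, L ω))) ≤
      CH q X (fun ω => (X₀ ω, (V ω, L ω))) + (a + a' + b) := by
  have h0 := hq.nonneg
  have h1 := CH_exch h0 X V (fun ω => (X₀ ω, (N ω, L ω)))
  have h2 : CH q X (fun ω => (V ω, (X₀ ω, (N ω, L ω)))) ≤
      CH q X (fun ω => (X₀ ω, (V ω, L ω))) := by
    refine CH_mono_cond h0 fun ω ω' _ _ e => ?_
    simp only [Prod.mk.injEq] at e ⊢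
    exact ⟨e.2.1, e.1, e.2.2.2⟩
  have h3 := CH_le_add h0 V (fun ω => (X ω, X₀ ω)) (fun ω => (Z ω, (N ω, L ω)))
  have h4 := CH_chain h0 X X₀ (fun ω => (Z ω, (N ω, L ω)))
  have h5 : CH q X (fun ω => (X₀ ω, (Z ω, (N ω, L ω)))) ≤
      CH q X (fun ω => (Z ω, (N ω, L ω))) :=
    CH_mono_cond h0 fun ω ω' _ _ e => (Prod.ext_iff.mp e).2
  have h6 : CH q V (fun ω => ((X ω, X₀ ω), (Z ω, (N ω, L ω)))) ≤
      CH q V (fun ω => (X ω, (X₀ ω, (N ω, L ω)))) := by
    refine CH_mono_cond h0 fun ω ω' _ _ e => ?_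
    simp only [Prod.mk.injEq] at e ⊢
    exact ⟨e.1.1, e.1.2, e.2.2⟩
  linarith

/-- **A row after a known shift.** -/
theorem shift_row {Ω C : Type} [Fintype Ω] {q : Ω → ℝ} (hq : IsLaw q) (n n' : Ω → ℝ)
    (g : C → ℝ) (Y : Ω → C) {a b : ℝ} (ha : 0 ≤ a) (hab : a ≤ b)
    (h : ∀ ω, 0 < q ω → b * |n' ω - (n ω - g (Y ω))| ≤ 1) :
    CH q (fun ω => ⌊b * n' ω⌋) (fun ω => (⌊a * n' ω⌋, Y ω)) ≤
      CH q (fun ω => ⌊b * n ω⌋) (fun ω => (⌊a * n ω⌋, Y ω)) + 2 * Real.log 9 := by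
  have h0 := hq.nonneg
  have hb : 0 ≤ b := ha.trans hab
  -- digits of one height from those of the other
  have key : ∀ (c : ℝ), 0 ≤ c → c ≤ b → ∀ ω ω', 0 < q ω → 0 < q ω' → Y ω = Y ω' →
      |c * (n ω - n ω') - c * (n' ω - n' ω')| ≤ 2 := by
    intro c hc hcb ω ω' hω hω' e
    have h1 := h ω hω
    have h2 := h ω' hω'
    rw [e] at h1
    have h3 : |c * (n' ω - (n ω - g (Y ω')))| ≤ 1 := by
      rw [abs_mul, abs_of_nonneg hc]
      exact (mul_le_mul_of_nonneg_right hcb (abs_nonneg _)).trans h1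
    have h4 : |c * (n' ω' - (n ω' - g (Y ω')))| ≤ 1 := by
      rw [abs_mul, abs_of_nonneg hc]
      exact (mul_le_mul_of_nonneg_right hcb (abs_nonneg _)).trans h2
    rw [abs_le] at h3 h4
    rw [abs_le]
    constructor <;> linarith [h3.1, h3.2, h4.1, h4.2]
  have e9 : (9 : ℝ) = 2 * ((4 : ℕ) : ℝ) + 1 := by norm_num
  have fl : ∀ (c x y d : ℝ), |c * x - c * y| ≤ d → d ≤ 3 → |⌊c * x⌋ - ⌊c * y⌋| ≤ (4 : ℕ) := by
    intro c x y d h1 h2
    have h3 := fl_sub (a := c * x) (b := c * y) d h1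
    have h4 : |((⌊c * x⌋ - ⌊c * y⌋ : ℤ) : ℝ)| ≤ 4 := by
      push_cast
      linarith
    exact_mod_cast h4
  have s1 := CH_le_add h0 (fun ω => ⌊b * n' ω⌋) (fun ω => ⌊b * n ω⌋)
    (fun ω => (⌊a * n' ω⌋, Y ω))
  have s2 : CH q (fun ω => ⌊b * n' ω⌋) (fun ω => (⌊b * n ω⌋, (⌊a * n' ω⌋, Y ω))) ≤
      Real.log 9 := by
    rw [e9]
    refine CH_pair hq _ _ fun ω ω' hω hω' e => ?_
    simp only [Prod.mk.injEq] at e
    refine fl b _ _ 3 ?_ le_rfl
    have k1 := key b hb le_rfl ω ω' hω hω' e.2.2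
    have k2 : |b * n ω - b * n ω'| ≤ 1 := by
      have c1 := Int.floor_le (b * n ω)
      have c2 := Int.lt_floor_add_one (b * n ω)
      have c3 := Int.floor_le (b * n ω')
      have c4 := Int.lt_floor_add_one (b * n ω')
      rw [e.1] at c1 c2
      rw [abs_le]
      constructor <;> linarith
    rw [abs_le] at k1 k2 ⊢
    constructor <;> nlinarith [k1.1, k1.2, k2.1, k2.2]
  have s3 := CH_le_add h0 (fun ω => ⌊b * n ω⌋) (fun ω => ⌊a * n ω⌋)
    (fun ω => (⌊a * n' ω⌋, Y ω))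
  have s4 : CH q (fun ω => ⌊a * n ω⌋) (fun ω => (⌊a * n' ω⌋, Y ω)) ≤ Real.log 9 := by
    rw [e9]
    refine CH_pair hq _ _ fun ω ω' hω hω' e => ?_
    simp only [Prod.mk.injEq] at e
    refine fl a _ _ 3 ?_ le_rfl
    have k1 := key a ha hab ω ω' hω hω' e.2
    have k2 : |a * n' ω - a * n' ω'| ≤ 1 := by
      have c1 := Int.floor_le (a * n' ω)
      have c2 := Int.lt_floor_add_one (a * n' ω)
      have c3 := Int.floor_le (a * n' ω')
      have c4 := Int.lt_floor_add_one (a * n' ω')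
      rw [e.1] at c1 c2
      rw [abs_le]
      constructor <;> linarith
    rw [abs_le] at k1 k2 ⊢
    constructor <;> nlinarith [k1.1, k1.2, k2.1, k2.2]
  have s5 : CH q (fun ω => ⌊b * n ω⌋) (fun ω => (⌊a * n ω⌋, (⌊a * n' ω⌋, Y ω))) ≤
      CH q (fun ω => ⌊b * n ω⌋) (fun ω => (⌊a * n ω⌋, Y ω)) := by
    refine CH_mono_cond h0 fun ω ω' _ _ e => ?_
    simp only [Prod.mk.injEq] at e ⊢
    exact ⟨e.1, e.2.2⟩
  linarith

/-- **To the natural digits of the own window the jets are few bits**, with the exponents. -/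
theorem f0_jetq {m : ℕ} {S : PCl m} {C₀ : ℝ} (htm : TmC S C₀) {I : Finset (Fin m)} {k : Fin m}
    {j : ℕ} {w p N : ℝ} (hw0 : 0 ≤ w) (hw1 : w < 1) (hN : N + j * w ≤ p)
    {α β γ : ∀ J : ℕ, Fam m J → Type} (f : ∀ (J : ℕ) (F : Fam m J), F.Ω → α J F)
    (g : ∀ (J : ℕ) (F : Fam m J), F.Ω → β J F) (y : ∀ (J : ℕ) (F : Fam m J), F.Ω → γ J F)
    {h : ℝ} (hh : 0 < h) : F0 S f g y (qJet m I k j w p N) (h / 8) h := by
  classical
  intro K
  have hl2 : 0 < Real.log 2 := Real.log_pos one_lt_two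
  have hl21 : Real.log 2 ≤ 1 := by
    have := Real.log_two_lt_d9
    linarith
  obtain ⟨η, hη⟩ : ∃ η : ℝ, η = h / (2 * ((K : ℝ) + 1)) := ⟨_, rfl⟩
  have hη0 : 0 < η := by
    rw [hη]
    positivity
  have hηK : η * K ≤ h / 2 := by
    rw [hη, div_mul_eq_mul_div, div_le_iff₀ (by positivity)]
    have : (0 : ℝ) ≤ K := Nat.cast_nonneg K
    nlinarith
  obtain ⟨J₃, hJ₃⟩ := exists_nat_ge ((Real.log 2 + Real.log 7) / (h / 4))
  refine Bas.mono J₃ ((own_cls htm I k j K hw0 hw1 hη0 (show 0 < h / 8 by linarith)).and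
    (Pool.GRW.tmc_bas htm one_pos)) ?_
  rintro J hJ F A ⟨hbad, hA, -⟩ u ⟨hc, V, z, z', G, hlb, hu⟩
  have hJ0 : (0 : ℝ) ≤ J := Nat.cast_nonneg J
  have hJ3 : (J₃ : ℝ) ≤ J := by exact_mod_cast hJ
  have hl7 : 0 < Real.log 7 := Real.log_pos (by norm_num)
  have f4 : Real.log 2 + Real.log 7 ≤ h / 4 * J := by
    have : (Real.log 2 + Real.log 7) / (h / 4) ≤ J := hJ₃.trans hJ3
    rw [div_le_iff₀ (by positivity)] at this
    linarith
  refine ⟨Unit, fun _ => (), ⟨⟨fun _ => (), fun _ _ => rfl⟩, fun _ => (), fun _ _ => rfl⟩, ?_⟩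
  obtain ⟨D, hD⟩ : ∃ D : ℝ, D = 2 * 2 ^ (h / 4 * J) + 1 := ⟨_, rfl⟩
  have hp1 : (1 : ℝ) ≤ 2 ^ (h / 4 * J) := by
    rw [← exp_p2]
    exact Real.one_le_exp (by positivity)
  have key := CH_near (isLaw_cond F.isLaw hA) u (fun ω => ((), y J F ω)) (fun _ => 0)
    (fun ω => ¬ |ojet F k j (G (z' (slam F ⌊w * J⌋₊ ω))) ω| ≤
      2 ^ ((h / 8 + j * w) * J) * (1 / 2 ^ ⌊(p - h / 8) * J⌋₊)) (M := K * J) (D := D)
    (hbad _ V z z' G hlb) (by positivity) (by rw [hD]; linarith)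
    (le_trans (by exact_mod_cast cnt_cond_le F.isLaw u A) hc) (by
      intro ω hω hgood
      rw [not_not] at hgood
      rw [hu ω (of_cond_pos hω)]
      obtain ⟨o, ho⟩ : ∃ o, o = ojet F k j (G (z' (slam F ⌊w * J⌋₊ ω))) ω := ⟨_, rfl⟩
      rw [← ho] at hgood ⊢
      have h3 : |(2 : ℝ) ^ (N * J) * o| ≤ 2 * 2 ^ (h / 4 * J) := by
        rw [abs_mul, abs_of_pos (by positivity)]
        have a2 := ip2_le ((p - h / 8) * J)
        have b3 : (0 : ℝ) < 2 ^ (N * J) := Real.rpow_pos_of_pos (by norm_num) _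
        have b4 : (0 : ℝ) < 2 ^ ((h / 8 + j * w) * J) := Real.rpow_pos_of_pos (by norm_num) _
        calc (2 : ℝ) ^ (N * J) * |o| ≤ 2 ^ (N * J) * (2 ^ ((h / 8 + j * w) * J) *
              (2 * 2 ^ (-((p - h / 8) * J)))) := by
              refine mul_le_mul_of_nonneg_left (hgood.trans ?_) b3.le
              exact mul_le_mul_of_nonneg_left a2 b4.le
          _ = 2 * (2 ^ (N * J) * 2 ^ ((h / 8 + j * w) * J) * 2 ^ (-((p - h / 8) * J))) := by ring
          _ = 2 * 2 ^ (N * J + (h / 8 + j * w) * J + -((p - h / 8) * J)) := by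
              rw [Real.rpow_add (by norm_num), Real.rpow_add (by norm_num)]
          _ ≤ 2 * 2 ^ (h / 4 * J) := by
              refine mul_le_mul_of_nonneg_left ?_ (by norm_num)
              refine Real.rpow_le_rpow_of_exponent_le (by norm_num) ?_
              have e1 : N * J + (h / 8 + j * w) * J + -((p - h / 8) * J) =
                  (N + j * w - p + h / 4) * J := by ring
              rw [e1]
              exact mul_le_mul_of_nonneg_right (by linarith) hJ0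
      have h4 := Int.floor_le ((2 : ℝ) ^ (N * J) * o)
      have h5 := Int.lt_floor_add_one ((2 : ℝ) ^ (N * J) * o)
      have h6 := abs_le.1 h3
      rw [hD, sub_zero, abs_le]
      constructor <;> linarith [h6.1, h6.2])
  refine key.trans ?_
  have h7 : Real.log (2 * D + 1) ≤ Real.log 7 + h / 4 * J := by
    have e1 : 2 * D + 1 ≤ 7 * 2 ^ (h / 4 * J) := by
      rw [hD]
      linarith
    have e2 := Real.log_le_log (by rw [hD]; positivity) e1
    refine e2.trans ?_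
    rw [Real.log_mul (by norm_num) (by positivity), ← exp_p2, Real.log_exp]
    have : h / 4 * J * Real.log 2 ≤ h / 4 * J * 1 :=
      mul_le_mul_of_nonneg_left hl21 (by positivity)
    linarith
  have h8 : η * (K * J) ≤ h / 2 * J := by
    calc η * (K * J) = η * K * J := by ring
      _ ≤ h / 2 * J := mul_le_mul_of_nonneg_right hηK hJ0
  linarith

/-- The same, relative to a quantity. -/
theorem f1_jetq {m : ℕ} {S : PCl m} {C₀ : ℝ} (htm : TmC S C₀) {I : Finset (Fin m)} {k : Fin m}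
    {j : ℕ} {w p N : ℝ} (hw0 : 0 ≤ w) (hw1 : w < 1) (hN : N + j * w ≤ p) {U : Type} (Q : Qt m U)
    {α β γ : ∀ J : ℕ, Fam m J → Type} (f : ∀ (J : ℕ) (F : Fam m J), F.Ω → α J F)
    (g : ∀ (J : ℕ) (F : Fam m J), F.Ω → β J F) (y : ∀ (J : ℕ) (F : Fam m J), F.Ω → γ J F)
    {h e : ℝ} (hh : 0 < h) (he : e ≤ h / 8) : F1 S f g y Q (qJet m I k j w p N) e h :=
  F1.of0 htm ((f0_jetq htm hw0 hw1 hN f g y hh).mono he le_rfl)

end Pool.ALT
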