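import Pool.Agent.H91.LA.Num

/-!
# The number of a family of competitors

A competitor on an event is a pair `(X, Y)`; the number of a family of competitors is the least
entropy of `X` given `Y` over the competitors. `ext_cp`: the numbers of countably many families
exist in a subclass. `CNum.low`: every competitor on every event has at least the entropy of the
number; `CNum.at'`: there is a competitor with at most `exp ((θ + h) J)` values of `X` in every cell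
of `Y`.
-/

set_option autoImplicit false

namespace Pool.ALT

open Finset Real
open Pool.Agent.H49.Ent Pool.Agent.H32.Dense Pool.STK Pool.KA Pool.KSAT Pool.K2S Pool.PB Pool.S6C
  Pool.GEN Pool.RCD Pool.LA91

variable {m : ℕ}

/-- **A family of competitors.** -/
structure Cp (m : ℕ) : Type 1 where
  /-- the pair `(X, Y)` is a competitor on the event -/
  P : ∀ (J : ℕ) (F : Fam m J), (F.Ω → Prop) → (F.Ω → ℤ) → ∀ C : Type, (F.Ω → C) → Prop
  sub : ∀ {J : ℕ} {F : Fam m J} {A B : F.Ω → Prop} {X : F.Ω → ℤ} {C : Type} {Y : F.Ω → C},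
    Sub B A → P J F A X C Y → P J F B X C Y

/-- The property: a competitor with at most `exp (-(s J))` values in every cell. -/
def qCp (Q : Cp m) (s : ℝ) : Stat m := fun J F A =>
  ∃ (X : F.Ω → ℤ) (C : Type) (Y : F.Ω → C), Q.P J F A X C Y ∧
    ∀ v, (cnt F.p X (fun ω => A ω ∧ Y ω = v) : ℝ) ≤ Real.exp (-(s * J))

/-- The bound for the number of values, on an event. -/
def CBd {J : ℕ} (F : Fam m J) (A : F.Ω → Prop) (X : F.Ω → ℤ) {C : Type} (Y : F.Ω → C)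
    (b : ℝ) : Prop := ∀ v, (cnt F.p X (fun ω => A ω ∧ Y ω = v) : ℝ) ≤ Real.exp b

theorem CBd.sub {J : ℕ} {F : Fam m J} {A B : F.Ω → Prop} {X : F.Ω → ℤ} {C : Type} {Y : F.Ω → C}
    {b : ℝ} (h : CBd F A X Y b) (hB : Sub B A) : CBd F B X Y b := fun v => by
  refine le_trans ?_ (h v)
  have h3 : Sub (fun ω => B ω ∧ Y ω = v) (fun ω => A ω ∧ Y ω = v) :=
    fun ω hω => ⟨hB ω hω.1, hω.2⟩
  exact_mod_cast cnt_mono F.p X h3

theorem CBd.ent {J : ℕ} {F : Fam m J} {A : F.Ω → Prop} {X : F.Ω → ℤ} {C : Type} {Y : F.Ω → C}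
    {b : ℝ} (h : CBd F A X Y b) (hA : 0 < Pe F.p A) :
    CH (Pool.Agent.H49.Ent.cond F.p A True) X Y ≤ b := by
  have h2 := CH_le_cells F.isLaw X Y hA h
  rwa [Real.log_exp] at h2

theorem qCp.hered (Q : Cp m) (s : ℝ) (J : ℕ) (F : Fam m J) : Hered (qCp Q s J F) := by
  rintro A B hB ⟨X, C, Y, h1, h2⟩
  exact ⟨X, C, Y, Q.sub hB h1, CBd.sub h2 hB⟩

theorem qCp.anti (Q : Cp m) (s s' : ℝ) (J : ℕ) (F : Fam m J) (A : F.Ω → Prop)
    (h : s' ≤ s) (hA : qCp Q s J F A) : qCp Q s' J F A := by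
  obtain ⟨X, C, Y, h1, h2⟩ := hA
  refine ⟨X, C, Y, h1, fun v => (h2 v).trans (Real.exp_le_exp.2 ?_)⟩
  have := mul_le_mul_of_nonneg_right h (Nat.cast_nonneg (α := ℝ) J)
  linarith

theorem qCp.up (Q : Cp m) {J : ℕ} (hJ : 1 ≤ J) {F : Fam m J}
    {A : F.Ω → Prop} (hA : 0 < Pe F.p A) : ¬ qCp Q 1 J F A := by
  rintro ⟨X, C, Y, -, h2⟩
  have h0 : cset F.p X A ≠ ∅ := by
    intro h
    have h1 := one_le_cnt F.isLaw X hA
    rw [← cset_card, h, card_empty] at h1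
    omega
  obtain ⟨x, hx⟩ := Finset.nonempty_iff_ne_empty.2 h0
  obtain ⟨ω, h1, h3, -⟩ := of_mem_cset hx
  have h4 := h2 (Y ω)
  have h5 : (1 : ℝ) ≤ cnt F.p X (fun ω' => A ω' ∧ Y ω' = Y ω) := by
    rw [← cset_card]
    have : 0 < (cset F.p X fun ω' => A ω' ∧ Y ω' = Y ω).card :=
      card_pos.2 ⟨X ω, mem_cset X h1 ⟨h3, rfl⟩⟩
    exact_mod_cast this
  have h6 : Real.exp (-(1 * (J : ℝ))) < 1 := by
    rw [Real.exp_lt_one_iff]
    have : (1 : ℝ) ≤ J := by exact_mod_cast hJ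
    linarith
  linarith

/-- **The number of a family of competitors.** -/
structure CNum (Q : Cp m) (S : PCl m) (θ : ℝ) : Prop where
  at' : ∀ h : ℝ, 0 < h → Bas S (fun J F A => ∃ (X : F.Ω → ℤ) (C : Type) (Y : F.Ω → C),
    Q.P J F A X C Y ∧ CBd F A X Y ((θ + h) * J))
  no : ∀ h : ℝ, 0 < h → Bas S (fun J F A => ¬ qCp Q (-θ + h) J F A)

theorem CNum.subc {S S' : PCl m} (hs : ∀ (τ : ℝ) (J : ℕ) (F : Fam m J) (A : F.Ω → Prop),
    S'.St τ J F A → S.St τ J F A) {Q : Cp m} {θ : ℝ} (h : CNum Q S θ) : CNum Q S' θ :=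
  ⟨fun e he => (h.at' e he).sub hs, fun e he => (h.no e he).sub hs⟩

/-- **The numbers of countably many families of competitors exist in a subclass.** -/
theorem ext_cp {S : PCl m} (hS : S.Ne)
    (hpos : ∀ (τ : ℝ) (J : ℕ) (F : Fam m J) (A : F.Ω → Prop), S.St τ J F A → 0 < Pe F.p A)
    (Q : ℕ → Cp m) (M : ℕ → ℝ) (hM : ∀ i, Bas S (qCp (Q i) (-M i))) :
    ∃ S' : PCl m, S'.Ne ∧
      (∀ (τ : ℝ) (J : ℕ) (F : Fam m J) (A : F.Ω → Prop), S'.St τ J F A → S.St τ J F A) ∧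
      ∀ i, ∃ θ : ℝ, CNum (Q i) S' θ := by
  obtain ⟨S', h1, h2, -, h4⟩ := hS.diag
    (fun n S₁ P => ∃ s : ℝ, PNum (S₁.sl P) (qCp (Q n)) s ∧
      P.P = (fun τ J F A => qCp (Q n) (s - τ) J F A ∨ s - τ ≤ -M n)) (by
    intro n S₁ hle hn
    obtain ⟨s, -, -, P, hP, hs, hPe⟩ := hn.num (qCp (Q n))
      (fun s J F => qCp.hered _ s J F)
      (fun s s' J F A h hA => qCp.anti _ s s' J F A h hA)
      (a := -M n) (b := 1) ((hM n).clp.le hle)
      ((Clp.of one_pos 1 fun J hJ F A hA => qCp.up _ hJ (hpos 1 J F A hA) :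
        Clp S (fun J F A => ¬ qCp (Q n) 1 J F A)).le hle)
    exact ⟨P, ⟨s, hs, hPe⟩, hP⟩)
  refine ⟨S', h1, h2, fun i => ?_⟩
  obtain ⟨S₁, P, ⟨s, hs, hPe⟩, -, -, hle, hall⟩ := h4 i
  refine ⟨-s, ⟨fun h hh => ?_, fun h hh => ?_⟩⟩
  · obtain ⟨τ₀, hτ₀, J₀, hb⟩ := (hM i).sub h2
    have hi : (0 : ℝ) < (i : ℝ) + 1 := by positivity
    have key : Bas S' (fun J F A => qCp (Q i) (s - h) J F A) := by
      refine ⟨min τ₀ (min h (1 / ((i : ℝ) + 1))), lt_min hτ₀ (lt_min hh (by positivity)), J₀,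
        fun J hJ F A hA => ?_⟩
      have k1 : min τ₀ (min h (1 / ((i : ℝ) + 1))) ≤ h := (min_le_right _ _).trans (min_le_left _ _)
      have k2 : min τ₀ (min h (1 / ((i : ℝ) + 1))) ≤ 1 / ((i : ℝ) + 1) :=
        (min_le_right _ _).trans (min_le_right _ _)
      have k3 : ((i : ℝ) + 1) * min τ₀ (min h (1 / ((i : ℝ) + 1))) ≤ 1 := by
        rw [le_div_iff₀ hi] at k2
        linarith
      have k4 := (hall _ J F A k3 hA).2
      rw [hPe] at k4
      rcases k4 with k4 | k4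
      · exact qCp.anti _ _ _ J F A (by linarith) k4
      · exact qCp.anti _ _ _ J F A (by linarith)
          (hb J hJ F A (S'.mono (min_le_left _ _) hA))
    refine Bas.mono 0 key ?_
    rintro J - F A ⟨X, C, Y, a1, a2⟩
    refine ⟨X, C, Y, a1, fun v => (a2 v).trans (le_of_eq ?_)⟩
    congr 1
    ring
  · have := Bas.neg (fun J F => qCp.hered (Q i) (s + h) J F)
      ((hs.le hle).2 h hh)
    have e : -(-s) + h = s + h := by ring
    rw [e]
    exact this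

/-- **Every competitor has at least the entropy of the number.** -/
theorem CNum.low {S : PCl m} (hpos : ∀ (τ : ℝ) (J : ℕ) (F : Fam m J) (A : F.Ω → Prop),
      S.St τ J F A → 0 < Pe F.p A) {Q : Cp m} {θ : ℝ} (hθ : CNum Q S θ) (h : ℝ) (hh : 0 < h) :
    Bas S (fun J F A => ∀ (X : F.Ω → ℤ) (C : Type) (Y : F.Ω → C), Q.P J F A X C Y →
      (θ - h) * J ≤ CH (Pool.Agent.H49.Ent.cond F.p A True) X Y) := by
  obtain ⟨c, hc, J₂, hn⟩ := hθ.no (h / 2) (half_pos hh)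
  obtain ⟨κ, hκe⟩ : ∃ κ, κ = c / 2 := ⟨_, rfl⟩
  have hκ : 0 < κ := by rw [hκe]; linarith
  obtain ⟨C, hC⟩ : ∃ C, C = max 1 (2 * |θ| / h) := ⟨_, rfl⟩
  have hC1 : 1 ≤ C := by rw [hC]; exact le_max_left _ _
  have hC2 : 2 * |θ| / h ≤ C := by rw [hC]; exact le_max_right _ _
  obtain ⟨J₁, hJ₁⟩ := exp_small' hκ hC1
  refine ⟨κ, hκ, max J₁ J₂, fun J hJ F A hSt X CC Y hXY => ?_⟩
  have hA := hpos κ J F A hSt
  have hJ0 : (0 : ℝ) ≤ J := Nat.cast_nonneg J
  have hcl := isLaw_cond F.isLaw hA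
  by_cases hneg : θ - h / 2 ≤ 0
  · refine le_trans ?_ (CH_nonneg hcl.nonneg _ _)
    exact mul_nonpos_of_nonpos_of_nonneg (by linarith) hJ0
  push Not at hneg
  obtain ⟨M, hM⟩ : ∃ M, M = Real.exp (-((-θ + h / 2) * J)) := ⟨_, rfl⟩
  have hM1 : 1 ≤ M := by
    rw [hM, Real.one_le_exp_iff]
    have : 0 ≤ (θ - h / 2) * J := mul_nonneg hneg.le hJ0
    linarith
  have key := CH_ge_cells F.isLaw X Y hA (κ := κ * J) hM1 (by
    intro B hB hP
    have hSB : S.St c J F B := S.mono (by linarith) (S.res hκ.le hSt hB hP)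
    have h3 := hn J ((le_max_right _ _).trans hJ) F B hSB
    by_contra hcon
    push Not at hcon
    refine h3 ⟨X, CC, Y, Q.sub hB hXY, fun v => ?_⟩
    rw [← hM]
    exact hcon v)
  refine le_trans ?_ key
  have hlM : Real.log M = (θ - h / 2) * J := by
    rw [hM, Real.log_exp]
    ring
  rw [hlM]
  have e1 := hJ₁ J ((le_max_left _ _).trans hJ)
  have hC0 : 0 < C := by linarith
  have e2 : Real.exp (-(κ * J)) * ((θ - h / 2) * J) ≤ 1 / C * ((θ - h / 2) * J) :=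
    mul_le_mul_of_nonneg_right e1 (mul_nonneg hneg.le hJ0)
  have e3 : 1 / C * ((θ - h / 2) * J) ≤ h / 2 * J := by
    have a1 : θ - h / 2 ≤ |θ| := by
      have := le_abs_self θ
      linarith
    have a2 : |θ| ≤ h / 2 * C := by
      rw [div_le_iff₀ hh] at hC2
      linarith
    have a3 : 1 / C * (θ - h / 2) ≤ h / 2 := by
      rw [one_div, inv_mul_le_iff₀ hC0]
      linarith
    calc 1 / C * ((θ - h / 2) * J) = 1 / C * (θ - h / 2) * J := by ring
      _ ≤ h / 2 * J := mul_le_mul_of_nonneg_right a3 hJ0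
  nlinarith

end Pool.ALT
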