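import Pool.Agent.H60.ALT.Nzp

/-!
# Naturalization of a blind label, in a class

`nz_val`: at a sample the label plus the error over the chart is natural, if the slopes agree on the
segment to the chart. `nz_cls`: in a class, off a small event.
-/

set_option autoImplicit false

namespace Pool.ALT

open Finset Real MvPolynomial
open Pool.Agent.H49.Ent Pool.Agent.H32.Dense Pool.STK Pool.KA Pool.KSAT Pool.K2S Pool.PB Pool.S6C
  Pool.GEN Pool.RCD Pool.LA91 Pool.OWN68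
open Pool.UNJ (ceI)
open Pool.GRW (xr xr_near Cm one_le_Cm)
open Pool.BFL (Pb)
open Pool.GRD (LbP)
open Pool.LIV (Pb_mono25 Pb_or25)

variable {m : ℕ}

/-- A polynomial on a line in one direction. -/
theorem upd_poly (D : MvPolynomial (Option (Fin m)) ℝ) (b : Option (Fin m) → ℝ)
    (u : Option (Fin m)) : ∃ f : Polynomial ℝ, (∀ t, f.eval t = eval (Function.update b u t) D) ∧
      ∀ t, f.derivative.eval t = eval (Function.update b u t) (pderiv u D) := by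
  classical
  obtain ⟨γ, hγ⟩ : ∃ γ : Option (Fin m) → Polynomial ℝ, γ = fun o =>
    if o = u then Polynomial.X else Polynomial.C (b o) := ⟨_, rfl⟩
  have hγe : ∀ t, (fun i => (γ i).eval t) = Function.update b u t := by
    intro t
    funext i
    rw [hγ]
    by_cases hi : i = u
    · subst hi
      simp
    · rw [Function.update_of_ne hi]
      simp only [if_neg hi, Polynomial.eval_C]
  refine ⟨aeval γ D, fun t => ?_, fun t => ?_⟩
  · rw [Pool.KBX.eval_aeval_poly, hγe]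
  · rw [Pool.GEN.der_aevalσ D γ, Polynomial.eval_finsetSum, Finset.sum_eq_single u]
    · rw [Polynomial.eval_mul, Pool.KBX.eval_aeval_poly, hγe]
      have e1 : γ u = Polynomial.X := by rw [hγ]; simp
      rw [e1, Polynomial.derivative_X, Polynomial.eval_one, mul_one]
    · intro o _ ho
      rw [Polynomial.eval_mul]
      have e1 : Polynomial.derivative (γ o) = 0 := by
        rw [hγ]
        simp only [if_neg ho, Polynomial.derivative_C]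
      rw [e1, Polynomial.eval_zero, mul_zero]
    · intro h
      exact absurd (Finset.mem_univ _) h

/-- The mean value theorem in one direction. -/
theorem upd_mv (D : MvPolynomial (Option (Fin m)) ℝ) (b : Option (Fin m) → ℝ)
    (u : Option (Fin m)) {y y' h M : ℝ} (hM : ∀ t : ℝ, |t - h| ≤ M →
      |eval (Function.update b u t) (pderiv u D)| ≤ y') (h1 : |y - h| ≤ M) (hy' : 0 ≤ y') :
    |eval (Function.update b u y) D - eval (Function.update b u h) D| ≤ y' * |y - h| := by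
  obtain ⟨f, f1, f2⟩ := upd_poly D b u
  rw [← f1, ← f1]
  have hM0 : 0 ≤ M := (abs_nonneg _).trans h1
  have hmv : ∀ y₁ y₂ : ℝ, |y₁ - h| ≤ M → |y₂ - h| ≤ M → y₁ < y₂ →
      |f.eval y₂ - f.eval y₁| ≤ y' * |y₂ - y₁| := by
    intro y₁ y₂ k1 k2 h12
    obtain ⟨t, ht, ht'⟩ := exists_deriv_eq_slope (fun y => f.eval y) h12
      f.continuous.continuousOn f.differentiable.differentiableOn
    rw [Polynomial.deriv] at ht'
    have e3 : f.eval y₂ - f.eval y₁ = (Polynomial.derivative f).eval t * (y₂ - y₁) := by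
      rw [ht']
      have : y₂ - y₁ ≠ 0 := by linarith
      field_simp
    rw [e3, abs_mul, f2]
    refine mul_le_mul_of_nonneg_right (hM t ?_) (abs_nonneg _)
    rw [abs_le] at k1 k2 ⊢
    constructor <;> linarith [k1.1, k1.2, k2.1, k2.2, ht.1, ht.2]
  rcases lt_trichotomy y h with hlt | heq | hgt
  · have := hmv y h h1 (by rw [sub_self, abs_zero]; exact hM0) hlt
    rwa [abs_sub_comm, abs_sub_comm h y] at this
  · rw [heq, sub_self, sub_self, abs_zero, mul_zero]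
  · exact hmv h y (by rw [sub_self, abs_zero]; exact hM0) h1 hgt

/-- **The naturalized label at a sample.** -/
theorem nz_val {J : ℕ} {F : Fam m J} {ω : F.Ω} {u κ : Fin m}
    {g g₁ h : MvPolynomial (Option (Fin m)) ℝ} {ε₁ ε₂ M₁ : ℝ} (hM₁ : 0 ≤ M₁)
    (hp₁ : |F.x ω κ - eval (bt F ω) g₁| ≤ ε₁) (hp₂ : |F.x ω u - eval (bt F ω) h| ≤ ε₂)
    (hseg : ∀ y : ℝ, |y - eval (bt F ω) h| ≤ ε₂ →
      |eval (Function.update (bt F ω) (some u) y) (pderiv (some u) (g₁ - g))| ≤ M₁) :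
    |F.x ω κ - eval (bt F ω) (g + sbu u h (g₁ - g))| ≤ ε₁ + M₁ * ε₂ := by
  rw [map_add, sbu_eval]
  have e0 : Function.update (bt F ω) (some u) (F.x ω u) = bt F ω := Function.update_eq_self _ _
  have k1 := upd_mv (g₁ - g) (bt F ω) (some u) (y := F.x ω u) (h := eval (bt F ω) h) hseg hp₂ hM₁
  rw [e0] at k1
  have e1 : F.x ω κ - (eval (bt F ω) g +
      eval (Function.update (bt F ω) (some u) (eval (bt F ω) h)) (g₁ - g)) =
      (F.x ω κ - eval (bt F ω) g₁) + (eval (bt F ω) (g₁ - g) -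
        eval (Function.update (bt F ω) (some u) (eval (bt F ω) h)) (g₁ - g)) := by
    rw [map_sub (eval (bt F ω))]
    ring
  rw [e1]
  refine (abs_add_le _ _).trans ?_
  have := k1.trans (mul_le_mul_of_nonneg_left hp₂ hM₁)
  linarith

/-- **A closed polynomial over the base and one coordinate which is small at the samples is small
on the natural box**, in a class. The loss depends on its degree only. -/
theorem box_cls (r₀ K : ℕ) : ∃ C : ℝ, 1 ≤ C ∧ ∀ {m : ℕ} {S : PCl m} {C₀ : ℝ}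
    (_ : TmC S C₀) {c : ℕ → Fin m} (_ : Set.InjOn c (Set.Iio (r₀ + 1))) {Ku : ℕ}
    {v u₀ u₂ e₂ p₂ : ℝ} {s : ℕ → ℝ} (_ : FulC S c r₀ (r₀ + 1) v s)
    (_ : Ful S ((range r₀).image c) v u₀) (_ : 0 ≤ v) (_ : v ≤ u₀) (_ : u₂ ≤ 1) (_ : 0 ≤ e₂)
    (_ : 0 ≤ p₂) (_ : p₂ ≤ s r₀) (ε : ℝ), 0 < ε → C * (s r₀ - p₂) ≤ ε → u₀ + ε < 1 →
    e₂ + p₂ + ε < 1 →
    Bas S (fun J F A => ∀ (V : Type) (z : PtT F → V) (z' : LnT F → V)
      (D : V → MvPolynomial (Option (Fin m)) ℝ), (∀ y, (D y).totalDegree ≤ K) →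
      (∀ y, DpI ((range (r₀ + 1)).image c) (D y)) →
      (∀ ω, A ω → z (ptr F J ω) = z' (slam F ⌊v * J⌋₊ ω)) →
      ∀ (V₂ : Type) (z₂ : PtT F → V₂) (z₂' : LnT F → V₂)
      (H : V₂ → MvPolynomial (Option (Fin m)) ℝ),
      LbOK F ((range r₀).image c) (c r₀) Ku ⌊e₂ * J⌋₊ J ⌊v * J⌋₊ ⌊u₂ * J⌋₊ ⌊p₂ * J⌋₊ A z₂ z₂' H →
      ∀ τ : ℝ, 0 < τ → (∀ ω, A ω → |eval (xr F ω) (D (z' (slam F ⌊v * J⌋₊ ω)))| ≤ τ) →
      Pb (Pool.Agent.H49.Ent.cond F.p A True) (fun ω => ¬ ∀ x : Option (Fin m) → ℝ,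
        |x none - F.t ω| ≤ 1 / 2 ^ ⌊u₀ * J⌋₊ →
        (∀ l < r₀, |x (some (c l)) - xr F ω (some (c l))| ≤ 1 / 2 ^ ⌊u₀ * J⌋₊) →
        |x (some (c r₀)) - eval x (H (z₂' (slam F ⌊v * J⌋₊ ω)))| ≤ 2 / 2 ^ ⌊p₂ * J⌋₊ →
        |eval x (D (z' (slam F ⌊v * J⌋₊ ω)))| ≤ 2 ^ (ε * J) * τ) ≤ 1 / 2) := by
  classical
  have hl2 : 0 < Real.log 2 := Real.log_pos one_lt_two
  have hl1 : Real.log 2 ≤ 1 := by
    have := Real.log_two_lt_d9
    linarith
  obtain ⟨r, hr⟩ : ∃ r : ℕ, r = r₀ + 1 := ⟨_, rfl⟩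
  obtain ⟨Q, hQ⟩ : ∃ Q : ℝ, Q = 8 ^ r / (1 / 2) := ⟨_, rfl⟩
  have hQ1 : 1 ≤ Q := by
    rw [hQ, le_div_iff₀ (by norm_num)]
    have : (1 : ℝ) ≤ 8 ^ r := one_le_pow₀ (by norm_num)
    linarith
  have hQ0 : 0 < Q := by linarith
  have hCK : 1 ≤ Cm (r + 1) K := one_le_Cm _ _
  have hr0 : (0 : ℝ) ≤ r := Nat.cast_nonneg r
  obtain ⟨C, hC⟩ : ∃ C : ℝ, C = 2 * (Cm (r + 1) K * Q) * (r + 1) / Real.log 2 := ⟨_, rfl⟩
  have hCKQ : 1 ≤ Cm (r + 1) K * Q := one_le_mul_of_one_le_of_one_le hCK hQ1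
  refine ⟨C, ?_, ?_⟩
  · rw [hC, le_div_iff₀ hl2]
    nlinarith
  intro m S C₀ htm c hinj Ku v u₀ u₂ e₂ p₂ s hful hbase hv0 hvu hu₂ he₂ hp₂ hps ε hε hCε huε hroom
  obtain ⟨Mt, hMt⟩ : ∃ Mt, Mt = max K Ku := ⟨_, rfl⟩
  have hCT : 1 ≤ Cm (r + 1) Mt := one_le_Cm _ _
  have hCKT : Cm (r + 1) K ≤ Cm (r + 1) Mt := Pool.GRW.Cm_mono (by rw [hMt]; exact le_max_left _ _)
  have hCTQ : 1 ≤ Cm (r + 1) Mt * Q := one_le_mul_of_one_le_of_one_le hCT hQ1
  obtain ⟨γ₀, hγ₀⟩ : ∃ γ₀ : ℝ, γ₀ = ε * Real.log 2 / (r + 1) := ⟨_, rfl⟩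
  have hγ0 : 0 < γ₀ := by rw [hγ₀]; positivity
  have hγε : (r + 1) * γ₀ = ε * Real.log 2 := by
    rw [hγ₀]
    field_simp
  have hγε' : γ₀ ≤ ε * Real.log 2 / 2 := by
    rw [hγ₀]
    refine div_le_div_of_nonneg_left (by positivity) (by norm_num) ?_
    have : (1 : ℝ) ≤ r := by
      rw [hr]
      push_cast
      have : (0 : ℝ) ≤ r₀ := Nat.cast_nonneg _
      linarith
    linarith
  have hd0 : 0 ≤ s r₀ - p₂ := by linarith
  have hdγ : Cm (r + 1) K * Q * (s r₀ - p₂) ≤ γ₀ / 2 := by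
    rw [hC, div_mul_eq_mul_div, div_le_iff₀ hl2] at hCε
    rw [hγ₀, div_div, le_div_iff₀ (by positivity)]
    linarith
  obtain ⟨ρ, hρ⟩ : ∃ ρ : ℝ, ρ = γ₀ / (4 * (Cm (r + 1) Mt * Q)) := ⟨_, rfl⟩
  have hρ0 : 0 < ρ := by rw [hρ]; positivity
  have hρT : Cm (r + 1) Mt * Q * ρ = γ₀ / 4 := by
    rw [hρ]
    field_simp
  have hρK : Cm (r + 1) K * Q * ρ ≤ γ₀ / 4 := by
    rw [← hρT]
    exact mul_le_mul_of_nonneg_right (mul_le_mul_of_nonneg_right hCKT hQ0.le) hρ0.le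
  obtain ⟨χ, hχ⟩ : ∃ χ : ℝ, χ = 1 - (e₂ + p₂ + ε) := ⟨_, rfl⟩
  have hχ0 : 0 < χ := by linarith
  obtain ⟨J₁, hJ₁⟩ := exists_nat_ge ((m + 2) / χ)
  obtain ⟨J₂, hJ₂⟩ := exists_nat_ge (2 / ε)
  obtain ⟨J₃, hJ₃⟩ := exists_nat_ge (4 * (Cm (r + 1) Mt * Q) * (2 * r + 6) / γ₀)
  refine Bas.mono (J₁ + J₂ + J₃) ((hbase ρ hρ0).and ((hful ρ hρ0).and
    (Pool.GRW.TmC.wn htm u₀ ρ hρ0))) ?_
  rintro J hJ F A ⟨hbR, hfR, hA, htR⟩ V z z' D hDd hDp hcl V₂ z₂ z₂' H hH τ hτ hsm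
  have hJ0 : (0 : ℝ) ≤ J := Nat.cast_nonneg J
  have hJ' : (J₁ : ℝ) + J₂ + J₃ ≤ J := by exact_mod_cast hJ
  have hn1 : (0 : ℝ) ≤ J₁ := Nat.cast_nonneg _
  have hn2 : (0 : ℝ) ≤ J₂ := Nat.cast_nonneg _
  have hn3 : (0 : ℝ) ≤ J₃ := Nat.cast_nonneg _
  have k1 : (m : ℝ) + 2 ≤ χ * J := by
    have : (m + 2) / χ ≤ J := by linarith
    rw [div_le_iff₀ hχ0] at this
    linarith
  have k2 : 2 ≤ ε * J := by
    have : 2 / ε ≤ J := by linarith
    rw [div_le_iff₀ hε] at this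
    linarith
  have k3 : 4 * (Cm (r + 1) Mt * Q) * (2 * r + 6) ≤ γ₀ * J := by
    have : 4 * (Cm (r + 1) Mt * Q) * (2 * r + 6) / γ₀ ≤ J := by linarith
    rw [div_le_iff₀ hγ0] at this
    linarith
  have hq := isLaw_cond F.isLaw hA
  obtain ⟨L, hL⟩ : ∃ L, L = ⌊ε * (J : ℝ)⌋₊ := ⟨_, rfl⟩
  have hLle : (L : ℝ) ≤ ε * J := by
    rw [hL]
    exact Nat.floor_le (by positivity)
  have hLge : ε * J - 1 ≤ L := by
    rw [hL]
    have := Nat.lt_floor_add_one (ε * (J : ℝ))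
    linarith
  have hu00 : 0 ≤ u₀ := hv0.trans hvu
  have hu0f : ((⌊u₀ * J⌋₊ : ℕ) : ℝ) ≤ u₀ * J := Nat.floor_le (mul_nonneg hu00 hJ0)
  have hu0J : ⌊u₀ * J⌋₊ ≤ J := floor_le (by linarith) J
  have huL : ⌊u₀ * (J : ℝ)⌋₊ + L ≤ J := by
    have h1 : ((⌊u₀ * (J : ℝ)⌋₊ + L : ℕ) : ℝ) ≤ J := by
      push_cast
      nlinarith
    exact_mod_cast h1
  obtain ⟨θ, hθ⟩ : ∃ θ : ℝ, θ = ((s r₀ - p₂) + ρ) * J + 1 := ⟨_, rfl⟩
  have hlT : Cm (r + 1) Mt * (ρ * J + 2 * r + 1) * (8 ^ r / (1 / 2)) ≤ γ₀ * J := by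
    rw [← hQ]
    have h5 : Cm (r + 1) Mt * Q * ρ * J = γ₀ / 4 * J := by rw [hρT]
    have h6 : Cm (r + 1) Mt * Q * (2 * r + 1) ≤ Cm (r + 1) Mt * Q * (2 * r + 6) :=
      mul_le_mul_of_nonneg_left (by linarith) (by linarith)
    nlinarith
  have key := nbx_fam (r₀ := r₀) (r := r) (by omega) (F := F) (A := A) hq
    (fun ω hω => of_cond_pos hω) (c := c) (by rw [hr]; exact hinj) (K := fun _ => Ku)
    (e := fun _ => ⌊e₂ * (J : ℝ)⌋₊) (ρ := fun _ => ⌊u₂ * (J : ℝ)⌋₊)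
    (g := fun _ => ⌊p₂ * (J : ℝ)⌋₊) (M := fun _ => K)
    (w := ⌊v * (J : ℝ)⌋₊) (u := ⌊u₀ * (J : ℝ)⌋₊) (L := L) (KD := K) (Mt := Mt)
    (z := fun y => (z y, z₂ y)) (z' := fun y => (z' y, z₂' y))
    (G := fun y _ => H y.2) (D := fun y => D y.1) ?_ ?_ (fun y => hDd y.1) ?_
    (Nat.floor_le_floor (mul_le_mul_of_nonneg_right hvu hJ0)) huL ?_ ?_ (fun l => le_rfl) ?_
    (by rw [hMt]; exact le_max_left _ _)
    (θ := fun _ => θ) (fun l => by rw [hθ]; positivity) (θt := ρ * J) (θb := ρ * J) (by positivity)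
    (by positivity) (htR L huL) ?_ ?_ (τ := τ) (η := 1 / 2) (γ := γ₀ * J) (by norm_num)
    (by norm_num) hτ ?_ hlT hlT ?_ hsm
  · -- the end
    refine le_trans (Pb_mono25 hq.nonneg fun ω _ hn => ?_) key
    intro hall
    refine hn fun x h1 h2 h3 => ?_
    refine (hall x h1 h2 fun i hi0 hi => ?_).trans ?_
    · have : i = r₀ := by omega
      rw [this]
      exact h3
    · refine mul_le_mul_of_nonneg_right ?_ hτ.le
      rw [← exp_p2]
      refine Real.exp_le_exp.2 (le_of_eq ?_)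
      rw [← mul_assoc, hγε]
      ring
  · -- the labels
    intro i hi0 hi
    have : i = r₀ := by omega
    rw [this]
    refine ⟨fun y => hH.deg _, fun y => hH.dep _, fun ω hω => ?_, hH.pos, hH.vel, hH.lip⟩
    exact Prod.ext (hcl ω hω) (hH.cls ω hω)
  · intro i _ _
    exact floor_le hu₂ J
  · intro y b₁ b₂ hb hbb
    refine hDp y.1 b₁ b₂ hb fun i hi => ?_
    obtain ⟨l, hl, rfl⟩ := mem_image.1 hi
    exact hbb l (by rw [hr]; exact mem_range.1 hl)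
  · -- the room
    intro l _ _
    have h5 : (⌊e₂ * (J : ℝ)⌋₊ : ℝ) ≤ e₂ * J := Nat.floor_le (mul_nonneg he₂ hJ0)
    have h6 : (⌊p₂ * (J : ℝ)⌋₊ : ℝ) ≤ p₂ * J := Nat.floor_le (mul_nonneg hp₂ hJ0)
    have h7 : ((⌊p₂ * (J : ℝ)⌋₊ + ⌊e₂ * (J : ℝ)⌋₊ + m + 2 + L : ℕ) : ℝ) ≤ J := by
      push_cast
      nlinarith
    exact_mod_cast h7
  · intro l i hl0 hli hi
    omega
  · intro i _ _
    rw [hMt]
    exact le_max_right _ _
  · -- the base
    have h1 := hbR _ (fun y => (z y, z₂ y)) (fun y => (z' y, z₂' y)) (fun ω hω =>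
      Prod.ext (hcl ω hω) (hH.cls ω hω))
    rw [card_im hinj (by omega), Nat.cast_sub hu0J] at h1
    exact h1.trans (base_dig hq.nonneg (fun ω => (z' (slam F ⌊v * J⌋₊ ω),
      z₂' (slam F ⌊v * J⌋₊ ω))))
  · -- fullness
    intro l hl0 hl
    have : l = r₀ := by omega
    subst this
    have h1 := hfR _ (fun y => (z y, z₂ y)) (fun y => (z' y, z₂' y)) (fun ω hω =>
      Prod.ext (hcl ω hω) (hH.cls ω hω)) l le_rfl (by omega)
    refine le_trans ?_ h1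
    rw [hθ]
    have h2 : p₂ * (J : ℝ) < ⌊p₂ * (J : ℝ)⌋₊ + 1 := Nat.lt_floor_add_one _
    have h5 : ((J : ℝ) - ⌊p₂ * (J : ℝ)⌋₊) * Real.log 2 ≤
        (J - s l * J + (s l - p₂) * J + 1) * Real.log 2 :=
      mul_le_mul_of_nonneg_right (by linarith) hl2.le
    have h6 : ((s l - p₂) * J + 1) * Real.log 2 ≤ (s l - p₂) * J + 1 :=
      mul_le_of_le_one_right (by positivity) hl1
    have h7 : ρ * J * Real.log 2 ≤ ρ * J := mul_le_of_le_one_right (by positivity) hl1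
    nlinarith
  · -- the losses of the coordinate
    intro l _ _
    beta_reduce
    rw [hθ, ← hQ]
    have h7 := mul_le_mul_of_nonneg_right hdγ hJ0
    have h8 := mul_le_mul_of_nonneg_right hρK hJ0
    have h6 : Cm (r + 1) K * Q * 6 ≤ γ₀ * J / 4 := by
      have e1 := mul_le_mul_of_nonneg_right hCKT hQ0.le
      have e2 : Cm (r + 1) Mt * Q * 6 ≤ Cm (r + 1) Mt * Q * (2 * r + 6) :=
        mul_le_mul_of_nonneg_left (by linarith) (by linarith)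
      linarith
    nlinarith
  · have h4 : γ₀ * J ≤ ε * Real.log 2 / 2 * J := mul_le_mul_of_nonneg_right hγε' hJ0
    have h5 : (ε * J - 1) * Real.log 2 ≤ L * Real.log 2 := mul_le_mul_of_nonneg_right hLge hl2.le
    nlinarith

end Pool.ALT
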