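import Pool.Agent.H60.ALT.Nzq

/-!
# The own height over a natural label as a closed polynomial of the chain

`nzq_vad`: for a natural label `G` of the window `v` with a natural label of the window `a` over the
same label of the family, the own height over `G` is a polynomial of the chain, closed at the window
`a`, up to the precision at `a`.
-/

set_option autoImplicit false

namespace Pool.ALT

open Finset Real MvPolynomial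
open Pool.Agent.H49.Ent Pool.Agent.H32.Dense Pool.STK Pool.KA Pool.KSAT Pool.K2S Pool.PB Pool.S6C
  Pool.GEN Pool.RCD Pool.LA91 Pool.OWN68 Pool.PKG
open Pool.UNJ (ceI)
open Pool.GRD (LbP)

variable {m : ℕ}

/-- **The own height over a natural label is a polynomial of the chain closed at the window `a`**,
up to the precision at `a`. -/
theorem nzq_vad {Ψ : Fml m} {c : ℕ → Fin m} {r : ℕ} {κ : Fin m} {K K₁ Ku Kb : ℕ}
    {w v p₁ p₂ eN uN pN a pa₁ pa₂ ea ua pa : ℝ}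
    (hΨd : ∀ (J : ℕ) (F : Fam m J) (A : F.Ω → Prop) (V : Type) (z : PtT F → V) (z' : LnT F → V)
      (G : V → MvPolynomial (Option (Fin m)) ℝ), Ψ J F A V z z' G →
      (∀ y, (G y).totalDegree ≤ K) ∧ (∀ y, DpI ((range (r + 1)).image c) (G y)) ∧
      ∀ ω, A ω → z (ptr F J ω) = z' (slam F ⌊w * J⌋₊ ω))
    (hwv : w ≤ v) (hva : v ≤ a) (ha : a ≤ 1) {J : ℕ} {F : Fam m J} {A : F.Ω → Prop} {V : Type}
    {z : PtT F → V} {z' : LnT F → V} {G : V → MvPolynomial (Option (Fin m)) ℝ}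
    (hG : NzQ Ψ c r κ K K₁ Ku Kb w v p₁ p₂ eN uN pN a pa₁ pa₂ ea ua pa J F A V z z' G) :
    ∃ (Va : Type) (za : PtT F → Va) (za' : LnT F → Va)
      (Da : Va → MvPolynomial (Option (Fin m)) ℝ),
      (∀ y, (Da y).totalDegree ≤ max 1 (max K K₁ * max 1 (max Ku Kb))) ∧
      (∀ y, DpI ((range r).image c) (Da y)) ∧
      (∀ ω, A ω → za (ptr F J ω) = za' (slam F ⌊a * J⌋₊ ω)) ∧
      ∀ ω, A ω → |ojet F κ 0 (G (z' (slam F ⌊v * J⌋₊ ω))) ω -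
        eval (bt F ω) (Da (za' (slam F ⌊a * J⌋₊ ω)))| ≤ 1 / 2 ^ ⌊pa * J⌋₊ := by
  obtain ⟨Kd, hKd⟩ : ∃ Kd : ℕ, Kd = max 1 (max K K₁ * max 1 (max Ku Kb)) := ⟨_, rfl⟩
  rw [← hKd]
  obtain ⟨V₀, V₁, V₂, z₀, z₀', G₀, P₁, z₁, z₁', G₁, P₂, z₂, z₂', H, f₁, a1, a2, Va, Y₁, Y₂, za, za',
    Ga, Q₁, y₁, y₁', B₁, Q₂, y₂, y₂', B₂, fa, a3⟩ := hG
  obtain ⟨hGd, hGp, hGc⟩ := hΨd J F A V₀ z₀ z₀' G₀ a1
  have hv : v ≤ 1 := hva.trans ha
  obtain ⟨f1, f2⟩ := floorw hwv hv J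
  obtain ⟨g1, g2⟩ := floorw (hwv.trans hva) ha J
  obtain ⟨k1, k2⟩ := floorw hva ha J
  -- the difference of the labels
  obtain ⟨Φ, hΦ⟩ : ∃ Φ : V₀ × ((Y₁ × Y₂) × (V₁ × V₂)) → MvPolynomial (Option (Fin m)) ℝ,
    Φ = fun x => sbu (c r) (B₂ x.2.1.2) (B₁ x.2.1.1 - G₀ x.1) -
      sbu (c r) (H x.2.2.2) (G₁ x.2.2.1 - G₀ x.1) := ⟨_, rfl⟩
  obtain ⟨zd, hzd⟩ : ∃ zd : PtT F → V₀ × ((Y₁ × Y₂) × (V₁ × V₂)), zd = fun x =>
    (z₀ x, ((y₁ x, y₂ x), (z₁ x, z₂ x))) := ⟨_, rfl⟩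
  obtain ⟨zd', hzd'⟩ : ∃ zd' : LnT F → V₀ × ((Y₁ × Y₂) × (V₁ × V₂)), zd' = fun x =>
    (wz z₀' ⌊w * J⌋₊ ⌊a * J⌋₊ x, ((y₁' x, y₂' x), (wz z₁' ⌊v * J⌋₊ ⌊a * J⌋₊ x,
      wz z₂' ⌊v * J⌋₊ ⌊a * J⌋₊ x))) := ⟨_, rfl⟩
  have hcode : ∀ ω, zd' (slam F ⌊a * J⌋₊ ω) = (z₀' (slam F ⌊w * J⌋₊ ω),
      ((y₁' (slam F ⌊a * J⌋₊ ω), y₂' (slam F ⌊a * J⌋₊ ω)),
        (z₁' (slam F ⌊v * J⌋₊ ω), z₂' (slam F ⌊v * J⌋₊ ω)))) := by
    intro ω
    rw [hzd']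
    dsimp only
    rw [wz_slam z₀' g1 g2, wz_slam z₁' k1 k2, wz_slam z₂' k1 k2]
  have hΦe : ∀ ω, Φ (zd' (slam F ⌊a * J⌋₊ ω)) = Ga (za' (slam F ⌊a * J⌋₊ ω)) -
      G (z' (slam F ⌊v * J⌋₊ ω)) := by
    intro ω
    rw [hcode, a3.pol, a2.pol, a3.cod, a2.cod, wz_slam z₀' g1 g2, wz_slam z₀' f1 f2, hΦ]
    unfold nzG
    ring
  have hdeg : ∀ x, (Φ x).totalDegree ≤ Kd := by
    intro x
    have b1 : ∀ {D E : MvPolynomial (Option (Fin m)) ℝ}, E.totalDegree ≤ max 1 (max Ku Kb) →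
        D.totalDegree ≤ max K K₁ → (sbu (c r) E D).totalDegree ≤ Kd := by
      intro D E hE hD
      refine (sbu_deg (c r) hE hD).trans ?_
      rw [max_eq_right (le_max_left 1 (max Ku Kb)), hKd]
      exact le_max_right _ _
    rw [hΦ]
    refine (totalDegree_sub _ _).trans (max_le (b1 ?_ ?_) (b1 ?_ ?_))
    · exact (a3.l2.deg _).trans ((le_max_left Ku Kb).trans (le_max_right _ _))
    · exact (totalDegree_sub _ _).trans (max_le ((a3.l1.deg _).trans (le_max_right _ _))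
        ((hGd _).trans (le_max_left _ _)))
    · exact (a2.l2.deg _).trans ((le_max_right Ku Kb).trans (le_max_right _ _))
    · exact (totalDegree_sub _ _).trans (max_le ((a2.l1.deg _).trans (le_max_right _ _))
        ((hGd _).trans (le_max_left _ _)))
  have hdep : ∀ x, DpI ((range r).image c) (Φ x) := by
    intro x
    rw [hΦ]
    exact DpI.sub (sbu_dep (DpI.sub (a3.l1.dep _) (hGp _)) (a3.l2.dep _))
      (sbu_dep (DpI.sub (a2.l1.dep _) (hGp _)) (a2.l2.dep _))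
  refine ⟨_, zd, zd', Φ, hdeg, hdep, fun ω hω => ?_, fun ω hω => ?_⟩
  · rw [hcode, hzd]
    dsimp only
    rw [hGc ω hω, a3.l1.cls ω hω, a3.l2.cls ω hω, a2.l1.cls ω hω, a2.l2.cls ω hω]
  · have b1 := a3.lb.pos ω hω
    have e1 : ojet F κ 0 (G (z' (slam F ⌊v * J⌋₊ ω))) ω =
        F.x ω κ - eval (bt F ω) (G (z' (slam F ⌊v * J⌋₊ ω))) := hgt_eq F κ z' _ G ω
    have e2 : ojet F κ 0 (G (z' (slam F ⌊v * J⌋₊ ω))) ω -
        eval (bt F ω) (Φ (zd' (slam F ⌊a * J⌋₊ ω))) =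
        F.x ω κ - eval (bt F ω) (Ga (za' (slam F ⌊a * J⌋₊ ω))) := by
      rw [e1, hΦe, map_sub]
      ring
    rw [e2]
    exact b1

end Pool.ALT
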