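import Pool.Agent.H60.ALT.Nzf

/-!
# The own heights of the natural labels are few bits

`nzf_few`: the height over a natural label of the window `v` is few bits given the closed codes of a
later window, the near point of the base and the code.
-/

set_option autoImplicit false

namespace Pool.ALT

open Finset Real MvPolynomial
open Pool.Agent.H49.Ent Pool.Agent.H32.Dense Pool.STK Pool.KA Pool.KSAT Pool.K2S Pool.PB Pool.S6C
  Pool.GEN Pool.RCD Pool.LA91 Pool.OWN68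
open Pool.UNJ (ceI)
open Pool.GRW (xr xr_near)
open Pool.BFL (Pb)
open Pool.GRD (LbP)
open Pool.LIV (Pb_mono25 Pb_or25)

/-- The scales of a height. -/
theorem few_num {m J : ℕ} {s pa ea eN n E : ℝ} (hs : s ≤ pa) (hea : ea ≤ E)
    (heN : eN ≤ E) (he0 : 0 ≤ ea) (he1 : 0 ≤ eN)
    (hm : Real.log (4 * (m + 1)) ≤ (n - s - E) * Real.log 2 * J) :
    (2 : ℝ) ^ (s * J) * (1 / 2 ^ ⌊pa * J⌋₊ +
      (2 ^ ⌊ea * J⌋₊ + 2 ^ ⌊eN * J⌋₊) * ((m + 1) * (1 / 2 ^ ⌊n * J⌋₊))) ≤ 3 := by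
  have hJ0 : (0 : ℝ) ≤ J := Nat.cast_nonneg J
  have hm0 : (0 : ℝ) ≤ m := Nat.cast_nonneg m
  have p0 : ∀ x : ℝ, (0 : ℝ) < 2 ^ x := fun x => Real.rpow_pos_of_pos (by norm_num) _
  have a1 := ip2_le (pa * J)
  have a2 := ip2_le (n * J)
  have a3 : (2 : ℝ) ^ ⌊ea * J⌋₊ ≤ 2 ^ (E * J) := (p2_le (mul_nonneg he0 hJ0)).trans
    (p2_mono hea)
  have a4 : (2 : ℝ) ^ ⌊eN * J⌋₊ ≤ 2 ^ (E * J) := (p2_le (mul_nonneg he1 hJ0)).trans
    (p2_mono heN)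
  have b1 : (2 : ℝ) ^ (s * J) * (1 / 2 ^ ⌊pa * J⌋₊) ≤ 2 := by
    calc (2 : ℝ) ^ (s * J) * (1 / 2 ^ ⌊pa * J⌋₊) ≤ 2 ^ (s * J) * (2 * 2 ^ (-(pa * J))) :=
          mul_le_mul_of_nonneg_left a1 (p0 _).le
      _ = 2 * 2 ^ (s * J + -(pa * J)) := by
          rw [Real.rpow_add (by norm_num)]
          ring
      _ ≤ 2 * 1 := by
          refine mul_le_mul_of_nonneg_left ?_ (by norm_num)
          refine Real.rpow_le_one_of_one_le_of_nonpos (by norm_num) ?_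
          have := mul_le_mul_of_nonneg_right hs hJ0
          linarith
      _ = 2 := mul_one 2
  have b2 : (2 : ℝ) ^ (s * J) * ((2 ^ ⌊ea * J⌋₊ + 2 ^ ⌊eN * J⌋₊) *
      ((m + 1) * (1 / 2 ^ ⌊n * J⌋₊))) ≤ 1 := by
    calc (2 : ℝ) ^ (s * J) * ((2 ^ ⌊ea * J⌋₊ + 2 ^ ⌊eN * J⌋₊) * ((m + 1) * (1 / 2 ^ ⌊n * J⌋₊)))
        ≤ 2 ^ (s * J) * ((2 ^ (E * J) + 2 ^ (E * J)) * ((m + 1) * (2 * 2 ^ (-(n * J))))) := by
          refine mul_le_mul_of_nonneg_left ?_ (p0 _).le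
          refine mul_le_mul (add_le_add a3 a4) (mul_le_mul_of_nonneg_left a2 (by positivity))
            (by positivity) (by positivity)
      _ = (4 * (m + 1)) * 2 ^ (s * J + E * J + -(n * J)) := by
          rw [Real.rpow_add (by norm_num), Real.rpow_add (by norm_num)]
          ring
      _ ≤ (4 * (m + 1)) * 2 ^ (-((n - s - E) * J)) := by
          refine mul_le_mul_of_nonneg_left (le_of_eq ?_) (by positivity)
          congr 1
          ring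
      _ ≤ 1 := by
          rw [Real.rpow_neg (by norm_num), ← div_eq_mul_inv, div_le_one (p0 _), ← exp_p2]
          calc (4 * ((m : ℝ) + 1)) = Real.exp (Real.log (4 * (m + 1))) :=
                (Real.exp_log (by positivity)).symm
            _ ≤ Real.exp ((n - s - E) * J * Real.log 2) := Real.exp_le_exp.2 (by linarith)
  rw [mul_add]
  linarith

/-- **The own heights of the natural labels are few bits** given the closed codes of a later window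
and the near point of the base. -/
theorem nzf_few {m : ℕ} {S : PCl m}
    (hpos : ∀ (τ : ℝ) (J : ℕ) (F : Fam m J) (A : F.Ω → Prop), S.St τ J F A → 0 < Pe F.p A)
    {Ψ : Fml m} {c : ℕ → Fin m} {r₀ : ℕ} {κ : Fin m} {K K₁ Ku Kb : ℕ}
    {w v p₁ p₂ eN uN pN a pa₁ pa₂ ea ua pa s n : ℝ}
    (hNz : NzO S Ψ c r₀ κ K K₁ Ku w a pa₁ pa₂ ea ua pa)
    (hΨd : ∀ (J : ℕ) (F : Fam m J) (A : F.Ω → Prop) (V : Type) (z : PtT F → V) (z' : LnT F → V)
      (G : V → MvPolynomial (Option (Fin m)) ℝ), Ψ J F A V z z' G →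
      (∀ y, (G y).totalDegree ≤ K) ∧ (∀ y, DpI ((range (r₀ + 1)).image c) (G y)) ∧
      ∀ ω, A ω → z (ptr F J ω) = z' (slam F ⌊w * J⌋₊ ω))
    (hwv : w ≤ v) (hva : v ≤ a) (ha : a ≤ 1) (hea : 0 ≤ ea) (heN : 0 ≤ eN) (hpN : 0 ≤ pN)
    (hs : s ≤ pa) (hsa : s + ea < n) (hsN : s + eN < n) (hun : ua ≤ n) (huN : uN ≤ n)
    {δ : ℝ} (hδ : 0 < δ) :
    Bas S (fun J F A => ∀ (V : Type) (z : PtT F → V) (z' : LnT F → V)
      (G : V → MvPolynomial (Option (Fin m)) ℝ),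
      NzF Ψ c r₀ κ K K₁ Kb w v p₁ p₂ eN uN pN J F A V z z' G →
      ∀ (P₁ : ℕ) (V₁ : Type) (z₁ : PtT F → V₁) (z₁' : LnT F → V₁)
      (G₁ : V₁ → MvPolynomial (Option (Fin m)) ℝ),
      LbP F ((range (r₀ + 1)).image c) κ K₁ J ⌊a * J⌋₊ P₁ A z₁ z₁' G₁ → pa₁ * J ≤ P₁ →
      ∀ (P₂ : ℕ) (V₂ : Type) (z₂ : PtT F → V₂) (z₂' : LnT F → V₂)
      (H : V₂ → MvPolynomial (Option (Fin m)) ℝ),
      LbP F ((range r₀).image c) (c r₀) Ku J ⌊a * J⌋₊ P₂ A z₂ z₂' H → pa₂ * J ≤ P₂ →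
      CH (Pool.Agent.H49.Ent.cond F.p A True)
        (fun ω => ⌊(2 : ℝ) ^ (s * J) * ojet F κ 0 (G (z' (slam F ⌊v * J⌋₊ ω))) ω⌋)
        (fun ω => ((z₁' (slam F ⌊a * J⌋₊ ω), z₂' (slam F ⌊a * J⌋₊ ω)),
          (ceI ((range r₀).image c) (fun _ => ⌊n * J⌋₊) (F.x ω),
            (z' (slam F ⌊v * J⌋₊ ω), F.W ω)))) ≤ δ * J) := by
  classical
  obtain ⟨E, hE⟩ : ∃ E : ℝ, E = max ea eN := ⟨_, rfl⟩
  have hEn : 0 < n - s - E := by
    rw [hE]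
    rcases max_cases ea eN with ⟨h, -⟩ | ⟨h, -⟩ <;> rw [h] <;> linarith
  have hl2 : 0 < Real.log 2 := Real.log_pos one_lt_two
  obtain ⟨M, hM⟩ : ∃ M : ℝ, M = |s| + |pN| + 1 := ⟨_, rfl⟩
  have hM1 : 1 ≤ M := by
    rw [hM]
    linarith [abs_nonneg s, abs_nonneg pN]
  obtain ⟨η, hη⟩ : ∃ η : ℝ, η = δ / (2 * M) := ⟨_, rfl⟩
  have hη0 : 0 < η := by rw [hη]; positivity
  have hηM : η * M = δ / 2 := by
    rw [hη]
    field_simp
  obtain ⟨J₁, hJ₁⟩ := exists_nat_ge (Real.log (4 * (m + 1)) / ((n - s - E) * Real.log 2))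
  obtain ⟨J₂, hJ₂⟩ := exists_nat_ge (Real.log 11)
  obtain ⟨J₃, hJ₃⟩ := exists_nat_ge ((Real.log 2 + Real.log 9) / (δ / 2))
  refine Bas.mono (J₁ + J₂ + J₃) ((hNz η hη0).and (pos_bas hpos)) ?_
  rintro J hJ F A ⟨HN, hA⟩ V z z' G hΨ P₁ V₁ z₁ z₁' G₁ hG₁ hP₁ P₂ V₂ z₂ z₂' H hH hP₂
  have hJ0 : (0 : ℝ) ≤ J := Nat.cast_nonneg J
  have j1 : Real.log (4 * (m + 1)) ≤ (n - s - E) * Real.log 2 * J := by
    have e1 : (J₁ : ℝ) ≤ J := by exact_mod_cast (by omega : J₁ ≤ J)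
    have e2 := hJ₁.trans e1
    rw [div_le_iff₀ (by positivity)] at e2
    linarith
  have j2 : Real.log 11 ≤ J := hJ₂.trans (by exact_mod_cast (by omega : J₂ ≤ J))
  have j3 : Real.log 2 + Real.log 9 ≤ δ / 2 * J := by
    have e1 : (J₃ : ℝ) ≤ J := by exact_mod_cast (by omega : J₃ ≤ J)
    have e2 := hJ₃.trans e1
    rw [div_le_iff₀ (by positivity)] at e2
    linarith
  obtain ⟨V₀, U₁, U₂, z₀, z₀', G₀, Q₁, y₁, y₁', B₁, Q₂, y₂, y₂', B₂, f, hΨ₀, hL⟩ := hΨ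
  obtain ⟨hGd, hGp, hGc⟩ := hΨd J F A V₀ z₀ z₀' G₀ hΨ₀
  have hq := isLaw_cond F.isLaw hA
  have hv : v ≤ 1 := hva.trans ha
  obtain ⟨f1, f2⟩ := floorw hwv hv J
  obtain ⟨g1, g2⟩ := floorw (hwv.trans hva) ha J
  -- the good samples
  obtain ⟨Ga, hGa⟩ : ∃ Ga : V₀ × (V₁ × V₂) → MvPolynomial (Option (Fin m)) ℝ,
    Ga = nzG (c r₀) G₀ G₁ H := ⟨_, rfl⟩
  obtain ⟨ca, hca⟩ : ∃ ca : F.Ω → V₀ × (V₁ × V₂), ca = fun ω => (z₀' (slam F ⌊w * J⌋₊ ω),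
    (z₁' (slam F ⌊a * J⌋₊ ω), z₂' (slam F ⌊a * J⌋₊ ω))) := ⟨_, rfl⟩
  obtain ⟨Bad, hBad⟩ : ∃ Bad : F.Ω → Prop, Bad = fun ω => ¬ (|F.x ω κ - eval (bt F ω)
    (Ga (ca ω))| ≤ 1 / 2 ^ ⌊pa * J⌋₊ ∧ ∀ b : Option (Fin m) → ℝ,
      (∀ o, |b o - bt F ω o| ≤ 1 / 2 ^ ⌊ua * J⌋₊) → ∀ o,
      |eval b (pderiv o (Ga (ca ω)))| ≤ 2 ^ ⌊ea * J⌋₊) := ⟨_, rfl⟩
  have hbad : Pb (Pool.Agent.H49.Ent.cond F.p A True) Bad ≤ η := by
    refine pb_of_pt hA hη0 _ fun R hRA hR => ?_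
    obtain ⟨B, b1, b2, b3⟩ := HN V₀ z₀ z₀' G₀ hΨ₀ P₁ V₁ z₁ z₁' G₁ hG₁ hP₁ P₂ V₂ z₂ z₂' H hH
      hP₂ R hRA hR
    have hR0 : 0 < Pe F.p R := by
      by_contra hneg
      push Not at hneg
      have h5 : 1 / η * Pe F.p R ≤ 0 := mul_nonpos_of_nonneg_of_nonpos (by positivity) hneg
      linarith
    have hB0 : 0 < Pe F.p B := by linarith
    obtain ⟨ω, hω⟩ : ∃ ω, B ω := by
      by_contra hno
      push Not at hno
      have h6 : Pe F.p B = 0 := by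
        unfold Pe law
        refine Finset.sum_eq_zero fun ω _ => ?_
        simp [hno ω]
      linarith
    refine ⟨ω, b1 ω hω, ?_⟩
    have hcw : (wz z₀' ⌊w * J⌋₊ ⌊a * J⌋₊ (slam F ⌊a * J⌋₊ ω), (z₁' (slam F ⌊a * J⌋₊ ω),
        z₂' (slam F ⌊a * J⌋₊ ω))) = ca ω := by
      rw [hca, wz_slam z₀' g1 g2]
    have c1 := b3.pos ω hω
    have c2 := b3.lip ω hω
    rw [hcw, ← hGa] at c1
    simp only [hcw, ← hGa] at c2
    rw [hBad]
    exact fun hn => hn ⟨c1, c2⟩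
  -- the count
  obtain ⟨X, hX⟩ : ∃ X : F.Ω → ℤ, X = fun ω =>
    ⌊(2 : ℝ) ^ (s * J) * ojet F κ 0 (G (z' (slam F ⌊v * J⌋₊ ω))) ω⌋ := ⟨_, rfl⟩
  have p0 : ∀ x : ℝ, (0 : ℝ) < 2 ^ x := fun x => Real.rpow_pos_of_pos (by norm_num) _
  have hoj : ∀ ω, ojet F κ 0 (G (z' (slam F ⌊v * J⌋₊ ω))) ω =
      F.x ω κ - eval (bt F ω) (G (z' (slam F ⌊v * J⌋₊ ω))) := fun ω => hgt_eq F κ z' _ G ω
  have hcnt : (cnt (Pool.Agent.H49.Ent.cond F.p A True) X (fun _ => True) : ℝ) ≤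
      Real.exp (M * J) := by
    have h1 : (1 : ℝ) ≤ 2 ^ ((|s| + |pN|) * J) :=
      Real.one_le_rpow (by norm_num) (by positivity)
    have h2 : (cnt F.p X A : ℝ) ≤ 2 * (2 * 2 ^ ((|s| + |pN|) * J) + 1) + 1 := by
      refine cnt_le_of_abs (by positivity) fun ω hω => ?_
      have h3 := hL.lb.pos ω hω
      have h4 : |(2 : ℝ) ^ (s * J) * ojet F κ 0 (G (z' (slam F ⌊v * J⌋₊ ω))) ω| ≤
          2 * 2 ^ ((|s| + |pN|) * J) := by
        rw [hoj, abs_mul, abs_of_pos (p0 _)]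
        calc (2 : ℝ) ^ (s * J) * |F.x ω κ - eval (bt F ω) (G (z' (slam F ⌊v * J⌋₊ ω)))|
            ≤ 2 ^ (s * J) * (2 * 2 ^ (-(pN * J))) :=
              mul_le_mul_of_nonneg_left (h3.trans (ip2_le _)) (p0 _).le
          _ = 2 * 2 ^ (s * J + -(pN * J)) := by
              rw [Real.rpow_add (by norm_num)]
              ring
          _ ≤ 2 * 2 ^ ((|s| + |pN|) * J) := by
              refine mul_le_mul_of_nonneg_left ?_ (by norm_num)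
              refine Real.rpow_le_rpow_of_exponent_le (by norm_num) ?_
              have k1 := mul_le_mul_of_nonneg_right (le_abs_self s) hJ0
              have k2 := mul_le_mul_of_nonneg_right (neg_abs_le pN) hJ0
              linarith
      have c1 := Int.floor_le ((2 : ℝ) ^ (s * J) * ojet F κ 0 (G (z' (slam F ⌊v * J⌋₊ ω))) ω)
      have c2 := Int.lt_floor_add_one
        ((2 : ℝ) ^ (s * J) * ojet F κ 0 (G (z' (slam F ⌊v * J⌋₊ ω))) ω)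
      rw [hX]
      rw [abs_le] at h4 ⊢
      constructor <;> linarith [h4.1, h4.2]
    have h5 : (cnt (Pool.Agent.H49.Ent.cond F.p A True) X (fun _ => True) : ℝ) ≤
        cnt F.p X A := by exact_mod_cast cnt_cond_le F.isLaw X A
    refine h5.trans (h2.trans ?_)
    calc 2 * (2 * (2 : ℝ) ^ ((|s| + |pN|) * J) + 1) + 1 ≤ 11 * 2 ^ ((|s| + |pN|) * J) := by
          linarith
      _ = Real.exp (Real.log 11 + (|s| + |pN|) * J * Real.log 2) := by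
          rw [Real.exp_add, Real.exp_log (by norm_num), exp_p2]
      _ ≤ Real.exp (M * J) := by
          refine Real.exp_le_exp.2 ?_
          have h6 : Real.log 2 ≤ 1 := by
            have := Real.log_two_lt_d9
            linarith
          have h7 : (|s| + |pN|) * J * Real.log 2 ≤ (|s| + |pN|) * J * 1 :=
            mul_le_mul_of_nonneg_left h6 (by positivity)
          rw [hM]
          linarith
  have key := CH_near hq X (fun ω => ((z₁' (slam F ⌊a * J⌋₊ ω), z₂' (slam F ⌊a * J⌋₊ ω)),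
          (ceI ((range r₀).image c) (fun _ => ⌊n * J⌋₊) (F.x ω),
            (z' (slam F ⌊v * J⌋₊ ω), F.W ω))))
    (fun y => (2 : ℝ) ^ (s * J) * eval (Pool.LA91.bx ((range r₀).image c) J ⌊n * J⌋₊
      y.2.2.2.1 y.2.1) (sbu (c r₀) (H y.1.2) (G₁ y.1.1 - G₀ (f y.2.2.1).1) -
        sbu (c r₀) (B₂ (f y.2.2.1).2.2) (B₁ (f y.2.2.1).2.1 - G₀ (f y.2.2.1).1)))
    Bad (M := M * J) (D := 4) hbad (by positivity) (by norm_num) hcnt (by
      intro ω hω hgood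
      have hAω := of_cond_pos hω
      rw [hBad, not_not] at hgood
      obtain ⟨c1, c2⟩ := hgood
      have hfz : f (z' (slam F ⌊v * J⌋₊ ω)) = (z₀' (slam F ⌊w * J⌋₊ ω),
          (y₁' (slam F ⌊v * J⌋₊ ω), y₂' (slam F ⌊v * J⌋₊ ω))) := by
        rw [hL.cod, wz_slam z₀' f1 f2]
      obtain ⟨Φ, hΦ⟩ : ∃ Φ : MvPolynomial (Option (Fin m)) ℝ, Φ =
        sbu (c r₀) (H (z₂' (slam F ⌊a * J⌋₊ ω))) (G₁ (z₁' (slam F ⌊a * J⌋₊ ω)) -
          G₀ (z₀' (slam F ⌊w * J⌋₊ ω))) - sbu (c r₀) (B₂ (y₂' (slam F ⌊v * J⌋₊ ω)))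
          (B₁ (y₁' (slam F ⌊v * J⌋₊ ω)) - G₀ (z₀' (slam F ⌊w * J⌋₊ ω))) := ⟨_, rfl⟩
      have hΦ2 : Φ = Ga (ca ω) - G (z' (slam F ⌊v * J⌋₊ ω)) := by
        rw [hΦ, hL.pol, hfz, hGa, hca]
        unfold nzG
        ring
      have hdep : DpI ((range r₀).image c) Φ := by
        rw [hΦ]
        refine DpI.sub (sbu_dep (DpI.sub (hG₁.dep _) (hGp _)) (hH.dep _))
          (sbu_dep (DpI.sub (hL.l1.dep _) (hGp _)) (hL.l2.dep _))
      have hnv := near_val (F := F) (ω := ω) (n := ⌊n * J⌋₊) (ρ := ⌊n * J⌋₊) le_rfl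
        (fun b hb o => c2 b (fun o => (hb o).trans (inv_mono (Nat.floor_le_floor
          (mul_le_mul_of_nonneg_right hun hJ0)))) o)
        (fun b hb o => hL.lb.lip ω hAω b (fun o => (hb o).trans (inv_mono (Nat.floor_le_floor
          (mul_le_mul_of_nonneg_right huN hJ0)))) o) hΦ2 hdep
      have hnum := few_num (m := m) (J := J) (n := n) hs (by rw [hE]; exact le_max_left ea eN)
        (by rw [hE]; exact le_max_right ea eN) hea heN j1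
      have e1 : F.W ω = (F.T ω, F.Z ω) := rfl
      rw [hX]
      dsimp only
      rw [hfz, e1]
      dsimp only
      rw [← hΦ]
      have h1 : |ojet F κ 0 (G (z' (slam F ⌊v * J⌋₊ ω))) ω - eval (Pool.LA91.bx
          ((range r₀).image c) J ⌊n * J⌋₊ (F.T ω) (ceI ((range r₀).image c)
            (fun _ => ⌊n * J⌋₊) (F.x ω))) Φ| ≤ 1 / 2 ^ ⌊pa * J⌋₊ +
          (2 ^ ⌊ea * J⌋₊ + 2 ^ ⌊eN * J⌋₊) * ((m + 1) * (1 / 2 ^ ⌊n * J⌋₊)) := by
        have e2 : ojet F κ 0 (G (z' (slam F ⌊v * J⌋₊ ω))) ω =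
            (F.x ω κ - eval (bt F ω) (Ga (ca ω))) + eval (bt F ω) Φ := by
          rw [hoj, hΦ2, map_sub]
          ring
        rw [e2]
        refine (le_of_eq (by congr 1; ring)).trans ((abs_add_le _ _).trans (add_le_add c1 hnv))
      have h2 : |(2 : ℝ) ^ (s * J) * ojet F κ 0 (G (z' (slam F ⌊v * J⌋₊ ω))) ω -
          2 ^ (s * J) * eval (Pool.LA91.bx
          ((range r₀).image c) J ⌊n * J⌋₊ (F.T ω) (ceI ((range r₀).image c)
            (fun _ => ⌊n * J⌋₊) (F.x ω))) Φ| ≤ 3 := by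
        rw [← mul_sub, abs_mul, abs_of_pos (p0 _)]
        exact (mul_le_mul_of_nonneg_left h1 (p0 _).le).trans hnum
      have c3 := Int.floor_le ((2 : ℝ) ^ (s * J) * ojet F κ 0 (G (z' (slam F ⌊v * J⌋₊ ω))) ω)
      have c4 := Int.lt_floor_add_one
        ((2 : ℝ) ^ (s * J) * ojet F κ 0 (G (z' (slam F ⌊v * J⌋₊ ω))) ω)
      rw [abs_le] at h2 ⊢
      constructor <;> linarith [h2.1, h2.2])
  rw [← hX]
  refine key.trans ?_
  have e9 : (2 : ℝ) * 4 + 1 = 9 := by norm_num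
  rw [e9]
  have : η * (M * J) = δ / 2 * J := by rw [← mul_assoc, hηM]
  rw [this]
  linarith

end Pool.ALT
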