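import Pool.Agent.H74.RM.RmE
import Pool.Agent.H60.ALT.Rd

/-!
# A polynomial of one coordinate which is small at the samples

`seg_remez`: it is small on the whole segment around the chart, if the digits of the coordinate
behind the segment are nearly full.
-/

set_option autoImplicit false

namespace Pool.ALT

open Finset Real
open Pool.Agent.H49.Ent Pool.Agent.H32.Dense Pool.STK
open Pool.BFL (Pb)
open Pool.RM (cell cst Big)

/-- The polynomial on the unit interval. -/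
noncomputable def unp (P : Polynomial ℝ) (h ℓ : ℝ) : MvPolynomial (Fin 1) ℝ :=
  Polynomial.aeval (MvPolynomial.C (h - ℓ) + MvPolynomial.C (2 * ℓ) * MvPolynomial.X 0) P

theorem unp_eval (P : Polynomial ℝ) (h ℓ : ℝ) (x : Fin 1 → ℝ) :
    MvPolynomial.eval x (unp P h ℓ) = P.eval (h - ℓ + 2 * ℓ * x 0) := by
  unfold unp
  rw [Polynomial.aeval_def, Polynomial.hom_eval₂]
  have h1 : ((MvPolynomial.eval x).comp (algebraMap ℝ (MvPolynomial (Fin 1) ℝ))) =
      RingHom.id ℝ := by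
    ext a
    simp
  rw [h1, map_add, map_mul, MvPolynomial.eval_C, MvPolynomial.eval_C, MvPolynomial.eval_X]
  rw [Polynomial.eval₂_id]

theorem unp_deg (P : Polynomial ℝ) (h ℓ : ℝ) {K : ℕ} (hP : P.natDegree ≤ K) :
    (unp P h ℓ).totalDegree ≤ K := by
  unfold unp
  rw [Polynomial.aeval_eq_sum_range]
  refine (MvPolynomial.totalDegree_finset_sum _ _).trans ?_
  refine Finset.sup_le fun i hi => ?_
  rw [mem_range] at hi
  refine (MvPolynomial.totalDegree_smul_le _ _).trans ?_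
  refine (MvPolynomial.totalDegree_pow _ _).trans ?_
  have h1 : (MvPolynomial.C (h - ℓ) + MvPolynomial.C (2 * ℓ) * MvPolynomial.X 0 :
      MvPolynomial (Fin 1) ℝ).totalDegree ≤ 1 := by
    refine (MvPolynomial.totalDegree_add _ _).trans (max_le ?_ ?_)
    · rw [MvPolynomial.totalDegree_C]
      exact Nat.zero_le _
    · refine (MvPolynomial.totalDegree_mul _ _).trans ?_
      rw [MvPolynomial.totalDegree_C, zero_add]
      exact (MvPolynomial.totalDegree_X _).le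
  nlinarith

open Classical in
/-- **Small at the samples, small on the segment.** -/
theorem seg_remez {Ω Γ : Type} [Fintype Ω] {q : Ω → ℝ} (hq : IsLaw q) (K : ℕ)
    (g : Γ → Polynomial ℝ) (hg : ∀ y, (g y).natDegree ≤ K) (Y : Ω → Γ) (X : Ω → ℤ) (J n : ℕ)
    (h : Γ → ℝ) {ℓ t D : ℝ} (hℓ : 0 < ℓ) (hn : (cst 0 K : ℝ) + 1 ≤ 2 ^ n)
    (ht : ∀ ω, 0 < q ω → |(g (Y ω)).eval ((X ω : ℝ) / 2 ^ J)| ≤ t)
    (hnear : ∀ ω, 0 < q ω → |(X ω : ℝ) / 2 ^ J - h (Y ω)| < ℓ)
    (hX : n * Real.log 2 - D + Real.log (2 * (2 ^ J * (2 * ℓ / 2 ^ n)) + 1) ≤ CH q X Y) :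
    Pb q (fun ω => ¬ ∀ y : ℝ, |y - h (Y ω)| ≤ ℓ →
      |(g (Y ω)).eval y| ≤ (K + 1) * (2 ^ n) ^ K * t) *
      Real.log ((2 : ℝ) ^ n / (cst 0 K + 1)) ≤ D + Real.log 2 := by
  have h0 := hq.nonneg
  obtain ⟨V, hV⟩ : ∃ V : Ω → Fin (0 + 1) → ℝ, V = fun ω _ =>
    ((X ω : ℝ) / 2 ^ J - h (Y ω) + ℓ) / (2 * ℓ) := ⟨_, rfl⟩
  have hVx : ∀ ω j, h (Y ω) - ℓ + 2 * ℓ * V ω j = (X ω : ℝ) / 2 ^ J := fun ω j => by
    rw [hV]
    field_simp
    ring
  have hV01 : ∀ ω, 0 < q ω → ∀ j, 0 ≤ V ω j ∧ V ω j < 1 := by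
    intro ω hω j
    have h1 := abs_lt.1 (hnear ω hω)
    rw [hV]
    constructor
    · refine div_nonneg (by linarith [h1.1]) (by linarith)
    · show ((X ω : ℝ) / 2 ^ J - h (Y ω) + ℓ) / (2 * ℓ) < 1
      rw [div_lt_one (by linarith)]
      linarith [h1.2]
  obtain ⟨f, hf⟩ : ∃ f : Γ → MvPolynomial (Fin (0 + 1)) ℝ, f = fun y => unp (g y) (h y) ℓ :=
    ⟨_, rfl⟩
  have hfe : ∀ (y : Γ) (x : Fin (0 + 1) → ℝ), MvPolynomial.eval x (f y) =
      (g y).eval (h y - ℓ + 2 * ℓ * x 0) := fun y x => by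
    rw [hf]
    exact unp_eval _ _ _ _
  -- the cells are full
  have hcell : ((0 + 1 : ℕ) : ℝ) * Real.log ((2 ^ n : ℕ) : ℝ) - D ≤
      CH q (fun ω => cell (2 ^ n) (V ω)) Y := by
    have a1 := CH_le_add h0 X (fun ω => cell (2 ^ n) (V ω)) Y
    have a2 : CH q X (fun ω => (cell (2 ^ n) (V ω), Y ω)) ≤
        Real.log (2 * (2 ^ J * (2 * ℓ / 2 ^ n)) + 1) := by
      refine Pool.AVG71.CH_pair_int hq _ _ (by positivity) fun ω ω' hω hω' e => ?_
      simp only [Prod.mk.injEq] at e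
      obtain ⟨e1, e2⟩ := e
      have e3 := congrFun e1 0
      change ⌊((2 ^ n : ℕ) : ℝ) * V ω 0⌋ = ⌊((2 ^ n : ℕ) : ℝ) * V ω' 0⌋ at e3
      have e4 := fl_eq (a := ((2 ^ n : ℕ) : ℝ)) (by positivity) e3
      push_cast at e4
      have e5 : (X ω : ℝ) / 2 ^ J - (X ω' : ℝ) / 2 ^ J = 2 * ℓ * (V ω 0 - V ω' 0) := by
        rw [← hVx ω 0, ← hVx ω' 0, e2]
        ring
      have e6 : (X ω : ℝ) - X ω' = 2 ^ J * ((X ω : ℝ) / 2 ^ J - (X ω' : ℝ) / 2 ^ J) := by
        field_simp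
      rw [e6, e5, abs_mul, abs_mul, abs_of_pos (show (0 : ℝ) < 2 ^ J by positivity),
        abs_of_pos (show (0 : ℝ) < 2 * ℓ by positivity)]
      refine mul_le_mul_of_nonneg_left ?_ (by positivity)
      calc 2 * ℓ * |V ω 0 - V ω' 0| ≤ 2 * ℓ * (1 / 2 ^ n) :=
            mul_le_mul_of_nonneg_left e4 (by positivity)
        _ = 2 * ℓ / 2 ^ n := by ring
    push_cast
    rw [Real.log_pow]
    linarith
  have key := Pool.RM.remez_cond hq (n := 0) (M := 2 ^ n) (K := K) (by positivity) V hV01 Y f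
    (fun y => by
      rw [hf]
      exact unp_deg _ _ _ (hg y)) (fun _ => t) hcell
  push_cast at key
  refine le_trans ?_ key
  have hlog : 0 ≤ Real.log ((2 : ℝ) ^ n / (cst 0 K + 1)) := Real.log_nonneg (by
    rw [le_div_iff₀ (by positivity)]
    linarith)
  · refine mul_le_mul_of_nonneg_right ?_ hlog
    unfold Pb
    refine Finset.sum_le_sum fun ω _ => ?_
    by_cases hω : 0 < q ω
    · by_cases h1 : ¬ ∀ y : ℝ, |y - h (Y ω)| ≤ ℓ →
          |(g (Y ω)).eval y| ≤ (K + 1) * (2 ^ n) ^ K * t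
      · rw [if_pos h1]
        have h2 : |MvPolynomial.eval (V ω) (f (Y ω))| ≤ t ∧ Big 0 (2 ^ n) K (f (Y ω)) t := by
          refine ⟨?_, ?_⟩
          · rw [hfe, hVx ω 0]
            exact ht ω hω
          · push Not at h1
            obtain ⟨y, hy1, hy2⟩ := h1
            have hy3 := abs_le.1 hy1
            refine ⟨fun _ => (y - h (Y ω) + ℓ) / (2 * ℓ), fun j => ⟨?_, ?_⟩, ?_⟩
            · refine div_nonneg (by linarith [hy3.1]) (by linarith)
            · rw [div_le_one (by linarith)]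
              linarith [hy3.2]
            · rw [hfe]
              have e1 : h (Y ω) - ℓ + 2 * ℓ * ((y - h (Y ω) + ℓ) / (2 * ℓ)) = y := by
                field_simp
                ring
              simp only [e1]
              refine lt_of_le_of_lt (le_of_eq ?_) hy2
              push_cast
              ring
        rw [if_pos h2]
      · rw [if_neg h1]
        split_ifs
        · exact hω.le
        · exact le_rfl
    · have h2 : q ω = 0 := le_antisymm (not_lt.1 hω) (h0 ω)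
      rw [h2]
      simp

end Pool.ALT
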