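import Pool.Agent.H60.ALT.Blc
import Pool.Agent.H60.ALT.Seg

/-!
# Naturalization of a blind label

`sbu`: the substitution of the chart of the coordinate. `nz_pt`: at a sample the label plus its
error over the chart is natural. `nz_cls`: in a class, off a small event.
-/

set_option autoImplicit false

namespace Pool.ALT

open Finset Real MvPolynomial
open Pool.Agent.H49.Ent Pool.Agent.H32.Dense Pool.STK Pool.KA Pool.KSAT Pool.K2S Pool.PB Pool.S6C
  Pool.GEN Pool.RCD Pool.LA91 Pool.OWN68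
open Pool.UNJ (ceI)
open Pool.GRW (xr xr_near)
open Pool.BFL (Pb)

variable {m : ℕ}

/-! ### The substitution -/

/-- The substitution of the chart. -/
noncomputable def sbu (u : Fin m) (H D : MvPolynomial (Option (Fin m)) ℝ) :
    MvPolynomial (Option (Fin m)) ℝ := bind₁ (fun o => if o = some u then H else X o) D

theorem sbu_eval (u : Fin m) (H D : MvPolynomial (Option (Fin m)) ℝ)
    (b : Option (Fin m) → ℝ) : eval b (sbu u H D) =
      eval (Function.update b (some u) (eval b H)) D := by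
  classical
  unfold sbu
  rw [eval, eval₂Hom_bind₁]
  have h1 : (fun i => (eval₂Hom (RingHom.id ℝ) b) (if i = some u then H else X i)) =
      Function.update b (some u) (eval₂Hom (RingHom.id ℝ) b H) := by
    funext i
    by_cases hi : i = some u
    · subst hi
      rw [if_pos rfl, Function.update_self]
    · rw [if_neg hi, Function.update_of_ne hi]
      exact eval₂Hom_X' _ _ _
  rw [h1]
  rfl

theorem sbu_deg (u : Fin m) {H D : MvPolynomial (Option (Fin m)) ℝ} {K L : ℕ}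
    (hH : H.totalDegree ≤ L) (hD : D.totalDegree ≤ K) :
    (sbu u H D).totalDegree ≤ K * max 1 L := by
  classical
  unfold sbu
  conv_lhs => rw [D.as_sum, map_sum]
  refine (totalDegree_finsetSum _ _).trans (Finset.sup_le fun s hs => ?_)
  rw [bind₁_monomial]
  refine (totalDegree_mul _ _).trans ?_
  rw [totalDegree_C, zero_add]
  refine (totalDegree_finsetProd _ _).trans ?_
  refine le_trans ?_ (Nat.mul_le_mul_right _ ((le_totalDegree hs).trans hD))
  rw [Finsupp.sum, Finset.sum_mul]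
  refine Finset.sum_le_sum fun i _ => ?_
  refine (totalDegree_pow _ _).trans ?_
  refine Nat.mul_le_mul_left _ ?_
  split_ifs
  · exact hH.trans (le_max_right _ _)
  · exact (totalDegree_X _).le.trans (le_max_left _ _)

theorem sbu_dep {c : ℕ → Fin m} {r₀ : ℕ} {H D : MvPolynomial (Option (Fin m)) ℝ}
    (hD : DpI ((range (r₀ + 1)).image c) D) (hH : DpI ((range r₀).image c) H) :
    DpI ((range r₀).image c) (sbu (c r₀) H D) := by
  intro b b' h0 hb
  rw [sbu_eval, sbu_eval, hH b b' h0 hb]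
  refine hD _ _ ?_ fun i hi => ?_
  · rw [Function.update_of_ne (by simp), Function.update_of_ne (by simp), h0]
  · by_cases h1 : i = c r₀
    · rw [h1, Function.update_self, Function.update_self]
    · have h2 : (some i : Option (Fin m)) ≠ some (c r₀) := fun h => h1 (Option.some.inj h)
      rw [Function.update_of_ne h2, Function.update_of_ne h2]
      obtain ⟨l, hl, rfl⟩ := mem_image.1 hi
      rw [mem_range] at hl
      rcases Nat.lt_succ_iff_lt_or_eq.1 hl with h | h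
      · exact hb _ (mem_image_of_mem _ (mem_range.2 h))
      · exact absurd (by rw [h]) h1

/-- The polynomials of the base have no derivative along the coordinate. -/
theorem dpI_pd {c : ℕ → Fin m} {r₀ : ℕ} (hc : Set.InjOn c (Set.Iio (r₀ + 1)))
    {E : MvPolynomial (Option (Fin m)) ℝ} (hE : DpI ((range r₀).image c) E)
    (b : Option (Fin m) → ℝ) : eval b (pderiv (some (c r₀)) E) = 0 := by
  classical
  obtain ⟨γ, hγ⟩ : ∃ γ : Option (Fin m) → Polynomial ℝ, γ = fun o =>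
    if o = some (c r₀) then Polynomial.X else Polynomial.C (b o) := ⟨_, rfl⟩
  have h1 : aeval γ E = Polynomial.C (eval b E) := by
    refine Polynomial.funext fun t => ?_
    rw [Pool.KBX.eval_aeval_poly, Polynomial.eval_C]
    refine hE _ _ ?_ fun i hi => ?_
    · rw [hγ]
      simp
    · rw [hγ]
      obtain ⟨l, hl, rfl⟩ := mem_image.1 hi
      rw [mem_range] at hl
      have h2 : (some (c l) : Option (Fin m)) ≠ some (c r₀) := fun h => by
        have h3 := hc (Set.mem_Iio.2 (by omega : l < r₀ + 1)) (Set.mem_Iio.2 (Nat.lt_succ_self r₀))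
          (Option.some.inj h)
        omega
      simp only [if_neg h2, Polynomial.eval_C]
  have h2 := Pool.GEN.der_aevalσ E γ
  rw [h1, Polynomial.derivative_C] at h2
  have h3 := congrArg (Polynomial.eval (b (some (c r₀)))) h2
  rw [Polynomial.eval_zero, Polynomial.eval_finsetSum, Finset.sum_eq_single (some (c r₀))] at h3
  · rw [Polynomial.eval_mul, Pool.KBX.eval_aeval_poly] at h3
    have e1 : γ (some (c r₀)) = Polynomial.X := by rw [hγ]; simp
    have e2 : (fun i => (γ i).eval (b (some (c r₀)))) = b := by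
      funext i
      rw [hγ]
      by_cases hi : i = some (c r₀)
      · subst hi
        simp
      · simp only [if_neg hi, Polynomial.eval_C]
    rw [e1, Polynomial.derivative_X, Polynomial.eval_one, mul_one, e2] at h3
    exact h3.symm
  · intro o _ ho
    rw [Polynomial.eval_mul]
    have e1 : Polynomial.derivative (γ o) = 0 := by
      rw [hγ]
      simp only [if_neg ho, Polynomial.derivative_C]
    rw [e1, Polynomial.eval_zero, mul_zero]
  · intro h
    exact absurd (Finset.mem_univ _) h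

section

variable {J : ℕ} {F : Fam m J} {B : F.Ω → Prop} {c : ℕ → Fin m} {r₀ : ℕ} {κ : Fin m}
  {K K₁ Ku e e₁ e₂ W W' ρ ρ₁ ρ₂ P P₁ P₂ : ℕ} {V V₁ V₂ : Type} {z : PtT F → V} {z' : LnT F → V}
  {G : V → MvPolynomial (Option (Fin m)) ℝ} {z₁ : PtT F → V₁} {z₁' : LnT F → V₁}
  {G₁ : V₁ → MvPolynomial (Option (Fin m)) ℝ} {z₂ : PtT F → V₂} {z₂' : LnT F → V₂}
  {H : V₂ → MvPolynomial (Option (Fin m)) ℝ}

/-- The polynomial of the coordinate at other points. -/
theorem fR_evaly (hW : W ≤ W') (hW' : W' ≤ J)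
    (hG : ∀ v, DpI ((range (r₀ + 1)).image c) (G v))
    (hG₁ : ∀ v, DpI ((range (r₀ + 1)).image c) (G₁ v)) (ω : F.Ω) (y : ℝ) :
    (fR c r₀ J G G₁ (yR F c r₀ W W' z' z₁' z₂' ω)).eval y =
      eval (Function.update (xr F ω) (some (c r₀)) y)
        (G₁ (z₁' (slam F W' ω)) - G (z' (slam F W ω))) := by
  unfold fR yR upl
  simp only
  rw [wz_slam z' hW hW', Pool.KBX.eval_aeval_poly]
  refine ((hG₁ (z₁' (slam F W' ω))).sub (hG (z' (slam F W ω)))) _ _ ?_ fun i hi => ?_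
  · rw [Function.update_of_ne (by simp)]
    exact upb_none ω y
  · by_cases h1 : i = c r₀
    · rw [h1, Function.update_self]
      unfold upb
      simp
    · have h2 : (some i : Option (Fin m)) ≠ some (c r₀) := fun h => h1 (Option.some.inj h)
      rw [Function.update_of_ne h2, ← upb_some ω hi]
      unfold upb
      simp only [if_neg h1]
      split_ifs
      · rw [Polynomial.eval_C, Polynomial.eval_C]
      · rw [Polynomial.eval_zero, Polynomial.eval_zero]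

/-- The coordinate is near its chart, rounded. -/
theorem fR_one (hρ₂ : ρ₂ ≤ J)
    (h₂ : LbOK F ((range r₀).image c) (c r₀) Ku e₂ J W' ρ₂ P₂ B z₂ z₂' H) {ω₀ : F.Ω}
    (hω₀ : B ω₀) : |(F.X J ω₀ (c r₀) : ℝ) / 2 ^ J - eval (xr F ω₀) (H (z₂' (slam F W' ω₀)))| ≤
      1 / 2 ^ J + 1 / 2 ^ P₂ + 2 ^ e₂ * ((m + 1) * (1 / 2 ^ J)) := by
  have a1 := Pool.JVE.xr_val h₂ hρ₂ hω₀
  have a2 := h₂.pos ω₀ hω₀
  have a3 := xr_near F ω₀ (some (c r₀))
  change |(F.X J ω₀ (c r₀) : ℝ) / 2 ^ J - F.x ω₀ (c r₀)| ≤ 1 / 2 ^ J at a3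
  have e1 : (F.X J ω₀ (c r₀) : ℝ) / 2 ^ J - eval (xr F ω₀) (H (z₂' (slam F W' ω₀))) =
      ((F.X J ω₀ (c r₀) : ℝ) / 2 ^ J - F.x ω₀ (c r₀)) +
      (F.x ω₀ (c r₀) - eval (bt F ω₀) (H (z₂' (slam F W' ω₀)))) -
      (eval (xr F ω₀) (H (z₂' (slam F W' ω₀))) -
        eval (bt F ω₀) (H (z₂' (slam F W' ω₀)))) := by ring
  rw [e1]
  refine (abs_sub _ _).trans ?_
  have a4 := abs_add_le ((F.X J ω₀ (c r₀) : ℝ) / 2 ^ J - F.x ω₀ (c r₀))
    (F.x ω₀ (c r₀) - eval (bt F ω₀) (H (z₂' (slam F W' ω₀))))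
  linarith

/-- **The naturalized label at a sample.** -/
theorem nz_pt (hW : W ≤ W') (hW' : W' ≤ J) (hρ : ρ ≤ J) (hρ₁ : ρ₁ ≤ J) (hρ₂ : ρ₂ ≤ J)
    (hG : LbOK F ((range (r₀ + 1)).image c) κ K e J W ρ P B z z' G)
    (h₁ : LbOK F ((range (r₀ + 1)).image c) κ K₁ e₁ J W' ρ₁ P₁ B z₁ z₁' G₁)
    (h₂ : LbOK F ((range r₀).image c) (c r₀) Ku e₂ J W' ρ₂ P₂ B z₂ z₂' H) {ω : F.Ω} (hω : B ω)
    {ℓ M₁ : ℝ} (hM₁ : 0 ≤ M₁)
    (hℓ : 1 / 2 ^ J + 1 / 2 ^ P₂ + 2 ^ e₂ * ((m + 1) * (1 / 2 ^ J)) ≤ ℓ)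
    (hseg : ∀ y : ℝ, |y - eval (xr F ω) (H (z₂' (slam F W' ω)))| ≤ ℓ →
      |(Polynomial.derivative (fR c r₀ J G G₁ (yR F c r₀ W W' z' z₁' z₂' ω))).eval y| ≤ M₁)
    (hb : 1 / 2 ^ P₂ + (1 / 2 ^ J + 2 ^ e₂ * ((m + 1) * (1 / 2 ^ J))) ≤ 1 / (2 : ℝ) ^ ρ)
    (hb₁ : 1 / 2 ^ P₂ + (1 / 2 ^ J + 2 ^ e₂ * ((m + 1) * (1 / 2 ^ J))) ≤ 1 / (2 : ℝ) ^ ρ₁) :
    |F.x ω κ - eval (bt F ω) (G (z' (slam F W ω)) + sbu (c r₀) (H (z₂' (slam F W' ω)))
      (G₁ (z₁' (slam F W' ω)) - G (z' (slam F W ω))))| ≤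
      1 / 2 ^ P₁ + 2 ^ e₁ * ((m + 1) * (1 / 2 ^ J)) + 2 ^ e * ((m + 1) * (1 / 2 ^ J)) +
      M₁ * (1 / 2 ^ J + 1 / 2 ^ P₂ + 2 ^ e₂ * ((m + 1) * (1 / 2 ^ J))) +
      (2 ^ e₁ + 2 ^ e) * ((m + 1) * (1 / 2 ^ J + 2 ^ e₂ * ((m + 1) * (1 / 2 ^ J)))) := by
  classical
  obtain ⟨g₁, hg₁⟩ : ∃ g₁, g₁ = G₁ (z₁' (slam F W' ω)) := ⟨_, rfl⟩
  obtain ⟨g, hg⟩ : ∃ g, g = G (z' (slam F W ω)) := ⟨_, rfl⟩
  obtain ⟨h, hh⟩ : ∃ h, h = H (z₂' (slam F W' ω)) := ⟨_, rfl⟩
  obtain ⟨P', hP'⟩ : ∃ P', P' = fR c r₀ J G G₁ (yR F c r₀ W W' z' z₁' z₂' ω) := ⟨_, rfl⟩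
  have hPy : ∀ y, P'.eval y = eval (Function.update (xr F ω) (some (c r₀)) y) (g₁ - g) :=
    fun y => by
      rw [hP', hg, hg₁]
      exact fR_evaly hW hW' hG.dep h₁.dep ω y
  have hlip₁ := h₁.lip ω hω
  have hlip := hG.lip ω hω
  have hpos₁ := h₁.pos ω hω
  have v₁ := Pool.JVE.xr_val h₁ hρ₁ hω
  have v₀ := Pool.JVE.xr_val hG hρ hω
  have v₂ := Pool.JVE.xr_val h₂ hρ₂ hω
  have hp₂ := h₂.pos ω hω
  have hone := fR_one hρ₂ h₂ hω
  rw [← hP', ← hh] at hseg
  rw [← hg₁] at hlip₁ hpos₁ v₁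
  rw [← hg] at hlip v₀
  rw [← hh] at v₂ hp₂ hone
  rw [← hg₁, ← hg, ← hh, map_add, sbu_eval]
  obtain ⟨b₀, hb₀⟩ : ∃ b₀, b₀ = bt F ω := ⟨_, rfl⟩
  obtain ⟨x₀, hx₀⟩ : ∃ x₀, x₀ = xr F ω := ⟨_, rfl⟩
  obtain ⟨a, ha⟩ : ∃ a, a = Function.update (bt F ω) (some (c r₀)) (eval (bt F ω) h) := ⟨_, rfl⟩
  obtain ⟨b, hbe⟩ : ∃ b, b = Function.update (xr F ω) (some (c r₀)) (eval (xr F ω) h) :=
    ⟨_, rfl⟩
  obtain ⟨ε₂, hε₂⟩ : ∃ ε₂ : ℝ, ε₂ = 2 ^ e₂ * ((m + 1) * (1 / 2 ^ J)) := ⟨_, rfl⟩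
  have hε0 : 0 ≤ ε₂ := by rw [hε₂]; positivity
  have hJ0 : (0 : ℝ) ≤ 1 / 2 ^ J := by positivity
  have hm0 : (0 : ℝ) ≤ m := Nat.cast_nonneg m
  rw [← hε₂] at hb hb₁ hℓ v₂ hone ⊢
  rw [← ha]
  -- the points
  have hab : ∀ o, |b o - a o| ≤ 1 / 2 ^ J + ε₂ := by
    intro o
    rw [ha, hbe]
    by_cases ho : o = some (c r₀)
    · subst ho
      rw [Function.update_self, Function.update_self]
      linarith
    · rw [Function.update_of_ne ho, Function.update_of_ne ho]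
      have := xr_near F ω o
      linarith
  have hat : ∀ o, |a o - bt F ω o| ≤ 1 / 2 ^ P₂ := by
    intro o
    rw [ha]
    by_cases ho : o = some (c r₀)
    · subst ho
      rw [Function.update_self, abs_sub_comm]
      exact hp₂
    · rw [Function.update_of_ne ho, sub_self, abs_zero]
      positivity
  have hD : |eval b (g₁ - g) - eval a (g₁ - g)| ≤
      (2 ^ e₁ + 2 ^ e) * ((m + 1) * (1 / 2 ^ J + ε₂)) := by
    have k3 := mvσ (g₁ - g) a b (2 ^ e₁ + 2 ^ e) fun y hy o => by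
      have hyb : ∀ o', |y o' - bt F ω o'| ≤ 1 / 2 ^ P₂ + (1 / 2 ^ J + ε₂) := fun o' => by
        have e1 : y o' - bt F ω o' = (y o' - a o') + (a o' - bt F ω o') := by ring
        rw [e1]
        refine (abs_add_le _ _).trans ?_
        have := (hy o').trans (hab o')
        have := hat o'
        linarith
      have l1 := hlip₁ y (fun o' => (hyb o').trans hb₁) o
      have l2 := hlip y (fun o' => (hyb o').trans hb) o
      rw [map_sub, map_sub]
      refine (abs_sub _ _).trans ?_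
      linarith
    have k4 : ∑ o, |b o - a o| ≤ (m + 1) * (1 / 2 ^ J + ε₂) := by
      refine (Finset.sum_le_sum fun o _ => hab o).trans (le_of_eq ?_)
      rw [Finset.sum_const, Finset.card_univ, Fintype.card_option, Fintype.card_fin, nsmul_eq_mul]
      push_cast
      ring
    exact k3.trans (mul_le_mul_of_nonneg_left k4 (by positivity))
  -- the segment
  have hS : |eval (xr F ω) (g₁ - g) - eval b (g₁ - g)| ≤
      M₁ * (1 / 2 ^ J + 1 / 2 ^ P₂ + ε₂) := by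
    have e1 : eval (xr F ω) (g₁ - g) = P'.eval ((F.X J ω (c r₀) : ℝ) / 2 ^ J) := by
      rw [hPy]
      congr 1
      have : (F.X J ω (c r₀) : ℝ) / 2 ^ J = xr F ω (some (c r₀)) := rfl
      rw [this, Function.update_eq_self]
    have e2 : eval b (g₁ - g) = P'.eval (eval (xr F ω) h) := by rw [hPy, hbe]
    rw [e1, e2]
    have hmv : ∀ y₁ y₂ : ℝ, |y₁ - eval (xr F ω) h| ≤ ℓ → |y₂ - eval (xr F ω) h| ≤ ℓ → y₁ < y₂ →
        |P'.eval y₂ - P'.eval y₁| ≤ M₁ * |y₂ - y₁| := by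
      intro y₁ y₂ h1 h2 h12
      obtain ⟨t, ht, ht'⟩ := exists_deriv_eq_slope (fun y => P'.eval y) h12
        P'.continuous.continuousOn P'.differentiable.differentiableOn
      rw [Polynomial.deriv] at ht'
      have e3 : P'.eval y₂ - P'.eval y₁ = (Polynomial.derivative P').eval t * (y₂ - y₁) := by
        rw [ht']
        have : y₂ - y₁ ≠ 0 := by linarith
        field_simp
      rw [e3, abs_mul]
      refine mul_le_mul_of_nonneg_right (hseg t ?_) (abs_nonneg _)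
      rw [abs_le] at h1 h2 ⊢
      constructor <;> linarith [h1.1, h1.2, h2.1, h2.2, ht.1, ht.2]
    have hℓ0 : 0 ≤ ℓ := le_trans (by positivity) hℓ
    rcases lt_trichotomy ((F.X J ω (c r₀) : ℝ) / 2 ^ J) (eval (xr F ω) h) with hlt | heq | hgt
    · have := hmv _ _ (hone.trans hℓ) (by rw [sub_self, abs_zero]; exact hℓ0) hlt
      rw [abs_sub_comm] at this
      rw [abs_sub_comm] at hone
      exact this.trans (mul_le_mul_of_nonneg_left hone hM₁)
    · rw [heq, sub_self, abs_zero]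
      positivity
    · have := hmv _ _ (by rw [sub_self, abs_zero]; exact hℓ0) (hone.trans hℓ) hgt
      exact this.trans (mul_le_mul_of_nonneg_left hone hM₁)
  have e1 : F.x ω κ - (eval (bt F ω) g + eval a (g₁ - g)) =
      (F.x ω κ - eval (bt F ω) g₁) - (eval (xr F ω) g₁ - eval (bt F ω) g₁) +
      (eval (xr F ω) (g₁ - g) - eval b (g₁ - g)) + (eval b (g₁ - g) - eval a (g₁ - g)) +
      (eval (xr F ω) g - eval (bt F ω) g) := by
    have : eval (xr F ω) (g₁ - g) = eval (xr F ω) g₁ - eval (xr F ω) g := map_sub _ _ _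
    rw [this]
    ring
  rw [e1]
  have t1 := abs_add_le ((F.x ω κ - eval (bt F ω) g₁) - (eval (xr F ω) g₁ - eval (bt F ω) g₁) +
      (eval (xr F ω) (g₁ - g) - eval b (g₁ - g)) + (eval b (g₁ - g) - eval a (g₁ - g)))
      (eval (xr F ω) g - eval (bt F ω) g)
  have t2 := abs_add_le ((F.x ω κ - eval (bt F ω) g₁) - (eval (xr F ω) g₁ - eval (bt F ω) g₁) +
      (eval (xr F ω) (g₁ - g) - eval b (g₁ - g))) (eval b (g₁ - g) - eval a (g₁ - g))
  have t3 := abs_add_le ((F.x ω κ - eval (bt F ω) g₁) - (eval (xr F ω) g₁ - eval (bt F ω) g₁))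
      (eval (xr F ω) (g₁ - g) - eval b (g₁ - g))
  have t4 := abs_sub (F.x ω κ - eval (bt F ω) g₁) (eval (xr F ω) g₁ - eval (bt F ω) g₁)
  linarith

end

end Pool.ALT
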