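import Pool.Agent.H60.ALT.Ipr

/-!
# The natural labels of a blind family

`nzG`: the natural label. `nz_ok`: on a large part of each large part of an event it satisfies the
conditions for a label.
-/

set_option autoImplicit false

namespace Pool.ALT

open Finset Real MvPolynomial
open Pool.Agent.H49.Ent Pool.Agent.H32.Dense Pool.STK Pool.KA Pool.KSAT Pool.K2S Pool.PB Pool.S6C
  Pool.GEN Pool.RCD Pool.LA91 Pool.OWN68
open Pool.UNJ (ceI)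
open Pool.GRW (xr xr_near)
open Pool.BFL (Pb)
open Pool.GRD (LbP)
open Pool.LIV (Pb_mono25 Pb_or25)

/-- **The natural label.** -/
noncomputable def nzG {m : ℕ} (u : Fin m) {V V₁ V₂ : Type}
    (G : V → MvPolynomial (Option (Fin m)) ℝ) (G₁ : V₁ → MvPolynomial (Option (Fin m)) ℝ)
    (H : V₂ → MvPolynomial (Option (Fin m)) ℝ) (x : V × (V₁ × V₂)) :
    MvPolynomial (Option (Fin m)) ℝ := G x.1 + sbu u (H x.2.2) (G₁ x.2.1 - G x.1)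

theorem nzG_deg {m : ℕ} {u : Fin m} {V V₁ V₂ : Type} {G : V → MvPolynomial (Option (Fin m)) ℝ}
    {G₁ : V₁ → MvPolynomial (Option (Fin m)) ℝ} {H : V₂ → MvPolynomial (Option (Fin m)) ℝ}
    {K K₁ Ku : ℕ} (h0 : ∀ v, (G v).totalDegree ≤ K) (h1 : ∀ v, (G₁ v).totalDegree ≤ K₁)
    (h2 : ∀ v, (H v).totalDegree ≤ Ku) (x : V × (V₁ × V₂)) :
    (nzG u G G₁ H x).totalDegree ≤ max K K₁ * max 1 Ku := by
  unfold nzG
  refine (totalDegree_add _ _).trans (max_le ?_ ?_)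
  · refine (h0 _).trans ((le_max_left K K₁).trans ?_)
    exact Nat.le_mul_of_pos_right _ (lt_of_lt_of_le one_pos (le_max_left _ _))
  · refine sbu_deg u (h2 _) ((totalDegree_sub _ _).trans (max_le ?_ ?_))
    · exact (h1 _).trans (le_max_right _ _)
    · exact (h0 _).trans (le_max_left _ _)

theorem nzG_dep {m : ℕ} {c : ℕ → Fin m} {r₀ : ℕ} {V V₁ V₂ : Type}
    {G : V → MvPolynomial (Option (Fin m)) ℝ}
    {G₁ : V₁ → MvPolynomial (Option (Fin m)) ℝ} {H : V₂ → MvPolynomial (Option (Fin m)) ℝ}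
    (h0 : ∀ v, DpI ((range (r₀ + 1)).image c) (G v))
    (h1 : ∀ v, DpI ((range (r₀ + 1)).image c) (G₁ v))
    (h2 : ∀ v, DpI ((range r₀).image c) (H v)) (x : V × (V₁ × V₂)) :
    DpI ((range (r₀ + 1)).image c) (nzG (c r₀) G G₁ H x) := by
  intro b b' hn hb
  unfold nzG
  rw [map_add, map_add, h0 _ b b' hn hb, sbu_dep (DpI.sub (h1 _) (h0 _)) (h2 _) b b' hn fun i hi => hb i ?_]
  exact Finset.image_subset_image (Finset.range_subset_range.2 (Nat.le_succ _)) hi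

/-- The accuracy of a natural label. -/
theorem nz_acc {J P₁ P₂ P : ℕ} {y : ℝ} (h1 : P + 1 ≤ P₁) (h2 : y + (P + 1) ≤ P₂) :
    1 / (2 : ℝ) ^ P₁ + 2 ^ y * (1 / 2 ^ P₂) ≤ 1 / 2 ^ P := by
  have a1 : 1 / (2 : ℝ) ^ P₁ ≤ 1 / 2 ^ (P + 1) := inv_mono h1
  have a2 : (2 : ℝ) ^ y * (1 / 2 ^ P₂) ≤ 1 / 2 ^ (P + 1) := by
    rw [mul_one_div, div_le_div_iff₀ (by positivity) (by positivity), one_mul,
      ← Real.rpow_natCast, ← Real.rpow_natCast, ← Real.rpow_add (by norm_num)]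
    refine Real.rpow_le_rpow_of_exponent_le (by norm_num) ?_
    push_cast
    exact h2
  have a3 : 1 / (2 : ℝ) ^ (P + 1) + 1 / 2 ^ (P + 1) = 1 / 2 ^ P := by
    rw [pow_succ]
    field_simp
    norm_num
  linarith

/-- **The natural labels satisfy the conditions for a label**, on a large part of each large part
of an event. -/
theorem nz_ok (r₀ K K₁ Ku : ℕ) : ∃ C : ℝ, 1 ≤ C ∧ ∀ {m : ℕ} {S : PCl m} {C₀ : ℝ}
    (_ : TmC S C₀) (_ : ∀ (τ : ℝ) (J : ℕ) (F : Fam m J) (A : F.Ω → Prop), S.St τ J F A →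
      0 < Pe F.p A)
    {c : ℕ → Fin m} {κ : Fin m} (_ : Set.InjOn c (Set.Iio (r₀ + 1)))
    {w v u₀ u₂ e₂ p₂ : ℝ} {s : ℕ → ℝ} (_ : FulC S c r₀ (r₀ + 1) v s)
    (_ : Ful S ((range r₀).image c) v u₀)
    (_ : Upg S ((range r₀).image c) (c r₀) Ku v u₂ p₂ e₂) (_ : 0 ≤ w) (_ : w ≤ v)
    (_ : v ≤ u₀) (_ : p₂ ≤ s r₀) (ε : ℝ), 0 < ε → C * (s r₀ - p₂) ≤ ε → u₀ + ε < 1 →
    e₂ + p₂ + ε < 1 → ∀ {uN pN eN : ℝ} (_ : Upg S ((range (r₀ + 1)).image c) κ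
      (max K K₁ * max 1 Ku) v uN pN eN)
    (x₀ p₁ η χ : ℝ), 0 < η → 0 < χ → pN < p₁ + χ → pN + ε + x₀ < p₂ + χ →
    ∀ Ψ : ∀ (J : ℕ) (F : Fam m J), (F.Ω → Prop) → ∀ V : Type, (PtT F → V) → (LnT F → V) →
      (V → MvPolynomial (Option (Fin m)) ℝ) → Prop,
    (∀ (J : ℕ) (F : Fam m J) (A : F.Ω → Prop) (V : Type) (z : PtT F → V) (z' : LnT F → V)
      (G : V → MvPolynomial (Option (Fin m)) ℝ), Ψ J F A V z z' G →
      (∀ y, (G y).totalDegree ≤ K) ∧ (∀ y, DpI ((range (r₀ + 1)).image c) (G y)) ∧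
      ∀ ω, A ω → z (ptr F J ω) = z' (slam F ⌊w * J⌋₊ ω)) →
    (∀ (J : ℕ) (F : Fam m J) (A B : F.Ω → Prop) (V : Type) (z : PtT F → V)
      (z' : LnT F → V) (G : V → MvPolynomial (Option (Fin m)) ℝ), Sub B A →
      Ψ J F A V z z' G → Ψ J F B V z z' G) →
    BlC S c r₀ κ w v K₁ Ku p₁ p₂ x₀ Ψ →
    Bas S (fun J F A => ∀ (V : Type) (z : PtT F → V) (z' : LnT F → V)
      (G : V → MvPolynomial (Option (Fin m)) ℝ), Ψ J F A V z z' G →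
      ∀ (P₁ : ℕ) (V₁ : Type) (z₁ : PtT F → V₁) (z₁' : LnT F → V₁)
      (G₁ : V₁ → MvPolynomial (Option (Fin m)) ℝ),
      LbP F ((range (r₀ + 1)).image c) κ K₁ J ⌊v * J⌋₊ P₁ A z₁ z₁' G₁ → (p₁ + χ) * J ≤ P₁ →
      ∀ (P₂ : ℕ) (V₂ : Type) (z₂ : PtT F → V₂) (z₂' : LnT F → V₂)
      (H : V₂ → MvPolynomial (Option (Fin m)) ℝ),
      LbP F ((range r₀).image c) (c r₀) Ku J ⌊v * J⌋₊ P₂ A z₂ z₂' H → (p₂ + χ) * J ≤ P₂ →
      ∀ R : F.Ω → Prop, Sub R A → Pe F.p A ≤ 1 / η * Pe F.p R →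
      ∃ B : F.Ω → Prop, Sub B R ∧ Pe F.p R ≤ 8 * Pe F.p B ∧
        LbOK F ((range (r₀ + 1)).image c) κ (max K K₁ * max 1 Ku) ⌊eN * J⌋₊ J ⌊v * J⌋₊
          ⌊uN * J⌋₊ ⌊pN * J⌋₊ B (fun y => (z y, (z₁ y, z₂ y)))
          (fun x => (wz z' ⌊w * J⌋₊ ⌊v * J⌋₊ x, (z₁' x, z₂' x))) (nzG (c r₀) G G₁ H)) := by
  classical
  obtain ⟨C, hC, hnz⟩ := nz_p r₀ K K₁
  refine ⟨C, hC, ?_⟩
  intro m S C₀ htm hpos c κ hinj w v u₀ u₂ e₂ p₂ s hful hbase U₂ hw0 hwv hvu hps ε hε hCε huε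
    hroom uN pN eN UN x₀ p₁ η χ hη hχ hp1 hp2 Ψ hΨd hΨs hbl
  have hnz := hnz htm hpos (κ := κ) hinj hful hbase U₂ hw0 hwv hvu hps ε hε hCε huε hroom x₀ p₁
    (1 / 2) χ (by norm_num) hχ Ψ hΨd hΨs hbl
  obtain ⟨σ, hσ⟩ : ∃ σ : ℝ, σ = min (p₁ + χ - pN) (p₂ + χ - (pN + ε + x₀)) / 2 := ⟨_, rfl⟩
  have hσ0 : 0 < σ := by
    rw [hσ]
    exact half_pos (lt_min (by linarith) (by linarith))
  have k1 : 2 * σ ≤ p₁ + χ - pN := by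
    rw [hσ, mul_div_cancel₀ _ (by norm_num)]
    exact min_le_left _ _
  have k2 : 2 * σ ≤ p₂ + χ - (pN + ε + x₀) := by
    rw [hσ, mul_div_cancel₀ _ (by norm_num)]
    exact min_le_right _ _
  obtain ⟨J₁, hJ₁⟩ := exists_nat_ge (2 / σ)
  have hv1 : v ≤ 1 := U₂.vu.trans U₂.u1.le
  refine Bas.mono J₁ ((Pool.GRW.bas_part hnz (c := 1 / η) (by positivity)).and
    ((Pool.GRW.bas_part (UN.up htm hσ0) (c := 2 / η) (by positivity)).and (pos_bas hpos))) ?_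
  rintro J hJ F A ⟨H1, H2, hA⟩ V z z' G hΨ P₁ V₁ z₁ z₁' G₁ hG₁ hP₁ P₂ V₂ z₂ z₂' H hH hP₂ R hRA
    hR
  have hJ0 : (0 : ℝ) ≤ J := Nat.cast_nonneg J
  have hJ1 : 2 ≤ σ * J := by
    have e1 : (J₁ : ℝ) ≤ J := by exact_mod_cast hJ
    have e2 := hJ₁.trans e1
    rw [div_le_iff₀ hσ0] at e2
    linarith
  have hR0 : 0 < Pe F.p R := by
    by_contra hneg
    push Not at hneg
    have h5 : 1 / η * Pe F.p R ≤ 0 := mul_nonpos_of_nonneg_of_nonpos (by positivity) hneg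
    linarith
  obtain ⟨f1, f2⟩ := floorw hwv hv1 J
  obtain ⟨hGd, hGp, hGc⟩ := hΨd J F A V z z' G hΨ
  have h3 := H1 R hRA hR V z z' G (hΨs J F A R V z z' G hRA hΨ) P₁ V₁ z₁ z₁' G₁ (hG₁.sub hRA)
    hP₁ P₂ V₂ z₂ z₂' H (hH.sub hRA) hP₂
  have h4 := pe_part F.isLaw.nonneg hR0 _ h3
  obtain ⟨R', hR'⟩ : ∃ R' : F.Ω → Prop, R' = fun ω => R ω ∧
      ¬ ¬ |F.x ω κ - eval (bt F ω) (G (z' (slam F ⌊w * J⌋₊ ω)) +
          sbu (c r₀) (H (z₂' (slam F ⌊v * J⌋₊ ω)))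
            (G₁ (z₁' (slam F ⌊v * J⌋₊ ω)) - G (z' (slam F ⌊w * J⌋₊ ω))))| ≤
          1 / 2 ^ P₁ + 2 ^ (ε * J) * 2 ^ (x₀ * J) * (1 / 2 ^ P₂) := ⟨_, rfl⟩
  rw [← hR'] at h4
  have hR'R : Sub R' R := fun ω hω => by
    rw [hR'] at hω
    exact hω.1
  have hR'A : Sub R' A := fun ω hω => hRA ω (hR'R ω hω)
  have h5 : Pe F.p A ≤ 2 / η * Pe F.p R' := by
    have : 1 / η * Pe F.p R ≤ 1 / η * (2 * Pe F.p R') :=
      mul_le_mul_of_nonneg_left (by linarith) (by positivity)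
    calc Pe F.p A ≤ 1 / η * (2 * Pe F.p R') := hR.trans this
      _ = 2 / η * Pe F.p R' := by ring
  obtain ⟨P, hP⟩ : ∃ P : ℕ, P = ⌈(pN + σ) * (J : ℝ)⌉₊ := ⟨_, rfl⟩
  have hpN := UN.p0
  have hPle : (P : ℝ) < (pN + σ) * J + 1 := by
    rw [hP]
    exact Nat.ceil_lt_add_one (by positivity)
  have hPge : (pN + σ) * J ≤ (P : ℝ) := by
    rw [hP]
    exact Nat.le_ceil _
  have mulJ : ∀ {x y : ℝ}, x ≤ y → x * J ≤ y * J := fun h => mul_le_mul_of_nonneg_right h hJ0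
  have hlbp : LbP F ((range (r₀ + 1)).image c) κ (max K K₁ * max 1 Ku) J ⌊v * J⌋₊ P R'
      (fun y => (z y, (z₁ y, z₂ y)))
      (fun x => (wz z' ⌊w * J⌋₊ ⌊v * J⌋₊ x, (z₁' x, z₂' x))) (nzG (c r₀) G G₁ H) := by
    refine ⟨fun v => nzG_deg hGd hG₁.deg hH.deg v, fun v => nzG_dep hGp hG₁.dep hH.dep v,
      fun ω hω => ?_, fun ω hω => ?_⟩
    · refine Prod.ext ?_ (Prod.ext (hG₁.cls ω (hR'A ω hω)) (hH.cls ω (hR'A ω hω)))
      show z (ptr F J ω) = wz z' ⌊w * J⌋₊ ⌊v * J⌋₊ (slam F ⌊v * J⌋₊ ω)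
      rw [wz_slam z' f1 f2]
      exact hGc ω (hR'A ω hω)
    · rw [hR'] at hω
      have h6 := not_not.1 hω.2
      show |F.x ω κ - eval (bt F ω) (G (wz z' ⌊w * J⌋₊ ⌊v * J⌋₊ (slam F ⌊v * J⌋₊ ω)) +
          sbu (c r₀) (H (z₂' (slam F ⌊v * J⌋₊ ω))) (G₁ (z₁' (slam F ⌊v * J⌋₊ ω)) -
            G (wz z' ⌊w * J⌋₊ ⌊v * J⌋₊ (slam F ⌊v * J⌋₊ ω))))| ≤ _
      rw [wz_slam z' f1 f2]
      refine h6.trans ?_
      rw [← Real.rpow_add (by norm_num)]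
      refine nz_acc (J := J) ?_ ?_
      · have : ((P + 1 : ℕ) : ℝ) ≤ P₁ := by
          push_cast
          have := mulJ k1
          linarith
        exact_mod_cast this
      · have := mulJ k2
        linarith
  obtain ⟨B, b1, b2, b3⟩ := H2 R' hR'A h5 P _ _ _ _ hlbp hPge
  exact ⟨B, fun ω hω => hR'R ω (b1 ω hω), by linarith, b3⟩

end Pool.ALT
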