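import Pool.Agent.H60.ALT.Nzl
import Pool.Agent.H91.LA.Nbxc
import Pool.Agent.H99.GEN.GrC

/-!
# Blindness for labels of the position only

`lbok_cls`: labels of the position are labels on a large event. `blind_p`: blindness for the labels
of the position.
-/

set_option autoImplicit false

namespace Pool.ALT

open Finset Real MvPolynomial
open Pool.Agent.H49.Ent Pool.Agent.H32.Dense Pool.STK Pool.KA Pool.KSAT Pool.K2S Pool.PB Pool.S6C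
  Pool.GEN Pool.RCD Pool.LA91 Pool.OWN68
open Pool.UNJ (ceI)
open Pool.GRW (xr xr_near)
open Pool.BFL (Pb)
open Pool.GRD (LbP lb_of_p)
open Pool.LIV (Pb_mono25 Pb_or25)

variable {m : ℕ}

/-- **Labels of the position are labels**, on a large event. -/
theorem lbok_cls {S : PCl m} {C₀ : ℝ} (htm : TmC S C₀) (I : Finset (Fin m)) (k : Fin m)
    {w u : ℝ} (hwu : w ≤ u) (hu0 : 0 ≤ u) (hu : u < 1) (full : Ful S I w u) (K : ℕ) {h : ℝ}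
    (hh : 0 < h) :
    Bas S (fun J F A => ∀ (P₁ P' e' e₂ ρ₂ P₂ : ℕ) (V₁ V₂ : Type)
      (z₁ : PtT F → V₁) (z₁' : LnT F → V₁) (G₁ : V₁ → MvPolynomial (Option (Fin m)) ℝ)
      (z₂ : PtT F → V₂) (z₂' : LnT F → V₂) (G₂ : V₂ → MvPolynomial (Option (Fin m)) ℝ),
      LbP F I k K J ⌊w * J⌋₊ P₁ A z₁ z₁' G₁ → LbOK F I k K e₂ J ⌊w * J⌋₊ ρ₂ P₂ A z₂ z₂' G₂ →
      ρ₂ ≤ ⌊u * J⌋₊ → (P' : ℝ) + h * J ≤ P₁ → u * J + h * J ≤ P₁ + e' →
      u * J + h * J ≤ P₂ + e' → e₂ + h * J ≤ e' →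
      ∃ B : F.Ω → Prop, Sub B A ∧ Pe F.p A / 4 ≤ Pe F.p B ∧
        LbOK F I k K e' J ⌊w * J⌋₊ ⌊u * J⌋₊ P' B z₁ z₁' G₁) := by
  classical
  obtain ⟨C, hC, hlb⟩ := lb_of_p m K
  have hl2 : 0 < Real.log 2 := Real.log_pos one_lt_two
  obtain ⟨δ, hδ⟩ : ∃ δ : ℝ, δ = min (h * Real.log 2 / (4 * C)) ((1 - u) * Real.log 2 / C) :=
    ⟨_, rfl⟩
  have hC0 : 0 < C := by linarith
  have hδ0 : 0 < δ := by
    rw [hδ]
    refine lt_min (by positivity) (div_pos (mul_pos (by linarith) hl2) hC0)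
  have hδ1 : C * δ ≤ h / 4 * Real.log 2 := by
    have e1 : δ ≤ h * Real.log 2 / (4 * C) := by
      rw [hδ]
      exact min_le_left _ _
    have e2 : C * (h * Real.log 2 / (4 * C)) = h / 4 * Real.log 2 := by
      field_simp
    rw [← e2]
    exact mul_le_mul_of_nonneg_left e1 hC0.le
  have hδ2 : C * δ ≤ (1 - u) * Real.log 2 := by
    have e1 : δ ≤ (1 - u) * Real.log 2 / C := by
      rw [hδ]
      exact min_le_right _ _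
    have e2 : C * ((1 - u) * Real.log 2 / C) = (1 - u) * Real.log 2 := by
      field_simp
    rw [← e2]
    exact mul_le_mul_of_nonneg_left e1 hC0.le
  obtain ⟨J₂, hJ₂⟩ := exists_nat_ge (3 / δ + 4 / h)
  refine Bas.mono J₂ ((full (δ / 3) (by linarith)).and
    (Pool.GRW.tms_bas htm (show 0 < δ / 3 by linarith))) ?_
  rintro J hJ F A ⟨hF, hpA, hTm⟩ P₁ P' e' e₂ ρ₂ P₂ V₁ V₂ z₁ z₁' G₁ z₂ z₂' G₂ h₁ h₂ hρ hP' hu1 hu2
    he2
  have hJ2 : (J₂ : ℝ) ≤ J := by exact_mod_cast hJ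
  have hJ0 : (0 : ℝ) ≤ J := Nat.cast_nonneg J
  have f1 : 1 ≤ δ / 3 * J := by
    have e1 : 3 / δ ≤ J := by
      have : 0 < 4 / h := by positivity
      linarith
    rw [div_le_iff₀ hδ0] at e1
    linarith
  have f2 : 4 ≤ h * J := by
    have e1 : 4 / h ≤ J := by
      have : 0 < 3 / δ := by positivity
      linarith
    rw [div_le_iff₀ hh] at e1
    linarith
  obtain ⟨y, hy⟩ : ∃ y : ℝ, y = C * (δ / 3 * J + δ / 3 * J + 1) := ⟨_, rfl⟩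
  have hy0 : 0 ≤ y := by
    rw [hy]
    positivity
  have hy1 : y ≤ C * δ * J := by
    rw [hy]
    have e2 : δ / 3 * J + δ / 3 * J + 1 ≤ δ * J := by linarith
    calc C * (δ / 3 * J + δ / 3 * J + 1) ≤ C * (δ * J) := mul_le_mul_of_nonneg_left e2 hC0.le
      _ = C * δ * J := by ring
  obtain ⟨c, hc⟩ : ∃ c : ℕ, c = ⌈y / Real.log 2⌉₊ := ⟨_, rfl⟩
  have hc1 : Real.exp y ≤ 2 ^ c := by
    have e1 : y / Real.log 2 ≤ c := by
      rw [hc]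
      exact Nat.le_ceil _
    rw [div_le_iff₀ hl2] at e1
    have e2 : (2 : ℝ) ^ c = Real.exp (c * Real.log 2) := by
      rw [mul_comm, Real.exp_mul, Real.exp_log (by norm_num), Real.rpow_natCast]
    rw [e2]
    exact Real.exp_le_exp.2 e1
  have hc2 : (c : ℝ) ≤ h / 4 * J + 1 := by
    have e1 : (c : ℝ) < y / Real.log 2 + 1 := by
      rw [hc]
      exact Nat.ceil_lt_add_one (div_nonneg hy0 hl2.le)
    have e2 : y / Real.log 2 ≤ h / 4 * J := by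
      rw [div_le_iff₀ hl2]
      calc y ≤ C * δ * J := hy1
        _ ≤ h / 4 * Real.log 2 * J := mul_le_mul_of_nonneg_right hδ1 hJ0
        _ = h / 4 * J * Real.log 2 := by ring
    linarith
  have huJ : ⌊u * J⌋₊ ≤ J := floor_le hu.le J
  have huf : ((⌊u * J⌋₊ : ℕ) : ℝ) ≤ u * J := Nat.floor_le (by positivity)
  refine hlb J F A hpA I k ⌊w * J⌋₊ ⌊u * J⌋₊ J P₁ P' e' e₂ J ρ₂ P₂ c V₁ V₂ z₁ z₁' G₁ z₂ z₂' G₂
    (δ / 3 * J) (δ / 3 * J) (Nat.floor_le_floor (mul_le_mul_of_nonneg_right hwu hJ0)) huJ hρ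
    (by positivity) (by positivity) hTm h₁ h₂ ?_ ?_ ?_ ?_ ?_ ?_ ?_
  · exact hF (V₁ × V₂) (fun x => (z₁ x, z₂ x)) (fun x => (z₁' x, z₂' x)) (fun ω hω => by
      rw [h₁.cls ω hω, h₂.cls ω hω])
  · rw [← hy]
    refine hy1.trans ?_
    rw [Nat.cast_sub huJ]
    calc C * δ * J ≤ (1 - u) * Real.log 2 * J := mul_le_mul_of_nonneg_right hδ2 hJ0
      _ = (J - u * J) * Real.log 2 := by ring
      _ ≤ ((J : ℝ) - (⌊u * J⌋₊ : ℕ)) * Real.log 2 :=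
        mul_le_mul_of_nonneg_right (by linarith) hl2.le
  · rw [← hy]
    exact hc1
  · have : ((P' + c : ℕ) : ℝ) ≤ P₁ := by
      push_cast
      linarith
    exact_mod_cast this
  · have : ((⌊u * J⌋₊ + c + 2 : ℕ) : ℝ) ≤ ((P₁ + e' : ℕ) : ℝ) := by
      push_cast
      linarith
    exact_mod_cast this
  · have : ((⌊u * J⌋₊ + c + 2 : ℕ) : ℝ) ≤ ((P₂ + e' : ℕ) : ℝ) := by
      push_cast
      linarith
    exact_mod_cast this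
  · have : ((e₂ + 1 : ℕ) : ℝ) ≤ (e' : ℝ) := by
      push_cast
      linarith
    exact_mod_cast this

/-- The data to upgrade the labels of the position of `k` over `I` at the window `v`, of degree
`K` and precision `p`: the result has gradients at most `2 ^ (e J)`. -/
structure Upg (S : PCl m) (I : Finset (Fin m)) (k : Fin m) (K : ℕ) (v u p e : ℝ) : Prop where
  vu : v ≤ u
  u0 : 0 ≤ u
  u1 : u < 1
  ful : Ful S I v u
  ex : ∃ e₀ ρ₀ π₀ : ℝ, 0 ≤ e₀ ∧ e₀ < e ∧ ρ₀ ≤ u ∧ u < π₀ + e ∧ 0 ≤ π₀ ∧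
    AltE S I k K e₀ ρ₀ π₀ v
  pe : u < p + e
  p0 : 0 ≤ p

theorem Upg.sub {S S' : PCl m} (hs : ∀ (τ : ℝ) (J : ℕ) (F : Fam m J) (A : F.Ω → Prop),
    S'.St τ J F A → S.St τ J F A) {I : Finset (Fin m)} {k : Fin m} {K : ℕ} {v u p e : ℝ}
    (h : Upg S I k K v u p e) : Upg S' I k K v u p e := by
  obtain ⟨e₀, ρ₀, π₀, h1, h2, h3, h4, h5, h6⟩ := h.ex
  exact ⟨h.vu, h.u0, h.u1, h.ful.sub hs, ⟨e₀, ρ₀, π₀, h1, h2, h3, h4, h5, Bas.sub hs h6⟩, h.pe, h.p0⟩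

/-- **The upgrade.** -/
theorem Upg.up {S : PCl m} {C₀ : ℝ} (htm : TmC S C₀) {I : Finset (Fin m)} {k : Fin m} {K : ℕ}
    {v u p e : ℝ} (h : Upg S I k K v u p e) {σ : ℝ} (hσ : 0 < σ) :
    Bas S (fun J F A => ∀ (P : ℕ) (V : Type) (z : PtT F → V) (z' : LnT F → V)
      (G : V → MvPolynomial (Option (Fin m)) ℝ), LbP F I k K J ⌊v * J⌋₊ P A z z' G →
      (p + σ) * J ≤ P → ∃ B : F.Ω → Prop, Sub B A ∧ Pe F.p A / 4 ≤ Pe F.p B ∧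
        LbOK F I k K ⌊e * J⌋₊ J ⌊v * J⌋₊ ⌊u * J⌋₊ ⌊p * J⌋₊ B z z' G) := by
  obtain ⟨e₀, ρ₀, π₀, h1, h2, h3, h4, h5, h6⟩ := h.ex
  obtain ⟨χ, hχ⟩ : ∃ χ : ℝ, χ = min (min σ (e - e₀)) (min (π₀ + e - u) (p + e - u)) / 2 := ⟨_, rfl⟩
  have hpe := h.pe
  have hχ0 : 0 < χ := by
    rw [hχ]
    refine div_pos (lt_min (lt_min hσ (by linarith)) (lt_min (by linarith) (by linarith)))
      (by norm_num)
  have k1 : 2 * χ ≤ σ := by
    rw [hχ, mul_div_cancel₀ _ (by norm_num)]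
    exact (min_le_left _ _).trans (min_le_left _ _)
  have k2 : 2 * χ ≤ e - e₀ := by
    rw [hχ, mul_div_cancel₀ _ (by norm_num)]
    exact (min_le_left _ _).trans (min_le_right _ _)
  have k3 : 2 * χ ≤ π₀ + e - u := by
    rw [hχ, mul_div_cancel₀ _ (by norm_num)]
    exact (min_le_right _ _).trans (min_le_left _ _)
  have k4 : 2 * χ ≤ p + e - u := by
    rw [hχ, mul_div_cancel₀ _ (by norm_num)]
    exact (min_le_right _ _).trans (min_le_right _ _)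
  obtain ⟨J₁, hJ₁⟩ := exists_nat_ge (2 / χ)
  refine Bas.mono J₁ ((lbok_cls htm I k h.vu h.u0 h.u1 h.ful K hχ0).and h6) ?_
  rintro J hJ F A ⟨H, V₂, z₂, z₂', G₂, hG₂⟩ P V z z' G hG hP
  have hJ0 : (0 : ℝ) ≤ J := Nat.cast_nonneg J
  have hJ1 : 2 ≤ χ * J := by
    have e1 : (J₁ : ℝ) ≤ J := by exact_mod_cast hJ
    have e2 := hJ₁.trans e1
    rw [div_le_iff₀ hχ0] at e2
    linarith
  have hp0 := h.p0
  have he0 : 0 ≤ e := by linarith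
  have fl : ∀ x : ℝ, 0 ≤ x → ((⌊x * J⌋₊ : ℕ) : ℝ) ≤ x * J ∧ x * J - 1 ≤ (⌊x * J⌋₊ : ℕ) :=
    fun x hx => ⟨Nat.floor_le (mul_nonneg hx hJ0), by
      have := Nat.lt_floor_add_one (x * J)
      linarith⟩
  have mulJ : ∀ {x y : ℝ}, x ≤ y → x * J ≤ y * J := fun h => mul_le_mul_of_nonneg_right h hJ0
  refine H P ⌊p * J⌋₊ ⌊e * J⌋₊ ⌊e₀ * J⌋₊ ⌊ρ₀ * J⌋₊ ⌊π₀ * J⌋₊ V V₂ z z' G z₂ z₂' G₂ hG hG₂
    (Nat.floor_le_floor (mulJ h3)) ?_ ?_ ?_ ?_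
  · have := (fl p hp0).1
    have := mulJ k1
    have := mulJ (show χ ≤ 2 * χ by linarith)
    linarith
  · have := (fl e he0).2
    have := mulJ k4
    have := mulJ k1
    linarith
  · have := (fl e he0).2
    have := (fl π₀ h5).2
    have := mulJ k3
    linarith
  · have := (fl e he0).2
    have := (fl e₀ h1).1
    have := mulJ k2
    linarith

/-- An event which is all of a large event has probability one. -/
theorem Pb_all {Ω : Type} [Fintype Ω] {q : Ω → ℝ} (hq : IsLaw q) {Q : Ω → Prop}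
    (h : ∀ ω, 0 < q ω → Q ω) : Pb q Q = 1 := by
  classical
  unfold Pb
  rw [← hq.sum_one]
  refine Finset.sum_congr rfl fun ω _ => ?_
  rcases (hq.nonneg ω).eq_or_lt with h0 | h0
  · rw [← h0]
    simp
  · rw [if_pos (h ω h0)]

/-- **Blindness, for labels of the position.** -/
theorem blind_p {S : PCl m} {C₀ : ℝ} (htm : TmC S C₀) (hpos : ∀ (τ : ℝ) (J : ℕ) (F : Fam m J)
      (A : F.Ω → Prop), S.St τ J F A → 0 < Pe F.p A) {c : ℕ → Fin m} {r₀ : ℕ} {κ : Fin m}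
    {K K₁ Ku : ℕ} {w v e₀ ρ₀ π₀ u₁ e₁ p₁ u₂ e₂ p₂ sa sb x₀ gap σ : ℝ} {s : ℕ → ℝ}
    (hful : FulC S c r₀ (r₀ + 1) v s)
    (U₁ : Upg S ((range (r₀ + 1)).image c) κ K₁ v u₁ p₁ e₁)
    (U₂ : Upg S ((range r₀).image c) (c r₀) Ku v u₂ p₂ e₂)
    (hwv : w ≤ v) (hρ₀ : ρ₀ ≤ 1) (he₀ : 0 ≤ e₀) (h0 : e₀ + p₁ < 1)
    (h1 : e₁ + p₁ < 1) (h2 : e₂ + p₂ < 1) (hσ : 0 < σ) (hsa : sa ≤ p₁) (hsb : p₁ ≤ sb)
    (hπ : π₀ ≤ p₁) (hx₀ : p₂ - sa ≤ x₀)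
    (hgap : ((sb - p₁) + (s r₀ - p₂) + 3 * σ) * Real.log 2 ≤ gap) (hs1 : s r₀ + 3 * σ ≤ 1)
    (hroom : p₁ + s r₀ - π₀ + 3 * σ ≤ 1)
    (Ψ : ∀ (J : ℕ) (F : Fam m J), (F.Ω → Prop) → ∀ V : Type, (PtT F → V) → (LnT F → V) →
      (V → MvPolynomial (Option (Fin m)) ℝ) → Prop)
    (hΨl : ∀ (J : ℕ) (F : Fam m J) (A : F.Ω → Prop) (V : Type) (z : PtT F → V) (z' : LnT F → V)
      (G : V → MvPolynomial (Option (Fin m)) ℝ), Ψ J F A V z z' G →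
      LbOK F ((range (r₀ + 1)).image c) κ K ⌊e₀ * J⌋₊ J ⌊w * J⌋₊ ⌊ρ₀ * J⌋₊ ⌊π₀ * J⌋₊ A z z' G)
    (hΨs : ∀ (J : ℕ) (F : Fam m J) (A B : F.Ω → Prop) (V : Type) (z : PtT F → V)
      (z' : LnT F → V) (G : V → MvPolynomial (Option (Fin m)) ℝ), Sub B A →
      Ψ J F A V z z' G → Ψ J F B V z z' G)
    (hrow : Bas S (fun J F A => ∀ (V : Type) (z : PtT F → V) (z' : LnT F → V)
      (G : V → MvPolynomial (Option (Fin m)) ℝ), Ψ J F A V z z' G →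
      CH (Pool.Agent.H49.Ent.cond F.p A True) (xa F κ z' ⌊w * J⌋₊ G sb)
        (ya F ((range r₀).image c) κ z' ⌊w * J⌋₊ G sa) ≤
        ((sb - sa) * Real.log 2 - gap) * J)) {η χ : ℝ} (hη : 0 < η) (hχ : 0 < χ) :
    Bas S (fun J F A => ∀ (V : Type) (z : PtT F → V) (z' : LnT F → V)
      (G : V → MvPolynomial (Option (Fin m)) ℝ), Ψ J F A V z z' G →
      ∀ (P₁ : ℕ) (V₁ : Type) (z₁ : PtT F → V₁) (z₁' : LnT F → V₁)
      (G₁ : V₁ → MvPolynomial (Option (Fin m)) ℝ),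
      LbP F ((range (r₀ + 1)).image c) κ K₁ J ⌊v * J⌋₊ P₁ A z₁ z₁' G₁ → (p₁ + χ) * J ≤ P₁ →
      ∀ (P₂ : ℕ) (V₂ : Type) (z₂ : PtT F → V₂) (z₂' : LnT F → V₂)
      (H : V₂ → MvPolynomial (Option (Fin m)) ℝ),
      LbP F ((range r₀).image c) (c r₀) Ku J ⌊v * J⌋₊ P₂ A z₂ z₂' H → (p₂ + χ) * J ≤ P₂ →
      Pb (Pool.Agent.H49.Ent.cond F.p A True) (fun ω => (2 : ℝ) ^ (x₀ * J) ≤
        |eval (xr F ω) (pderiv (some (c r₀)) (G₁ (z₁' (slam F ⌊v * J⌋₊ ω)) -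
          G (z' (slam F ⌊w * J⌋₊ ω))))|) ≤ η) := by
  classical
  have hv : v ≤ 1 := U₁.vu.trans U₁.u1.le
  have he₁ : 0 ≤ e₁ := by
    obtain ⟨x, _, _, k1, k2, _⟩ := U₁.ex
    linarith
  have he₂ : 0 ≤ e₂ := by
    obtain ⟨x, _, _, k1, k2, _⟩ := U₂.ex
    linarith
  have key := blind_cls hpos hful hwv hv hρ₀ U₁.u1.le U₂.u1.le he₀ he₁ he₂ h0 h1 h2 hσ hsa hsb hπ
    hx₀ hgap hs1 hroom Ψ hΨl hΨs hrow (K₁ := K₁) (Ku := Ku) (η := 1 / 2) (by norm_num)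
  refine Bas.mono 0 (((Pool.GRW.bas_part (U₁.up htm hχ) (c := 1 / η) (by positivity)).and
    (Pool.GRW.bas_part (U₂.up htm hχ) (c := 4 / η) (by positivity))).and
    ((Pool.GRW.bas_part key (c := 16 / η) (by positivity)).and (pos_bas hpos))) ?_
  rintro J - F A ⟨⟨H1, H2⟩, H3, hA⟩ V z z' G hΨ P₁ V₁ z₁ z₁' G₁ hG₁ hP₁ P₂ V₂ z₂ z₂' H hH hP₂
  by_contra hcon
  push Not at hcon
  rw [Pb_cond hA] at hcon
  obtain ⟨R, hR⟩ : ∃ R : F.Ω → Prop, R = fun ω => A ω ∧ (2 : ℝ) ^ (x₀ * J) ≤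
        |eval (xr F ω) (pderiv (some (c r₀)) (G₁ (z₁' (slam F ⌊v * J⌋₊ ω)) -
          G (z' (slam F ⌊w * J⌋₊ ω))))| := ⟨_, rfl⟩
  rw [← hR, lt_div_iff₀ hA] at hcon
  have hRA : Sub R A := fun ω hω => by
    rw [hR] at hω
    exact hω.1
  have hR1 : Pe F.p A ≤ 1 / η * Pe F.p R := by
    rw [one_div, ← div_eq_inv_mul, le_div_iff₀ hη]
    linarith
  obtain ⟨B₁, b1, b2, b3⟩ := H1 R hRA hR1 P₁ V₁ z₁ z₁' G₁ (hG₁.sub hRA) hP₁
  have b2' : Pe F.p A ≤ 4 / η * Pe F.p B₁ := by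
    have : 1 / η * Pe F.p R ≤ 1 / η * (4 * Pe F.p B₁) :=
      mul_le_mul_of_nonneg_left (by linarith) (by positivity)
    calc Pe F.p A ≤ 1 / η * (4 * Pe F.p B₁) := hR1.trans this
      _ = 4 / η * Pe F.p B₁ := by ring
  have hB₁A : Sub B₁ A := fun ω hω => hRA ω (b1 ω hω)
  obtain ⟨B₂, d1, d2, d3⟩ := H2 B₁ hB₁A b2' P₂ V₂ z₂ z₂' H (hH.sub hB₁A) hP₂
  have d2' : Pe F.p A ≤ 16 / η * Pe F.p B₂ := by
    have : 4 / η * Pe F.p B₁ ≤ 4 / η * (4 * Pe F.p B₂) :=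
      mul_le_mul_of_nonneg_left (by linarith) (by positivity)
    calc Pe F.p A ≤ 4 / η * (4 * Pe F.p B₂) := b2'.trans this
      _ = 16 / η * Pe F.p B₂ := by ring
  have hB₂A : Sub B₂ A := fun ω hω => hB₁A ω (d1 ω hω)
  have hB₂0 : 0 < Pe F.p B₂ := by
    by_contra hneg
    push Not at hneg
    have h5 : 16 / η * Pe F.p B₂ ≤ 0 := mul_nonpos_of_nonneg_of_nonpos (by positivity) hneg
    linarith
  have h6 := H3 B₂ hB₂A d2' V z z' G (hΨs J F A B₂ V z z' G hB₂A hΨ) V₁ z₁ z₁' G₁ (b3.sub d1)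
    V₂ z₂ z₂' H d3
  rw [Pb_all (isLaw_cond F.isLaw hB₂0) (fun ω hω => by
    have h7 := b1 ω (d1 ω (of_cond_pos hω))
    rw [hR] at h7
    exact h7.2)] at h6
  norm_num at h6

end Pool.ALT
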