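import Pool.Agent.H60.ALT.Are

/-!
# Natural labels of two windows over one label of the family

`NzQ`: the natural labels of the windows `v` and `a` over the same label of the family. `nzq_ex`:
their existence on a part; `nzq_rec`: on all events of a subclass with the same record.
-/

set_option autoImplicit false

namespace Pool.ALT

open Finset Real MvPolynomial
open Pool.Agent.H49.Ent Pool.Agent.H32.Dense Pool.STK Pool.KA Pool.KSAT Pool.K2S Pool.PB Pool.S6C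
  Pool.GEN Pool.RCD Pool.LA91 Pool.OWN68 Pool.PKG
open Pool.UNJ (ceI)
open Pool.GRD (LbP)
open Pool.V0F (her_extc)

/-- **The natural labels of the window `v`** for which there is a natural label of the window `a`
over the same label of the family `Ψ`. -/
def NzQ {m : ℕ} (Ψ : Fml m) (c : ℕ → Fin m) (r₀ : ℕ) (κ : Fin m) (K K₁ Ku Kb : ℕ)
    (w v p₁ p₂ e u p a pa₁ pa₂ ea ua pa : ℝ) : Fml m := fun J F A V z z' G =>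
  ∃ (V₀ V₁ V₂ : Type) (z₀ : PtT F → V₀) (z₀' : LnT F → V₀)
    (G₀ : V₀ → MvPolynomial (Option (Fin m)) ℝ) (P₁ : ℕ) (z₁ : PtT F → V₁) (z₁' : LnT F → V₁)
    (G₁ : V₁ → MvPolynomial (Option (Fin m)) ℝ) (P₂ : ℕ) (z₂ : PtT F → V₂)
    (z₂' : LnT F → V₂) (H : V₂ → MvPolynomial (Option (Fin m)) ℝ)
    (f : V → V₀ × (V₁ × V₂)), Ψ J F A V₀ z₀ z₀' G₀ ∧
      NzL c r₀ κ K K₁ Kb w v p₁ p₂ e u p F A z z' G z₀' G₀ P₁ z₁ z₁' G₁ P₂ z₂ z₂' H f ∧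
      ∃ (Va Y₁ Y₂ : Type) (za : PtT F → Va) (za' : LnT F → Va)
        (Ga : Va → MvPolynomial (Option (Fin m)) ℝ) (Q₁ : ℕ) (y₁ : PtT F → Y₁) (y₁' : LnT F → Y₁)
        (B₁ : Y₁ → MvPolynomial (Option (Fin m)) ℝ) (Q₂ : ℕ) (y₂ : PtT F → Y₂)
        (y₂' : LnT F → Y₂) (B₂ : Y₂ → MvPolynomial (Option (Fin m)) ℝ)
        (fa : Va → V₀ × (Y₁ × Y₂)),
        NzL c r₀ κ K K₁ Ku w a pa₁ pa₂ ea ua pa F A za za' Ga z₀' G₀ Q₁ y₁ y₁' B₁ Q₂ y₂ y₂'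
          B₂ fa

variable {m : ℕ} {Ψ : Fml m} {c : ℕ → Fin m} {r₀ : ℕ} {κ : Fin m} {K K₁ Ku Kb : ℕ}
  {w v p₁ p₂ e u p a pa₁ pa₂ ea ua pa : ℝ}

theorem NzQ.hs (hΨs : ∀ (J : ℕ) (F : Fam m J) (A B : F.Ω → Prop) (V : Type)
      (z : PtT F → V) (z' : LnT F → V) (G : V → MvPolynomial (Option (Fin m)) ℝ), Sub B A →
      Ψ J F A V z z' G → Ψ J F B V z z' G) (J : ℕ) (F : Fam m J) (A B : F.Ω → Prop) (V : Type)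
    (z : PtT F → V) (z' : LnT F → V) (G : V → MvPolynomial (Option (Fin m)) ℝ) (hB : Sub B A)
    (h : NzQ Ψ c r₀ κ K K₁ Ku Kb w v p₁ p₂ e u p a pa₁ pa₂ ea ua pa J F A V z z' G) :
    NzQ Ψ c r₀ κ K K₁ Ku Kb w v p₁ p₂ e u p a pa₁ pa₂ ea ua pa J F B V z z' G := by
  obtain ⟨V₀, V₁, V₂, z₀, z₀', G₀, P₁, z₁, z₁', G₁, P₂, z₂, z₂', H, f, h1, h2, Va, Y₁, Y₂, za, za',
    Ga, Q₁, y₁, y₁', B₁, Q₂, y₂, y₂', B₂, fa, h3⟩ := h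
  exact ⟨V₀, V₁, V₂, z₀, z₀', G₀, P₁, z₁, z₁', G₁, P₂, z₂, z₂', H, f,
    hΨs J F A B V₀ z₀ z₀' G₀ hB h1, h2.sub hB, Va, Y₁, Y₂, za, za', Ga, Q₁, y₁, y₁', B₁, Q₂, y₂,
    y₂', B₂, fa, h3.sub hB⟩

theorem NzQ.nzf {J : ℕ} {F : Fam m J} {A : F.Ω → Prop} {V : Type}
    {z : PtT F → V} {z' : LnT F → V} {G : V → MvPolynomial (Option (Fin m)) ℝ}
    (h : NzQ Ψ c r₀ κ K K₁ Ku Kb w v p₁ p₂ e u p a pa₁ pa₂ ea ua pa J F A V z z' G) :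
    NzF Ψ c r₀ κ K K₁ Kb w v p₁ p₂ e u p J F A V z z' G := by
  obtain ⟨V₀, V₁, V₂, z₀, z₀', G₀, P₁, z₁, z₁', G₁, P₂, z₂, z₂', H, f, h1, h2, -⟩ := h
  exact ⟨V₀, V₁, V₂, z₀, z₀', G₀, P₁, z₁, z₁', G₁, P₂, z₂, z₂', H, f, h1, h2⟩

/-- **More code**: a label with a finer code is a label of the family. -/
theorem NzQ.code {J : ℕ} {F : Fam m J} {A : F.Ω → Prop} {V V' : Type}
    {z : PtT F → V} {z' : LnT F → V} {G : V → MvPolynomial (Option (Fin m)) ℝ}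
    (h : NzQ Ψ c r₀ κ K K₁ Ku Kb w v p₁ p₂ e u p a pa₁ pa₂ ea ua pa J F A V z z' G)
    (y : PtT F → V') (y' : LnT F → V') (φ : V' → V) (h1 : ∀ x, φ (y' x) = z' x)
    (h2 : ∀ ω, A ω → y (ptr F J ω) = y' (slam F ⌊v * J⌋₊ ω)) :
    NzQ Ψ c r₀ κ K K₁ Ku Kb w v p₁ p₂ e u p a pa₁ pa₂ ea ua pa J F A V' y y'
      (fun x => G (φ x)) := by
  obtain ⟨V₀, V₁, V₂, z₀, z₀', G₀, P₁, z₁, z₁', G₁, P₂, z₂, z₂', H, f, a1, a2, a3⟩ := h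
  refine ⟨V₀, V₁, V₂, z₀, z₀', G₀, P₁, z₁, z₁', G₁, P₂, z₂, z₂', H, fun x => f (φ x), a1, ?_, a3⟩
  refine ⟨a2.l1, a2.q1, a2.l2, a2.q2, fun x => ?_, fun x => a2.pol _, ?_⟩
  · rw [h1, a2.cod]
  · refine ⟨fun x => a2.lb.deg _, fun x => a2.lb.dep _, h2, fun ω hω => ?_, fun ω hω => ?_,
      fun ω hω => ?_⟩
    · simp only [h1]
      exact a2.lb.pos ω hω
    · simp only [h1]
      exact a2.lb.vel ω hω
    · simp only [h1]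
      exact a2.lb.lip ω hω

/-- **The pairs of natural labels exist on a part.** -/
theorem nzq_ex {S : PCl m} (hN : NzO S Ψ c r₀ κ K K₁ Ku w a pa₁ pa₂ ea ua pa)
    (hΨs : ∀ (J : ℕ) (F : Fam m J) (A B : F.Ω → Prop) (V : Type)
      (z : PtT F → V) (z' : LnT F → V) (G : V → MvPolynomial (Option (Fin m)) ℝ), Sub B A →
      Ψ J F A V z z' G → Ψ J F B V z z' G)
    (hex : Bas S (fun J F A => ∃ (V : Type) (z : PtT F → V) (z' : LnT F → V)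
      (G : V → MvPolynomial (Option (Fin m)) ℝ),
      NzF Ψ c r₀ κ K K₁ Kb w v p₁ p₂ e u p J F A V z z' G))
    (h1 : Bas S (fun J F A => ∃ (P₁ : ℕ) (V₁ : Type) (z₁ : PtT F → V₁) (z₁' : LnT F → V₁)
      (G₁ : V₁ → MvPolynomial (Option (Fin m)) ℝ),
      LbP F ((range (r₀ + 1)).image c) κ K₁ J ⌊a * J⌋₊ P₁ A z₁ z₁' G₁ ∧ pa₁ * J ≤ P₁))
    (h2 : Bas S (fun J F A => ∃ (P₂ : ℕ) (V₂ : Type) (z₂ : PtT F → V₂) (z₂' : LnT F → V₂)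
      (H : V₂ → MvPolynomial (Option (Fin m)) ℝ),
      LbP F ((range r₀).image c) (c r₀) Ku J ⌊a * J⌋₊ P₂ A z₂ z₂' H ∧ pa₂ * J ≤ P₂)) :
    Bas S (fun J F A => ∃ B : F.Ω → Prop, Sub B A ∧ Pe F.p A ≤ 8 * Pe F.p B ∧
      ∃ (V : Type) (z : PtT F → V) (z' : LnT F → V)
        (G : V → MvPolynomial (Option (Fin m)) ℝ),
        NzQ Ψ c r₀ κ K K₁ Ku Kb w v p₁ p₂ e u p a pa₁ pa₂ ea ua pa J F B V z z' G) := by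
  refine Bas.mono 0 (((hN 1 one_pos).and hex).and (h1.and h2)) ?_
  rintro J - F A ⟨⟨HN, V, z, z', G, V₀, V₁, V₂, z₀, z₀', G₀, P₁, z₁, z₁', G₁, P₂, z₂, z₂', H, f,
    a1, a2⟩, ⟨Q₁, Y₁, y₁, y₁', B₁, hB₁, hQ₁⟩, Q₂, Y₂, y₂, y₂', B₂, hB₂, hQ₂⟩
  obtain ⟨B, b1, b2, b3⟩ := HN V₀ z₀ z₀' G₀ a1 Q₁ Y₁ y₁ y₁' B₁ hB₁ hQ₁ Q₂ Y₂ y₂ y₂' B₂ hB₂ hQ₂ A
    (fun ω h => h) (by rw [div_one, one_mul])
  exact ⟨B, b1, b2, V, z, z', G, V₀, V₁, V₂, z₀, z₀', G₀, P₁, z₁, z₁', G₁, P₂, z₂, z₂', H, f,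
    hΨs J F A B V₀ z₀ z₀' G₀ b1 a1, a2.sub b1, _, Y₁, Y₂, _, _, _, Q₁, y₁, y₁', B₁, Q₂, y₂, y₂',
    B₂, id, hB₁.sub b1, hQ₁, hB₂.sub b1, hQ₂, fun _ => rfl, fun _ => rfl, b3⟩

/-- **The pairs of natural labels on all events** of a subclass with the same record. -/
theorem nzq_rec {S : PCl m} {al : ℝ} {g₀ : ℝ → ℝ} {P : List (Fin m) × Fin m → ℝ → ℝ → ℝ}
    {θ : ℝ} {P₂ : ℕ → List (Fin m) × Fin m → ℝ → ℝ → ℝ} {θ₂ Eb e₂ : ℕ → ℝ}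
    {c : ℕ → Fin m} {Pt : ℝ → ℝ → ℝ} {r : ℝ → ℝ} {hr K₀ g : ℝ} {L T : ℕ → ℝ → ℝ → ℝ}
    {Sl : ℕ → ℝ} {κg : ℕ → Kg} {G : Set ℝ} {S₀ N : ℕ} {A V : ℕ → ℝ} {S₂ N' : ℕ} {V' : ℕ → ℝ}
    {K ε q t : ℝ}
    (Rc : RecG S al g₀ P θ P₂ θ₂ Eb e₂ c Pt r hr K₀ g L T Sl κg G S₀ N A V S₂ N' V' K ε q t)
    {Ψ : Fml m} {D : ℕ} {w v a p q' r' n h d p₁ p₂ eN uN pN : ℝ}
    (H : AlpD S Ψ c r₀ κ D w v a p q' r' n h d p₁ p₂ eN uN pN)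
    (hex : Bas S (fun J F A => ∃ (V : Type) (z : PtT F → V) (z' : LnT F → V)
      (G : V → MvPolynomial (Option (Fin m)) ℝ),
      NzF Ψ c r₀ κ D D D w v p₁ p₂ eN uN pN J F A V z z' G)) :
    ∃ S' : PCl m, (∀ (τ : ℝ) (J : ℕ) (F : Fam m J) (A : F.Ω → Prop),
        S'.St τ J F A → S.St τ J F A) ∧
      RecG S' al g₀ P θ P₂ θ₂ Eb e₂ c Pt r hr K₀ g L T Sl κg G S₀ N A V S₂ N' V' K ε q t ∧
      ∃ pa₁ pa₂ ea ua pa : ℝ, 0 ≤ ea ∧ p + q' ≤ pa ∧ p + q' + ea < n ∧ ua ≤ n ∧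
      NzO S' Ψ c r₀ κ D D D w a pa₁ pa₂ ea ua pa ∧
      Bas S' (fun J F A => ∃ (V : Type) (z : PtT F → V) (z' : LnT F → V)
        (G : V → MvPolynomial (Option (Fin m)) ℝ),
        NzQ Ψ c r₀ κ D D D D w v p₁ p₂ eN uN pN a pa₁ pa₂ ea ua pa J F A V z z' G) := by
  classical
  obtain ⟨pa₁, pa₂, ea, ua, pa, t1, t2, t3, t4, t5, t6, t7⟩ := H.top
  have hex2 := nzq_ex (Kb := D) t5 H.hs hex t6 t7
  obtain ⟨S', h1, h2, h3⟩ := her_extc (ι := Unit) Rc.ne (fun _ J F A =>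
      ∃ (V : Type) (z : PtT F → V) (z' : LnT F → V)
        (G : V → MvPolynomial (Option (Fin m)) ℝ),
        NzQ Ψ c r₀ κ D D D D w v p₁ p₂ eN uN pN a pa₁ pa₂ ea ua pa J F A V z z' G)
    (fun _ J F A B hB => by
      rintro ⟨V, z, z', G, hG⟩
      exact ⟨V, z, z', G, NzQ.hs H.hs J F A B V z z' G hB hG⟩) (fun _ => ⟨8, hex2⟩)
  exact ⟨S', h2, Rc.sub h1 h2, pa₁, pa₂, ea, ua, pa, t1, t2, t3, t4, t5.sub h2, h3 ()⟩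

end Pool.ALT
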