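import Pool.Agent.H60.ALT.Nzh

/-!
# The rows of the natural labels

`nzf_row`: the rows of the natural labels given the exact point of the base, from the rows of the
family. `nzf_rown`: given its near digits and the closed codes.
-/

set_option autoImplicit false

namespace Pool.ALT

open Finset Real MvPolynomial
open Pool.Agent.H49.Ent Pool.Agent.H32.Dense Pool.STK Pool.KA Pool.KSAT Pool.K2S Pool.PB Pool.S6C
  Pool.GEN Pool.RCD Pool.LA91 Pool.OWN68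
open Pool.UNJ (ceI)
open Pool.GRW (xr xr_near)
open Pool.BFL (Pb)
open Pool.GRD (LbP)
open Pool.LIV (Pb_mono25 Pb_or25)

/-- The scales of a height, at the finest digits. -/
theorem few_numJ {m J : ℕ} {s ea eN E : ℝ} (hea : ea ≤ E)
    (heN : eN ≤ E) (he0 : 0 ≤ ea) (he1 : 0 ≤ eN)
    (hm : Real.log (4 * (m + 1)) ≤ (1 - s - E) * Real.log 2 * J) :
    (2 : ℝ) ^ (s * J) * ((2 ^ ⌊ea * J⌋₊ + 2 ^ ⌊eN * J⌋₊) * ((m + 1) * (1 / 2 ^ J))) ≤ 1 := by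
  have hJ0 : (0 : ℝ) ≤ J := Nat.cast_nonneg J
  have hm0 : (0 : ℝ) ≤ m := Nat.cast_nonneg m
  have p0 : ∀ x : ℝ, (0 : ℝ) < 2 ^ x := fun x => Real.rpow_pos_of_pos (by norm_num) _
  have a3 : (2 : ℝ) ^ ⌊ea * J⌋₊ ≤ 2 ^ (E * J) := (p2_le (mul_nonneg he0 hJ0)).trans
    (p2_mono hea)
  have a4 : (2 : ℝ) ^ ⌊eN * J⌋₊ ≤ 2 ^ (E * J) := (p2_le (mul_nonneg he1 hJ0)).trans
    (p2_mono heN)
  have a5 : (1 : ℝ) / 2 ^ J = 2 ^ (-(J : ℝ)) := by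
    rw [Real.rpow_neg (by norm_num), Real.rpow_natCast, one_div]
  calc (2 : ℝ) ^ (s * J) * ((2 ^ ⌊ea * J⌋₊ + 2 ^ ⌊eN * J⌋₊) * ((m + 1) * (1 / 2 ^ J)))
      ≤ 2 ^ (s * J) * ((2 ^ (E * J) + 2 ^ (E * J)) * ((m + 1) * (1 / 2 ^ J))) := by
        refine mul_le_mul_of_nonneg_left ?_ (p0 _).le
        exact mul_le_mul_of_nonneg_right (add_le_add a3 a4) (by positivity)
    _ = (2 * (m + 1)) * 2 ^ (s * J + E * J + -(J : ℝ)) := by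
        rw [a5, Real.rpow_add (by norm_num), Real.rpow_add (by norm_num)]
        ring
    _ = (2 * (m + 1)) * 2 ^ (-((1 - s - E) * J)) := by
        congr 2
        ring
    _ ≤ (4 * (m + 1)) * 2 ^ (-((1 - s - E) * J)) := by
        refine mul_le_mul_of_nonneg_right ?_ (p0 _).le
        linarith
    _ ≤ 1 := by
        rw [Real.rpow_neg (by norm_num), ← div_eq_mul_inv, div_le_one (p0 _), ← exp_p2]
        calc (4 * ((m : ℝ) + 1)) = Real.exp (Real.log (4 * (m + 1))) :=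
              (Real.exp_log (by positivity)).symm
          _ ≤ Real.exp ((1 - s - E) * J * Real.log 2) := Real.exp_le_exp.2 (by linarith)

/-- **The rows of the natural labels**, given the exact point of the base. -/
theorem nzf_row {m : ℕ} {S : PCl m}
    (hpos : ∀ (τ : ℝ) (J : ℕ) (F : Fam m J) (A : F.Ω → Prop), S.St τ J F A → 0 < Pe F.p A)
    {Ψ : Fml m} {c : ℕ → Fin m} {r₀ : ℕ} {κ : Fin m} {K K₁ Kb : ℕ}
    {w v p₁ p₂ eN uN pN e₀ ρ₀ π₀ sa sb d : ℝ}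
    (hΨl : ∀ (J : ℕ) (F : Fam m J) (A : F.Ω → Prop) (V : Type) (z : PtT F → V) (z' : LnT F → V)
      (G : V → MvPolynomial (Option (Fin m)) ℝ), Ψ J F A V z z' G →
      LbOK F ((range (r₀ + 1)).image c) κ K ⌊e₀ * J⌋₊ J ⌊w * J⌋₊ ⌊ρ₀ * J⌋₊ ⌊π₀ * J⌋₊ A z z' G)
    (hwv : w ≤ v) (hv : v ≤ 1) (heN : 0 ≤ eN) (he₀ : 0 ≤ e₀) (huN : uN ≤ 1) (hρ₀ : ρ₀ ≤ 1)
    (hsN : sb + eN < 1) (hs₀ : sb + e₀ < 1) (hsab : sa ≤ sb)
    (hrow : Bas S (fun J F A => ∀ (V : Type) (z : PtT F → V) (z' : LnT F → V)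
      (G : V → MvPolynomial (Option (Fin m)) ℝ), Ψ J F A V z z' G →
      CH (Pool.Agent.H49.Ent.cond F.p A True) (xa F κ z' ⌊w * J⌋₊ G sb)
        (ya F ((range r₀).image c) κ z' ⌊w * J⌋₊ G sa) ≤ d * J)) :
    Bas S (fun J F A => ∀ (V : Type) (z : PtT F → V) (z' : LnT F → V)
      (G : V → MvPolynomial (Option (Fin m)) ℝ),
      NzF Ψ c r₀ κ K K₁ Kb w v p₁ p₂ eN uN pN J F A V z z' G →
      CH (Pool.Agent.H49.Ent.cond F.p A True)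
        (fun ω => ⌊(2 : ℝ) ^ (sb * J) * ojet F κ 0 (G (z' (slam F ⌊v * J⌋₊ ω))) ω⌋)
        (fun ω => (⌊(2 : ℝ) ^ (sa * J) * ojet F κ 0 (G (z' (slam F ⌊v * J⌋₊ ω))) ω⌋,
          (ceI ((range r₀).image c) (fun _ => J) (F.x ω),
            (z' (slam F ⌊v * J⌋₊ ω), F.W ω)))) ≤ d * J + 2 * Real.log 9) := by
  classical
  obtain ⟨E, hE⟩ : ∃ E : ℝ, E = max eN e₀ := ⟨_, rfl⟩
  have hEn : 0 < 1 - sb - E := by
    rw [hE]
    rcases max_cases eN e₀ with ⟨h, -⟩ | ⟨h, -⟩ <;> rw [h] <;> linarith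
  have hl2 : 0 < Real.log 2 := Real.log_pos one_lt_two
  obtain ⟨J₁, hJ₁⟩ := exists_nat_ge (Real.log (4 * (m + 1)) / ((1 - sb - E) * Real.log 2))
  refine Bas.mono J₁ (hrow.and (pos_bas hpos)) ?_
  rintro J hJ F A ⟨HR, hA⟩ V z z' G hΨ
  have hJ0 : (0 : ℝ) ≤ J := Nat.cast_nonneg J
  have j1 : Real.log (4 * (m + 1)) ≤ (1 - sb - E) * Real.log 2 * J := by
    have e1 : (J₁ : ℝ) ≤ J := by exact_mod_cast hJ
    have e2 := hJ₁.trans e1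
    rw [div_le_iff₀ (by positivity)] at e2
    linarith
  obtain ⟨V₀, U₁, U₂, z₀, z₀', G₀, Q₁, y₁, y₁', B₁, Q₂, y₂, y₂', B₂, f, hΨ₀, hL⟩ := hΨ
  have hlb := hΨl J F A V₀ z₀ z₀' G₀ hΨ₀
  have hq := isLaw_cond F.isLaw hA
  obtain ⟨f1, f2⟩ := floorw hwv hv J
  have p0 : ∀ x : ℝ, (0 : ℝ) < 2 ^ x := fun x => Real.rpow_pos_of_pos (by norm_num) _
  have hfz : ∀ ω, f (z' (slam F ⌊v * J⌋₊ ω)) = (z₀' (slam F ⌊w * J⌋₊ ω),
      (y₁' (slam F ⌊v * J⌋₊ ω), y₂' (slam F ⌊v * J⌋₊ ω))) := fun ω => by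
    rw [hL.cod, wz_slam z₀' f1 f2]
  have key := shift_row hq (fun ω => hgt F κ z₀' ⌊w * J⌋₊ G₀ ω)
    (fun ω => ojet F κ 0 (G (z' (slam F ⌊v * J⌋₊ ω))) ω)
    (fun y : (Fin m → ℤ) × (V × (ℕ × F.ζ)) => eval (Pool.LA91.bx ((range r₀).image c) J J
      y.2.2.1 y.1) (sbu (c r₀) (B₂ (f y.2.1).2.2) (B₁ (f y.2.1).2.1 - G₀ (f y.2.1).1)))
    (fun ω => (ceI ((range r₀).image c) (fun _ => J) (F.x ω), (z' (slam F ⌊v * J⌋₊ ω), F.W ω)))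
    (a := 2 ^ (sa * J)) (b := 2 ^ (sb * J)) (p0 _).le (p2_mono hsab) (by
      intro ω hω
      have hAω := of_cond_pos hω
      have e1 : F.W ω = (F.T ω, F.Z ω) := rfl
      dsimp only
      rw [hfz, e1]
      dsimp only
      obtain ⟨Φ, hΦ⟩ : ∃ Φ : MvPolynomial (Option (Fin m)) ℝ, Φ =
        sbu (c r₀) (B₂ (y₂' (slam F ⌊v * J⌋₊ ω))) (B₁ (y₁' (slam F ⌊v * J⌋₊ ω)) -
          G₀ (z₀' (slam F ⌊w * J⌋₊ ω))) := ⟨_, rfl⟩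
      rw [← hΦ]
      have hΦ2 : Φ = G (z' (slam F ⌊v * J⌋₊ ω)) - G₀ (z₀' (slam F ⌊w * J⌋₊ ω)) := by
        rw [hΦ, hL.pol, hfz]
        unfold nzG
        ring
      have hdep : DpI ((range r₀).image c) Φ := by
        rw [hΦ]
        exact sbu_dep (DpI.sub (hL.l1.dep _) (hlb.dep _)) (hL.l2.dep _)
      have hnv := near_val (F := F) (ω := ω) (n := J) (ρ := J) le_rfl
        (fun b hb o => hL.lb.lip ω hAω b (fun o => (hb o).trans (inv_mono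
          (floor_le huN J))) o)
        (fun b hb o => hlb.lip ω hAω b (fun o => (hb o).trans (inv_mono
          (floor_le hρ₀ J))) o) hΦ2 hdep
      have hnum := few_numJ (m := m) (J := J) (by rw [hE]; exact le_max_left eN e₀)
        (by rw [hE]; exact le_max_right eN e₀) heN he₀ j1
      have e2 : ojet F κ 0 (G (z' (slam F ⌊v * J⌋₊ ω))) ω -
          (hgt F κ z₀' ⌊w * J⌋₊ G₀ ω - eval (Pool.LA91.bx ((range r₀).image c) J J (F.T ω)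
            (ceI ((range r₀).image c) (fun _ => J) (F.x ω))) Φ) =
          -(eval (bt F ω) Φ - eval (Pool.LA91.bx ((range r₀).image c) J J (F.T ω)
            (ceI ((range r₀).image c) (fun _ => J) (F.x ω))) Φ) := by
        have e3 : ojet F κ 0 (G (z' (slam F ⌊v * J⌋₊ ω))) ω =
          F.x ω κ - eval (bt F ω) (G (z' (slam F ⌊v * J⌋₊ ω))) := hgt_eq F κ z' _ G ω
        have e4 : eval (bt F ω) Φ = eval (bt F ω) (G (z' (slam F ⌊v * J⌋₊ ω))) -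
            eval (bt F ω) (G₀ (z₀' (slam F ⌊w * J⌋₊ ω))) := by
          rw [hΦ2, map_sub]
        rw [e3, hgt_eq, e4]
        ring
      rw [e2, abs_neg]
      exact (mul_le_mul_of_nonneg_left hnv (p0 _).le).trans hnum)
  refine key.trans ?_
  have h1 := HR V₀ z₀ z₀' G₀ hΨ₀
  have h2 : CH (Pool.Agent.H49.Ent.cond F.p A True)
      (fun ω => ⌊(2 : ℝ) ^ (sb * J) * hgt F κ z₀' ⌊w * J⌋₊ G₀ ω⌋)
      (fun ω => (⌊(2 : ℝ) ^ (sa * J) * hgt F κ z₀' ⌊w * J⌋₊ G₀ ω⌋,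
        (ceI ((range r₀).image c) (fun _ => J) (F.x ω), (z' (slam F ⌊v * J⌋₊ ω), F.W ω)))) ≤
      CH (Pool.Agent.H49.Ent.cond F.p A True) (xa F κ z₀' ⌊w * J⌋₊ G₀ sb)
        (ya F ((range r₀).image c) κ z₀' ⌊w * J⌋₊ G₀ sa) := by
    refine CH_mono_cond hq.nonneg fun ω ω' _ _ e => ?_
    simp only [Prod.mk.injEq] at e
    obtain ⟨k1, k2, k3, k4⟩ := e
    unfold ya xa
    have k5 : z₀' (slam F ⌊w * J⌋₊ ω) = z₀' (slam F ⌊w * J⌋₊ ω') := by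
      have a1 := hfz ω
      have a2 := hfz ω'
      rw [k3, a2] at a1
      exact (Prod.ext_iff.mp a1).1.symm
    rw [k1, k2, k4, k5]
  linarith

/-- **The rows of the natural labels**, given the near digits of the base. -/
theorem nzf_rown {m : ℕ} {S : PCl m}
    (hpos : ∀ (τ : ℝ) (J : ℕ) (F : Fam m J) (A : F.Ω → Prop), S.St τ J F A → 0 < Pe F.p A)
    {Ψ : Fml m} {c : ℕ → Fin m} {r₀ : ℕ} {κ : Fin m} {K K₁ Ku Kb : ℕ}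
    {w v p₁ p₂ eN uN pN e₀ ρ₀ π₀ sa sb d a pa₁ pa₂ ea ua pa n : ℝ}
    (hNz : NzO S Ψ c r₀ κ K K₁ Ku w a pa₁ pa₂ ea ua pa)
    (h1 : Bas S (fun J F A => ∃ (P₁ : ℕ) (V₁ : Type) (z₁ : PtT F → V₁) (z₁' : LnT F → V₁)
      (G₁ : V₁ → MvPolynomial (Option (Fin m)) ℝ),
      LbP F ((range (r₀ + 1)).image c) κ K₁ J ⌊a * J⌋₊ P₁ A z₁ z₁' G₁ ∧ pa₁ * J ≤ P₁))
    (h2 : Bas S (fun J F A => ∃ (P₂ : ℕ) (V₂ : Type) (z₂ : PtT F → V₂) (z₂' : LnT F → V₂)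
      (H : V₂ → MvPolynomial (Option (Fin m)) ℝ),
      LbP F ((range r₀).image c) (c r₀) Ku J ⌊a * J⌋₊ P₂ A z₂ z₂' H ∧ pa₂ * J ≤ P₂))
    (hful : Ful S ((range r₀).image c) a n)
    (hΨl : ∀ (J : ℕ) (F : Fam m J) (A : F.Ω → Prop) (V : Type) (z : PtT F → V) (z' : LnT F → V)
      (G : V → MvPolynomial (Option (Fin m)) ℝ), Ψ J F A V z z' G →
      LbOK F ((range (r₀ + 1)).image c) κ K ⌊e₀ * J⌋₊ J ⌊w * J⌋₊ ⌊ρ₀ * J⌋₊ ⌊π₀ * J⌋₊ A z z' G)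
    (hwv : w ≤ v) (hva : v ≤ a) (ha : a ≤ 1) (heN : 0 ≤ eN) (he₀ : 0 ≤ e₀) (hpN : 0 ≤ pN)
    (hea : 0 ≤ ea) (hρ₀ : ρ₀ ≤ 1) (hn : n ≤ 1) (hs₀ : sb + e₀ < 1) (hsab : sa ≤ sb)
    (hs : sb ≤ pa) (hsa : sb + ea < n) (hsN : sb + eN < n) (hun : ua ≤ n) (huN : uN ≤ n)
    (hrow : Bas S (fun J F A => ∀ (V : Type) (z : PtT F → V) (z' : LnT F → V)
      (G : V → MvPolynomial (Option (Fin m)) ℝ), Ψ J F A V z z' G →
      CH (Pool.Agent.H49.Ent.cond F.p A True) (xa F κ z' ⌊w * J⌋₊ G sb)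
        (ya F ((range r₀).image c) κ z' ⌊w * J⌋₊ G sa) ≤ d * J)) {δ : ℝ} (hδ : 0 < δ) :
    Bas S (fun J F A => ∀ (V : Type) (z : PtT F → V) (z' : LnT F → V)
      (G : V → MvPolynomial (Option (Fin m)) ℝ),
      NzF Ψ c r₀ κ K K₁ Kb w v p₁ p₂ eN uN pN J F A V z z' G →
      CH (Pool.Agent.H49.Ent.cond F.p A True)
        (fun ω => ⌊(2 : ℝ) ^ (sb * J) * ojet F κ 0 (G (z' (slam F ⌊v * J⌋₊ ω))) ω⌋)
        (fun ω => (⌊(2 : ℝ) ^ (sa * J) * ojet F κ 0 (G (z' (slam F ⌊v * J⌋₊ ω))) ω⌋,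
          (ceI ((range r₀).image c) (fun _ => ⌊n * J⌋₊) (F.x ω),
            (z' (slam F ⌊v * J⌋₊ ω), F.W ω)))) ≤ (d + δ) * J) := by
  classical
  have hΨd : ∀ (J : ℕ) (F : Fam m J) (A : F.Ω → Prop) (V : Type) (z : PtT F → V)
      (z' : LnT F → V) (G : V → MvPolynomial (Option (Fin m)) ℝ), Ψ J F A V z z' G →
      (∀ y, (G y).totalDegree ≤ K) ∧ (∀ y, DpI ((range (r₀ + 1)).image c) (G y)) ∧
      ∀ ω, A ω → z (ptr F J ω) = z' (slam F ⌊w * J⌋₊ ω) := fun J F A V z z' G h => by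
    have hlb := hΨl J F A V z z' G h
    exact ⟨hlb.deg, hlb.dep, hlb.cls⟩
  have F1 := nzf_few hpos hNz hΨd hwv hva ha hea heN hpN hs hsa hsN hun huN (Kb := Kb)
    (p₁ := p₁) (p₂ := p₂) (show 0 < δ / 4 by linarith)
  have F2 := nzf_few hpos hNz hΨd hwv hva ha hea heN hpN (hsab.trans hs)
    (by linarith : sa + ea < n) (by linarith : sa + eN < n) hun huN (Kb := Kb)
    (p₁ := p₁) (p₂ := p₂) (show 0 < δ / 4 by linarith)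
  have R := nzf_row hpos hΨl hwv (hva.trans ha) heN he₀ (huN.trans hn) hρ₀
    (by linarith : sb + eN < 1) hs₀ hsab hrow (K₁ := K₁) (Kb := Kb) (pN := pN)
    (p₁ := p₁) (p₂ := p₂)
  obtain ⟨J₁, hJ₁⟩ := exists_nat_ge (2 * Real.log 9 / (δ / 4))
  refine Bas.mono J₁ (((F1.and F2).and R).and ((h1.and h2).and ((hful (δ / 4) (by linarith)).and
    (pos_bas hpos)))) ?_
  rintro J hJ F A ⟨⟨⟨K1, K2⟩, KR⟩, ⟨⟨P₁, V₁, z₁, z₁', G₁, hG₁, hP₁⟩, P₂, V₂, z₂, z₂', H, hH, hP₂⟩,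
    hF, hA⟩ V z z' G hΨ
  have hq := isLaw_cond F.isLaw hA
  have j1 : 2 * Real.log 9 ≤ δ / 4 * J := by
    have e1 : (J₁ : ℝ) ≤ J := by exact_mod_cast hJ
    have e2 := hJ₁.trans e1
    rw [div_le_iff₀ (by positivity)] at e2
    linarith
  have hnJ : ⌊n * J⌋₊ ≤ J := floor_le hn J
  obtain ⟨g1, g2⟩ := floorw hva ha J
  have hlb := hΨ.lb
  have k3 := hF (V₁ × V₂ × V) (fun y => (z₁ y, z₂ y, z y))
    (fun x => (z₁' x, z₂' x, wz z' ⌊v * J⌋₊ ⌊a * J⌋₊ x)) (fun ω hω => by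
      refine Prod.ext (hG₁.cls ω hω) (Prod.ext (hH.cls ω hω) ?_)
      show z (ptr F J ω) = wz z' ⌊v * J⌋₊ ⌊a * J⌋₊ (slam F ⌊a * J⌋₊ ω)
      rw [wz_slam z' g1 g2]
      exact hlb.cls ω hω)
  have key := ip_row hq
    (fun ω => ⌊(2 : ℝ) ^ (sb * J) * ojet F κ 0 (G (z' (slam F ⌊v * J⌋₊ ω))) ω⌋)
    (fun ω => ⌊(2 : ℝ) ^ (sa * J) * ojet F κ 0 (G (z' (slam F ⌊v * J⌋₊ ω))) ω⌋)
    (fun ω => ceI ((range r₀).image c) (fun _ => J) (F.x ω))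
    (fun ω => ceI ((range r₀).image c) (fun _ => ⌊n * J⌋₊) (F.x ω))
    (fun ω => (z' (slam F ⌊v * J⌋₊ ω), F.W ω))
    (fun ω => (z₁' (slam F ⌊a * J⌋₊ ω), z₂' (slam F ⌊a * J⌋₊ ω)))
    (K1 V z z' G hΨ P₁ V₁ z₁ z₁' G₁ hG₁ hP₁ P₂ V₂ z₂ z₂' H hH hP₂)
    (K2 V z z' G hΨ P₁ V₁ z₁ z₁' G₁ hG₁ hP₁ P₂ V₂ z₂ z₂' H hH hP₂)
    (θ := ((range r₀).image c).card * (((J - ⌊n * J⌋₊ : ℕ) : ℝ) * Real.log 2)) (b := δ / 4 * J)
    ((CH_mono_cond hq.nonneg fun ω ω' _ _ e => by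
      simp only [Prod.mk.injEq] at e
      exact e.2.1).trans (ceI_cnt hq _ hnJ))
    (k3.trans (CH_mono_cond hq.nonneg fun ω ω' _ _ e => by
      simp only [Prod.mk.injEq] at e ⊢
      obtain ⟨e1, ⟨e2, e3, e4⟩, e5⟩ := e
      rw [wz_slam z' g1 g2, wz_slam z' g1 g2] at e4
      exact ⟨⟨e2, e3⟩, e1, e4, e5⟩))
  have h5 := KR V z z' G hΨ
  refine key.trans ?_
  have e6 : (d + δ) * J = d * J + 4 * (δ / 4 * J) := by ring
  rw [e6]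
  linarith

end Pool.ALT
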