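import Pool.Agent.H60.ALT.Alw

/-!
# The natural labels at a window

`nzo_win`: the natural labels of the counted family exist at a window, if the rate is not the full
one: from the data `AlW` of the window and the linear numbers.
-/

set_option autoImplicit false

namespace Pool.ALT

open Finset Real MvPolynomial
open Pool.Agent.H49.Ent Pool.Agent.H32.Dense Pool.STK Pool.KA Pool.KSAT Pool.K2S Pool.PB Pool.S6C
  Pool.GEN Pool.RCD Pool.LA91 Pool.OWN68
open Pool.UNJ (ceI)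
open Pool.GRD (LbP)

variable {m : ℕ}

/-- **The natural labels at a window** `v`. -/
theorem nzo_win {S : PCl m} {C₀ : ℝ} (htm : TmC S C₀)
    (hpos : ∀ (τ : ℝ) (J : ℕ) (F : Fam m J) (A : F.Ω → Prop), S.St τ J F A → 0 < Pe F.p A)
    {c : ℕ → Fin m} {r₀ : ℕ} {κ : Fin m} {D Kf : ℕ} (hKf : Kf ≤ D)
    (hinj : Set.InjOn c (Set.Iio (r₀ + 1))) {v pκ pu E Eu u : ℝ} (hv : AlW S c r₀ κ D v pκ pu E Eu u) {e₀ ρ₀ π₀ : ℝ} {s : ℝ → ℝ}
    {x φ e : ℝ} {k : ℕ} (h : AltAt S ((range (r₀ + 1)).image c) ((range r₀).image c) κ Kf e₀ ρ₀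
      π₀ s x φ e k) {w o o' o₁ : ℚ} (h1 : x - (1 / 2) ^ k ≤ w) (h2 : w ≤ o) (h3 : o ≤ o')
    (h4 : o' ≤ o₁) (h5 : (o₁ : ℝ) ≤ x + (1 / 2) ^ k) (h6 : (o' : ℝ) ≤ 1) (s1 : s w ≤ s o)
    (s2 : s o ≤ s o') (s3 : s o' ≤ s o₁) (hw0 : 0 ≤ w) (hwv : (w : ℝ) ≤ v) (hρ₀ : ρ₀ ≤ 1)
    (he₀ : 0 ≤ e₀) (r0 : e₀ + pκ < 1) (hπ : π₀ < pκ) (hroom : pκ + pu - π₀ < 1) (hsa : s o < pκ)
    (hsb : pκ ≤ s o')
    (hgap : φ * (o' - o) + 4 * e * (1 / 2) ^ k < (pκ - s o) * Real.log 2)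
    {uN pN eN : ℝ} (hpN : 0 ≤ pN) (hpN' : pN < s o) (hu : u < uN) (hu1 : uN < 1) (heN : E < eN)
    (hN : uN < pN + eN) : ∃ p₁ p₂ : ℝ, p₁ < pκ ∧ p₂ < pu ∧
      NzO S (AlF ((range (r₀ + 1)).image c) ((range r₀).image c) κ Kf e₀ ρ₀ π₀ w (s w) (s o₁)
        (φ * (o₁ - w) + 2 * e * (1 / 2) ^ k)) c r₀ κ D D D w v p₁ p₂ eN uN pN := by
  classical
  obtain ⟨C, hC, hnz⟩ := nz_ok r₀ D D D
  have hl2 : 0 < Real.log 2 := Real.log_pos one_lt_two
  have hl2' : Real.log 2 < 1 := by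
    have := Real.log_two_lt_d9
    linarith
  have hv0 := hv.w0
  have hvu := hv.wu
  have hvu1 := hv.u1
  have hE0 := hv.E0
  have hEu0 := hv.Eu0
  have hpE := hv.pE
  have hpEu := hv.pEu
  have hrE := hv.rE
  have hrEu := hv.rEu
  have hpk0 := hv.pk0
  have hpu0 := hv.pu0
  -- the error of the boxes
  obtain ⟨ε, hε⟩ : ∃ ε : ℝ, ε = min (s o - pN) (min (1 - u) (1 - (Eu + pu))) / 4 := ⟨_, rfl⟩
  have hε0 : 0 < ε := by
    rw [hε]
    exact div_pos (lt_min (by linarith) (lt_min (by linarith) (by linarith))) (by norm_num)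
  have k1 : 4 * ε ≤ s o - pN := by
    rw [hε, mul_div_cancel₀ _ (by norm_num)]
    exact min_le_left _ _
  have k2 : 4 * ε ≤ 1 - u := by
    rw [hε, mul_div_cancel₀ _ (by norm_num)]
    exact (min_le_right _ _).trans (min_le_left _ _)
  have k3 : 4 * ε ≤ 1 - (Eu + pu) := by
    rw [hε, mul_div_cancel₀ _ (by norm_num)]
    exact (min_le_right _ _).trans (min_le_right _ _)
  -- the error of the charts
  obtain ⟨g, hg⟩ : ∃ g : ℝ, g = (pκ - s o) * Real.log 2 - (φ * (o' - o) + 4 * e * (1 / 2) ^ k) :=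
    ⟨_, rfl⟩
  have hg0 : 0 < g := by
    rw [hg]
    linarith
  obtain ⟨a₁, ha₁⟩ : ∃ a : ℝ, a = min (ε / C) (min g (pκ - s o)) := ⟨_, rfl⟩
  obtain ⟨a₂, ha₂⟩ : ∃ a : ℝ, a = min (min (1 - (e₀ + pκ)) (pκ - π₀)) (1 - (pκ + pu - π₀)) :=
    ⟨_, rfl⟩
  obtain ⟨a₃, ha₃⟩ : ∃ a : ℝ, a = min (min (1 - (pκ + E)) (1 - (pu + Eu)))
      (min (min pκ pu) (1 - u)) := ⟨_, rfl⟩
  obtain ⟨t, ht⟩ : ∃ t : ℝ, t = min a₁ (min a₂ a₃) / 16 := ⟨_, rfl⟩
  have hC0 : 0 < C := by linarith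
  have ha₁0 : 0 < a₁ := by
    rw [ha₁]
    exact lt_min (by positivity) (lt_min hg0 (by linarith))
  have ha₂0 : 0 < a₂ := by
    rw [ha₂]
    exact lt_min (lt_min (by linarith) (by linarith)) (by linarith)
  have ha₃0 : 0 < a₃ := by
    rw [ha₃]
    exact lt_min (lt_min (by linarith) (by linarith)) (lt_min (lt_min hpk0 hpu0) (by linarith))
  have ht0 : 0 < t := by
    rw [ht]
    exact div_pos (lt_min ha₁0 (lt_min ha₂0 ha₃0)) (by norm_num)
  have t1 : 16 * t ≤ a₁ := by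
    rw [ht, mul_div_cancel₀ _ (by norm_num)]
    exact min_le_left _ _
  have t2 : 16 * t ≤ a₂ := by
    rw [ht, mul_div_cancel₀ _ (by norm_num)]
    exact (min_le_right _ _).trans (min_le_left _ _)
  have t3 : 16 * t ≤ a₃ := by
    rw [ht, mul_div_cancel₀ _ (by norm_num)]
    exact (min_le_right _ _).trans (min_le_right _ _)
  have i1 : a₁ ≤ ε / C := by rw [ha₁]; exact min_le_left _ _
  have i2 : a₁ ≤ g := by rw [ha₁]; exact (min_le_right _ _).trans (min_le_left _ _)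
  have i3 : a₁ ≤ pκ - s o := by rw [ha₁]; exact (min_le_right _ _).trans (min_le_right _ _)
  have i4 : a₂ ≤ 1 - (e₀ + pκ) := by rw [ha₂]; exact (min_le_left _ _).trans (min_le_left _ _)
  have i5 : a₂ ≤ pκ - π₀ := by rw [ha₂]; exact (min_le_left _ _).trans (min_le_right _ _)
  have i6 : a₂ ≤ 1 - (pκ + pu - π₀) := by rw [ha₂]; exact min_le_right _ _
  have i7 : a₃ ≤ 1 - (pκ + E) := by rw [ha₃]; exact (min_le_left _ _).trans (min_le_left _ _)
  have i8 : a₃ ≤ 1 - (pu + Eu) := by rw [ha₃]; exact (min_le_left _ _).trans (min_le_right _ _)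
  have i9 : a₃ ≤ pκ := by
    rw [ha₃]
    exact (min_le_right _ _).trans ((min_le_left _ _).trans (min_le_left _ _))
  have i10 : a₃ ≤ pu := by
    rw [ha₃]
    exact (min_le_right _ _).trans ((min_le_left _ _).trans (min_le_right _ _))
  have i11 : a₃ ≤ 1 - u := by rw [ha₃]; exact (min_le_right _ _).trans (min_le_right _ _)
  have hCt : C * (16 * t) ≤ ε := by
    have h7 : 16 * t ≤ ε / C := t1.trans i1
    rw [le_div_iff₀ hC0] at h7
    linarith
  have U₁ := hv.upg hpos (K := D) le_rfl (u' := u + t) (p := pκ - 2 * t) (e := E + 4 * t)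
    (by linarith) (by linarith) (by linarith) (by linarith) (by linarith) (by linarith)
  have U₂ := hv.upu hpos (K := D) le_rfl (u' := u + t) (p := pu - 2 * t) (e := Eu + 4 * t)
    (by linarith) (by linarith) (by linarith) (by linarith) (by linarith) (by linarith)
  have UN := hv.upg hpos (K := max D D * max 1 D) (u' := uN) (p := pN) (e := eN)
    ((le_max_left D D).trans (Nat.le_mul_of_pos_right _ (by positivity))) hu hu1 heN
    (by linarith) hN hpN
  have hbl := rec_blind htm hpos (K₁ := D) (Ku := D) (x₀ := (pu - 2 * t) - s o) (σ := t) hv.ful U₁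
    U₂ h h1 h2 h3 h4 h5 h6 s1 s2 s3 hwv hρ₀ he₀ (by linarith) (by linarith) (by linarith) ht0
    (by linarith) (by linarith) (by linarith) le_rfl (by
      have k4 : t * Real.log 2 ≤ t := by nlinarith
      have e1 : φ * ((o' : ℝ) - o) + 4 * e * (1 / 2) ^ k + (s o' - (pκ - 2 * t) +
        (pu - (pu - 2 * t)) + 3 * t) * Real.log 2 = φ * ((o' : ℝ) - o) + 4 * e * (1 / 2) ^ k +
        (s o' - s o) * Real.log 2 - (pκ - s o) * Real.log 2 + 7 * (t * Real.log 2) := by ring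
      rw [e1]
      linarith) (by linarith) (by linarith)
  have hw0' : (0 : ℝ) ≤ w := by exact_mod_cast hw0
  refine ⟨pκ - 2 * t + t, pu - 2 * t + t, by linarith, by linarith, fun η hη => ?_⟩
  exact hnz htm hpos hinj hv.ful hv.fI0 U₂ hw0' hwv hvu (by linarith) ε hε0
    (by
      have : C * (pu - (pu - 2 * t)) ≤ C * (16 * t) :=
        mul_le_mul_of_nonneg_left (by linarith) hC0.le
      linarith) (by linarith) (by linarith) UN ((pu - 2 * t) - s o) (pκ - 2 * t) η t hη ht0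
    (by linarith) (by linarith) _ (fun J F A V z z' G hG => by
      obtain ⟨d1, d2, d3⟩ := AlF.hd J F A V z z' G hG
      exact ⟨fun y => (d1 y).trans hKf, d2, d3⟩)
    (fun J F A B V z z' G hB hG => AlF.hs J F A B V z z' G hB hG) hbl

end Pool.ALT
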